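import Pool.Agent.P.MP_6277db_ag.KEW.L8a.Cyl
import Pool.Agent.P.MP_6277db_ag.KEW.L7.Lau
import Pool.Agent.P.MP_6277db_ag.KEW.CA.FP3
import Pool.Agent.P.MP_6277db_ag.KEW.CA.SF
import Pool.Agent.P.MP_6277db_ag.KEW.CA.Val

/-!
KEW project, layer L8a: the category of `A`-algebras, its cylinder, Laurent rings and the models of
annuli.
-/

set_option backward.isDefEq.respectTransparency false

noncomputable section

open CategoryTheory Polynomial

namespace Pool.Agent.KEW.L8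

open _root_.KEW

/-- An `A`-algebra. -/
structure Alg (A : Type) [CommRing A] : Type 1 where
  /-- the ring -/
  R : Type
  [inst : CommRing R]
  /-- the structure map -/
  s : A →+* R

attribute [instance] Alg.inst

variable {A : Type} [CommRing A]

instance : Category.{0} (Alg A) where
  Hom B B' := {f : B.R →+* B'.R // f.comp B.s = B'.s}
  id B := ⟨RingHom.id _, rfl⟩
  comp f g := ⟨g.1.comp f.1, by rw [RingHom.comp_assoc, f.2, g.2]⟩

namespace Alg

variable {B B' B'' E P Z : Alg A}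

@[simp] theorem id_val (B : Alg A) : (𝟙 B : B ⟶ B).1 = RingHom.id _ := rfl

@[simp] theorem comp_val (f : B ⟶ B') (g : B' ⟶ B'') : (f ≫ g).1 = g.1.comp f.1 := rfl

theorem hom_ext {f g : B ⟶ B'} (h : f.1 = g.1) : f = g := Subtype.ext h

@[simp] theorem map_s (f : B ⟶ B') (a : A) : f.1 (B.s a) = B'.s a := RingHom.congr_fun f.2 a

theorem congr_val {f g : B ⟶ B'} (h : f = g) (x : B.R) : f.1 x = g.1 x := by rw [h]

/-- A ring under an `A`-algebra as an `A`-algebra. -/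
abbrev under (B : Alg A) {R : Type} [CommRing R] (f : B.R →+* R) : Alg A := ⟨R, f.comp B.s⟩

/-- The structure map of a ring under an `A`-algebra. -/
abbrev toUnder (B : Alg A) {R : Type} [CommRing R] (f : B.R →+* R) : B ⟶ B.under f := ⟨f, rfl⟩

theorem exists_po (f : B ⟶ E) (g : B ⟶ B') :
    ∃ (P : Alg A) (i : E ⟶ P) (j : B' ⟶ P), IsPO f.1 g.1 i.1 j.1 := by
  obtain ⟨P, _, i, j, h⟩ := exists_isPO f.1 g.1
  exact ⟨E.under i, E.toUnder i, ⟨j, by
    change _ = i.comp E.s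
    rw [← g.2, ← f.2, ← RingHom.comp_assoc, ← h.comm, RingHom.comp_assoc]⟩, h⟩

theorem po_comm {f : B ⟶ E} {g : B ⟶ B'} {i : E ⟶ P} {j : B' ⟶ P} (h : IsPO f.1 g.1 i.1 j.1) :
    f ≫ i = g ≫ j := hom_ext h.comm

theorem po_lift {f : B ⟶ E} {g : B ⟶ B'} {i : E ⟶ P} {j : B' ⟶ P} (h : IsPO f.1 g.1 i.1 j.1)
    (k : E ⟶ Z) (l : B' ⟶ Z) (w : f ≫ k = g ≫ l) : ∃ d : P ⟶ Z, i ≫ d = k ∧ j ≫ d = l := by
  obtain ⟨d, h1, h2⟩ := h.exists_lift k.1 l.1 (congrArg Subtype.val w)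
  exact ⟨⟨d, by rw [← i.2, ← RingHom.comp_assoc, h1, k.2]⟩, hom_ext h1, hom_ext h2⟩

theorem po_ext {f : B ⟶ E} {g : B ⟶ B'} {i : E ⟶ P} {j : B' ⟶ P} (h : IsPO f.1 g.1 i.1 j.1)
    {d d' : P ⟶ Z} (hi : i ≫ d = i ≫ d') (hj : j ≫ d = j ≫ d') : d = d' :=
  hom_ext (h.hom_ext (congrArg Subtype.val hi) (congrArg Subtype.val hj))

end Alg

section ee

variable {B B' E E' P Y : Alg A}

/-- `f` is etale and an isomorphism modulo `π`. -/
def IsEE (π : A) (f : B ⟶ E) : Prop := EE (Ideal.span {B.s π}) f.1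

variable {π : A}

theorem map_span_s (f : B ⟶ E) (π : A) : (Ideal.span {B.s π}).map f.1 = Ideal.span {E.s π} := by
  rw [Ideal.map_span, Set.image_singleton, Alg.map_s]

theorem IsEE.of_bijective {f : B ⟶ E} (h : Function.Bijective f.1) : IsEE π f := by
  refine ⟨RingHom.Etale.of_bijective h, fun y => ?_, fun x hx => ?_⟩
  · obtain ⟨x, rfl⟩ := h.2 y
    exact ⟨x, by simp⟩
  · obtain ⟨y, hy, e⟩ := (Ideal.mem_map_iff_of_surjective f.1 h.2).1 hx
    rwa [← h.1 e]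

theorem IsEE.id (B : Alg A) : IsEE π (𝟙 B) := IsEE.of_bijective Function.bijective_id

theorem IsEE.comp {f : B ⟶ E} {g : E ⟶ E'} (hf : IsEE π f) (hg : IsEE π g) : IsEE π (f ≫ g) :=
  EE.comp hf (by rw [map_span_s]; exact hg)

theorem IsEE.cancel {f : B ⟶ E} {g : E ⟶ E'} (hf : IsEE π f) (h : IsEE π (f ≫ g)) : IsEE π g := by
  have := EE.cancel hf h
  rwa [map_span_s] at this

theorem IsEE.of_po {f : B ⟶ E} {g : B ⟶ B'} {i : E ⟶ P} {j : B' ⟶ P} (h : IsPO f.1 g.1 i.1 j.1)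
    (hf : IsEE π f) : IsEE π j := by
  have := h.ee hf
  rwa [map_span_s] at this

/-- Elements congruent to `1` can be inverted. -/
theorem exists_isEE_away {w : B.R} (hw : w - 1 ∈ Ideal.span {B.s π}) :
    ∃ (B' : Alg A) (l : B ⟶ B'), IsEE π l ∧ IsAway l.1 w := by
  obtain ⟨R, _, ρ, h1, h2⟩ := exists_ee_isUnit (Ideal.span {B.s π}) (r := w) ⟨1, by rwa [one_mul]⟩
  exact ⟨B.under ρ, B.toUnder ρ, h1, h2⟩

/-- Two maps out of an `EE` algebra which agree on the base agree eventually. -/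
theorem IsEE.coeq {f : B ⟶ E} (hf : IsEE π f) {a b : E ⟶ Y} (w : f ≫ a = f ≫ b) :
    ∃ (Y' : Alg A) (l : Y ⟶ Y'), IsEE π l ∧ a ≫ l = b ≫ l := by
  obtain ⟨η, h1, h2⟩ := UL_mod hf.etale a.1 b.1 (congrArg Subtype.val w)
    (I := Ideal.span {Y.s π}) fun y => by
      have := EE.sub_mem hf (congrArg Subtype.val w) y
      rwa [show a.1.comp f.1 = (f ≫ a).1 from rfl, map_span_s] at this
  obtain ⟨Y', l, h3, h4⟩ := exists_isEE_away h1
  exact ⟨Y', l, h3, Alg.hom_ext (h2 _ l.1 h4.isUnit)⟩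

theorem IsEE.bijective {f : B ⟶ E} (hf : IsEE 0 f) : Function.Bijective f.1 := by
  have h0 : Ideal.span {B.s 0} = ⊥ := by simp
  refine ⟨(injective_iff_map_eq_zero _).2 fun x hx => ?_, fun y => ?_⟩
  · have := hf.inj x (by rw [hx]; exact zero_mem _)
    rwa [h0] at this
  · obtain ⟨x, hx⟩ := hf.surj y
    rw [h0, Ideal.map_bot, Ideal.mem_bot, sub_eq_zero] at hx
    exact ⟨x, hx.symm⟩

end ee

/-- `g` becomes bijective after inverting `p`. -/
structure PIso {R S : Type} [CommRing R] [CommRing S] (p : R) (g : R →+* S) : Prop where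
  surj : ∀ y : S, ∃ (n : ℕ) (x : R), g p ^ n * y = g x
  inj : ∀ x : R, g x = 0 → ∃ n : ℕ, p ^ n * x = 0

/-- `g` becomes bijective after inverting `π`. -/
def PI (π : A) {B B' : Alg A} (g : B ⟶ B') : Prop := PIso (B.s π) g.1

/-- `a` becomes a unit after inverting `π`. -/
def GU (π : A) {B : Alg A} (a : B.R) : Prop := ∃ (b : B.R) (j : ℕ), a * b = B.s π ^ j

/-- After inverting `π`, `E` is etale over `T[X]` by `X ↦ u`. -/
def GEt (π : A) {T E : Alg A} (τ : T ⟶ E) (u : E.R) : Prop :=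
  ∃ (X : Alg A) (l : E ⟶ X), PI π l ∧ Et1 (l.1.comp τ.1) (l.1 u)

/-- After inverting `π`, `D` is `Q[X] / P` by `X ↦ α`. -/
structure TrD (π : A) {Q D : Alg A} (δ : Q ⟶ D) (P : Q.R[X]) (α : D.R) : Prop where
  monic : P.Monic
  root : P.eval₂ δ.1 α = 0
  piso : PIso (AdjoinRoot.of P (Q.s π)) (AdjoinRoot.lift δ.1 α root)

section cyl

variable (A) in
/-- The functor `B ↦ B[X]`. -/
def polyF : Alg A ⥤ Alg A where
  obj B := B.under (C : B.R →+* B.R[X])
  map f := ⟨mapRingHom f.1, by ext a; simp⟩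
  map_id _ := Alg.hom_ext mapRingHom_id
  map_comp f g := Alg.hom_ext (mapRingHom_comp g.1 f.1).symm

variable (A) in
/-- The affine line as a cylinder on `A`-algebras. -/
def cyl : CylD (Alg A) where
  I := polyF A
  p B := B.toUnder C
  i0 B := ⟨evalRingHom 0, by ext a; simp [polyF]⟩
  i1 B := ⟨evalRingHom 1, by ext a; simp [polyF]⟩
  mu B := ⟨eval₂RingHom (C.comp C : B.R →+* B.R[X][X]) (C X + X - C X * X), by
    ext a; simp [polyF]⟩
  sw B := ⟨eval₂RingHom (mapRingHom C : B.R[X] →+* B.R[X][X]) (C X), by ext a; simp [polyF]⟩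
  p_nat f := Alg.hom_ext (by ext a; simp [polyF])
  i0_nat f := Alg.hom_ext (ringHom_ext (by simp [polyF]) (by simp [polyF]))
  i1_nat f := Alg.hom_ext (ringHom_ext (by simp [polyF]) (by simp [polyF]))
  mu_nat f := Alg.hom_ext (ringHom_ext (by simp [polyF]) (by simp [polyF]))
  sw_nat f := Alg.hom_ext
    (ringHom_ext' (ringHom_ext (by simp [polyF]) (by simp [polyF])) (by simp [polyF]))
  p_i0 B := Alg.hom_ext (by ext a; simp [polyF])
  p_i1 B := Alg.hom_ext (by ext a; simp [polyF])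
  mu_out0 B := Alg.hom_ext (ringHom_ext (by simp [polyF]) (by simp [polyF]))
  mu_out1 B := Alg.hom_ext (ringHom_ext (by simp [polyF]) (by simp [polyF]))
  mu_in0 B := Alg.hom_ext (ringHom_ext (by simp [polyF]) (by simp [polyF]))
  mu_in1 B := Alg.hom_ext (ringHom_ext (by simp [polyF]) (by simp [polyF]))
  sw_out0 B := Alg.hom_ext
    (ringHom_ext' (ringHom_ext (by simp [polyF]) (by simp [polyF])) (by simp [polyF]))
  sw_out1 B := Alg.hom_ext
    (ringHom_ext' (ringHom_ext (by simp [polyF]) (by simp [polyF])) (by simp [polyF]))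
  sw_sw B := Alg.hom_ext
    (ringHom_ext' (ringHom_ext (by simp [polyF]) (by simp [polyF])) (by simp [polyF]))

end cyl

section lau

variable (A) in
/-- The functor `B ↦ B[t, 1/t]`. -/
def lauF : Alg A ⥤ Alg A where
  obj B := B.under (lauC B.R)
  map f := ⟨lauMap f.1, lauMap_over f.1 f.2⟩
  map_id B := Alg.hom_ext (lauMap_id B.R)
  map_comp f g := Alg.hom_ext (lauMap_comp f.1 g.1).symm

/-- The constants. -/
def cL (B : Alg A) : B ⟶ (lauF A).obj B := B.toUnder (lauC B.R)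

/-- The unit section. -/
def eL (B : Alg A) : (lauF A).obj B ⟶ B := ⟨lauE B.R, lauE_over B.s⟩

/-- The coordinate as a unit. -/
def tU (R : Type) [CommRing R] : (Lau R)ˣ := (isUnit_lauL_X R).unit

@[simp] theorem tU_val (R : Type) [CommRing R] : (tU R : Lau R) = lauL R X := rfl

theorem cL_nat {B B' : Alg A} (f : B ⟶ B') : f ≫ cL B' = cL B ≫ (lauF A).map f :=
  Alg.hom_ext (lauMap_lauC f.1).symm

theorem eL_nat {B B' : Alg A} (f : B ⟶ B') : (lauF A).map f ≫ eL B' = eL B ≫ f :=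
  Alg.hom_ext (lauE_lauMap f.1)

theorem cL_eL (B : Alg A) : cL B ≫ eL B = 𝟙 B := Alg.hom_ext (lauE_lauC B.R)

theorem lauMap_tU {R S : Type} [CommRing R] [CommRing S] (f : R →+* S) (b : ℤ) :
    lauMap f ((tU R ^ b : (Lau R)ˣ) : Lau R) = ((tU S ^ b : (Lau S)ˣ) : Lau S) := by
  have : Units.map (lauMap f).toMonoidHom (tU R) = tU S := Units.ext (lauMap_X f)
  rw [← this, ← map_zpow]
  rfl

/-- The map `B[t, 1/t][X] ⟶ B[X][t, 1/t]`. -/
def lp (B : Alg A) : (polyF A).obj ((lauF A).obj B) ⟶ (lauF A).obj ((polyF A).obj B) :=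
  ⟨eval₂RingHom (lauMap (C : B.R →+* B.R[X])) (lauC B.R[X] X), by
    ext a
    simpa [polyF, lauF] using RingHom.congr_fun (lauMap_lauC (C : B.R →+* B.R[X])) (B.s a)⟩

end lau

section rn

/-- The generators `π t^b` with `|b| ≤ N + 1`. -/
def rnGens (π : A) (N : ℕ) (B : Alg A) : Set (Lau B.R) :=
  {z | ∃ b : ℤ, |b| ≤ N + 1 ∧ z = lauC B.R (B.s π) * ((tU B.R ^ b : (Lau B.R)ˣ) : Lau B.R)}

theorem exists_rnS : ∃ S : A → ℕ → ∀ B : Alg A, Subring (Lau B.R),
    ∀ π N B, S π N B = Subring.closure (Set.range (lauC B.R) ∪ rnGens π N B) :=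
  ⟨_, fun _ _ _ => rfl⟩

/-- The subring of `B[t, 1/t]` generated by `B` and the elements `π t^b` with `|b| ≤ N + 1`
(sealed: use `rnS_eq`). -/
def rnS : A → ℕ → ∀ B : Alg A, Subring (Lau B.R) := exists_rnS.choose

variable (π : A) (N : ℕ)

theorem rnS_eq (B : Alg A) :
    rnS π N B = Subring.closure (Set.range (lauC B.R) ∪ rnGens π N B) :=
  exists_rnS.choose_spec π N B

theorem lauC_mem_rnS (B : Alg A) (x : B.R) : lauC B.R x ∈ rnS π N B := by
  rw [rnS_eq]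
  exact Subring.subset_closure (Or.inl ⟨x, rfl⟩)

theorem gen_mem_rnS (B : Alg A) {b : ℤ} (hb : |b| ≤ N + 1) :
    lauC B.R (B.s π) * ((tU B.R ^ b : (Lau B.R)ˣ) : Lau B.R) ∈ rnS π N B := by
  rw [rnS_eq]
  exact Subring.subset_closure (Or.inr ⟨b, hb, rfl⟩)

theorem lauMap_mem_rnS {B B' : Alg A} (f : B ⟶ B') {z : Lau B.R} (hz : z ∈ rnS π N B) :
    lauMap f.1 z ∈ rnS π N B' := by
  rw [rnS_eq] at hz
  refine (Subring.closure_le (t := (rnS π N B').comap (lauMap f.1))).2 ?_ hz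
  have h : ∀ x, lauMap f.1 (lauC B.R x) = lauC B'.R (f.1 x) :=
    RingHom.congr_fun (lauMap_lauC f.1)
  rintro _ (⟨x, rfl⟩ | ⟨b, hb, rfl⟩)
  · change lauMap f.1 _ ∈ rnS π N B'
    rw [h]
    exact lauC_mem_rnS π N B' _
  · change lauMap f.1 _ ∈ rnS π N B'
    rw [map_mul, h, lauMap_tU, Alg.map_s]
    exact gen_mem_rnS π N B' hb

theorem rnS_mono {N N' : ℕ} (h : N ≤ N') (B : Alg A) : rnS π N B ≤ rnS π N' B := by
  rw [rnS_eq, rnS_eq]
  exact Subring.closure_mono (Set.union_subset_union_right _ fun _ ⟨b, hb, e⟩ =>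
    ⟨b, hb.trans (by omega), e⟩)

/-- The models of annuli. -/
def RN : Alg A ⥤ Alg A where
  obj B := B.under ((lauC B.R).codRestrict (rnS π N B) (lauC_mem_rnS π N B))
  map {B B'} f := ⟨(lauMap f.1).restrict (rnS π N B) (rnS π N B') fun _ => lauMap_mem_rnS π N f,
    RingHom.ext fun a => Subtype.ext (RingHom.congr_fun (lauMap_over f.1 f.2) a)⟩
  map_id B := Alg.hom_ext (RingHom.ext fun z => Subtype.ext (RingHom.congr_fun (lauMap_id B.R) z.1))
  map_comp f g := Alg.hom_ext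
    (RingHom.ext fun z => Subtype.ext (RingHom.congr_fun (lauMap_comp f.1 g.1) z.1).symm)

/-- The constants. -/
def rnC (B : Alg A) : B ⟶ (RN π N).obj B := B.toUnder _

/-- The inclusion in the Laurent ring. -/
def rnι (B : Alg A) : (RN π N).obj B ⟶ (lauF A).obj B :=
  ⟨(rnS π N B).subtype, RingHom.ext fun _ => rfl⟩

/-- The transition maps. -/
def rnT {N N' : ℕ} (h : N ≤ N') (B : Alg A) : (RN π N).obj B ⟶ (RN π N').obj B :=
  ⟨(rnS π N B).subtype.codRestrict (rnS π N' B) fun z => rnS_mono π h B z.2,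
    RingHom.ext fun _ => rfl⟩

/-- The element `π t^b`. -/
def rnG (B : Alg A) (b : ℤ) (hb : |b| ≤ N + 1) : ((RN π N).obj B).R := ⟨_, gen_mem_rnS π N B hb⟩

/-- The coordinate `u = π t`. -/
def rnU (B : Alg A) : ((RN π N).obj B).R := rnG π N B 1 (by simp)

theorem rnι_inj (B : Alg A) : Function.Injective (rnι π N B).1 := Subtype.val_injective

theorem rnι_rnU (B : Alg A) : (rnι π N B).1 (rnU π N B) = lauC B.R (B.s π) * lauL B.R X := by
  change lauC B.R (B.s π) * ((tU B.R ^ (1 : ℤ) : (Lau B.R)ˣ) : Lau B.R) = _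
  rw [zpow_one, tU_val]

theorem rnι_apply (B : Alg A) (z : ((RN π N).obj B).R) : (rnι π N B).1 z = z.1 := rfl

theorem rnT_apply {N N' : ℕ} (h : N ≤ N') (B : Alg A) (z : ((RN π N).obj B).R) :
    ((rnT π h B).1 z).1 = z.1 := rfl

theorem rnC_apply (B : Alg A) (x : B.R) : ((rnC π N B).1 x).1 = lauC B.R x := rfl

theorem RN_map_apply {B B' : Alg A} (f : B ⟶ B') (z : ((RN π N).obj B).R) :
    (((RN π N).map f).1 z).1 = lauMap f.1 z.1 := rfl

theorem rnC_rnι (B : Alg A) : rnC π N B ≫ rnι π N B = cL B :=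
  Alg.hom_ext (RingHom.ext fun x => (rnι_apply π N B _).trans (rnC_apply π N B x))

theorem rnT_rnι {N N' : ℕ} (h : N ≤ N') (B : Alg A) : rnT π h B ≫ rnι π N' B = rnι π N B :=
  Alg.hom_ext (RingHom.ext fun z => (rnι_apply π N' B _).trans
    ((rnT_apply π h B z).trans (rnι_apply π N B z).symm))

theorem rn_hom_ext {B Y : Alg A} {f g : Y ⟶ (RN π N).obj B} (h : f ≫ rnι π N B = g ≫ rnι π N B) :
    f = g :=
  Alg.hom_ext (RingHom.ext fun y => rnι_inj π N B (Alg.congr_val h y))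

theorem rnC_rnT {N N' : ℕ} (h : N ≤ N') (B : Alg A) : rnC π N B ≫ rnT π h B = rnC π N' B :=
  rn_hom_ext π N' (by rw [Category.assoc, rnT_rnι, rnC_rnι, rnC_rnι])

theorem rnT_rnT {N N' N'' : ℕ} (h : N ≤ N') (h' : N' ≤ N'') (B : Alg A) :
    rnT π h B ≫ rnT π h' B = rnT π (h.trans h') B :=
  rn_hom_ext π N'' (by rw [Category.assoc, rnT_rnι, rnT_rnι, rnT_rnι])

theorem rnT_rnU {N N' : ℕ} (h : N ≤ N') (B : Alg A) :
    (rnT π h B).1 (rnU π N B) = rnU π N' B :=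
  rnι_inj π N' B ((Alg.congr_val (rnT_rnι π h B) _).trans
    ((rnι_rnU π N B).trans (rnι_rnU π N' B).symm))

theorem rnι_nat {B B' : Alg A} (f : B ⟶ B') :
    (RN π N).map f ≫ rnι π N B' = rnι π N B ≫ (lauF A).map f :=
  Alg.hom_ext (RingHom.ext fun z => (rnι_apply π N B' _).trans (RN_map_apply π N f z))

theorem rnT_nat {N N' : ℕ} (h : N ≤ N') {B B' : Alg A} (f : B ⟶ B') :
    (RN π N).map f ≫ rnT π h B' = rnT π h B ≫ (RN π N').map f :=
  rn_hom_ext π N' (by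
    rw [Category.assoc, rnT_rnι, Category.assoc, rnι_nat, rnι_nat, ← Category.assoc, rnT_rnι])

theorem rnC_nat {B B' : Alg A} (f : B ⟶ B') : f ≫ rnC π N B' = rnC π N B ≫ (RN π N).map f :=
  Alg.hom_ext (RingHom.ext fun x => Subtype.ext (RingHom.congr_fun (lauMap_lauC f.1) x).symm)

theorem map_rnU {B B' : Alg A} (f : B ⟶ B') : ((RN π N).map f).1 (rnU π N B) = rnU π N B' := by
  apply rnι_inj π N B'
  rw [rnι_rnU]
  change lauMap f.1 ((rnι π N B).1 (rnU π N B)) = _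
  rw [rnι_rnU, map_mul, lauMap_X, ← Alg.map_s f]
  exact congrArg (· * _) (RingHom.congr_fun (lauMap_lauC f.1) _)

end rn

end Pool.Agent.KEW.L8
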