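import Pool.Agent.P.MP_6277db_ag.KEW.L8a.Alg

/-!
KEW project, layer L8a: maps that are bijective after inverting `π`, and the models of annuli.
-/

set_option backward.isDefEq.respectTransparency false

noncomputable section

open CategoryTheory Polynomial

namespace Pool.Agent.KEW.L8

open _root_.KEW

section piso

variable {R S T P : Type} [CommRing R] [CommRing S] [CommRing T] [CommRing P] {p : R}

theorem Ann_iff {g : R →+* S} {l : S →+* T} (hl : IsAway l (g p)) :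
    PIso p g ↔ IsAway (l.comp g) p := by
  refine ⟨fun h => isAway_iff.2 ⟨hl.isUnit, fun z => ?_, fun x hx => ?_⟩, fun h => ⟨fun y => ?_,
    fun x hx => h.eq_zero (by rw [RingHom.comp_apply, hx, map_zero])⟩⟩
  · obtain ⟨y, n, hy⟩ := hl.surj z
    obtain ⟨k, x, hx⟩ := h.surj y
    refine ⟨x, n + k, ?_⟩
    rw [RingHom.comp_apply, RingHom.comp_apply, ← hx, map_mul, map_pow, ← hy]
    ring
  · obtain ⟨n, hn⟩ := hl.eq_zero hx
    obtain ⟨k, hk⟩ := h.inj (p ^ n * x) (by rw [map_mul, map_pow, hn])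
    exact ⟨k + n, by rw [pow_add, mul_assoc, hk]⟩
  · obtain ⟨x, n, hx⟩ := h.surj (l y)
    obtain ⟨k, hk⟩ := hl.eq_zero (x := y * g p ^ n - g x)
      (by rw [map_sub, map_mul, map_pow]; exact sub_eq_zero.2 hx)
    refine ⟨k + n, p ^ k * x, ?_⟩
    rw [map_mul, map_pow]
    linear_combination hk

theorem Ann_po_inj {f : R →+* S} {g : R →+* T} {i : S →+* P} {j : T →+* P} (po : IsPO f g i j)
    (hg : g.Flat) (hf : Function.Injective f) : Function.Injective j := by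
  algebraize [f, g]
  obtain ⟨e, -, h⟩ := (isPO_tensor (R := R) (S := S) (T := T)).exists_equiv po
  rw [← h]
  exact e.injective.comp (Algebra.TensorProduct.includeRight_injective (B := T) hf)

theorem Ann_scale {φ : R →+* S} {t : S} (h : Et1 φ t) {c : R} (hc : IsUnit (φ c)) :
    Et1 φ (φ c * t) := by
  obtain ⟨R', _, l, hl⟩ := exists_isAway c
  obtain ⟨φ', rfl⟩ := hl.exists_lift φ hc
  obtain ⟨d, hd⟩ := hl.isUnit.exists_right_inv
  have h1 : Function.Bijective (eval₂RingHom (C : R' →+* R'[X]) (C (l c) * X)) :=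
    Et_bij _ (eval₂RingHom C (C d * X))
      (ringHom_ext (by simp) (by simp [← mul_assoc, ← C_mul, mul_comm d, hd]))
      (ringHom_ext (by simp) (by simp [← mul_assoc, ← C_mul, hd]))
  refine Et1.comp_etale_base hl.etale (Et_congr
    (etale_comp (RingHom.Etale.of_bijective h1) (h.of_etale_base hl.etale)) ?_)
  exact ringHom_ext (by simp) (by simp)

theorem Ann_isPO_lau (g : R →+* S) : IsPO (lauC R) g (lauMap g) (lauC S) := by
  have h1 : IsAway (lauL S) (mapRingHom g X) := by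
    rw [coe_mapRingHom, map_X]
    exact isAway_lauL S
  exact (isPO_polynomial g).paste' ((isAway_lauL R).isPO h1 (lauMap_lauL g))

theorem Ann_et1 (R : Type) [CommRing R] : Et1 (lauC R) (lauL R X) :=
  et1_of_etale (isAway_lauL R).etale

theorem PIso.of_bijective {g : R →+* S} (h : Function.Bijective g) : PIso p g := by
  refine ⟨fun y => ?_, fun x hx => ⟨0, by rw [h.1 (hx.trans (map_zero g).symm), mul_zero]⟩⟩
  obtain ⟨x, rfl⟩ := h.2 y
  exact ⟨0, x, by rw [pow_zero, one_mul]⟩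

theorem PIso.bijective {g : R →+* S} (h : PIso p g) (hp : IsUnit p) : Function.Bijective g := by
  exact ((Ann_iff (isAway_of_bijective Function.bijective_id (hp.map g) :
    IsAway (RingHom.id S) (g p))).1 h).bijective hp

theorem PIso.comp {g : R →+* S} {k : S →+* T} (h : PIso p g) (h' : PIso (g p) k) :
    PIso p (k.comp g) := by
  obtain ⟨Z, _, l, hl⟩ := exists_isAway (k (g p))
  exact (Ann_iff (g := k.comp g) hl).2 ((Ann_iff ((Ann_iff hl).1 h')).1 h)

theorem PIso.cancel_left {g : R →+* S} {k : S →+* T} (h : PIso p g) (h' : PIso p (k.comp g)) :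
    PIso (g p) k := by
  refine ⟨fun y => ?_, fun y hy => ?_⟩
  · obtain ⟨n, x, hx⟩ := h'.surj y
    exact ⟨n, g x, hx⟩
  · obtain ⟨n, x, hx⟩ := h.surj y
    obtain ⟨m, hm⟩ := h'.inj x (by rw [RingHom.comp_apply, ← hx, map_mul, hy, mul_zero])
    exact ⟨m + n, by rw [pow_add, mul_assoc, hx, ← map_pow, ← map_mul, hm, map_zero]⟩

theorem PIso.cancel_right {g : R →+* S} {k : S →+* T} (h : PIso (g p) k) (h' : PIso p (k.comp g)) :
    PIso p g := by
  obtain ⟨Z, _, l, hl⟩ := exists_isAway (k (g p))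
  exact (Ann_iff ((Ann_iff hl).1 h)).2 ((Ann_iff (g := k.comp g) hl).1 h')

theorem PIso.of_isAway {l : R →+* S} (h : IsAway l p) : PIso p l := by
  exact (Ann_iff (isAway_of_bijective Function.bijective_id h.isUnit :
    IsAway (RingHom.id S) (l p))).2 h

/-- Maps to rings in which `p` is a unit extend uniquely. -/
theorem PIso.existsUnique_lift {g : R →+* S} (h : PIso p g) (x : R →+* T) (hx : IsUnit (x p)) :
    ∃! x' : S →+* T, x'.comp g = x := by
  obtain ⟨Z, _, l, hl⟩ := exists_isAway (g p)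
  obtain ⟨d, hd⟩ := ((Ann_iff hl).1 h).exists_lift x hx
  refine existsUnique_of_exists_of_unique ⟨d.comp l, hd⟩ fun a b ha hb => RingHom.ext fun y => ?_
  obtain ⟨n, r, hr⟩ := h.surj y
  have h1 : ∀ c : S →+* T, c.comp g = x → x p ^ n * c y = x r := by
    rintro c rfl
    rw [RingHom.comp_apply, RingHom.comp_apply, ← hr, map_mul, map_pow]
  exact (hx.pow n).mul_left_cancel ((h1 a ha).trans (h1 b hb).symm)

/-- Base change. Hint: after localising all four rings away from `p` the square is still a pushout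
(`IsAway.isPO`, pasting), or use `existsUnique_lift` to write down the inverse of
`T[1/p] → P[1/p]`. -/
theorem PIso.of_po {f : R →+* S} {g : R →+* T} {i : S →+* P} {j : T →+* P} (po : IsPO f g i j)
    (h : PIso p f) : PIso (g p) j := by
  obtain ⟨Z, _, l, hl⟩ := exists_isAway (f p)
  obtain ⟨Z', _, i', l', po'⟩ := exists_isPO l i
  have h1 : IsAway l' (j (g p)) := po.comm_apply p ▸ po'.isAway hl
  exact (Ann_iff h1).2 ((po.paste' po').isAway ((Ann_iff hl).1 h))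

end piso

variable {A : Type} [CommRing A] {π π' : A}

section alg

variable {B B' B'' E P T T' Q Q' D D' : Alg A}

theorem PI.id (B : Alg A) : PI π (𝟙 B) := by
  exact PIso.of_bijective Function.bijective_id

theorem PI.comp {g : B ⟶ B'} {k : B' ⟶ B''} (h : PI π g) (h' : PI π k) : PI π (g ≫ k) := by
  exact PIso.comp h (by rw [Alg.map_s]; exact h')

theorem PI.of_po {f : B ⟶ E} {g : B ⟶ B'} {i : E ⟶ P} {j : B' ⟶ P} (po : IsPO f.1 g.1 i.1 j.1)
    (h : PI π f) : PI π j := by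
  have := PIso.of_po po h
  rwa [Alg.map_s] at this

theorem PI.existsUnique_lift {g : B ⟶ B'} (h : PI π g) {K : Type} [Field K] (x : B.R →+* K)
    (hx : x (B.s π) ≠ 0) : ∃! x' : B'.R →+* K, x'.comp g.1 = x := by
  exact PIso.existsUnique_lift h x (isUnit_iff_ne_zero.2 hx)

theorem GU.map {a : B.R} (h : GU π a) (g : B ⟶ B') : GU π (g.1 a) := by
  obtain ⟨b, j, h⟩ := h
  exact ⟨g.1 b, j, by rw [← map_mul, h, map_pow, Alg.map_s]⟩

theorem GU.of_isUnit {a : B.R} (h : IsUnit a) : GU π a := by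
  obtain ⟨b, hb⟩ := h.exists_right_inv
  exact ⟨b, 0, by rw [hb, pow_zero]⟩

theorem GU.one (B : Alg A) : GU π (1 : B.R) := by
  exact GU.of_isUnit isUnit_one

theorem GU.pi (B : Alg A) : GU π (B.s π) := by
  exact ⟨1, 1, by rw [mul_one, pow_one]⟩

theorem GU.mul {a b : B.R} (h : GU π a) (h' : GU π b) : GU π (a * b) := by
  obtain ⟨c, j, h⟩ := h
  obtain ⟨d, k, h'⟩ := h'
  exact ⟨c * d, j + k, by rw [pow_add, ← h, ← h', mul_mul_mul_comm]⟩

theorem GU.ne_zero {a : B.R} (h : GU π a) {K : Type} [Field K] (x : B.R →+* K)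
    (hx : x (B.s π) ≠ 0) : x a ≠ 0 := by
  obtain ⟨c, j, h⟩ := h
  intro h0
  have := congrArg x h
  rw [map_mul, h0, zero_mul, map_pow] at this
  exact pow_ne_zero j hx this.symm

/-- Points of `D` above a generic point of `Q` are the roots of `P`. -/
theorem TrD.existsUnique_point {δ : Q ⟶ D} {W : Q.R[X]} {α : D.R} (h : TrD π δ W α) {K : Type}
    [Field K] (x : Q.R →+* K) (hx : x (Q.s π) ≠ 0) {r : K} (hr : (W.map x).IsRoot r) :
    ∃! z : D.R →+* K, z.comp δ.1 = x ∧ z α = r := by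
  have hr' : W.eval₂ x r = 0 := by rwa [IsRoot.def, Polynomial.eval_map] at hr
  obtain ⟨z, hz, hu⟩ := h.piso.existsUnique_lift (AdjoinRoot.lift x r hr')
    (by rw [AdjoinRoot.lift_of]; exact isUnit_iff_ne_zero.2 hx)
  refine ⟨z, ⟨RingHom.ext fun q => ?_, ?_⟩, fun z' hz' => hu z' (AdjoinRoot.ringHom_ext ?_ ?_)⟩
  · simpa using RingHom.congr_fun hz (AdjoinRoot.of W q)
  · simpa using RingHom.congr_fun hz (AdjoinRoot.root W)
  · exact RingHom.ext fun q => by simpa using RingHom.congr_fun hz'.1 q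
  · simpa using hz'.2

theorem TrD.isRoot {δ : Q ⟶ D} {W : Q.R[X]} {α : D.R} (h : TrD π δ W α) {K : Type}
    [Field K] (z : D.R →+* K) : (W.map (z.comp δ.1)).IsRoot (z α) := by
  rw [IsRoot.def, Polynomial.eval_map, ← hom_eval₂, h.root, map_zero]

/-- Hint: `isPO_adjoinRoot`, `IsPO.cancel'`, `PIso.of_po`. -/
theorem TrD.of_po {δ : Q ⟶ D} {W : Q.R[X]} {α : D.R} (h : TrD π δ W α) {g : Q ⟶ Q'} {k : D ⟶ D'}
    {δ' : Q' ⟶ D'} (po : IsPO δ.1 g.1 k.1 δ'.1) : TrD π δ' (W.map g.1) (k.1 α) := by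
  have hr : (W.map g.1).eval₂ δ'.1 (k.1 α) = 0 := by
    rw [eval₂_map, ← po.comm, ← hom_eval₂, h.root, map_zero]
  refine ⟨h.monic.map _, hr, ?_⟩
  have e1 : (AdjoinRoot.lift δ.1 α h.root).comp (AdjoinRoot.of W) = δ.1 :=
    RingHom.ext fun q => AdjoinRoot.lift_of h.root
  have e2 : (AdjoinRoot.lift δ'.1 (k.1 α) hr).comp (AdjoinRoot.of (W.map g.1)) = δ'.1 :=
    RingHom.ext fun q => AdjoinRoot.lift_of hr
  have po' : IsPO (AdjoinRoot.lift δ.1 α h.root) (amap g.1 W) k.1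
      (AdjoinRoot.lift δ'.1 (k.1 α) hr) := by
    refine (isPO_adjoinRoot g.1 W).cancel' (AdjoinRoot.ringHom_ext ?_ (by simp)) (by rwa [e1, e2])
    exact RingHom.ext fun q => by simpa using po.comm_apply q
  have := PIso.of_po po' h.piso
  rwa [amap_of, Alg.map_s] at this

theorem isPO_polyF (g : B ⟶ B') :
    IsPO ((cyl A).p B).1 g.1 ((polyF A).map g).1 ((cyl A).p B').1 := by
  exact isPO_polynomial g.1

theorem isPO_lauF (g : B ⟶ B') : IsPO (cL B).1 g.1 ((lauF A).map g).1 (cL B').1 := by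
  exact Ann_isPO_lau g.1

theorem IsEE.polyF {f : B ⟶ E} (h : IsEE π f) : IsEE π ((polyF A).map f) := by
  exact h.of_po (isPO_polyF f).flip

theorem IsEE.lauF {f : B ⟶ E} (h : IsEE π f) : IsEE π ((lauF A).map f) := by
  exact h.of_po (isPO_lauF f).flip

theorem Ann_lp_C (B : Alg A) : (lp B).1.comp C = lauMap (C : B.R →+* B.R[X]) :=
  RingHom.ext fun _ => eval₂_C _ _

theorem Ann_lp_X (B : Alg A) : (lp B).1 X = lauC B.R[X] X := eval₂_X _ _

theorem Ann_lauMap_C {R S : Type} [CommRing R] [CommRing S] (f : R →+* S) (r : R) :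
    lauMap f (lauC R r) = lauC S (f r) := RingHom.congr_fun (lauMap_lauC f) r

theorem lp_bijective (B : Alg A) : Function.Bijective (lp B).1 := by
  obtain ⟨e, h1, h2⟩ := (isPO_polynomial (lauC B.R)).exists_equiv
    (Ann_isPO_lau (C : B.R →+* B.R[X])).flip
  have : (lp B).1 = (e : (Lau B.R)[X] →+* Lau B.R[X]) :=
    ringHom_ext' ((Ann_lp_C B).trans h2.symm) ((Ann_lp_X B).trans
      ((RingHom.congr_fun h1 X).symm.trans (congrArg e (map_X _))))
  rw [this]
  exact e.bijective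

theorem lp_nat (f : B ⟶ B') :
    (polyF A).map ((lauF A).map f) ≫ lp B' = lp B ≫ (lauF A).map ((polyF A).map f) := by
  refine Alg.hom_ext (ringHom_ext' ?_ ?_)
  · change ((lp B').1.comp (mapRingHom (lauMap f.1))).comp C =
      (lauMap (mapRingHom f.1)).comp ((lp B).1.comp C)
    rw [RingHom.comp_assoc, (isPO_polynomial _).comm, ← RingHom.comp_assoc, Ann_lp_C, Ann_lp_C,
      lauMap_comp, lauMap_comp, (isPO_polynomial _).comm]
  · change (lp B').1 (Polynomial.map _ X) = lauMap (mapRingHom f.1) ((lp B).1 X)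
    rw [map_X, Ann_lp_X, Ann_lp_X, Ann_lauMap_C, coe_mapRingHom, map_X]

theorem lp_i0 (B : Alg A) :
    lp B ≫ (lauF A).map ((cyl A).i0 B) = (cyl A).i0 ((lauF A).obj B) := by
  refine Alg.hom_ext (ringHom_ext' ?_ ?_)
  · change (lauMap (evalRingHom 0)).comp ((lp B).1.comp C) = (evalRingHom 0).comp C
    have e : ∀ (R : Type) [CommRing R], (evalRingHom (0 : R)).comp C = RingHom.id R :=
      fun R _ => RingHom.ext fun _ => eval_C
    rw [Ann_lp_C, lauMap_comp, e, e, lauMap_id]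
    rfl
  · refine (congrArg (lauMap (evalRingHom (0 : B.R))) (Ann_lp_X B)).trans
      ((Ann_lauMap_C _ _).trans (Eq.trans ?_ (eval_X (x := (0 : Lau B.R))).symm))
    rw [coe_evalRingHom, eval_X, map_zero]

theorem lp_i1 (B : Alg A) :
    lp B ≫ (lauF A).map ((cyl A).i1 B) = (cyl A).i1 ((lauF A).obj B) := by
  refine Alg.hom_ext (ringHom_ext' ?_ ?_)
  · change (lauMap (evalRingHom 1)).comp ((lp B).1.comp C) = (evalRingHom 1).comp C
    have e : ∀ (R : Type) [CommRing R], (evalRingHom (1 : R)).comp C = RingHom.id R :=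
      fun R _ => RingHom.ext fun _ => eval_C
    rw [Ann_lp_C, lauMap_comp, e, e, lauMap_id]
    rfl
  · refine (congrArg (lauMap (evalRingHom (1 : B.R))) (Ann_lp_X B)).trans
      ((Ann_lauMap_C _ _).trans (Eq.trans ?_ (eval_X (x := (1 : Lau B.R))).symm))
    rw [coe_evalRingHom, eval_X, map_one]

theorem lp_eL (B : Alg A) : lp B ≫ eL ((polyF A).obj B) = (polyF A).map (eL B) := by
  refine Alg.hom_ext (ringHom_ext' ?_ ?_)
  · change (lauE B.R[X]).comp ((lp B).1.comp C) = (mapRingHom (lauE B.R)).comp C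
    rw [Ann_lp_C, lauE_lauMap, (isPO_polynomial _).comm]
  · change lauE B.R[X] ((lp B).1 X) = Polynomial.map _ X
    rw [Ann_lp_X, map_X]
    exact RingHom.congr_fun (lauE_lauC _) X

theorem ep_polyF (h : EP B.s) : EP ((polyF A).obj B).s := by
  exact h.comp ep_polynomial

theorem ep_lauF (h : EP B.s) : EP ((lauF A).obj B).s := by
  exact h.comp (Ann_et1 B.R).ep

theorem IsEE.ep {f : B ⟶ E} (h : IsEE π f) (hB : EP B.s) : EP E.s := by
  rw [← f.2]
  exact hB.comp (ep_of_etale h.etale)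

end alg

section rn

variable (π) (N : ℕ) {T T' T0 T0' E E0 : Alg A}

/-- Every Laurent polynomial is a finite sum of monomials. -/
theorem lau_induction {R : Type} [CommRing R] {q : Lau R → Prop}
    (h1 : ∀ (r : R) (b : ℤ), q (lauC R r * ((tU R ^ b : (Lau R)ˣ) : Lau R))) (h0 : q 0)
    (hadd : ∀ x y, q x → q y → q (x + y)) (z : Lau R) : q z := by
  obtain ⟨p, n, hp⟩ := (isAway_lauL R).surj z
  have hz : z = lauL R p * ((tU R ^ (-(n : ℤ)) : (Lau R)ˣ) : Lau R) := by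
    rw [← hp, ← tU_val, ← Units.val_pow_eq_pow_val, mul_assoc, ← Units.val_mul, zpow_neg,
      zpow_natCast, mul_inv_cancel, Units.val_one, mul_one]
  rw [hz]
  clear hz hp
  induction p using Polynomial.induction_on' with
  | add p p' hp hp' =>
    rw [map_add, add_mul]
    exact hadd _ _ hp hp'
  | monomial k r =>
    have := h1 r (k + -(n : ℤ))
    rwa [zpow_add, Units.val_mul, zpow_natCast, Units.val_pow_eq_pow_val, tU_val, ← mul_assoc,
      ← map_pow, lauC, RingHom.comp_apply, ← map_mul, C_mul_X_pow_eq_monomial] at this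

theorem rn_gen (T : Alg A) (W : Subring ((RN π N).obj T).R) (h1 : ∀ x, (rnC π N T).1 x ∈ W)
    (h2 : ∀ (b : ℤ) (hb : |b| ≤ N + 1), rnG π N T b hb ∈ W) : W = ⊤ := by
  have h : rnS π N T ≤ W.map (rnι π N T).1 := by
    refine (rnS_eq π N T).le.trans (Subring.closure_le.2 ?_)
    rintro _ (⟨x, rfl⟩ | ⟨b, hb, rfl⟩)
    · exact ⟨_, h1 x, rfl⟩
    · exact ⟨_, h2 b hb, rfl⟩
  refine top_le_iff.1 fun z _ => ?_
  obtain ⟨w, hw, e⟩ := h z.2
  rwa [← rnι_inj π N T e]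

/-- The inclusion in the Laurent ring as a ring map. -/
def Ann_ι (T : Alg A) : ((RN π N).obj T).R →+* Lau T.R := (rnι π N T).1

theorem Ann_inj (T : Alg A) : Function.Injective (Ann_ι π N T) := rnι_inj π N T

theorem Ann_rnG (T : Alg A) (b : ℤ) (hb : |b| ≤ N + 1) : Ann_ι π N T (rnG π N T b hb) =
    lauC T.R (T.s π) * ((tU T.R ^ b : (Lau T.R)ˣ) : Lau T.R) := rfl

theorem Ann_rnU (T : Alg A) : Ann_ι π N T (rnU π N T) = lauC T.R (T.s π) * lauL T.R X :=
  rnι_rnU π N T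

theorem Ann_rnC (T : Alg A) (r : T.R) : Ann_ι π N T ((rnC π N T).1 r) = lauC T.R r := rfl

theorem Ann_s (T : Alg A) (a : A) : Ann_ι π N T (((RN π N).obj T).s a) = lauC T.R (T.s a) := rfl

theorem Ann_map (g : T ⟶ T') (z : ((RN π N).obj T).R) :
    Ann_ι π N T' (((RN π N).map g).1 z) = lauMap g.1 (Ann_ι π N T z) := rfl

theorem Ann_map_rnG (g : T ⟶ T') (b : ℤ) (hb : |b| ≤ N + 1) :
    ((RN π N).map g).1 (rnG π N T b hb) = rnG π N T' b hb := by
  apply Ann_inj π N T'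
  rw [Ann_map, Ann_rnG, Ann_rnG, map_mul, Ann_lauMap_C, lauMap_tU, Alg.map_s]

theorem Ann_rnG_pow (T : Alg A) (b : ℤ) (hb : |b| ≤ N + 1) (n : ℕ) :
    Ann_ι π N T (rnG π N T b hb ^ n) =
      lauC T.R (T.s π) ^ n * ((tU T.R ^ (b * n) : (Lau T.R)ˣ) : Lau T.R) := by
  rw [map_pow, Ann_rnG, mul_pow, ← Units.val_pow_eq_pow_val, ← zpow_natCast, ← zpow_mul]

theorem Ann_sign (b : ℤ) : |b.sign| ≤ 1 := by
  rcases Int.sign_trichotomy b with h | h | h <;> simp [h]

/-- The inner generators are nilpotent modulo `π`. -/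
theorem Ann_nil (T : Alg A) (b : ℤ) (hb : |b| ≤ N + 1) (hb' : b.natAbs ≤ N) :
    ((RN π N).obj T).s π ∣ rnG π N T b hb ^ (N + 1) := by
  obtain ⟨k, hk⟩ := Nat.exists_eq_add_of_le hb'
  have hs : |b.sign * (N + 1 : ℤ)| ≤ N + 1 := by
    rw [abs_mul, abs_of_nonneg (show (0 : ℤ) ≤ N + 1 by omega)]
    exact mul_le_of_le_one_left (by omega) (Ann_sign b)
  refine ⟨((RN π N).obj T).s π ^ k * rnG π N T _ hs ^ b.natAbs, Ann_inj π N T ?_⟩
  have e : b.sign * (N + 1 : ℤ) * b.natAbs = b * (N + 1 : ℕ) := by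
    rw [mul_right_comm, Int.sign_mul_natAbs, Nat.cast_succ]
  rw [map_mul, map_mul, Ann_rnG_pow, Ann_rnG_pow, e, map_pow, Ann_s]
  generalize ((tU T.R ^ (b * (N + 1 : ℕ)) : (Lau T.R)ˣ) : Lau T.R) = w
  generalize lauC T.R (T.s π) = c
  rw [hk]
  ring

theorem Ann_piso (T : Alg A) : PIso (((RN π N).obj T).s π) (Ann_ι π N T) := by
  refine ⟨fun y => ?_, fun x hx => ⟨0, by
    rw [Ann_inj π N T (hx.trans (map_zero _).symm), mul_zero]⟩⟩
  rw [Ann_s]
  refine lau_induction (q := fun y => ∃ (n : ℕ) (x : ((RN π N).obj T).R),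
    lauC T.R (T.s π) ^ n * y = Ann_ι π N T x) (fun r b => ?_) ⟨0, 0, by simp⟩ ?_ y
  · have hs : |b.sign| ≤ N + 1 := (Ann_sign b).trans (by omega)
    refine ⟨b.natAbs, (rnC π N T).1 r * rnG π N T _ hs ^ b.natAbs, ?_⟩
    rw [map_mul, Ann_rnG_pow, Ann_rnC, Int.sign_mul_natAbs, mul_left_comm]
  · rintro y y' ⟨n, x, hx⟩ ⟨n', x', hx'⟩
    refine ⟨n + n', ((RN π N).obj T).s π ^ n' * x + ((RN π N).obj T).s π ^ n * x', ?_⟩
    rw [map_add, map_mul, map_mul, map_pow, map_pow, Ann_s, ← hx, ← hx']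
    ring

theorem Ann_ext (T : Alg A) {K : Type} [Field K] (x : ((RN π N).obj T).R →+* K)
    (hx : x (((RN π N).obj T).s π) ≠ 0) : ∃ x' : Lau T.R →+* K, x'.comp (Ann_ι π N T) = x :=
  ((Ann_piso π N T).existsUnique_lift x (isUnit_iff_ne_zero.2 hx)).exists

theorem rnι_PI (T : Alg A) : PI π (rnι π N T) := by
  exact Ann_piso π N T

theorem rnC_finiteType (T : Alg A) : (rnC π N T).1.FiniteType := by
  let _ := (rnC π N T).1.toAlgebra
  have : Finite {b : ℤ // |b| ≤ N + 1} :=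
    ((Set.finite_Icc (-(N + 1 : ℤ)) (N + 1)).subset fun b hb => abs_le.1 hb).to_subtype
  refine ⟨Subalgebra.fg_def.2 ⟨Set.range fun b : {b : ℤ // |b| ≤ N + 1} => rnG π N T b.1 b.2,
    Set.finite_range _,
    Subalgebra.toSubring_injective (rn_gen π N T _ (fun x => ?_) fun b hb => ?_)⟩⟩
  · exact Subalgebra.algebraMap_mem _ x
  · exact Algebra.subset_adjoin ⟨⟨b, hb⟩, rfl⟩

theorem rnU_GU (T : Alg A) : GU π (rnU π N T) := by
  refine ⟨rnG π N T (-1) (by simp), 2, Ann_inj π N T ?_⟩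
  rw [map_mul, map_pow, Ann_rnU, Ann_rnG, Ann_s, ← tU_val, mul_mul_mul_comm, zpow_neg_one,
    Units.mul_inv, mul_one, sq]

/-- The generic points of the model above a point of the base are the nonzero values of `u`. -/
theorem rn_point (T : Alg A) {K : Type} [Field K] (z : T.R →+* K) (hz : z (T.s π) ≠ 0) {a : K}
    (ha : a ≠ 0) : ∃! x : ((RN π N).obj T).R →+* K,
      x.comp (rnC π N T).1 = z ∧ x (rnU π N T) = a := by
  have hu : IsUnit (a / z (T.s π)) := isUnit_iff_ne_zero.2 (div_ne_zero ha hz)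
  refine ⟨(lauLift z _ hu).comp (Ann_ι π N T), ⟨RingHom.ext fun r => lauLift_lauC z _ hu r, ?_⟩, ?_⟩
  · rw [RingHom.comp_apply, Ann_rnU, map_mul, lauLift_lauC, lauLift_lauL, eval₂_X,
      mul_div_cancel₀ _ hz]
  · rintro x ⟨h1, h2⟩
    have h3 : x (((RN π N).obj T).s π) = z (T.s π) := RingHom.congr_fun h1 (T.s π)
    obtain ⟨x', rfl⟩ := Ann_ext π N T x (h3 ▸ hz)
    have h4 : ∀ r, x' (lauC T.R r) = z r := RingHom.congr_fun h1
    congr 1
    refine lau_ext (RingHom.ext fun r => (h4 r).trans (lauLift_lauC z _ hu r).symm) ?_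
    rw [lauLift_lauL, eval₂_X, eq_div_iff hz, ← h2, RingHom.comp_apply, Ann_rnU, map_mul, h4,
      mul_comm]

/-- Hint: `R_N T ⊗_T T' → Lau T ⊗_T T' = Lau T'` is injective, with image `R_N T'`. -/
theorem isPO_RN {ρ : T ⟶ T'} (hρ : ρ.1.Flat) :
    IsPO (rnC π N T).1 ρ.1 ((RN π N).map ρ).1 (rnC π N T').1 := by
  obtain ⟨P, _, i, j, po⟩ := exists_isPO (rnC π N T).1 ρ.1
  obtain ⟨c, h1, h2⟩ := po.exists_lift ((RN π N).map ρ).1 (rnC π N T').1
    (congrArg Subtype.val (rnC_nat π N ρ)).symm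
  have h3 : IsPO (Ann_ι π N T) i (lauMap ρ.1) ((Ann_ι π N T').comp c) := by
    refine po.cancel' ?_ ?_
    · rw [RingHom.comp_assoc, h1]
      exact (congrArg Subtype.val (rnι_nat π N ρ)).symm
    · rw [RingHom.comp_assoc, h2]
      exact Ann_isPO_lau ρ.1
  have h4 : Function.Injective c := fun a b h =>
    Ann_po_inj h3 (po.flip.flat hρ) (Ann_inj π N T) (congrArg (Ann_ι π N T') h)
  have h5 : Function.Surjective c := RingHom.range_eq_top.1 (rn_gen π N T' _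
    (fun x => ⟨j x, RingHom.congr_fun h2 x⟩) fun b hb =>
      ⟨i (rnG π N T b hb), (RingHom.congr_fun h1 _).trans (Ann_map_rnG π N ρ b hb)⟩)
  rw [← h1, ← h2]
  exact po.of_bijective ⟨h4, h5⟩

theorem IsEE.RN {ρ : T ⟶ T'} (h : IsEE π' ρ) : IsEE π' ((RN π N).map ρ) := by
  exact h.of_po (isPO_RN π N (etale_flat h.etale)).flip

/-- Hint: take `X = (E ⊗_{R_N T} Lau T)[1/π]`; `Lau T[1/π]` is the localisation of `T[u]` away from
`π u`; `Et1.of_etale_base`. -/
theorem gEt_rn {f : (RN π N).obj T ⟶ E} (hf : f.1.Etale) {ρ : T ⟶ T'} (hρ : ρ.1.Etale) {τ : T' ⟶ E}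
    (w : ρ ≫ τ = rnC π N T ≫ f) : GEt π τ (f.1 (rnU π N T)) := by
  obtain ⟨P, _, i, γ, po⟩ := exists_isPO f.1 (Ann_ι π N T)
  have h0 : PIso (E.s π) i := Alg.map_s f π ▸ (Ann_piso π N T).of_po po.flip
  obtain ⟨Y, _, l, hl⟩ := exists_isAway (i (E.s π))
  refine ⟨E.under (l.comp i), E.toUnder _, h0.comp (PIso.of_isAway hl), Et1.of_etale_base hρ ?_⟩
  have h1 : ((l.comp γ).comp (lauC T.R)) (T.s π) = l (i (E.s π)) :=
    congrArg l ((po.comm_apply (((RN π N).obj T).s π)).symm.trans (congrArg i (Alg.map_s f π)))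
  have h2 := Ann_scale ((Ann_et1 T.R).comp (etale_comp (po.etale hf) hl.etale)) (c := T.s π)
    (h1 ▸ hl.isUnit)
  have h3 : ((l.comp i).comp τ.1).comp ρ.1 = (l.comp γ).comp (lauC T.R) :=
    RingHom.ext fun r => congrArg l ((congrArg i (Alg.congr_val w r)).trans (po.comm_apply _))
  have h4 : (l.comp i) (f.1 (rnU π N T)) =
      ((l.comp γ).comp (lauC T.R)) (T.s π) * (l.comp γ) (lauL T.R X) := by
    rw [RingHom.comp_apply _ (lauC T.R), ← map_mul, ← Ann_rnU π N]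
    exact congrArg l (po.comm_apply _)
  rw [h3, h4]
  exact h2

/-- Base change of a neighbourhood in a model along `g : T ⟶ T0`: finiteness.  Here `E0` is the
pushout of `E` along `R_N T ⟶ R_N T0` and `T0'` the pushout of `T'` along `g`.
Hint: `E0` is generated by the images of `E` and `T0'` (`rn_gen`, `IsPO.mem_subring`), so it is a
quotient of the pushout of `τ` along `g'`. -/
theorem rn_bc_finMod {f : (RN π N).obj T ⟶ E} {ρ : T ⟶ T'} {τ : T' ⟶ E}
    (w : ρ ≫ τ = rnC π N T ≫ f) {g : T ⟶ T0} {k : E ⟶ E0} {f0 : (RN π N).obj T0 ⟶ E0}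
    (po : IsPO f.1 ((RN π N).map g).1 k.1 f0.1) {g' : T' ⟶ T0'} {ρ0 : T0 ⟶ T0'}
    (po' : IsPO ρ.1 g.1 g'.1 ρ0.1) {τ0 : T0' ⟶ E0} (w1 : g' ≫ τ0 = τ ≫ k)
    (w2 : ρ0 ≫ τ0 = rnC π N T0 ≫ f0) {J : Ideal E.R} (hJ : FinMod τ.1 J) :
    FinMod τ0.1 (J.map k.1) := by
  obtain ⟨P, _, k1, τ1, po1⟩ := exists_isPO τ.1 g'.1
  obtain ⟨c, h1, h2⟩ := po1.exists_lift k.1 τ0.1 (congrArg Subtype.val w1).symm
  have h3 : c.range.comap f0.1 = ⊤ := rn_gen π N T0 _
    (fun x => ⟨τ1 (ρ0.1 x), (RingHom.congr_fun h2 _).trans (Alg.congr_val w2 x)⟩) fun b hb =>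
      ⟨k1 (f.1 (rnG π N T b hb)), (RingHom.congr_fun h1 _).trans ((po.comm_apply _).trans
        (congrArg f0.1 (Ann_map_rnG π N g b hb)))⟩
  have h4 : Function.Surjective c := fun y => po.mem_subring c.range
    (fun e => ⟨k1 e, RingHom.congr_fun h1 e⟩) (fun z => h3.ge (Subring.mem_top z)) y
  have h5 := RingHom.Finite.comp (RingHom.Finite.of_surjective _
    (Ideal.quotientMap_surjective (I := (J.map k1).map c) (J := J.map k1) (f := c)
      (H := Ideal.le_comap_map) h4)) (po1.finMod hJ)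
  rw [← h1, ← h2, ← Ideal.map_map]
  exact h5

/-- Base change of a neighbourhood in a model: generic points. -/
theorem rn_bc_point {f : (RN π N).obj T ⟶ E} {ρ : T ⟶ T'} {τ : T' ⟶ E}
    (w : ρ ≫ τ = rnC π N T ≫ f) {g : T ⟶ T0} {k : E ⟶ E0} {f0 : (RN π N).obj T0 ⟶ E0}
    (po : IsPO f.1 ((RN π N).map g).1 k.1 f0.1) {g' : T' ⟶ T0'} {ρ0 : T0 ⟶ T0'}
    (po' : IsPO ρ.1 g.1 g'.1 ρ0.1) {τ0 : T0' ⟶ E0} (w1 : g' ≫ τ0 = τ ≫ k)
    (w2 : ρ0 ≫ τ0 = rnC π N T0 ≫ f0) {K : Type} [Field K] (x : T0'.R →+* K)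
    (hx : x (T0'.s π) ≠ 0) (z : E.R →+* K) (hz : z.comp τ.1 = x.comp g'.1) :
    ∃! z0 : E0.R →+* K, z0.comp k.1 = z ∧ z0.comp τ0.1 = x := by
  have e1 : ∀ r, z (f.1 ((rnC π N T).1 r)) = x (ρ0.1 (g.1 r)) := fun r =>
    (congrArg z (Alg.congr_val w r)).symm.trans
      ((RingHom.congr_fun hz _).trans (congrArg x (po'.comm_apply r)))
  have h0 : (x.comp ρ0.1) (T0.s π) ≠ 0 := by rwa [RingHom.comp_apply, Alg.map_s]
  have h1 : ((x.comp ρ0.1).comp g.1) (T.s π) ≠ 0 := by rwa [RingHom.comp_apply, Alg.map_s]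
  have ha : (z.comp f.1) (rnU π N T) ≠ 0 :=
    (rnU_GU π N T).ne_zero _ fun h => h1 ((e1 _).symm.trans h)
  obtain ⟨y, ⟨y1, y2⟩, hy⟩ := rn_point π N T0 _ h0 ha
  have h2 : z.comp f.1 = y.comp ((RN π N).map g).1 := by
    refine (rn_point π N T _ h1 ha).unique ⟨RingHom.ext e1, rfl⟩ ⟨?_, ?_⟩
    · rw [← y1]
      exact RingHom.ext fun r => congrArg y (Alg.congr_val (rnC_nat π N g) r).symm
    · rw [RingHom.comp_apply, map_rnU, y2]
  obtain ⟨z0, z1, z2⟩ := po.exists_lift z y h2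
  refine ⟨z0, ⟨z1, po'.hom_ext ?_ ?_⟩, fun z' hz' => po.hom_ext (hz'.1.trans z1.symm) ?_⟩
  · rw [← hz, ← z1]
    exact RingHom.ext fun r => congrArg z0 (Alg.congr_val w1 r)
  · rw [← y1, ← z2]
    exact RingHom.ext fun r => congrArg z0 (Alg.congr_val w2 r)
  · rw [z2]
    refine hy _ ⟨?_, ?_⟩
    · rw [← hz'.2]
      exact RingHom.ext fun r => congrArg z' (Alg.congr_val w2 r).symm
    · rw [← hz'.1, ← map_rnU π N g]
      exact congrArg z' (po.comm_apply _).symm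

/-- The zero loci of `u^n - π^n` and `u^(n-1) - π^(n-1)` in the generic fibre have finite closure.
Hint: `J` is the preimage of the ideal of `Lau T` generated by `t^n - 1`; `R_N T / J` is of finite type
over `T` and embeds in `Lau T / (t^n - 1)`, which is integral over `T`. -/
theorem rn_roots (T : Alg A) {n : ℕ} (hn : 1 ≤ n) :
    ∃ J : Ideal ((RN π N).obj T).R, FinMod (rnC π N T).1 J ∧
      ∀ (K : Type) [Field K] (x : ((RN π N).obj T).R →+* K), x (((RN π N).obj T).s π) ≠ 0 →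
        x (rnU π N T) ^ n = x (((RN π N).obj T).s π) ^ n → ∀ a ∈ J, x a = 0 := by
  refine ⟨(Ideal.span {lauL T.R (X ^ n - C 1)}).comap (Ann_ι π N T), ?_,
    fun K _ x hx h a ha => ?_⟩
  · have hc : IsCoprime (X : T.R[X]) (X ^ n - C 1) := by
      obtain ⟨k, rfl⟩ := Nat.exists_eq_add_of_le' hn
      exact ⟨X ^ k, -1, by rw [C_1]; ring⟩
    have h1 : FinMod ((lauL T.R).comp C) (Ideal.span {lauL T.R (X ^ n - C 1)}) :=
      (finMod_monic (monic_X_pow_sub_C (1 : T.R) (by omega))).of_surjective rfl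
        ((isAway_lauL T.R).qmap_bijective hc rfl).2
    exact RingHom.IsIntegral.to_finite (RingHom.IsIntegral.tower_bot _ _
      (Ideal.quotientMap_injective (f := Ann_ι π N T)) h1.to_isIntegral)
      ((RingHom.FiniteType.of_surjective _ Ideal.Quotient.mk_surjective).comp
        (rnC_finiteType π N T))
  · obtain ⟨x', rfl⟩ := Ann_ext π N T x hx
    obtain ⟨w, hw⟩ := Ideal.mem_span_singleton.1 ha
    rw [RingHom.comp_apply, Ann_s] at hx
    rw [RingHom.comp_apply, RingHom.comp_apply, Ann_rnU, Ann_s, map_mul, mul_pow,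
      mul_eq_left₀ (pow_ne_zero _ hx)] at h
    rw [RingHom.comp_apply, hw, map_mul, map_sub, map_sub, map_pow, map_pow, h, C_1, map_one,
      map_one, sub_self, zero_mul]

variable {π N}

theorem Ann_oc {Y : Type} [CommRing Y] {f : ((RN π N).obj T).R →+* E.R} {i : E.R →+* Y}
    {γ : Lau T.R →+* Y} (po : IsPO f (Ann_ι π N T) i γ) (z : Y) :
    ∃ N0 : ℕ, ∀ N' : ℕ, N0 ≤ N' → ∀ (St : Alg A) (k : E ⟶ St) (f' : (RN π N').obj T ⟶ St)
      (β : St.R →+* Y), β.comp k.1 = i → β.comp f'.1 = γ.comp (Ann_ι π N' T) →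
        ∃ zt ∈ (Ideal.span {St.s π}).radical, β zt = γ (lauC T.R (T.s π)) * z := by
  let q : Y → Prop := fun z => ∃ N0 : ℕ, ∀ N' : ℕ, N0 ≤ N' → ∀ (St : Alg A) (k : E ⟶ St)
    (f' : (RN π N').obj T ⟶ St) (β : St.R →+* Y), β.comp k.1 = i →
      β.comp f'.1 = γ.comp (Ann_ι π N' T) →
        ∃ zt ∈ (Ideal.span {St.s π}).radical, β zt = γ (lauC T.R (T.s π)) * z
  have h0 : q 0 := ⟨0, fun _ _ _ _ _ _ _ _ => ⟨0, zero_mem _, by rw [map_zero, mul_zero]⟩⟩
  have hadd : ∀ x y, q x → q y → q (x + y) := by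
    rintro x y ⟨n, hn⟩ ⟨m, hm⟩
    refine ⟨max n m, fun N' h St k f' β h1 h2 => ?_⟩
    obtain ⟨a, ha, ea⟩ := hn N' ((le_max_left _ _).trans h) St k f' β h1 h2
    obtain ⟨b, hb, eb⟩ := hm N' ((le_max_right _ _).trans h) St k f' β h1 h2
    exact ⟨a + b, add_mem ha hb, by rw [map_add, ea, eb, mul_add]⟩
  refine po.induction (q := q) h0 (fun e => lau_induction (q := fun w => q (i e * γ w))
    (fun r b => ⟨b.natAbs, fun N' h St k f' β h1 h2 => ?_⟩) (by simpa using h0)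
    fun x y hx hy => by simpa only [map_add, mul_add] using hadd _ _ hx hy) hadd z
  have hb : |b| ≤ N' + 1 := by
    rw [Int.abs_eq_natAbs]
    omega
  refine ⟨k.1 e * f'.1 ((rnC π N' T).1 r) * f'.1 (rnG π N' T b hb),
    Ideal.mul_mem_left _ _ ⟨N' + 1, Ideal.mem_span_singleton.2 ?_⟩, ?_⟩
  · rw [← map_pow, ← Alg.map_s f']
    exact map_dvd _ (Ann_nil π N' T b hb h)
  · have e1 : ∀ y, β (f'.1 y) = γ (Ann_ι π N' T y) := RingHom.congr_fun h2
    rw [map_mul, map_mul, e1, e1, show β (k.1 e) = i e from RingHom.congr_fun h1 e, Ann_rnC,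
      Ann_rnG, map_mul, map_mul]
    ring

/-- Overconvergence.  Hint: `OCgen` with `S = X`, `St = E ⊗_{R_N T} R_N' T`, `T = X`, `α = id`,
`It` the radical of `(π')`, then `EE.of_radical`; `π t^b` is nilpotent modulo `π` in `R_N' T` when
`|b| ≤ N'`, since `(π t^b)^(N'+1) = π^(N'+1-|b|) (π t^(±(N'+1)))^|b|`.  `X2` is the pushout of `E2` and
`X` over `St`; `St ⟶ X` is the base change of `rnι`. -/
theorem oc_ring (hπ : π' = π ∨ π' = 0) {X E1 : Alg A} {f : (RN π N).obj T ⟶ E} {i : E ⟶ X}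
    {γ : (lauF A).obj T ⟶ X} (po : IsPO f.1 (rnι π N T).1 i.1 γ.1) {ε : X ⟶ E1} (hε : IsEE π' ε) :
    ∃ N0 : ℕ, ∀ (N' : ℕ) (h : N ≤ N'), N0 ≤ N' →
      ∃ (St E2 X2 : Alg A) (k : E ⟶ St) (f' : (RN π N').obj T ⟶ St) (ε2 : St ⟶ E2) (i2 : E2 ⟶ X2)
        (γ2 : X ⟶ X2) (η : E1 ⟶ X2), IsPO f.1 (rnT π h T).1 k.1 f'.1 ∧ IsEE π' ε2 ∧ PI π i2 ∧
        IsEE π' γ2 ∧ ε ≫ η = γ2 ∧ k ≫ ε2 ≫ i2 = i ≫ γ2 ∧
        f' ≫ ε2 ≫ i2 = rnι π N' T ≫ γ ≫ γ2 := by
  obtain ⟨Z, hZ⟩ := OCgen hε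
  choose n hn using Ann_oc (γ := γ.1) po
  refine ⟨Z.sup n, fun N' h h0 => ?_⟩
  obtain ⟨St, k, f', po1⟩ := Alg.exists_po f (rnT π h T)
  obtain ⟨β, b1, b2⟩ := Alg.po_lift po1 i (rnι π N' T ≫ γ)
    (by rw [← Category.assoc, rnT_rnι, Alg.po_comm po])
  obtain ⟨E2, _, ε2, h2, hη⟩ := hZ St.R X.R (Ideal.span {St.s π'}).radical (RingHom.id _) β.1 (by
    intro z hz
    rcases hπ with rfl | rfl
    · obtain ⟨zt, h1, h2⟩ := hn z N' ((Finset.le_sup hz).trans h0) St k f' β.1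
        (congrArg Subtype.val b1) (congrArg Subtype.val b2)
      exact ⟨zt, h1, h2.trans (congrArg (· * z) (Alg.map_s γ _))⟩
    · exact ⟨0, zero_mem _, by simp⟩)
  have h3 : IsEE π' (St.toUnder ε2) := EE.of_radical h2 le_rfl
  obtain ⟨X2, i2, γ2, po2⟩ := Alg.exists_po (St.toUnder ε2) β
  obtain ⟨η, hη⟩ := hη X2.R γ2.1 i2.1 po2.comm
  have po3 : IsPO f'.1 (rnι π N' T).1 β.1 γ.1 := by
    refine po1.cancel (congrArg Subtype.val b2) ?_
    rw [show (rnι π N' T).1.comp (rnT π h T).1 = _ from congrArg Subtype.val (rnT_rnι π h T),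
      show β.1.comp k.1 = _ from congrArg Subtype.val b1]
    exact po
  refine ⟨St, St.under ε2, X2, k, f', St.toUnder ε2, i2, γ2,
    ⟨η, by rw [← ε.2, ← RingHom.comp_assoc, hη]; exact γ2.2⟩, po1, h3,
    PI.of_po po2.flip (PI.of_po po3.flip (rnι_PI π N' T)), h3.of_po po2, Alg.hom_ext hη, ?_, ?_⟩
  · rw [Alg.po_comm po2, ← Category.assoc, b1]
  · rw [Alg.po_comm po2, ← Category.assoc, b2, Category.assoc]

end rn

end Pool.Agent.KEW.L8
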