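import Pool.Agent.P.MP_6277db_ag.KEW.L8a.Pi

/-!
KEW project, layer L8a: the complex `... ⟶ PΩF ⟶ PF ⟶ F`.
-/

set_option backward.isDefEq.respectTransparency false

noncomputable section

open CategoryTheory

namespace Pool.Agent.KEW.L8

universe v u v' u'

open Limits

variable {D : Type u} [Category.{v} D] {L : Type 1} [CommRing L]

/-- Homology of a short complex from a kernel and a cokernel. -/
theorem Cpx_homology {A : Type u'} [Category.{v'} A] [Abelian A] (S : ShortComplex A) {W Q : A}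
    (i : W ⟶ S.X₂) [Mono i] (wi : i ≫ S.g = 0)
    (hi : ∀ (T : A) (k : T ⟶ S.X₂), k ≫ S.g = 0 → ∃ l : T ⟶ W, l ≫ i = k)
    (e : S.X₁ ⟶ W) (he : e ≫ i = S.f) (π : W ⟶ Q) [Epi π] (wπ : e ≫ π = 0)
    (hπ : ∀ (T : A) (k : W ⟶ T), e ≫ k = 0 → ∃ l : Q ⟶ T, π ≫ l = k) :
    Nonempty (S.homology ≅ Q) := by
  let h1 : IsLimit (KernelFork.ofι i wi) :=
    KernelFork.IsLimit.ofι' i wi fun k hk => ⟨(hi _ k hk).choose, (hi _ k hk).choose_spec⟩
  have h2 : h1.lift (KernelFork.ofι S.f S.zero) = e := by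
    rw [← cancel_mono i, he]
    exact Fork.IsLimit.lift_ι h1
  let h : S.LeftHomologyData :=
    { K := W
      H := Q
      i := i
      π := π
      wi := wi
      hi := h1
      wπ := by rw [h2, wπ]
      hπ := CokernelCofork.IsColimit.ofπ' π _ fun k hk =>
        ⟨(hπ _ k (h2 ▸ hk)).choose, (hπ _ k (h2 ▸ hk)).choose_spec⟩ }
  exact ⟨h.homologyIso⟩

namespace CylD

variable (c : CylD D)

/-- Iterated loop objects, with the new loop outside. -/
def Cpx_W (F : Fn D L) : ℕ → Fn D L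
  | 0 => F
  | q + 1 => c.Om.obj (Cpx_W F q)

theorem Cpx_W_Om (F : Fn D L) (q : ℕ) : c.Cpx_W (c.Om.obj F) q = c.Cpx_W F (q + 1) := by
  induction q with
  | zero => rfl
  | succ q ih => exact congrArg c.Om.obj ih

theorem Cpx_OmN (q : ℕ) (F : Fn D L) : (c.OmN q).obj F = c.Cpx_W F q := by
  induction q generalizing F with
  | zero => rfl
  | succ q ih => rw [OmN_succ_obj, ih, Cpx_W_Om]

theorem Cpx_piq (q : ℕ) (F : Fn D L) : (c.piq q).obj F = c.pi0.obj (c.Cpx_W F q) :=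
  congrArg c.pi0.obj (c.Cpx_OmN q F)

/-- The terms of the complex. -/
def Cpx_X (F : Fn D L) : ℕ → Fn D L
  | 0 => F
  | q + 1 => c.PP.obj (c.Cpx_W F q)

/-- The cycles of the complex. -/
def Cpx_i (F : Fn D L) : ∀ q : ℕ, c.Cpx_W F q ⟶ c.Cpx_X F q
  | 0 => 𝟙 F
  | q + 1 => c.Oι (c.Cpx_W F q)

/-- The differentials of the complex. -/
def Cpx_d (F : Fn D L) (q : ℕ) : c.Cpx_X F (q + 1) ⟶ c.Cpx_X F q :=
  c.ev (c.Cpx_W F q) ≫ c.Cpx_i F q

theorem Cpx_Oι_ev (G : Fn D L) : c.Oι G ≫ c.ev G = 0 := fn_ext fun _ x => c.ev_Oι x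

theorem Cpx_mono (G : Fn D L) : Mono (c.Oι G) :=
  ⟨fun _ _ h => fn_ext fun B x => c.Oι_inj G B (congrArg (fun k => k.app B x) h)⟩

theorem Cpx_epi (G : Fn D L) : Epi (c.pr0 G) :=
  ⟨fun _ _ h => fn_ext fun B x => by
    obtain ⟨y, rfl⟩ := c.pr0_surj G B x
    exact congrArg (fun k => k.app B y) h⟩

theorem Cpx_mono_i (F : Fn D L) : ∀ q : ℕ, Mono (c.Cpx_i F q)
  | 0 => inferInstanceAs (Mono (𝟙 F))
  | _ + 1 => c.Cpx_mono _

theorem Cpx_i_d (F : Fn D L) (q : ℕ) : c.Cpx_i F (q + 1) ≫ c.Cpx_d F q = 0 := by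
  have h : c.Cpx_i F (q + 1) ≫ c.ev (c.Cpx_W F q) = 0 := c.Cpx_Oι_ev _
  rw [Cpx_d, ← Category.assoc, h, zero_comp]

theorem Cpx_lift {G T : Fn D L} (k : T ⟶ c.PP.obj G) (h : k ≫ c.ev G = 0) :
    ∃ l : T ⟶ c.Om.obj G, l ≫ c.Oι G = k :=
  ⟨(kerS (c.ev G)).lift k fun B x => congrArg (fun k : T ⟶ G => k.app B x) h, rfl⟩

theorem Cpx_ev_pr0 (G : Fn D L) : c.ev G ≫ c.pr0 G = 0 :=
  fn_ext fun _ x => (c.pr0_eq_zero _).2 ⟨x, rfl⟩

theorem Cpx_desc {G T : Fn D L} (k : G ⟶ T) (h : c.ev G ≫ k = 0) :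
    ∃ l : c.pi0.obj G ⟶ T, c.pr0 G ≫ l = k :=
  ⟨(imS (c.ev G)).desc k fun B x hx => by
    obtain ⟨y, rfl⟩ := hx
    exact congrArg (fun k => k.app B y) h, rfl⟩

/-- The complex, indexed by the natural numbers. -/
def Cpx_C (F : Fn D L) : ChainComplex (Fn D L) ℕ :=
  ChainComplex.of (c.Cpx_X F) (c.Cpx_d F) fun q => by
    rw [Cpx_d, Category.assoc, Cpx_i_d, comp_zero]

theorem Cpx_C_d (F : Fn D L) (q : ℕ) : (c.Cpx_C F).d (q + 1) q = c.Cpx_d F q :=
  ChainComplex.of_d _ _ q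

theorem Cpx_C_homology (F : Fn D L) (q : ℕ) :
    Nonempty ((c.Cpx_C F).homology q ≅ c.pi0.obj (c.Cpx_W F q)) := by
  have := c.Cpx_mono_i F q
  have := c.Cpx_epi (c.Cpx_W F q)
  have key : ∀ k : ℕ, c.Cpx_i F q ≫ (c.Cpx_C F).d q k = 0 →
      (∀ (T : Fn D L) (f : T ⟶ c.Cpx_X F q), f ≫ (c.Cpx_C F).d q k = 0 →
        ∃ l : T ⟶ c.Cpx_W F q, l ≫ c.Cpx_i F q = f) → (ComplexShape.down ℕ).next q = k →
      Nonempty ((c.Cpx_C F).homology q ≅ c.pi0.obj (c.Cpx_W F q)) := fun k h1 h2 h3 => by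
    obtain ⟨e⟩ := Cpx_homology ((c.Cpx_C F).sc' (q + 1) q k) (c.Cpx_i F q) h1 h2
      (c.ev (c.Cpx_W F q)) (c.Cpx_C_d F q).symm (c.pr0 _) (c.Cpx_ev_pr0 _)
      fun _ k hk => c.Cpx_desc k hk
    exact ⟨(c.Cpx_C F).homologyIsoSc' (q + 1) q k (ChainComplex.prev ℕ q) h3 ≪≫ e⟩
  cases q with
  | zero =>
    refine key 0 ?_ (fun T f _ => ⟨f, Category.comp_id f⟩) ChainComplex.next_nat_zero
    rw [(c.Cpx_C F).shape 0 0 (by simp), comp_zero]
  | succ q =>
    refine key q ?_ (fun T f hf => ?_) (ChainComplex.next_nat_succ q)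
    · rw [Cpx_C_d, Cpx_i_d]
    · have := c.Cpx_mono_i F q
      rw [Cpx_C_d, Cpx_d, ← Category.assoc] at hf
      exact c.Cpx_lift f (zero_of_comp_mono _ hf)

theorem Cpx_contr {G G' : Fn D L} (e : G' ≅ G) (h : c.Contr G) : c.Contr G' := by
  obtain ⟨h, h0, h1⟩ := h
  have n0 : Functor.whiskerLeft c.I e.inv ≫ c.e0 G' = c.e0 G ≫ e.inv :=
    fn_ext fun B x => (nat_apply e.inv (c.i0 B) x).symm
  have n1 : Functor.whiskerLeft c.I e.inv ≫ c.e1 G' = c.e1 G ≫ e.inv :=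
    fn_ext fun B x => (nat_apply e.inv (c.i1 B) x).symm
  refine ⟨e.hom ≫ h ≫ Functor.whiskerLeft c.I e.inv, ?_, ?_⟩
  · rw [Category.assoc, Category.assoc, n0, ← Category.assoc h, h0, Category.id_comp,
      e.hom_inv_id]
  · rw [Category.assoc, Category.assoc, n1, ← Category.assoc h, h1, zero_comp, comp_zero]

/-- There is a bounded above complex `K` receiving `F`, whose terms in negative degrees are
contractible, with homology `π_q F` in degree `-q`, and whose terms lie in every class of functors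
containing `F` and `0` and stable under path and loop objects.
Hint: build a `ChainComplex _ ℕ` with terms `F`, `P Ω^q F` and extend along
`ComplexShape.embeddingDownNat`; note `(OmN (q + 1)).obj F = (OmN q).obj (Om.obj F)` by definition, so
either prove `OmN (q + 1) = OmN q ⋙ Om` or build the complex by recursion on `F ↦ ΩF`. -/
theorem exists_Cp (F : Fn D L) :
    ∃ (K : CochainComplex (Fn D L) ℤ) (j : (HomologicalComplex.single _ _ 0).obj F ⟶ K),
      IsIso (j.f 0) ∧ (∀ n : ℤ, 0 < n → IsZero (K.X n)) ∧ (∀ n : ℤ, n < 0 → c.Contr (K.X n)) ∧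
      (∀ q : ℕ, Nonempty (K.homology (-(q : ℤ)) ≅ (c.piq q).obj F)) ∧
      ∀ P : Fn D L → Prop, (∀ G G', Nonempty (G ≅ G') → P G → P G') → (∀ G, IsZero G → P G) →
        (∀ G, P G → P (c.PP.obj G)) → (∀ G, P G → P (c.Om.obj G)) → P F → ∀ n, P (K.X n) := by
  have z : ∀ n : ℤ, 0 < n → IsZero (((c.Cpx_C F).extend ComplexShape.embeddingDownNat).X n) :=
    fun n hn => HomologicalComplex.isZero_extend_X _ _ _ fun i hi => by
      have : -(i : ℤ) = n := hi
      omega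
  have x : ∀ (q : ℕ) (n : ℤ), -(q : ℤ) = n →
      (((c.Cpx_C F).extend ComplexShape.embeddingDownNat).X n ≅ c.Cpx_X F q) :=
    fun q n h => (c.Cpx_C F).extendXIso ComplexShape.embeddingDownNat h
  refine ⟨(c.Cpx_C F).extend ComplexShape.embeddingDownNat,
    HomologicalComplex.mkHomFromSingle (x 0 0 rfl).inv fun k hk => (z k ?_).eq_of_tgt _ _,
    ?_, z, fun n hn => ?_, fun q => ?_, fun P p1 p2 p3 p4 p5 n => ?_⟩
  · have : (0 : ℤ) + 1 = k := hk
    omega
  · rw [HomologicalComplex.mkHomFromSingle_f]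
    infer_instance
  · obtain ⟨q, hq⟩ : ∃ q : ℕ, -((q + 1 : ℕ) : ℤ) = n := ⟨(-n - 1).toNat, by omega⟩
    exact c.Cpx_contr (x _ _ hq) (contr_PP _)
  · obtain ⟨e⟩ := c.Cpx_C_homology F q
    exact ⟨(c.Cpx_C F).extendHomologyIso ComplexShape.embeddingDownNat rfl ≪≫ e ≪≫
      eqToIso (c.Cpx_piq q F).symm⟩
  · have hW : ∀ q, P (c.Cpx_W F q) := fun q => by
      induction q with
      | zero => exact p5
      | succ q ih => exact p4 _ ih
    rcases lt_or_ge 0 n with hn | hn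
    · exact p2 _ (z n hn)
    · obtain ⟨q, hq⟩ : ∃ q : ℕ, -(q : ℤ) = n := ⟨(-n).toNat, by omega⟩
      refine p1 _ _ ⟨(x q n hq).symm⟩ ?_
      cases q with
      | zero => exact p5
      | succ q => exact p3 _ (hW q)

section additive

theorem Cpx_add_fn [Preadditive D] {G : Fn D L} [G.Additive] (S : SubF G) : S.fn.Additive :=
  ⟨fun {B B' f g} => by
    ext x
    exact Subtype.ext (congrArg (fun k => k.hom x.1) (G.map_add (f := f) (g := g)))⟩

theorem Cpx_add_quot [Preadditive D] {G : Fn D L} [G.Additive] (S : SubF G) : S.quot.Additive :=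
  ⟨fun {B B' f g} => by
    ext x
    obtain ⟨y, rfl⟩ := (S.N B).mkQ_surjective x
    exact congrArg (fun k => (S.N B').mkQ (k.hom y)) (G.map_add (f := f) (g := g))⟩

variable [Preadditive D] [c.I.Additive] (F : Fn D L) [F.Additive]

instance : (c.PP.obj F).Additive := Cpx_add_fn (kerS (c.e1 F))

instance : (c.Om.obj F).Additive := Cpx_add_fn (kerS (c.ev F))

instance : (c.pi0.obj F).Additive := Cpx_add_quot (imS (c.ev F))

instance (q : ℕ) : ((c.piq q).obj F).Additive := by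
  induction q generalizing F with
  | zero => exact inferInstanceAs (c.pi0.obj F).Additive
  | succ q ih =>
    rw [piq_succ_obj]
    exact ih _

end additive

end CylD

end Pool.Agent.KEW.L8
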