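import Mathlib

/-!
KEW project, layer L8a: cylinders on a category, path objects, loop objects and the naive homotopy
groups of functors to modules.
-/

set_option backward.isDefEq.respectTransparency false

noncomputable section

open CategoryTheory

namespace Pool.Agent.KEW.L8

universe v u v' u'

/-- Functors from `D` to modules. -/
abbrev Fn (D : Type u) [Category.{v} D] (L : Type 1) [CommRing L] := D ⥤ ModuleCat.{1} L

variable {D : Type u} [Category.{v} D] {L : Type 1} [CommRing L]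

section kercok

variable {F G H : Fn D L}

theorem nat_apply (α : F ⟶ G) {B B' : D} (f : B ⟶ B') (x : F.obj B) :
    α.app B' (F.map f x) = G.map f (α.app B x) := by
  have := α.naturality f
  exact congrArg (fun k => k.hom x) this

theorem map_map (F : Fn D L) {B B' B'' : D} (f : B ⟶ B') (g : B' ⟶ B'') (x : F.obj B) :
    F.map g (F.map f x) = F.map (f ≫ g) x := by
  rw [F.map_comp]
  rfl

theorem map_id' (F : Fn D L) (B : D) (x : F.obj B) : F.map (𝟙 B) x = x := by
  rw [F.map_id]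
  rfl

theorem fn_ext {α β : F ⟶ G} (h : ∀ B x, α.app B x = β.app B x) : α = β := by
  ext B x
  exact h B x

/-- A family of submodules stable under the structure maps. -/
structure SubF (F : Fn D L) where
  /-- the submodules -/
  N : ∀ B, Submodule L (F.obj B)
  map_mem : ∀ {B B' : D} (f : B ⟶ B') {x : F.obj B}, x ∈ N B → F.map f x ∈ N B'

/-- The subfunctor. -/
def SubF.fn (S : SubF F) : Fn D L where
  obj B := ModuleCat.of L (S.N B)
  map f := ModuleCat.ofHom ((F.map f).hom.restrict fun _ h => S.map_mem f h)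
  map_id B := by
    ext x
    exact map_id' F B x.1
  map_comp f g := by
    ext x
    exact (map_map F f g x.1).symm

/-- The inclusion of the subfunctor. -/
def SubF.ι (S : SubF F) : S.fn ⟶ F where
  app B := ModuleCat.ofHom (S.N B).subtype
  naturality _ _ _ := rfl

/-- Maps into the subfunctor. -/
def SubF.lift (S : SubF F) (β : H ⟶ F) (h : ∀ B x, β.app B x ∈ S.N B) : H ⟶ S.fn where
  app B := ModuleCat.ofHom ((β.app B).hom.codRestrict _ (h B))
  naturality _ _ f := by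
    ext x
    exact Subtype.ext (nat_apply β f x)

/-- The quotient functor. -/
def SubF.quot (S : SubF F) : Fn D L where
  obj B := ModuleCat.of L (F.obj B ⧸ S.N B)
  map f := ModuleCat.ofHom (Submodule.mapQ _ _ (F.map f).hom fun _ h => S.map_mem f h)
  map_id B := by
    ext x
    exact congrArg Submodule.Quotient.mk (map_id' F B x)
  map_comp f g := by
    ext x
    exact congrArg Submodule.Quotient.mk (map_map F f g x).symm

/-- The projection to the quotient functor. -/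
def SubF.π (S : SubF F) : F ⟶ S.quot where
  app B := ModuleCat.ofHom (S.N B).mkQ
  naturality _ _ _ := rfl

/-- Maps out of the quotient functor. -/
def SubF.desc (S : SubF F) (β : F ⟶ H) (h : ∀ B x, x ∈ S.N B → β.app B x = 0) : S.quot ⟶ H where
  app B := ModuleCat.ofHom ((S.N B).liftQ (β.app B).hom (h B))
  naturality B _ f := by
    ext x
    obtain ⟨y, rfl⟩ := (S.N B).mkQ_surjective x
    exact nat_apply β f y

theorem SubF.ι_inj (S : SubF F) (B : D) : Function.Injective (S.ι.app B) := Subtype.val_injective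

theorem SubF.ι_mem (S : SubF F) (B : D) (x : S.fn.obj B) : S.ι.app B x ∈ S.N B := x.2

theorem SubF.exists_ι (S : SubF F) {B : D} {x : F.obj B} (h : x ∈ S.N B) :
    ∃ y, S.ι.app B y = x := ⟨⟨x, h⟩, rfl⟩

theorem SubF.ι_lift (S : SubF F) (β : H ⟶ F) (h : ∀ B x, β.app B x ∈ S.N B) (B : D)
    (x : H.obj B) : S.ι.app B ((S.lift β h).app B x) = β.app B x := rfl

theorem SubF.lift_ι (S : SubF F) (β : H ⟶ F) (h : ∀ B x, β.app B x ∈ S.N B) :
    S.lift β h ≫ S.ι = β := rfl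

theorem SubF.π_surj (S : SubF F) (B : D) : Function.Surjective (S.π.app B) :=
  Submodule.mkQ_surjective _

theorem SubF.π_eq_zero (S : SubF F) (B : D) (x : F.obj B) : S.π.app B x = 0 ↔ x ∈ S.N B :=
  Submodule.Quotient.mk_eq_zero _

theorem SubF.desc_π (S : SubF F) (β : F ⟶ H) (h : ∀ B x, x ∈ S.N B → β.app B x = 0) (B : D)
    (x : F.obj B) : (S.desc β h).app B (S.π.app B x) = β.app B x := rfl

theorem SubF.π_desc (S : SubF F) (β : F ⟶ H) (h : ∀ B x, x ∈ S.N B → β.app B x = 0) :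
    S.π ≫ S.desc β h = β := rfl

/-- The kernel of a natural transformation. -/
def kerS (α : F ⟶ G) : SubF F where
  N B := LinearMap.ker (α.app B).hom
  map_mem f x hx := by
    change α.app _ (F.map f x) = 0
    rw [nat_apply, show α.app _ x = 0 from hx, map_zero]

/-- The image of a natural transformation. -/
def imS (α : F ⟶ G) : SubF G where
  N B := LinearMap.range (α.app B).hom
  map_mem f := by
    rintro _ ⟨x, rfl⟩
    exact ⟨F.map f x, nat_apply α f x⟩

/-- The joint kernel of a set of natural transformations. -/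
def kerSet (s : Set (F ⟶ G)) : SubF F where
  N B := ⨅ α ∈ s, LinearMap.ker (α.app B).hom
  map_mem f x hx := by
    simp only [Submodule.mem_iInf] at hx ⊢
    exact fun α hα => (kerS α).map_mem f (hx α hα)

theorem mem_kerS (α : F ⟶ G) (B : D) (x : F.obj B) : x ∈ (kerS α).N B ↔ α.app B x = 0 := Iff.rfl

theorem mem_imS (α : F ⟶ G) (B : D) (y : G.obj B) : y ∈ (imS α).N B ↔ ∃ x, α.app B x = y :=
  Iff.rfl

theorem mem_kerSet (s : Set (F ⟶ G)) (B : D) (x : F.obj B) :
    x ∈ (kerSet s).N B ↔ ∀ α ∈ s, α.app B x = 0 := by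
  simp only [kerSet, Submodule.mem_iInf]
  rfl

end kercok

/-- A cylinder on `D`, written covariantly (think of `D` as a category of rings and of `I B` as
`B[s]`).  In `I (I B) = B[s][s']` the maps `i0 (I B)`, `i1 (I B)` evaluate the outer variable
`s'` and the maps `I.map (i0 B)`, `I.map (i1 B)` evaluate the inner variable `s`; `mu` is
`s ↦ s + s' - s s'` and `sw` exchanges the two variables. -/
structure CylD (D : Type u) [Category.{v} D] where
  /-- the cylinder functor -/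
  I : D ⥤ D
  /-- the constants -/
  p : ∀ B : D, B ⟶ I.obj B
  /-- evaluation at `0` -/
  i0 : ∀ B : D, I.obj B ⟶ B
  /-- evaluation at `1` -/
  i1 : ∀ B : D, I.obj B ⟶ B
  /-- the comultiplication -/
  mu : ∀ B : D, I.obj B ⟶ I.obj (I.obj B)
  /-- the exchange of the variables -/
  sw : ∀ B : D, I.obj (I.obj B) ⟶ I.obj (I.obj B)
  p_nat : ∀ {B B' : D} (f : B ⟶ B'), f ≫ p B' = p B ≫ I.map f
  i0_nat : ∀ {B B' : D} (f : B ⟶ B'), I.map f ≫ i0 B' = i0 B ≫ f
  i1_nat : ∀ {B B' : D} (f : B ⟶ B'), I.map f ≫ i1 B' = i1 B ≫ f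
  mu_nat : ∀ {B B' : D} (f : B ⟶ B'), I.map f ≫ mu B' = mu B ≫ I.map (I.map f)
  sw_nat : ∀ {B B' : D} (f : B ⟶ B'), I.map (I.map f) ≫ sw B' = sw B ≫ I.map (I.map f)
  p_i0 : ∀ B, p B ≫ i0 B = 𝟙 B
  p_i1 : ∀ B, p B ≫ i1 B = 𝟙 B
  mu_out0 : ∀ B, mu B ≫ i0 (I.obj B) = 𝟙 (I.obj B)
  mu_out1 : ∀ B, mu B ≫ i1 (I.obj B) = i1 B ≫ p B
  mu_in0 : ∀ B, mu B ≫ I.map (i0 B) = 𝟙 (I.obj B)
  mu_in1 : ∀ B, mu B ≫ I.map (i1 B) = i1 B ≫ p B
  sw_out0 : ∀ B, sw B ≫ i0 (I.obj B) = I.map (i0 B)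
  sw_out1 : ∀ B, sw B ≫ i1 (I.obj B) = I.map (i1 B)
  sw_sw : ∀ B, sw B ≫ sw B = 𝟙 (I.obj (I.obj B))

namespace CylD

variable (c : CylD D)

theorem sw_in0 (B : D) : c.sw B ≫ c.I.map (c.i0 B) = c.i0 (c.I.obj B) := by
  rw [← c.sw_out0, ← Category.assoc, c.sw_sw, Category.id_comp]

theorem sw_in1 (B : D) : c.sw B ≫ c.I.map (c.i1 B) = c.i1 (c.I.obj B) := by
  rw [← c.sw_out1, ← Category.assoc, c.sw_sw, Category.id_comp]

/-- Evaluation at `0` on `F ∘ I`. -/
def e0 (F : Fn D L) : c.I ⋙ F ⟶ F where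
  app B := F.map (c.i0 B)
  naturality _ _ f := (F.map_comp _ _).symm.trans
    ((congrArg F.map (c.i0_nat f)).trans (F.map_comp _ _))

/-- Evaluation at `1` on `F ∘ I`. -/
def e1 (F : Fn D L) : c.I ⋙ F ⟶ F where
  app B := F.map (c.i1 B)
  naturality _ _ f := (F.map_comp _ _).symm.trans
    ((congrArg F.map (c.i1_nat f)).trans (F.map_comp _ _))

/-- The path object `PF = ker (F ∘ I ⟶ F)` (evaluation at `1`). -/
def PP : Fn D L ⥤ Fn D L where
  obj F := (kerS (c.e1 F)).fn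
  map {F G} α := (kerS (c.e1 G)).lift ((kerS (c.e1 F)).ι ≫ Functor.whiskerLeft c.I α)
    fun B x => by
      change G.map (c.i1 B) (α.app _ x.1) = 0
      rw [← nat_apply, show F.map (c.i1 B) x.1 = 0 from x.2, map_zero]
  map_id _ := rfl
  map_comp _ _ := rfl

/-- The inclusion `PF ⟶ F ∘ I`. -/
def Pι (F : Fn D L) : c.PP.obj F ⟶ c.I ⋙ F := (kerS (c.e1 F)).ι

/-- The end point map `PF ⟶ F` (evaluation at `0`). -/
def ev (F : Fn D L) : c.PP.obj F ⟶ F := c.Pι F ≫ c.e0 F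

theorem ev_nat {F G : Fn D L} (α : F ⟶ G) : c.PP.map α ≫ c.ev G = c.ev F ≫ α :=
  fn_ext fun B x => (nat_apply α (c.i0 B) x.1).symm

/-- The loop object `ΩF = ker (PF ⟶ F)`. -/
def Om : Fn D L ⥤ Fn D L where
  obj F := (kerS (c.ev F)).fn
  map {F G} α := (kerS (c.ev G)).lift ((kerS (c.ev F)).ι ≫ c.PP.map α) fun B x => by
      change (c.PP.map α ≫ c.ev G).app B x.1 = 0
      rw [ev_nat]
      change α.app B ((c.ev F).app B x.1) = 0
      rw [show (c.ev F).app B x.1 = 0 from x.2, map_zero]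
  map_id _ := rfl
  map_comp _ _ := rfl

/-- The inclusion `ΩF ⟶ PF`. -/
def Oι (F : Fn D L) : c.Om.obj F ⟶ c.PP.obj F := (kerS (c.ev F)).ι

/-- The naive `π_0 F = F / ev (PF)`. -/
def pi0 : Fn D L ⥤ Fn D L where
  obj F := (imS (c.ev F)).quot
  map {F G} α := (imS (c.ev F)).desc (α ≫ (imS (c.ev G)).π) fun B x hx => by
      obtain ⟨y, rfl⟩ := hx
      refine (SubF.π_eq_zero _ _ _).2 ⟨(c.PP.map α).app B y, ?_⟩
      change (c.PP.map α ≫ c.ev G).app B y = _
      rw [ev_nat]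
      rfl
  map_id F := fn_ext fun B x => by
    obtain ⟨y, rfl⟩ := (imS (c.ev F)).π_surj B x
    rfl
  map_comp {F _ _} α β := fn_ext fun B x => by
    obtain ⟨y, rfl⟩ := (imS (c.ev F)).π_surj B x
    rfl

/-- The projection `F ⟶ π_0 F`. -/
def pr0 (F : Fn D L) : F ⟶ c.pi0.obj F := (imS (c.ev F)).π

/-- Iterated loop objects, `Ω^(q+1) F = Ω^q (Ω F)`. -/
def OmN : ℕ → (Fn D L ⥤ Fn D L)
  | 0 => 𝟭 _
  | q + 1 => c.Om ⋙ OmN q

/-- The naive homotopy groups `π_q F = π_0 Ω^q F`; `π_(q+1) F = π_q Ω F` holds by definition. -/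
def piq (q : ℕ) : Fn D L ⥤ Fn D L := c.OmN q ⋙ c.pi0

/-- The projection `Ω^q F ⟶ π_q F`. -/
def prq (q : ℕ) (F : Fn D L) : (c.OmN q).obj F ⟶ (c.piq q).obj F := c.pr0 _

theorem OmN_succ_obj (q : ℕ) (K : Fn D L) :
    (c.OmN (q + 1)).obj K = (c.OmN q).obj (c.Om.obj K) := rfl

theorem piq_succ_obj (q : ℕ) (K : Fn D L) :
    (c.piq (q + 1)).obj K = (c.piq q).obj (c.Om.obj K) := rfl

theorem OmN_succ_map (q : ℕ) {F G : Fn D L} (f : F ⟶ G) :
    (c.OmN (q + 1)).map f = (c.OmN q).map (c.Om.map f) := rfl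

theorem piq_succ_map (q : ℕ) {F G : Fn D L} (f : F ⟶ G) :
    (c.piq (q + 1)).map f = (c.piq q).map (c.Om.map f) := rfl

section api

variable {F G : Fn D L} {B B' : D}

theorem Pι_inj (F : Fn D L) (B : D) : Function.Injective ((c.Pι F).app B) := Subtype.val_injective

theorem e1_Pι (x : (c.PP.obj F).obj B) : F.map (c.i1 B) ((c.Pι F).app B x) = 0 := x.2

theorem exists_Pι {x : F.obj (c.I.obj B)} (h : F.map (c.i1 B) x = 0) :
    ∃ y : (c.PP.obj F).obj B, (c.Pι F).app B y = x := ⟨⟨x, h⟩, rfl⟩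

theorem ev_apply (x : (c.PP.obj F).obj B) :
    (c.ev F).app B x = F.map (c.i0 B) ((c.Pι F).app B x) := rfl

theorem Pι_map (f : B ⟶ B') (x : (c.PP.obj F).obj B) :
    (c.Pι F).app B' ((c.PP.obj F).map f x) = F.map (c.I.map f) ((c.Pι F).app B x) := rfl

theorem Pι_nat (α : F ⟶ G) (x : (c.PP.obj F).obj B) :
    (c.Pι G).app B ((c.PP.map α).app B x) = α.app (c.I.obj B) ((c.Pι F).app B x) := rfl

theorem Oι_inj (F : Fn D L) (B : D) : Function.Injective ((c.Oι F).app B) := Subtype.val_injective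

theorem ev_Oι (x : (c.Om.obj F).obj B) : (c.ev F).app B ((c.Oι F).app B x) = 0 := x.2

theorem exists_Oι {x : (c.PP.obj F).obj B} (h : (c.ev F).app B x = 0) :
    ∃ y : (c.Om.obj F).obj B, (c.Oι F).app B y = x := ⟨⟨x, h⟩, rfl⟩

theorem Oι_map (f : B ⟶ B') (x : (c.Om.obj F).obj B) :
    (c.Oι F).app B' ((c.Om.obj F).map f x) = (c.PP.obj F).map f ((c.Oι F).app B x) := rfl

theorem Oι_nat (α : F ⟶ G) (x : (c.Om.obj F).obj B) :
    (c.Oι G).app B ((c.Om.map α).app B x) = (c.PP.map α).app B ((c.Oι F).app B x) := rfl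

theorem pr0_surj (F : Fn D L) (B : D) : Function.Surjective ((c.pr0 F).app B) :=
  (imS (c.ev F)).π_surj B

theorem pr0_nat (α : F ⟶ G) (x : F.obj B) :
    (c.pi0.map α).app B ((c.pr0 F).app B x) = (c.pr0 G).app B (α.app B x) := rfl

theorem pr0_eq_zero (x : F.obj B) : (c.pr0 F).app B x = 0 ↔ ∃ y, (c.ev F).app B y = x :=
  SubF.π_eq_zero _ _ _

/-- An element dies in `π_0` iff it is homotopic to zero. -/
theorem pr0_eq_zero' (x : F.obj B) : (c.pr0 F).app B x = 0 ↔
    ∃ h : F.obj (c.I.obj B), F.map (c.i1 B) h = 0 ∧ F.map (c.i0 B) h = x :=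
  (c.pr0_eq_zero x).trans ⟨fun ⟨y, hy⟩ => ⟨y.1, y.2, hy⟩, fun ⟨h, h1, h0⟩ => ⟨⟨h, h1⟩, h0⟩⟩

end api

/-- `K` is contractible. -/
def Contr (K : Fn D L) : Prop :=
  ∃ h : K ⟶ c.I ⋙ K, h ≫ c.e0 K = 𝟙 K ∧ h ≫ c.e1 K = 0

/-- A class of objects stable under the cylinder. -/
def Stab (S : D → Prop) : Prop := ∀ B, S B → S (c.I.obj B)

/-- All homotopy groups of `K` vanish on the objects in `S`. -/
def Null (S : D → Prop) (K : Fn D L) : Prop :=
  ∀ (q : ℕ) (B : D), S B → ∀ x : ((c.piq q).obj K).obj B, x = 0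

/-- `f` is bijective on all homotopy groups on the objects in `S`. -/
def PiEq (S : D → Prop) {F G : Fn D L} (f : F ⟶ G) : Prop :=
  ∀ (q : ℕ) (B : D), S B → Function.Bijective (((c.piq q).map f).app B)

/-- `G` is homotopy invariant on the objects in `S`. -/
def Inv (S : D → Prop) (G : Fn D L) : Prop :=
  ∀ B : D, S B → Function.Surjective (G.map (c.p B))

end CylD

end Pool.Agent.KEW.L8
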