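import Pool.Agent.P.MP_6277db_ag.KEW.L8a.EntD
import Pool.Agent.P.MP_6277db_ag.KEW.L8a.Ann

/-!
KEW project, layer L8a: the calculus of matrix entries.
-/

set_option backward.isDefEq.respectTransparency false

noncomputable section

open CategoryTheory Limits AlgebraicGeometry Polynomial TensorProduct

namespace Pool.Agent.KEW.L8

open _root_.KEW

variable {A F : Type} [CommRing A] [Field F] {φ : A →+* F} {m : ℕ} {π : A}
  {B B' : Alg A} {R R' : Alg F}

/-- Field valued points of `F` are determined by their restriction along `φ`. -/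
def Rd (φ : A →+* F) : Prop :=
  ∀ (K : Type) [Field K] (y y' : F →+* K), y.comp φ = y'.comp φ → y = y'

theorem rd_of_insep (hπ : φ π ≠ 0)
    (h : ∃ p : ℕ, ExpChar F p ∧ ∀ y : F, ∃ (k N : ℕ) (a : A), y ^ p ^ k * φ π ^ N = φ a) :
    Rd φ := by
  obtain ⟨p, hp, h⟩ := h
  intro K _ y y' e
  have hK : ExpChar K p := expChar_of_injective_ringHom y.injective p
  have e' : ∀ a, y (φ a) = y' (φ a) := RingHom.congr_fun e
  refine RingHom.ext fun z => ?_
  obtain ⟨k, N, a, ha⟩ := h z
  have h1 := congrArg y ha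
  have h2 := congrArg y' ha
  rw [map_mul, map_pow, map_pow] at h1 h2
  rw [← e', ← e', ← h1] at h2
  have h3 := mul_right_cancel₀ (pow_ne_zero N ((map_ne_zero y).2 hπ)) h2
  exact (iterateFrobenius_inj K p k h3).symm

theorem int_of_insep
    (h : ∃ p : ℕ, ExpChar F p ∧ ∀ y : F, ∃ (k N : ℕ) (a : A), y ^ p ^ k * φ π ^ N = φ a) (y : F) :
    ∃ e : ℕ, φ.IsIntegralElem (φ π ^ e * y) := by
  obtain ⟨p, hp, h⟩ := h
  obtain ⟨k, N, a, ha⟩ := h y
  have h0 : 0 < p ^ k := expChar_pow_pos F p k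
  obtain ⟨n, hn⟩ := Nat.exists_eq_succ_of_ne_zero h0.ne'
  rw [hn] at ha
  refine ⟨N, X ^ (n + 1) - C (π ^ (N * n) * a), monic_X_pow_sub_C _ n.succ_ne_zero, ?_⟩
  rw [eval₂_sub, eval₂_X_pow, eval₂_C, map_mul, map_pow, ← ha]
  simp only [Nat.succ_eq_add_one]
  ring

section pt

variable {K : Type} [CommRing K]

theorem Ent_bPt_eq {x : B.R →+* K} {t : F →+* K} (h : x.comp B.s = t.comp φ)
    {a : (bO φ B).R →+* K} (h1 : a.comp (bI φ B) = x) (h2 : a.comp (bO φ B).s = t) :
    bPt x t h = a :=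
  (bPO φ B).hom_ext ((bPt_bI φ x t h).trans h1.symm) ((bPt_s φ x t h).trans h2.symm)

theorem Ent_compat {a : (bO φ B).R →+* K} {t : F →+* K} (h : a.comp (bO φ B).s = t) :
    (a.comp (bI φ B)).comp B.s = t.comp φ := by
  rw [RingHom.comp_assoc, (bPO φ B).comm, ← RingHom.comp_assoc, h]

theorem Ent_over {a : (bO φ B).R →+* K} {y : R.R →+* K} :
    spm a ≫ (spO (bO φ B).s).hom = spm y ≫ (spO R.s).hom ↔ a.comp (bO φ B).s = y.comp R.s := by
  change spm a ≫ spm (bO φ B).s = spm y ≫ spm R.s ↔ _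
  rw [spm_comp, spm_comp]
  exact ⟨spm_injective, fun h => by rw [h]⟩

end pt

section en

variable {K : Type} [Field K] (c c' : ZZ φ m B R) (x : B.R →+* K) (y : R.R →+* K)

theorem Ent_pos (h : x.comp B.s = (y.comp R.s).comp φ) :
    en c x y = Corr.ent c (spm (bPt x (y.comp R.s) h)) (spm y) := dif_pos h

theorem Ent_neg (h : x.comp B.s ≠ (y.comp R.s).comp φ) : en c x y = 0 := dif_neg h

theorem Ent_ent {a : (bO φ B).R →+* K} (h : a.comp (bO φ B).s = y.comp R.s) :
    en c (a.comp (bI φ B)) y = Corr.ent c (spm a) (spm y) := by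
  rw [Ent_pos c _ y (Ent_compat h), Ent_bPt_eq _ rfl h]

theorem en_compat (h : en c x y ≠ 0) : x.comp B.s = (y.comp R.s).comp φ := by
  by_contra h'
  exact h (Ent_neg c x y h')

theorem en_pi_ne (hπ : φ π ≠ 0) (h : en c x y ≠ 0) : x (B.s π) ≠ 0 := by
  have e : x (B.s π) = (y.comp R.s) (φ π) := RingHom.congr_fun (en_compat c x y h) π
  rw [e]
  exact (_root_.map_ne_zero _).2 hπ

theorem en_add : en (c + c') x y = en c x y + en c' x y := by
  by_cases h : x.comp B.s = (y.comp R.s).comp φ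
  · simp only [Ent_pos _ x y h]
    exact Corr.ent_add _ _ _ _
  · simp only [Ent_neg _ x y h, add_zero]

theorem en_zero : en (0 : ZZ φ m B R) x y = 0 := by
  by_cases h : x.comp B.s = (y.comp R.s).comp φ
  · simp only [Ent_pos _ x y h]
    exact Corr.ent_zero _ _
  · simp only [Ent_neg _ x y h]

theorem en_neg : en (-c) x y = -en c x y := by
  by_cases h : x.comp B.s = (y.comp R.s).comp φ
  · simp only [Ent_pos _ x y h]
    exact Corr.ent_neg _ _ _
  · simp only [Ent_neg _ x y h, neg_zero]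

theorem en_sub : en (c - c') x y = en c x y - en c' x y := by
  rw [sub_eq_add_neg, en_add, en_neg, sub_eq_add_neg]

theorem en_nsmul (n : ℕ) : en (n • c) x y = n * en c x y := by
  induction n with
  | zero => rw [zero_nsmul, en_zero, Nat.cast_zero, zero_mul]
  | succ n ih => rw [succ_nsmul, en_add, ih, Nat.cast_succ, add_mul, one_mul]

theorem en_pull (g : B ⟶ B') (x' : B'.R →+* K) : en (pullZ g c) x' y = en c (x'.comp g.1) y := by
  have e : (x'.comp g.1).comp B.s = x'.comp B'.s := by rw [RingHom.comp_assoc, g.2]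
  by_cases h : x'.comp B'.s = (y.comp R.s).comp φ
  · rw [Ent_pos _ x' y h, Ent_pos _ _ y (e.trans h), pullZ, Corr.ent_pull,
      Ent_bPt_eq (e.trans h) (a := (bPt x' (y.comp R.s) h).comp (bM φ g).1), ← spm_comp]
    · rfl
    · rw [RingHom.comp_assoc, bM_bI, ← RingHom.comp_assoc, bPt_bI]
    · rw [RingHom.comp_assoc, (bM φ g).2, bPt_s]
  · rw [Ent_neg _ x' y h, Ent_neg _ _ y (by rwa [e])]

theorem en_ext_field {K' : Type} [Field K'] (j : K →+* K') :
    en c (j.comp x) (j.comp y) = en c x y := by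
  by_cases h : x.comp B.s = (y.comp R.s).comp φ
  · have h' : (j.comp x).comp B.s = ((j.comp y).comp R.s).comp φ := by
      rw [RingHom.comp_assoc, h]
      rfl
    rw [Ent_pos _ x y h, Ent_pos _ _ _ h', Ent_bPt_eq h' (a := j.comp (bPt x (y.comp R.s) h)),
      ← spm_comp, ← spm_comp]
    · exact Corr.ent_spm j c _ _
    · rw [RingHom.comp_assoc, bPt_bI]
    · rw [RingHom.comp_assoc, bPt_s, RingHom.comp_assoc]
  · rw [Ent_neg _ x y h, Ent_neg]
    exact fun h' => h (RingHom.ext fun a => j.injective (RingHom.congr_fun h' a))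

theorem en_finite' [IsAlgClosed K] (t : F →+* K) :
    {y : R.R →+* K | y.comp R.s = t ∧ en c x y ≠ 0}.Finite := by
  by_cases h : x.comp B.s = t.comp φ
  · refine ((Corr.finite_ent c (spm (bPt x t h))).preimage (f := fun y : R.R →+* K => spm y)
      fun y _ y' _ e => spm_injective e).subset ?_
    rintro y ⟨rfl, hy⟩
    rwa [Ent_pos c x y h] at hy
  · refine Set.finite_empty.subset ?_
    rintro y ⟨rfl, hy⟩
    exact h (en_compat c x y hy)

theorem en_finite [IsAlgClosed K] (hr : Rd φ) :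
    (Function.support fun y : R.R →+* K => en c x y).Finite := by
  rcases Set.eq_empty_or_nonempty (Function.support fun y : R.R →+* K => en c x y) with
    e | ⟨y0, h0⟩
  · rw [e]
    exact Set.finite_empty
  · exact (en_finite' c x (y0.comp R.s)).subset fun y hy =>
      ⟨hr K _ _ ((en_compat c x y hy).symm.trans (en_compat c x y0 h0)), hy⟩

theorem en_push [IsAlgClosed K] (k : R' ⟶ R) (y' : R'.R →+* K) :
    en (pushZ k c) x y' = ∑ᶠ y ∈ {y : R.R →+* K | y.comp k.1 = y'}, en c x y := by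
  have e : ∀ y : R.R →+* K, y.comp k.1 = y' → y.comp R.s = y'.comp R'.s := fun y hy => by
    rw [← hy, RingHom.comp_assoc, k.2]
  by_cases h : x.comp B.s = (y'.comp R'.s).comp φ
  · rw [Ent_pos _ x y' h, pushZ, Corr.ent_push]
    refine (finsum_mem_eq_of_bijOn (fun y : R.R →+* K => spm y) ⟨fun y hy => ?_,
      fun y _ y'' _ e => spm_injective e, fun b hb => ?_⟩ fun y hy => ?_).symm
    · exact (spm_comp k.1 y).trans (congrArg spm hy)
    · obtain ⟨y, rfl⟩ := spm_surjective b
      exact ⟨y, spm_injective ((spm_comp k.1 y).symm.trans hb), rfl⟩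
    · have h' : x.comp B.s = (y.comp R.s).comp φ := by rw [e y hy, h]
      rw [Ent_pos _ x y h', Ent_bPt_eq h' (bPt_bI φ x _ h) ((bPt_s φ x _ h).trans (e y hy).symm)]
  · rw [Ent_neg _ x y' h]
    refine (finsum_mem_eq_zero_of_forall_eq_zero fun y hy => Ent_neg _ x y ?_).symm
    rwa [e y hy]

end en

theorem ext_en {c c' : ZZ φ m B R}
    (h : ∀ (K : Type) [Field K] [IsAlgClosed K] (x : B.R →+* K) (y : R.R →+* K),
      en c x y = en c' x y) : c = c' := by
  refine Corr.ext_ent fun K _ _ a b => ?_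
  obtain ⟨a, rfl⟩ := spm_surjective a
  obtain ⟨b, rfl⟩ := spm_surjective b
  by_cases w : a.comp (bO φ B).s = b.comp R.s
  · rw [← Ent_ent c b w, ← Ent_ent c' b w, h]
  · rw [Corr.ent_of_ne c _ _ fun e => w (Ent_over.1 e),
      Corr.ent_of_ne c' _ _ fun e => w (Ent_over.1 e)]

theorem Ent_po (g : B ⟶ B') : IsPO g.1 (bI φ B) (bI φ B') (bM φ g).1 :=
  (bPO φ B).cancel' (bM_bI φ g).symm (by rw [g.2, (bM φ g).2]; exact bPO φ B')

theorem Ent_unit (hπ : φ π ≠ 0) (B : Alg A) : IsUnit (bI φ B (B.s π)) := by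
  rw [(bPO φ B).comm_apply]
  exact hπ.isUnit.map _

theorem bM_bijective (hπ : φ π ≠ 0) {g : B ⟶ B'} (h : PI π g) : Function.Bijective (bM φ g).1 :=
  (PIso.of_po (Ent_po g) h).bijective (Ent_unit hπ B)

theorem pullZ_bijective (hπ : φ π ≠ 0) {g : B ⟶ B'} (h : PI π g) :
    Function.Bijective (pullZ g : ZZ φ m B R → ZZ φ m B' R) := by
  let e := RingEquiv.ofBijective _ (bM_bijective hπ h)
  have h1 : (e.symm : _ →+* _).comp (bM φ g).1 = RingHom.id _ :=
    RingHom.ext fun z => e.symm_apply_apply z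
  have h2 : (bM φ g).1.comp (e.symm : _ →+* _) = RingHom.id _ :=
    RingHom.ext fun z => e.apply_symm_apply z
  let k : bO φ B' ⟶ bO φ B := ⟨e.symm, by
    rw [← (bM φ g).2, ← RingHom.comp_assoc, h1, RingHom.id_comp]⟩
  have h3 : bM φ g ≫ k = 𝟙 _ := Alg.hom_ext h1
  have h4 : k ≫ bM φ g = 𝟙 _ := Alg.hom_ext h2
  refine Function.bijective_iff_has_inverse.2 ⟨Corr.pull m (spA k) _, fun c => ?_, fun c => ?_⟩
  · rw [pullZ, Corr.pull_pull, ← spA_comp, h3, spA_id, Corr.pull_id]
  · rw [pullZ, Corr.pull_pull, ← spA_comp, h4, spA_id, Corr.pull_id]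

theorem MM_map_bijective (hπ : φ π ≠ 0) (L : Type 1) [CommRing L] {g : B ⟶ B'} (h : PI π g) :
    Function.Bijective ((MM φ m L R).map g) := by
  let e := AddEquiv.ofBijective (pullZ g : ZZ φ m B R →+ ZZ φ m B' R) (pullZ_bijective hπ h)
  have h1 : ext1 L (pullZ g : ZZ φ m B R →+ ZZ φ m B' R) ≫ ext1 L e.symm.toAddMonoidHom = 𝟙 _ :=
    (ext1_comp (k := AddMonoidHom.id _) fun c => (e.symm_apply_apply c).symm).symm.trans
      (ext1_id fun _ => rfl)
  have h2 : ext1 L e.symm.toAddMonoidHom ≫ ext1 L (pullZ g : ZZ φ m B R →+ ZZ φ m B' R) = 𝟙 _ :=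
    (ext1_comp (k := AddMonoidHom.id _) fun c => (e.apply_symm_apply c).symm).symm.trans
      (ext1_id fun _ => rfl)
  have : IsIso ((MM φ m L R).map g) := ⟨_, h1, h2⟩
  exact ConcreteCategory.bijective_of_isIso _

theorem Ent_surj {M : Type} [AddCommGroup M] (v : Lm m ⊗[ℤ] M) : ∃ c : M, 1 ⊗ₜ[ℤ] c = v := by
  induction v with
  | zero => exact ⟨0, tmul_zero _ _⟩
  | tmul l c =>
    obtain ⟨n, hn⟩ := ZMod.intCast_surjective l.down
    refine ⟨n • c, ?_⟩
    rw [← smul_tmul]
    congr 1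
    exact ULift.ext _ _ (by simpa using hn)
  | add v v' h h' =>
    obtain ⟨c, rfl⟩ := h
    obtain ⟨c', rfl⟩ := h'
    exact ⟨c + c', tmul_add _ _ _⟩

theorem Ent_zero {M : Type} [AddCommGroup M] (c : M) :
    (1 : Lm m) ⊗ₜ[ℤ] c = 0 ↔ ∃ d : M, m • d = c := by
  constructor
  · intro h
    let N : AddSubgroup M := (nsmulAddMonoidHom m).range
    let f0 : ZMod m →+ M →+ M ⧸ N := ZMod.lift m ⟨zmultiplesHom _ (QuotientAddGroup.mk' N),
      AddMonoidHom.ext fun d => (QuotientAddGroup.eq_zero_iff ((m : ℤ) • d)).2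
        ⟨d, (natCast_zsmul d m).symm⟩⟩
    let f : Lm m →+ M →+ M ⧸ N := f0.comp (AddEquiv.ulift : Lm m ≃+ ZMod m).toAddMonoidHom
    have h1 := congrArg (liftAddHom (R := ℤ) f fun r l d => by
      rw [map_zsmul, map_zsmul, AddMonoidHom.smul_apply]) h
    rw [liftAddHom_tmul, map_zero] at h1
    have h2 : f 1 = QuotientAddGroup.mk' N := by
      change f0 1 = _
      rw [← Int.cast_one, ZMod.lift_coe]
      exact one_zsmul _
    rw [h2] at h1
    exact (QuotientAddGroup.eq_zero_iff c).1 h1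
  · rintro ⟨d, rfl⟩
    have h : (m : ℤ) • (1 : Lm m) = 0 := ULift.ext _ _ (by simp)
    rw [← natCast_zsmul, ← smul_tmul, h, zero_tmul]

theorem one_surj (v : (MM φ m (Lm m) R).obj B) : ∃ c, one (Lm m) c = v := Ent_surj v

theorem one_eq_zero (c : ZZ φ m B R) : one (Lm m) c = 0 ↔ ∃ d : ZZ φ m B R, m • d = c :=
  Ent_zero c

section evp

variable {S S' T T' K K' : Type} [CommRing S] [CommRing S'] [CommRing T] [CommRing T']
  [CommRing K] [CommRing K']

theorem evp_inl (x : S →+* K) (y : S' →+* K) (s : S) :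
    evp x y (MvPolynomial.X (Sum.inl s)) = x s := MvPolynomial.eval₂Hom_X' _ _ _

theorem evp_inr (x : S →+* K) (y : S' →+* K) (s : S') :
    evp x y (MvPolynomial.X (Sum.inr s)) = y s := MvPolynomial.eval₂Hom_X' _ _ _

theorem evp_comp (j : K →+* K') (x : S →+* K) (y : S' →+* K) (W : MvPolynomial (S ⊕ S') ℤ) :
    evp (j.comp x) (j.comp y) W = j (evp x y W) := by
  refine RingHom.congr_fun (f := evp (j.comp x) (j.comp y)) (g := j.comp (evp x y))
    (MvPolynomial.ringHom_ext' (RingHom.ext_int _ _) ?_) W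
  rintro (s | s)
  · rw [RingHom.comp_apply, evp_inl, evp_inl, RingHom.comp_apply]
  · rw [RingHom.comp_apply, evp_inr, evp_inr, RingHom.comp_apply]

theorem evp_rename (g : S →+* T) (k : S' →+* T') (x : T →+* K) (y : T' →+* K)
    (W : MvPolynomial (S ⊕ S') ℤ) :
    evp x y (MvPolynomial.rename (Sum.map g k) W) = evp (x.comp g) (y.comp k) W := by
  refine RingHom.congr_fun (f := (evp x y).comp (MvPolynomial.rename (Sum.map g k)).toRingHom)
    (g := evp (x.comp g) (y.comp k)) (MvPolynomial.ringHom_ext' (RingHom.ext_int _ _) ?_) W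
  rintro (s | s)
  · change evp x y (MvPolynomial.rename _ _) = _
    rw [MvPolynomial.rename_X, Sum.map_inl, evp_inl, evp_inl, RingHom.comp_apply]
  · change evp x y (MvPolynomial.rename _ _) = _
    rw [MvPolynomial.rename_X, Sum.map_inr, evp_inr, evp_inr, RingHom.comp_apply]

end evp

/-- The fibre product as the spectrum of a ring. -/
theorem Ent_chart (B : Alg A) (R : Alg F) : ∃ (Z : Type) (_ : CommRing Z)
    (i : (bO φ B).R →+* Z) (j : R.R →+* Z)
    (e : Spec (.of Z) ≅ pullback (spO (bO φ B).s).hom (spO R.s).hom),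
    IsPO (bO φ B).s R.s i j ∧ e.hom ≫ pullback.fst _ _ = spm i ∧
      e.hom ≫ pullback.snd _ _ = spm j ∧ Function.Surjective (evp (i.comp (bI φ B)) j) := by
  obtain ⟨Z, _, i, j, h⟩ := exists_isPO (bO φ B).s R.s
  have pb : IsPullback (spm i) (spm j) (spO (bO φ B).s).hom (spO R.s).hom :=
    isPullback_SpecMap_of_isPushout _ _ _ _ h
  refine ⟨Z, inferInstance, i, j, pb.isoPullback, h, pb.isoPullback_hom_fst,
    pb.isoPullback_hom_snd, fun z => ?_⟩
  have hj : ∀ r, j r ∈ (evp (i.comp (bI φ B)) j).range := fun r => ⟨_, evp_inr _ _ r⟩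
  refine h.mem_subring (evp (i.comp (bI φ B)) j).range (fun o => ?_) hj z
  refine (bPO φ B).mem_subring ((evp (i.comp (bI φ B)) j).range.comap i)
    (fun b => ⟨_, evp_inl _ _ b⟩) (fun t => ?_) o
  rw [Subring.mem_comap, h.comm_apply]
  exact hj _

section cl

variable {K : Type} [Field K] {c c' : ZZ φ m B R} {x : B.R →+* K} {y : R.R →+* K}

theorem Cl.of_ne (h : en c x y ≠ 0) : Cl c x y := by
  intro W hW
  let j := algebraMap K (AlgebraicClosure K)
  have h1 := hW _ (j.comp x) (j.comp y) (by rwa [en_ext_field])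
  rw [evp_comp] at h1
  exact (map_eq_zero j).1 h1

theorem Cl.compat (h : Cl c x y) : x.comp B.s = (y.comp R.s).comp φ := by
  refine RingHom.ext fun a => ?_
  have h1 := h (MvPolynomial.X (Sum.inl (B.s a)) - MvPolynomial.X (Sum.inr (R.s (φ a))))
    fun K' _ _ x' y' h' => by
      rw [map_sub, evp_inl, evp_inr, sub_eq_zero]
      exact RingHom.congr_fun (en_compat c x' y' h') a
  rwa [map_sub, evp_inl, evp_inr, sub_eq_zero] at h1

theorem Cl.pi_ne (hπ : φ π ≠ 0) (h : Cl c x y) : x (B.s π) ≠ 0 := by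
  have e : x (B.s π) = (y.comp R.s) (φ π) := RingHom.congr_fun h.compat π
  rw [e]
  exact (_root_.map_ne_zero _).2 hπ

theorem Cl.mono (h : Cl c x y)
    (hc : ∀ (K' : Type) [Field K'] [IsAlgClosed K'] (x' : B.R →+* K') (y' : R.R →+* K'),
      en c x' y' ≠ 0 → en c' x' y' ≠ 0) : Cl c' x y :=
  fun W hW => h W fun K' _ _ x' y' h' => hW K' x' y' (hc K' x' y' h')

theorem not_cl_zero : ¬Cl (0 : ZZ φ m B R) x y := by
  intro h
  have h1 := h 1 fun K' _ _ x' y' h' => (h' (en_zero x' y')).elim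
  rw [map_one] at h1
  exact one_ne_zero h1

theorem Cl.add (h : Cl (c + c') x y) : Cl c x y ∨ Cl c' x y := by
  by_contra hn
  rw [not_or] at hn
  obtain ⟨W, hW⟩ := not_forall.1 hn.1
  obtain ⟨W', hW'⟩ := not_forall.1 hn.2
  rw [Classical.not_imp] at hW hW'
  refine mul_ne_zero hW.2 hW'.2 ((map_mul _ _ _).symm.trans (h _ fun K' _ _ x' y' h' => ?_))
  rw [map_mul, mul_eq_zero]
  by_cases h0 : en c x' y' = 0
  · rw [en_add, h0, zero_add] at h'
    exact Or.inr (hW'.1 K' x' y' h')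
  · exact Or.inl (hW.1 K' x' y' h0)

theorem Cl.neg (h : Cl (-c) x y) : Cl c x y :=
  h.mono fun _ _ _ x' y' h' => by rwa [en_neg, neg_ne_zero] at h'

theorem Cl.of_nsmul {n : ℕ} (h : Cl (n • c) x y) : Cl c x y :=
  h.mono fun _ _ _ x' y' h' => by
    rw [en_nsmul] at h'
    exact right_ne_zero_of_mul h'

theorem Cl.nsmul {n : ℕ} (hn : n ≠ 0) (h : Cl c x y) : Cl (n • c) x y :=
  h.mono fun _ _ _ x' y' h' => by
    rw [en_nsmul]
    exact mul_ne_zero (Nat.cast_ne_zero.2 hn) h'

theorem Cl.pull {g : B ⟶ B'} {x' : B'.R →+* K} (h : Cl (pullZ g c) x' y) :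
    Cl c (x'.comp g.1) y := by
  intro W hW
  have h1 := h (MvPolynomial.rename (Sum.map g.1 (RingHom.id R.R)) W) fun K' _ _ x'' y' h' => by
    rw [en_pull] at h'
    rw [evp_rename]
    exact hW K' _ y' h'
  rwa [evp_rename] at h1

/-- The comparison with the closure in the scheme. Hint: the fibre product is `Spec` of the pushout
`Z` of `B ⊗_A F` and `R` over `F`, and every element of `Z` is a polynomial expression in elements
of `B` and `R`. -/
theorem cl_iff (h : x.comp B.s = (y.comp R.s).comp φ)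
    (w : spm (bPt x (y.comp R.s) h) ≫ (spO (bO φ B).s).hom = spm y ≫ (spO R.s).hom) :
    Cl c x y ↔ gen (pullback.lift _ _ w) ∈ closure (Function.support c.1) := by
  obtain ⟨Z, _, i, j, e, po, h1, h2, hs⟩ := Ent_chart (φ := φ) B R
  have key : ∀ (K' : Type) [Field K'] (z : Z →+* K'),
      en c (z.comp (i.comp (bI φ B))) (z.comp j) = c.1 (e.hom (gen (spm z))) := by
    intro K' _ z
    rw [← RingHom.comp_assoc, Ent_ent c (z.comp j) (a := z.comp i)
      (by rw [RingHom.comp_assoc, po.comm, RingHom.comp_assoc]), ← gen_comp, ← Corr.ent_fst_snd,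
      Category.assoc, Category.assoc, h1, h2, spm_comp, spm_comp]
  have lift : ∀ (K' : Type) [Field K'] (x' : B.R →+* K') (y' : R.R →+* K')
      (h' : x'.comp B.s = (y'.comp R.s).comp φ), ∃ z : Z →+* K',
      z.comp i = bPt x' (y'.comp R.s) h' ∧ z.comp (i.comp (bI φ B)) = x' ∧ z.comp j = y' := by
    intro K' _ x' y' h'
    obtain ⟨z, h3, h4⟩ := po.exists_lift (bPt x' (y'.comp R.s) h') y' (bPt_s φ _ _ h')
    exact ⟨z, h3, by rw [← RingHom.comp_assoc, h3, bPt_bI], h4⟩
  obtain ⟨z, h3, h4, h5⟩ := lift K x y h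
  have h6 : pullback.lift _ _ w = spm z ≫ e.hom := by
    apply pullback.hom_ext
    · rw [pullback.lift_fst, Category.assoc, h1, spm_comp, h3]
    · rw [pullback.lift_snd, Category.assoc, h2, spm_comp, h5]
  let T : Set (PrimeSpectrum Z) := e.hom ⁻¹' Function.support c.1
  have h7 : gen (pullback.lift _ _ w) ∈ closure (Function.support c.1) ↔
      (gen (spm z) : PrimeSpectrum Z) ∈ closure T := by
    rw [h6, gen_comp]
    exact (Set.ext_iff.1 (e.hom.homeomorph.preimage_closure (Function.support c.1)) _)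
  rw [h7, ← PrimeSpectrum.zeroLocus_vanishingIdeal_eq_closure, PrimeSpectrum.mem_zeroLocus,
    gen_spm_asIdeal]
  constructor
  · intro hc u hu
    obtain ⟨W, rfl⟩ := hs u
    change z _ = 0
    rw [← evp_comp, h4, h5]
    refine hc W fun K' _ _ x' y' h' => ?_
    obtain ⟨z', -, h8, h9⟩ := lift K' x' y' (en_compat c x' y' h')
    rw [← h8, ← h9] at h' ⊢
    rw [key] at h'
    rw [evp_comp]
    exact (PrimeSpectrum.mem_vanishingIdeal _ _).1 hu (gen (spm z')) h'
  · intro hc W hW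
    rw [← h4, ← h5, evp_comp]
    refine hc ((PrimeSpectrum.mem_vanishingIdeal _ _).2 fun t ht => ?_)
    obtain ⟨z', hz'⟩ := spm_surjective (geo (X := Spec (.of Z)) t)
    have h8 : gen (spm z') = t := by rw [hz', gen_geo]
    have h9 := hW _ (z'.comp (i.comp (bI φ B))) (z'.comp j) (by rw [key, h8]; exact ht)
    rw [evp_comp] at h9
    rw [← h8, gen_spm_asIdeal]
    exact h9

theorem cl_finite' [IsAlgClosed K] (c : ZZ φ m B R) (x : B.R →+* K) (t : F →+* K) :
    {y : R.R →+* K | y.comp R.s = t ∧ Cl c x y}.Finite := by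
  by_cases h : x.comp B.s = t.comp φ
  · refine (((c.2.2.2.closure.gfin K (spm (bPt x t h))).image
      (· ≫ pullback.snd _ _)).preimage (f := fun y : R.R →+* K => spm y)
      fun y _ y' _ e => spm_injective e).subset ?_
    rintro y ⟨rfl, hy⟩
    have w := Ent_over.2 (bPt_s φ x (y.comp R.s) h)
    exact ⟨pullback.lift _ _ w, ⟨pullback.lift_fst _ _ _, (cl_iff h w).1 hy⟩,
      pullback.lift_snd _ _ _⟩
  · refine Set.finite_empty.subset ?_
    rintro y ⟨rfl, hy⟩
    exact h hy.compat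

theorem cl_finite [IsAlgClosed K] (hr : Rd φ) (c : ZZ φ m B R) (x : B.R →+* K) :
    {y : R.R →+* K | Cl c x y}.Finite := by
  rcases Set.eq_empty_or_nonempty {y : R.R →+* K | Cl c x y} with e | ⟨y0, h0⟩
  · rw [e]
    exact Set.finite_empty
  · exact (cl_finite' c x (y0.comp R.s)).subset fun y hy =>
      ⟨hr K _ _ ((Cl.compat hy).symm.trans (Cl.compat h0)), hy⟩

end cl

theorem Ent_int (hb : Bs π φ m) {S : Type} [CommRing S] {i : (bO φ B).R →+* S}
    (hi : i.IsIntegral) (s : S) :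
    ∃ e : ℕ, (i.comp (bI φ B)).IsIntegralElem ((i.comp (bI φ B)) (B.s π) ^ e * s) := by
  have hu := Ent_unit hb.ne B
  let l : Localization.Away (B.s π) →+* (bO φ B).R := IsLocalization.Away.lift (B.s π) hu
  have hl : l.comp (algebraMap B.R _) = bI φ B := IsLocalization.Away.lift_comp _ hu
  have h1 : l.IsIntegral := by
    refine (bPO φ B).induction l.isIntegralElem_zero (fun b t => RingHom.IsIntegralElem.mul _ ?_ ?_)
      fun _ _ => RingHom.IsIntegralElem.add _
    · rw [← hl]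
      exact l.isIntegralElem_map
    · obtain ⟨e, he⟩ := hb.int t
      have h2 := he.map (bO φ B).s
      rw [← (bPO φ B).comm, ← hl, map_mul, mul_comm] at h2
      obtain ⟨u, hu'⟩ := ((IsLocalization.Away.algebraMap_isUnit (S := Localization.Away (B.s π))
        (B.s π)).pow e).exists_left_inv
      refine RingHom.IsIntegralElem.of_mul_unit l _ _ u ?_ h2.of_comp.of_comp
      have h3 : (bO φ B).s (φ π) = l (algebraMap B.R _ (B.s π)) :=
        ((bPO φ B).comm_apply π).symm.trans (RingHom.congr_fun hl _).symm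
      rw [map_pow, h3, ← map_pow, ← map_mul, hu', map_one]
  let _ := (i.comp l).toAlgebra
  let _ := (i.comp (bI φ B)).toAlgebra
  have : IsScalarTower B.R (Localization.Away (B.s π)) S :=
    IsScalarTower.of_algebraMap_eq fun b => congrArg i (RingHom.congr_fun hl b).symm
  obtain ⟨⟨_, e, rfl⟩, he⟩ := IsIntegral.exists_multiple_integral_of_isLocalization
    (Rₘ := Localization.Away (B.s π)) (Submonoid.powers (B.s π)) s
    (RingHom.IsIntegral.trans l i h1 hi s)
  refine ⟨e, ?_⟩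
  rw [← map_pow]
  exact he

/-- A ring that carries the closure of the support. Hint: `FinOver.closure`; a scheme finite over
an affine scheme is affine; `FinOver.gfin`, `GFin.lift` or lying over for the lifting of points;
every element of `B ⊗_A F` becomes integral over `B` after multiplication by a power of `π`. -/
theorem exists_carrier (hb : Bs π φ m) (c : ZZ φ m B R) :
    ∃ (S : Type) (_ : CommRing S) (i : B.R →+* S) (k : R.R →+* S),
      i.comp B.s = (k.comp R.s).comp φ ∧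
      (∀ s : S, ∃ e : ℕ, i.IsIntegralElem (i (B.s π) ^ e * s)) ∧
      ∀ (K : Type) [Field K] [IsAlgClosed K] (x : B.R →+* K) (y : R.R →+* K), Cl c x y →
        ∃ z : S →+* K, z.comp i = x ∧ z.comp k = y := by
  obtain ⟨Z, ι, hι, hr⟩ := c.2.2.2.closure
  have : IsAffine (spO (bO φ B).s).left := inferInstanceAs (IsAffine (Spec _))
  have : IsAffine Z := isAffine_of_isAffineHom (ι ≫ pullback.fst _ _)
  obtain ⟨i, hi⟩ := spm_surjective (R := (bO φ B).R) (S := Γ(Z, ⊤))
    (Z.isoSpec.inv ≫ ι ≫ pullback.fst _ _)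
  obtain ⟨k, hk⟩ := spm_surjective (R := R.R) (S := Γ(Z, ⊤))
    (Z.isoSpec.inv ≫ ι ≫ pullback.snd _ _)
  have h1 : i.comp (bO φ B).s = k.comp R.s := Ent_over.1 (by
    rw [hi, hk]
    simp only [Category.assoc, pullback.condition])
  have h2 : i.Finite := by
    have h3 : IsFinite (spm i) := by
      rw [hi]
      infer_instance
    exact (IsFinite.SpecMap_iff _).1 h3
  refine ⟨Γ(Z, ⊤), inferInstance, i.comp (bI φ B), k, Ent_compat h1,
    Ent_int hb h2.to_isIntegral, fun K _ _ x y hc => ?_⟩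
  have w := Ent_over.2 (bPt_s φ x (y.comp R.s) hc.compat)
  obtain ⟨t, ht⟩ := hr ((cl_iff hc.compat w).1 hc)
  obtain ⟨u, hu, -⟩ := (GFin.of_locallyQuasiFinite (ι ≫ pullback.fst _ _) Set.univ).of_comp.lift
    (pullback.lift _ _ w) (Set.mem_univ t) ht
  obtain ⟨z, hz⟩ := spm_surjective (R := Γ(Z, ⊤)) (u ≫ Z.isoSpec.hom)
  refine ⟨z, ?_, spm_injective ?_⟩
  · have h3 : z.comp i = bPt x (y.comp R.s) hc.compat := spm_injective (by
      rw [← spm_comp, hz, hi, Category.assoc, Iso.hom_inv_id_assoc, reassoc_of% hu,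
        pullback.lift_fst])
    rw [← RingHom.comp_assoc, h3, bPt_bI]
  · rw [← spm_comp, hz, hk, Category.assoc, Iso.hom_inv_id_assoc, reassoc_of% hu,
      pullback.lift_snd]

end Pool.Agent.KEW.L8
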