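import Pool.Agent.P.MP_6277db_ag.KEW.L8a.Alg
import Pool.Agent.P.MP_6277db_ag.KEW.L3.Tr
import Pool.Agent.P.MP_6277db_ag.KEW.L3.TrC
import Pool.Agent.P.MP_6277db_ag.KEW.L8b.RP

/-!
KEW project, layer L8a: correspondences from the generic fibre of an `A`-algebra, definitions.
-/

set_option backward.isDefEq.respectTransparency false

noncomputable section

open CategoryTheory Limits AlgebraicGeometry Polynomial TensorProduct

namespace Pool.Agent.KEW.L8

open _root_.KEW

variable {A F : Type} [CommRing A] [Field F] (φ : A →+* F)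

theorem exists_bO (B : Alg A) : ∃ (O : Alg F) (i : B.R →+* O.R), IsPO B.s φ i O.s := by
  obtain ⟨P, _, i, j, h⟩ := exists_isPO B.s φ
  exact ⟨⟨P, j⟩, i, h⟩

/-- The base change `B ⊗_A F`. -/
def bO (B : Alg A) : Alg F := (exists_bO φ B).choose

/-- The map `B → B ⊗_A F`. -/
def bI (B : Alg A) : B.R →+* (bO φ B).R := (exists_bO φ B).choose_spec.choose

theorem bPO (B : Alg A) : IsPO B.s φ (bI φ B) (bO φ B).s := (exists_bO φ B).choose_spec.choose_spec

variable {φ} in
/-- The map out of `B ⊗_A F` given by compatible maps out of `B` and `F`. -/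
def bPt {B : Alg A} {K : Type} [CommRing K] (x : B.R →+* K) (y : F →+* K)
    (h : x.comp B.s = y.comp φ) : (bO φ B).R →+* K := ((bPO φ B).exists_lift x y h).choose

theorem bPt_bI {B : Alg A} {K : Type} [CommRing K] (x : B.R →+* K) (y : F →+* K)
    (h : x.comp B.s = y.comp φ) : (bPt x y h).comp (bI φ B) = x :=
  ((bPO φ B).exists_lift x y h).choose_spec.1

theorem bPt_s {B : Alg A} {K : Type} [CommRing K] (x : B.R →+* K) (y : F →+* K)
    (h : x.comp B.s = y.comp φ) : (bPt x y h).comp (bO φ B).s = y :=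
  ((bPO φ B).exists_lift x y h).choose_spec.2

theorem bM_aux {B B' : Alg A} (g : B ⟶ B') :
    ((bI φ B').comp g.1).comp B.s = (bO φ B').s.comp φ := by
  rw [RingHom.comp_assoc, g.2, (bPO φ B').comm]

/-- Functoriality of the base change. -/
def bM {B B' : Alg A} (g : B ⟶ B') : bO φ B ⟶ bO φ B' :=
  ⟨bPt ((bI φ B').comp g.1) (bO φ B').s (bM_aux φ g), bPt_s φ _ _ (bM_aux φ g)⟩

theorem bM_bI {B B' : Alg A} (g : B ⟶ B') : (bM φ g).1.comp (bI φ B) = (bI φ B').comp g.1 :=
  bPt_bI φ _ _ (bM_aux φ g)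

/-- The base change functor. -/
def bF : Alg A ⥤ Alg F where
  obj := bO φ
  map := bM φ
  map_id B := Alg.hom_ext ((bPO φ B).hom_ext (bM_bI φ _) (bM φ (𝟙 B)).2)
  map_comp {B B' B''} f g := Alg.hom_ext ((bPO φ B).hom_ext
    (by rw [bM_bI, Alg.comp_val, Alg.comp_val, RingHom.comp_assoc, bM_bI, ← RingHom.comp_assoc,
      ← RingHom.comp_assoc, bM_bI])
    ((bM φ (f ≫ g)).2.trans (bM φ f ≫ bM φ g).2.symm))

/-- `Spec` of a map of algebras. -/
def spA {R R' : Alg F} (k : R' ⟶ R) : spO R.s ⟶ spO R'.s := spH k.1 k.2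

theorem spA_id (R : Alg F) : spA (𝟙 R) = 𝟙 _ := Over.OverMorphism.ext spm_id

theorem spA_comp {R R' R'' : Alg F} (k : R'' ⟶ R') (l : R' ⟶ R) : spA (k ≫ l) = spA l ≫ spA k :=
  Over.OverMorphism.ext (spm_comp k.1 l.1).symm

variable (m : ℕ)

/-- Correspondences from `Spec (B ⊗_A F)` to `Spec R`. -/
abbrev ZZ (B : Alg A) (R : Alg F) : Type := Corr m (spO (bO φ B).s) (spO R.s)

variable {m φ} {B B' B'' : Alg A} {R R' R'' : Alg F}

/-- Pull back along a map of sources. -/
def pullZ (g : B ⟶ B') : ZZ φ m B R →+ ZZ φ m B' R := Corr.pull m (spA (bM φ g)) _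

/-- Push forward along a map of targets. -/
def pushZ (k : R' ⟶ R) : ZZ φ m B R →+ ZZ φ m B R' := Corr.push m _ (spA k)

theorem pullZ_id (c : ZZ φ m B R) : pullZ (𝟙 B) c = c := by
  rw [pullZ, show bM φ (𝟙 B) = 𝟙 _ from (bF φ).map_id B, spA_id]
  exact Corr.pull_id c

theorem pullZ_pullZ (f : B ⟶ B') (g : B' ⟶ B'') (c : ZZ φ m B R) :
    pullZ g (pullZ f c) = pullZ (f ≫ g) c := by
  rw [pullZ, pullZ, pullZ, Corr.pull_pull,
    show bM φ (f ≫ g) = bM φ f ≫ bM φ g from (bF φ).map_comp f g, spA_comp]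

theorem pushZ_id (c : ZZ φ m B R) : pushZ (𝟙 R) c = c := by
  rw [pushZ, spA_id]
  exact Corr.push_id c

theorem pushZ_pushZ (k : R'' ⟶ R') (l : R' ⟶ R) (c : ZZ φ m B R) :
    pushZ k (pushZ l c) = pushZ (k ≫ l) c := by
  rw [pushZ, pushZ, pushZ, Corr.push_push, spA_comp]

theorem pullZ_pushZ (g : B ⟶ B') (k : R' ⟶ R) (c : ZZ φ m B R) :
    pullZ g (pushZ k c) = pushZ k (pullZ g c) := Corr.pull_push _ _ c

open Classical in
/-- The value of a function on `Spec (B ⊗_A F) × Spec R` at a pair of points. -/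
def enF (c : ↑(pullback (spO (bO φ B).s).hom (spO R.s).hom) → ℚ) {K : Type} [Field K]
    (x : B.R →+* K) (y : R.R →+* K) : ℚ :=
  if h : x.comp B.s = (y.comp R.s).comp φ then
    Corr.entF (W := spO (bO φ B).s) (U := spO R.s) c (spm (bPt x (y.comp R.s) h)) (spm y)
  else 0

/-- The matrix entries of a correspondence. -/
def en (c : ZZ φ m B R) {K : Type} [Field K] (x : B.R →+* K) (y : R.R →+* K) : ℚ := enF c.1 x y

/-- Evaluation of a polynomial expression in elements of `B` and `R`. -/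
def evp {S S' K : Type} [CommRing S] [CommRing S'] [CommRing K] (x : S →+* K) (y : S' →+* K) :
    MvPolynomial (S ⊕ S') ℤ →+* K := MvPolynomial.eval₂Hom (Int.castRingHom K) (Sum.elim x y)

/-- The point `(x, y)` lies in the closure of the support of `c`. -/
def Cl (c : ZZ φ m B R) {K : Type} [Field K] (x : B.R →+* K) (y : R.R →+* K) : Prop :=
  ∀ W : MvPolynomial (B.R ⊕ R.R) ℤ,
    (∀ (K' : Type) [Field K'] [IsAlgClosed K'] (x' : B.R →+* K') (y' : R.R →+* K'),
      en c x' y' ≠ 0 → evp x' y' W = 0) → evp x y W = 0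

/-- The coefficient ring. -/
abbrev Lm (m : ℕ) : Type 1 := ULift.{1} (ZMod m)

variable (φ m) (L : Type 1) [CommRing L]

/-- The functor `B ↦ L ⊗ Corr (Spec (B ⊗_A F), Spec R)`. -/
def MM (R : Alg F) : Fn (Alg A) L where
  obj B := ModuleCat.of L (L ⊗[ℤ] ZZ φ m B R)
  map g := ext1 L (pullZ g)
  map_id _ := ext1_id pullZ_id
  map_comp f g := ext1_comp fun c => (pullZ_pullZ f g c).symm

/-- A family of additive maps compatible with pull backs acts on `MM`. -/
def MMhom (Ψ : Alg A ⥤ Alg A) (u : ∀ B : Alg A, ZZ φ m B R →+ ZZ φ m (Ψ.obj B) R')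
    (hu : ∀ {B B' : Alg A} (g : B ⟶ B') (c : ZZ φ m B R),
      u B' (pullZ g c) = pullZ (Ψ.map g) (u B c)) : MM φ m L R ⟶ Ψ ⋙ MM φ m L R' where
  app B := ext1 L (u B)
  naturality _ B' g :=
    (ext1_comp (k := (u B').comp (pullZ g)) fun _ => rfl).symm.trans (ext1_comp (hu g))

/-- Push forward on `MM`. -/
def MMpush (k : R' ⟶ R) : MM φ m L R ⟶ MM φ m L R' where
  app _ := ext1 L (pushZ k)
  naturality _ _ g :=
    (ext1_comp (k := (pushZ k).comp (pullZ g)) fun _ => rfl).symm.trans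
      (ext1_comp fun c => (pullZ_pushZ g k c).symm)

/-- The algebra underlying a pair. -/
abbrev rpA (P : RP F) : Alg F := ⟨P.R, P.r⟩

/-- The part of `MM` killed by the endomorphisms in the family, as a family of submodules. -/
def RedS (P : RP F) : SubF (MM φ m L (rpA P)) :=
  kerSet {θ | ∃ η : rpA P ⟶ rpA P, η.1 ∈ P.Fam ∧ θ = MMpush φ m L η}

/-- The part of `MM` killed by the endomorphisms in the family. -/
def Red (P : RP F) : Fn (Alg A) L := (RedS φ m L P).fn

variable {φ m}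

/-- The class `1 ⊗ c`. -/
def one : ZZ φ m B R →+ (MM φ m L R).obj B :=
  AddMonoidHom.mk' (fun c => (1 : L) ⊗ₜ[ℤ] c) fun c c' => tmul_add _ c c'

theorem map_one_eq (g : B ⟶ B') (c : ZZ φ m B R) :
    (MM φ m L R).map g (one L c) = one L (pullZ g c) := rfl

theorem MMpush_one (k : R' ⟶ R) (c : ZZ φ m B R) :
    (MMpush φ m L k).app B (one L c) = one L (pushZ k c) := rfl

/-- The standing hypotheses on the base. -/
structure Bs (π : A) (φ : A →+* F) (m : ℕ) : Prop where
  ne : φ π ≠ 0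
  int : ∀ y : F, ∃ e : ℕ, φ.IsIntegralElem (φ π ^ e * y)
  char : (m : F) ≠ 0

end Pool.Agent.KEW.L8
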