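import Pool.Agent.P.MP_6277db_ag.KEW.L8a.Ann

/-!
KEW project, layer L8a: finiteness of the zero locus of `t^n - g` for large `n`.
-/

set_option backward.isDefEq.respectTransparency false

noncomputable section

open CategoryTheory Polynomial

namespace Pool.Agent.KEW.L8

open _root_.KEW

section ring

variable {T E S : Type} [CommRing T] [CommRing E] [CommRing S]

/-- The elements bounded by a fixed power of any bound of `a` and `b`. -/
def Fin_Bd (φ : T →+* S) (a b h : S) (d : ℕ) : Prop :=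
  ∀ (K : Type) [Field K] (O : ValuationSubring K) (x : S →+* K), (∀ r, x (φ r) ∈ O) →
    ∀ ρ : O.ValueGroup, 1 ≤ ρ → O.valuation (x a) ≤ ρ → O.valuation (x b) ≤ ρ →
      O.valuation (x h) ≤ ρ ^ d

variable {φ : T →+* S} {a b : S}

theorem Fin_Bd.mono {h : S} {d d' : ℕ} (H : Fin_Bd φ a b h d) (hd : d ≤ d') : Fin_Bd φ a b h d' :=
  fun K _ O x hx ρ h1 ha hb => (H K O x hx ρ h1 ha hb).trans (pow_le_pow_right₀ h1 hd)

theorem Fin_Bd_const (r : T) : Fin_Bd φ a b (φ r) 0 := fun K _ O x hx ρ _ _ _ => by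
  rw [pow_zero]
  exact (O.valuation_le_one_iff _).2 (hx r)

variable (φ a b) in
/-- The subring of bounded elements. -/
def Fin_W : Subring S where
  carrier := {h | ∃ d, Fin_Bd φ a b h d}
  zero_mem' := ⟨0, by simpa using Fin_Bd_const (φ := φ) (a := a) (b := b) 0⟩
  one_mem' := ⟨0, by simpa using Fin_Bd_const (φ := φ) (a := a) (b := b) 1⟩
  add_mem' := by
    rintro y z ⟨d, h⟩ ⟨d', h'⟩
    refine ⟨max d d', fun K _ O x hx ρ h1 ha hb => ?_⟩
    rw [map_add]
    exact O.valuation.map_add_le (h.mono (le_max_left _ _) K O x hx ρ h1 ha hb)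
      (h'.mono (le_max_right _ _) K O x hx ρ h1 ha hb)
  neg_mem' := by
    rintro y ⟨d, h⟩
    refine ⟨d, fun K _ O x hx ρ h1 ha hb => ?_⟩
    rw [map_neg, Valuation.map_neg]
    exact h K O x hx ρ h1 ha hb
  mul_mem' := by
    rintro y z ⟨d, h⟩ ⟨d', h'⟩
    refine ⟨d + d', fun K _ O x hx ρ h1 ha hb => ?_⟩
    rw [map_mul, map_mul, pow_add]
    exact mul_le_mul' (h K O x hx ρ h1 ha hb) (h' K O x hx ρ h1 ha hb)

theorem Fin_W_const (r : T) : φ r ∈ Fin_W φ a b := ⟨0, Fin_Bd_const r⟩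

theorem Fin_W_left : a ∈ Fin_W φ a b := ⟨1, fun K _ O x _ ρ _ ha _ => by rwa [pow_one]⟩

theorem Fin_W_right : b ∈ Fin_W φ a b := ⟨1, fun K _ O x _ ρ _ _ hb => by rwa [pow_one]⟩

theorem Fin_W_integral {i : E →+* S} (hi : ∀ e, i e ∈ Fin_W φ a b) {y : S}
    (hy : i.IsIntegralElem y) : y ∈ Fin_W φ a b := by
  obtain ⟨P, hP, hP0⟩ := hy
  choose d hd using hi
  refine ⟨(Finset.range P.natDegree).sup fun k => d (P.coeff k), fun K _ O x hx ρ h1 ha hb => ?_⟩
  by_contra hc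
  rw [not_le] at hc
  have h2 : 1 ≤ O.valuation (x y) := (one_le_pow₀ h1).trans hc.le
  have h0 : 0 < O.valuation (x y) := zero_lt_one.trans_le h2
  rw [eval₂_eq_sum_range, Finset.sum_range_succ, hP.coeff_natDegree, map_one, one_mul,
    add_eq_zero_iff_neg_eq] at hP0
  have h3 : O.valuation (x (∑ k ∈ Finset.range P.natDegree, i (P.coeff k) * y ^ k)) <
      O.valuation (x y) ^ P.natDegree := by
    rw [map_sum]
    refine O.valuation.map_sum_lt (pow_pos h0 _).ne' fun k hk => ?_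
    rw [map_mul, map_pow, map_mul, map_pow]
    have h4 : O.valuation (x (i (P.coeff k))) < O.valuation (x y) :=
      ((hd _).mono (Finset.le_sup (f := fun k => d (P.coeff k)) hk) K O x hx ρ h1 ha hb).trans_lt hc
    refine (mul_lt_mul_of_pos_right h4 (pow_pos h0 k)).trans_le ?_
    rw [← pow_succ']
    exact pow_le_pow_right₀ h2 (Finset.mem_range.1 hk)
  rw [← map_pow, ← map_pow, ← hP0, map_neg, Valuation.map_neg] at h3
  exact lt_irrefl _ h3

theorem Fin_val {Γ : Type} [LinearOrderedCommGroupWithZero Γ] {p r : Γ} {c d M n : ℕ} (hp : p ≤ 1)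
    (hr : 1 ≤ r) (h : p ^ c * r ^ n ≤ r ^ d) (hn : c * M + d < n) : p * r ^ M ≤ 1 := by
  by_contra hc
  rw [not_le] at hc
  have h1 : 1 < r := by
    refine lt_of_le_of_ne hr fun e => ?_
    rw [← e, one_pow, mul_one] at hc
    exact absurd hp (not_le.2 hc)
  have h2 : r ^ n ≤ r ^ (c * M + d) := by
    calc r ^ n = 1 * r ^ n := (one_mul _).symm
      _ ≤ (p * r ^ M) ^ c * r ^ n := mul_le_mul_left (one_le_pow₀ hc.le) _
      _ = r ^ (c * M) * (p ^ c * r ^ n) := by rw [mul_pow, ← pow_mul, mul_comm M c]; ac_rfl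
      _ ≤ r ^ (c * M) * r ^ d := mul_le_mul_right h _
      _ = r ^ (c * M + d) := (pow_add _ _ _).symm
  exact absurd h2 (not_le.2 (pow_lt_pow_right₀ h1 hn))

/-- The valuative bound on the zero locus of `τ ^ n - g`. -/
theorem Fin_int {τ g : Sˣ} {p : T} {c d M n : ℕ}
    (h1 : Fin_Bd φ (τ : S) (τ⁻¹ : Sˣ) (φ p ^ c * g) d)
    (h2 : Fin_Bd φ (τ : S) (τ⁻¹ : Sˣ) (φ p ^ c * (g⁻¹ : Sˣ)) d) (hn : c * M + d < n) {I : Ideal S}
    (hI : (τ : S) ^ n - g ∈ I) {b : ℤ} (hb : |b| ≤ M) :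
    ((Ideal.Quotient.mk I).comp φ).IsIntegralElem
      (Ideal.Quotient.mk I (φ p * (τ ^ b : Sˣ))) := by
  refine isIntegralElem_of_val _ _ fun K _ O x0 hx => ?_
  let x : S →+* K := x0.comp (Ideal.Quotient.mk I)
  change ∀ r, x (φ r) ∈ O at hx
  change x _ ∈ O
  have hg : x τ ^ n = x g := by
    rw [← sub_eq_zero, ← map_pow, ← map_sub]
    change x0 (Ideal.Quotient.mk I _) = 0
    rw [Ideal.Quotient.eq_zero_iff_mem.2 hI, map_zero]
  set a := O.valuation (x τ) with ha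
  have ha0 : a ≠ 0 := ((τ.isUnit.map x).map O.valuation).ne_zero
  have hi : O.valuation (x (τ⁻¹ : Sˣ)) = a⁻¹ := by rw [map_units_inv, map_inv₀]
  have hp : O.valuation (x (φ p)) ≤ 1 := (O.valuation_le_one_iff _).2 (hx p)
  have hz : O.valuation (x (τ ^ b : Sˣ)) = a ^ b := by
    have : x (τ ^ b : Sˣ) = x τ ^ b := by
      rw [show x (τ ^ b : Sˣ) = ((Units.map x.toMonoidHom (τ ^ b) : Kˣ) : K) from rfl, map_zpow,
        Units.val_zpow_eq_zpow_val]
      rfl
    rw [this, map_zpow₀]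
  have key : ∀ r : O.ValueGroup, 1 ≤ r → a ^ b ≤ r ^ M →
      O.valuation (x (φ p)) ^ c * r ^ n ≤ r ^ d → x (φ p * (τ ^ b : Sˣ)) ∈ O := by
    intro r hr h3 h4
    rw [← O.valuation_le_one_iff, map_mul, map_mul, hz]
    exact (mul_le_mul_right h3 _).trans (Fin_val hp hr h4 hn)
  rcases le_total 1 a with h | h
  · refine key a h ?_ ?_
    · rw [← zpow_natCast]
      exact zpow_le_zpow_right₀ h ((le_abs_self b).trans hb)
    · have := h1 K O x hx a h le_rfl (by rw [hi]; exact (inv_le_one_of_one_le₀ h).trans h)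
      rwa [map_mul, map_mul, map_pow, map_pow, ← hg, map_pow] at this
  · have h' : 1 ≤ a⁻¹ := (one_le_inv₀ (zero_lt_iff.2 ha0)).2 h
    refine key a⁻¹ h' ?_ ?_
    · rw [← zpow_natCast, ← neg_neg b, zpow_neg, ← inv_zpow]
      exact zpow_le_zpow_right₀ h' ((neg_le_abs b).trans hb)
    · have := h2 K O x hx a⁻¹ h' (h.trans h') hi.le
      rwa [map_mul, map_mul, map_pow, map_pow, map_units_inv, ← hg, map_inv₀, map_pow,
        ← inv_pow] at this

theorem Fin_desc {ψ : T →+* E} {i : E →+* S} {I : Ideal S} {J : Ideal E} (hJ : I.comap i ≤ J) {y : E}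
    (h : ((Ideal.Quotient.mk I).comp (i.comp ψ)).IsIntegralElem (Ideal.Quotient.mk I (i y))) :
    ((Ideal.Quotient.mk J).comp ψ).IsIntegralElem (Ideal.Quotient.mk J y) := by
  obtain ⟨P, hP, h⟩ := h
  refine ⟨P, hP, ?_⟩
  rw [← hom_eval₂, Ideal.Quotient.eq_zero_iff_mem] at h ⊢
  refine hJ ?_
  rwa [Ideal.mem_comap, hom_eval₂]

theorem Fin_nil {i : E →+* S} {I : Ideal S} {J : Ideal E} (hJ : I.comap i ≤ J) {p y : E}
    (hp : p ∈ J) {w : S} (hw : i.IsIntegralElem w) (h : i y - i p * w ∈ I) : ∃ k, y ^ k ∈ J := by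
  obtain ⟨P, hP, h0⟩ := hw
  refine ⟨P.natDegree, ?_⟩
  have h1 : (P.scaleRoots p).eval y ∈ J := by
    refine hJ ?_
    rw [Ideal.mem_comap, ← Ideal.Quotient.eq_zero_iff_mem, ← eval₂_at_apply, hom_eval₂,
      Ideal.Quotient.eq.2 h, ← hom_eval₂, scaleRoots_eval₂_eq_zero i h0, map_zero]
  rw [eval_eq_sum_range, natDegree_scaleRoots, Finset.sum_range_succ, coeff_scaleRoots_natDegree,
    hP.leadingCoeff, one_mul] at h1
  refine (J.add_mem_iff_right (J.sum_mem fun k hk => ?_)).1 h1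
  rw [coeff_scaleRoots]
  exact J.mul_mem_right _ (J.mul_mem_left _
    (J.pow_mem_of_mem hp _ (Nat.sub_pos_of_lt (Finset.mem_range.1 hk))))

theorem Fin_pow {i : E →+* S} {w : S} (hw : i.IsIntegralElem w) (k : ℕ) :
    i.IsIntegralElem (w ^ k) := by
  induction k with
  | zero => simpa using i.isIntegralElem_one
  | succ k ih => simpa [pow_succ] using ih.mul i hw

/-- The elements `p τ ^ b` are nilpotent modulo `p` on the zero locus of `τ ^ n - g`. -/
theorem Fin_nil' {i : E →+* S} {τ g : Sˣ} {p : E} {c M n : ℕ}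
    (h1 : i.IsIntegralElem (i p ^ c * g)) (h2 : i.IsIntegralElem (i p ^ c * (g⁻¹ : Sˣ)))
    (hn : c * M < n) {I : Ideal S} (hI : (τ : S) ^ n - g ∈ I) {J : Ideal E} (hJ : I.comap i ≤ J)
    (hp : p ∈ J) {b : ℤ} (hb : |b| ≤ M) {y : E} (hy : i y = i p * (τ ^ b : Sˣ)) :
    ∃ k, y ^ k ∈ J := by
  let q := Units.map (Ideal.Quotient.mk I).toMonoidHom
  have hq : q τ ^ n = q g := Units.ext (by
    rw [← map_pow]
    exact Ideal.Quotient.eq.2 (by simpa using hI))
  obtain ⟨m, hm, h3, h4⟩ : ∃ (m : ℕ) (_ : m ≤ M), ∃ g' : Sˣ, i.IsIntegralElem (i p ^ c * g') ∧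
      q (τ ^ b) ^ n = q g' ^ m := by
    obtain ⟨m, rfl | rfl⟩ := b.eq_nat_or_neg
    · refine ⟨m, by simpa using hb, g, h1, ?_⟩
      rw [zpow_natCast, map_pow, ← pow_mul, mul_comm, pow_mul, hq]
    · refine ⟨m, by simpa using hb, g⁻¹, h2, ?_⟩
      rw [zpow_neg, zpow_natCast, map_inv, map_inv, map_pow, inv_pow, ← pow_mul, mul_comm, pow_mul,
        hq, inv_pow]
  obtain ⟨h4, h5⟩ := h4
  obtain ⟨e, he⟩ : ∃ e, n = c * m + e + 1 :=
    Nat.exists_eq_add_of_lt ((Nat.mul_le_mul_left c hm).trans_lt hn)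
  obtain ⟨k, hk⟩ := Fin_nil hJ hp (y := y ^ n)
    ((Fin_pow (i.isIntegralElem_map (x := p)) e).mul i (Fin_pow h4 m)) (by
      have h6 : Ideal.Quotient.mk I (τ ^ b : Sˣ) ^ n = Ideal.Quotient.mk I (h3 : S) ^ m := by
        have := congrArg Units.val h5
        rwa [Units.val_pow_eq_pow_val, Units.val_pow_eq_pow_val] at this
      have h7 : i p * (i p ^ e * (i p ^ c * h3) ^ m) = i p ^ n * h3 ^ m := by
        rw [he]
        ring
      rw [← Ideal.Quotient.eq, h7, map_pow, hy, mul_pow]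
      simp only [map_mul, map_pow, h6])
  exact ⟨n * k, by rwa [pow_mul]⟩

end ring

variable {A : Type} [CommRing A] {π π' : A} {N : ℕ} {T E : Alg A}

theorem Fin_red {f : (RN π N).obj T ⟶ E} (hf : IsEE π' f) {J : Ideal E.R} (hJ : E.s π' ∈ J)
    (h : ∀ (b : ℤ) (hb : |b| ≤ N + 1), ((Ideal.Quotient.mk J).comp (rnC π N T ≫ f).1).IsIntegralElem
      (Ideal.Quotient.mk J (f.1 (rnG π N T b hb)))) : FinMod (rnC π N T ≫ f).1 J := by
  refine RingHom.IsIntegral.to_finite (fun y => ?_) (RingHom.FiniteType.comp_surjective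
    (RingHom.FiniteType.comp (RingHom.FiniteType.of_finitePresentation
      hf.etale.finitePresentation) (rnC_finiteType π N T)) Ideal.Quotient.mk_surjective)
  obtain ⟨y, rfl⟩ := Ideal.Quotient.mk_surjective y
  obtain ⟨x, hx⟩ := hf.surj y
  rw [map_span_s] at hx
  rw [Ideal.Quotient.eq.2 ((Ideal.span_singleton_le_iff_mem J).2 hJ hx)]
  let := ((Ideal.Quotient.mk J).comp (rnC π N T ≫ f).1).toAlgebra
  have := rn_gen π N T ((integralClosure T.R (E.R ⧸ J)).toSubring.comap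
    ((Ideal.Quotient.mk J).comp f.1)) (fun r => isIntegral_algebraMap (x := r)) h
  exact (this.ge (Subring.mem_top x) :)

theorem fin_main (hπ : π' = π ∨ π' = 0) {f : (RN π N).obj T ⟶ E} (hf : IsEE π' f) {S : Type}
    [CommRing S] (i : E.R →+* S) (hint : ∀ s : S, ∃ e : ℕ, i.IsIntegralElem (i (E.s π) ^ e * s))
    (hu : IsUnit (i (E.s π))) {g : S} (hg : IsUnit g) :
    ∃ n0 : ℕ, ∀ n, n0 ≤ n → FinMod (rnC π N T ≫ f).1
      ((Ideal.span {i (f.1 (rnU π N T)) ^ n - i (E.s π) ^ n * g}).comap i ⊔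
        Ideal.span {E.s π'}) := by
  obtain ⟨g, rfl⟩ := hg
  obtain ⟨γ, hγ, -⟩ := PIso.existsUnique_lift (rnι_PI π N T) (i.comp f.1)
    (by rwa [RingHom.comp_apply, Alg.map_s])
  let τ : Sˣ := Units.map γ.toMonoidHom (tU T.R)
  have hp : (rnC π N T ≫ f).1 (T.s π) = E.s π := Alg.map_s _ _
  have hG : ∀ (b : ℤ) (hb : |b| ≤ N + 1), i (f.1 (rnG π N T b hb)) = i (E.s π) * (τ ^ b : Sˣ) := by
    intro b hb
    have h1 := RingHom.congr_fun hγ (rnG π N T b hb)
    have h2 := RingHom.congr_fun hγ (((RN π N).obj T).s π)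
    rw [RingHom.comp_apply, RingHom.comp_apply, Alg.map_s, Alg.map_s] at h2
    rw [← h2, ← map_zpow]
    exact h1.symm.trans (map_mul γ _ _)
  have hI : ∀ n : ℕ, (τ : S) ^ n - g ∈
      Ideal.span {i (f.1 (rnU π N T)) ^ n - i (E.s π) ^ n * g} := by
    intro n
    rw [rnU, hG, zpow_one, mul_pow, ← mul_sub, Ideal.span_singleton_mul_left_unit (hu.pow n)]
    exact Ideal.mem_span_singleton_self _
  obtain ⟨c, h1, h2⟩ : ∃ c : ℕ, i.IsIntegralElem (i (E.s π) ^ c * g) ∧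
      i.IsIntegralElem (i (E.s π) ^ c * (g⁻¹ : Sˣ)) := by
    obtain ⟨e, he⟩ := hint g
    obtain ⟨e', he'⟩ := hint (g⁻¹ : Sˣ)
    refine ⟨e + e', ?_, ?_⟩
    · rw [add_comm, pow_add, mul_assoc]
      exact (Fin_pow i.isIntegralElem_map e').mul i he
    · rw [pow_add, mul_assoc]
      exact (Fin_pow i.isIntegralElem_map e).mul i he'
  rcases hπ with rfl | rfl
  · refine ⟨c * (N + 1) + 1, fun n hn => Fin_red hf
      (Ideal.mem_sup_right (Ideal.mem_span_singleton_self _)) fun b hb => ?_⟩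
    obtain ⟨k, hk⟩ := Fin_nil' h1 h2 hn (hI n) le_sup_left
      (Ideal.mem_sup_right (Ideal.mem_span_singleton_self _)) (by exact_mod_cast hb) (hG b hb)
    refine ⟨X ^ k, monic_X_pow k, ?_⟩
    rw [eval₂_X_pow]
    exact (map_pow _ _ _).symm.trans (Ideal.Quotient.eq_zero_iff_mem.2 hk)
  · let φ : T.R →+* S := i.comp (rnC π N T ≫ f).1
    have hφ : φ (T.s π) = i (E.s π) := congrArg i hp
    have hW : ∀ e, i e ∈ Fin_W φ (τ : S) (τ⁻¹ : Sˣ) := by
      intro e
      obtain ⟨x, rfl⟩ := hf.bijective.2 e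
      have := rn_gen π N T ((Fin_W φ (τ : S) (τ⁻¹ : Sˣ)).comap (i.comp f.1))
        (fun r => Fin_W_const r) fun b hb => by
          rw [Subring.mem_comap, RingHom.comp_apply, hG, ← hφ]
          refine mul_mem (Fin_W_const _) ?_
          obtain ⟨m, rfl | rfl⟩ := b.eq_nat_or_neg
          · rw [zpow_natCast, Units.val_pow_eq_pow_val]
            exact pow_mem Fin_W_left m
          · rw [zpow_neg, zpow_natCast, ← inv_pow, Units.val_pow_eq_pow_val]
            exact pow_mem Fin_W_right m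
      exact (this.ge (Subring.mem_top x) :)
    obtain ⟨d, hd⟩ := Fin_W_integral hW h1
    obtain ⟨d', hd'⟩ := Fin_W_integral hW h2
    rw [← hφ] at hd hd'
    refine ⟨c * (N + 1) + max d d' + 1, fun n hn => Fin_red hf
      (Ideal.mem_sup_right (Ideal.mem_span_singleton_self _)) fun b hb => ?_⟩
    refine Fin_desc le_sup_left ?_
    rw [(hG b hb).trans (congrArg (· * _) hφ.symm)]
    exact Fin_int (hd.mono (le_max_left _ _)) (hd'.mono (le_max_right _ _)) hn (hI n)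
      (by exact_mod_cast hb)

end Pool.Agent.KEW.L8
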