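import Pool.Agent.P.MP_6277db_ag.KEW.L8a.Alg

/-!
KEW project, layer L8a: etale neighbourhoods of the closed point of a henselian local ring split.
-/

set_option backward.isDefEq.respectTransparency false

noncomputable section

open CategoryTheory Polynomial

namespace Pool.Agent.KEW.L8

open _root_.KEW

/-- Hint: localise `E` at the maximal ideal `m E` to a standard etale algebra (see `FactB_std` in
L3/FactB.lean or `Chart_std` in CA/Chart.lean), and lift the simple root with
`HenselianLocalRing.is_henselian`. -/
theorem hens_section {A E : Type} [CommRing A] [HenselianLocalRing A] [CommRing E] {f : A →+* E}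
    (h : EE (IsLocalRing.maximalIdeal A) f) : ∃ s : E →+* A, s.comp f = RingHom.id A := by
  obtain ⟨y, hy⟩ := h.exists_retract (IsLocalRing.residue A)
    fun x hx => (IsLocalRing.residue_eq_zero_iff x).2 hx
  let _ := f.toAlgebra
  have : Algebra.Etale A E := h.etale
  have := RingHom.ker_isPrime y
  obtain ⟨g, hg, ⟨⟨P⟩⟩⟩ := Algebra.IsEtaleAt.exists_isStandardEtale (R := A) (RingHom.ker y)
  let yA : E →ₐ[A] IsLocalRing.ResidueField A :=
    { y with commutes' := fun r => RingHom.congr_fun hy r }
  let y' : Localization.Away g →ₐ[A] IsLocalRing.ResidueField A :=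
    IsLocalization.Away.liftAlgHom g (f := yA) (IsUnit.mk0 _ hg)
  have hm : P.P.HasMap (y' P.x) := P.hasMap.map y'
  obtain ⟨a0, ha0⟩ := IsLocalRing.residue_surjective (y' P.x)
  have he : ∀ (q : A[X]) (a : A),
      IsLocalRing.residue A (q.eval a) = aeval (IsLocalRing.residue A a) q := fun q a =>
    (aeval_algebraMap_apply_eq_algebraMap_eval a q).symm
  obtain ⟨a, ha, haa⟩ := HenselianLocalRing.is_henselian P.f P.monic_f a0
    ((IsLocalRing.residue_eq_zero_iff _).1 (by rw [he, ha0]; exact hm.1))
    ((IsLocalRing.residue_ne_zero_iff_isUnit _).1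
      (by rw [he, ha0]; exact hm.isUnit_derivative_f.ne_zero))
  have h1 : IsLocalRing.residue A a = y' P.x := by
    rw [← ha0, ← sub_eq_zero, ← map_sub]
    exact (IsLocalRing.residue_eq_zero_iff _).2 haa
  have hPa : P.P.HasMap a := ⟨ha, (IsLocalRing.residue_ne_zero_iff_isUnit _).1 (by
    rw [coe_aeval_eq_eval, he, h1]
    exact hm.2.ne_zero)⟩
  let s := ((P.P.lift a hPa).comp P.equivRing.toAlgHom).comp
    (IsScalarTower.toAlgHom A E (Localization.Away g))
  exact ⟨s, RingHom.ext fun r => s.commutes r⟩

end Pool.Agent.KEW.L8
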