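import Pool.Agent.P.MP_6277db_ag.KEW.L8a.Pi

/-!
KEW project, layer L8a: exact operations on functors which are lax compatible with cylinders.
-/

set_option backward.isDefEq.respectTransparency false

noncomputable section

open CategoryTheory

namespace Pool.Agent.KEW.L8

universe v u v' u'

variable {D : Type u} [Category.{v} D] {D' : Type u'} [Category.{v'} D'] {L : Type 1} [CommRing L]

section aux

variable {F G H K : Fn D L}

theorem Lax_comp_apply (f : F ⟶ G) (g : G ⟶ H) (B : D) (x : F.obj B) :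
    (f ≫ g).app B x = g.app B (f.app B x) := rfl

theorem Lax_apply_of_eq {f : F ⟶ G} {g : G ⟶ H} {k : F ⟶ H} (h : f ≫ g = k) (B : D)
    (x : F.obj B) : g.app B (f.app B x) = k.app B x :=
  congrArg (fun k => k.app B x) h

theorem Lax_isIso (f : F ⟶ G) (h : ∀ B, Function.Bijective (f.app B)) : IsIso f := by
  have : ∀ B, IsIso (f.app B) := fun B => (ConcreteCategory.isIso_iff_bijective _).2 (h B)
  exact NatIso.isIso_of_isIso_app f

theorem Lax_cancel_epi {g : F ⟶ G} (hg : ∀ B, Function.Surjective (g.app B)) {a b : G ⟶ H}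
    (h : g ≫ a = g ≫ b) : a = b :=
  fn_ext fun B y => by
    obtain ⟨x, rfl⟩ := hg B y
    exact congrArg (fun k => k.app B x) h

theorem Lax_cancel_mono {g : G ⟶ H} (hg : ∀ B, Function.Injective (g.app B)) {a b : F ⟶ G}
    (h : a ≫ g = b ≫ g) : a = b :=
  fn_ext fun B x => hg B (congrArg (fun k => k.app B x) h)

theorem Lax_desc (g : G ⟶ H) (hg : ∀ B, Function.Surjective (g.app B)) (β : G ⟶ K)
    (h : ∀ B x, g.app B x = 0 → β.app B x = 0) : ∃ γ : H ⟶ K, g ≫ γ = β := by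
  have hb : ∀ B, Function.Bijective (((kerS g).desc g fun _ _ hx => hx).app B) := by
    intro B
    refine ⟨(injective_iff_map_eq_zero _).2 fun y hy => ?_, fun y => ?_⟩
    · obtain ⟨x, rfl⟩ := (kerS g).π_surj B y
      exact ((kerS g).π_eq_zero B x).2 hy
    · obtain ⟨x, rfl⟩ := hg B y
      exact ⟨(kerS g).π.app B x, rfl⟩
  have := Lax_isIso _ hb
  refine ⟨inv ((kerS g).desc g fun _ _ hx => hx) ≫ (kerS g).desc β h, ?_⟩
  calc g ≫ inv ((kerS g).desc g fun _ _ hx => hx) ≫ (kerS g).desc β h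
      = ((kerS g).π ≫ (kerS g).desc g fun _ _ hx => hx) ≫
          inv ((kerS g).desc g fun _ _ hx => hx) ≫ (kerS g).desc β h := rfl
    _ = β := by
      rw [Category.assoc, IsIso.hom_inv_id_assoc]
      rfl

variable (c : CylD D)

theorem Lax_ex_P (F : Fn D L) : ExOn (fun _ => True) (c.Pι F) (c.e1 F) := fun _ _ _ =>
  ⟨fun h => c.exists_Pι h, fun ⟨y, hy⟩ => hy ▸ c.e1_Pι y⟩

theorem Lax_ex_O (F : Fn D L) : ExOn (fun _ => True) (c.Oι F) (c.ev F) := fun _ _ _ =>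
  ⟨fun h => c.exists_Oι h, fun ⟨y, hy⟩ => hy ▸ c.ev_Oι y⟩

theorem Lax_ex_pr (F : Fn D L) : ExOn (fun _ => True) (c.ev F) (c.pr0 F) := fun _ _ x =>
  c.pr0_eq_zero x

theorem Lax_PP_Pι (α : F ⟶ G) :
    c.PP.map α ≫ c.Pι G = c.Pι F ≫ Functor.whiskerLeft c.I α := rfl

theorem Lax_Om_Oι (α : F ⟶ G) : c.Om.map α ≫ c.Oι G = c.Oι F ≫ c.PP.map α := rfl

theorem Lax_piEq_OmN {S : D → Prop} (q : ℕ) : ∀ {F G : Fn D L} {f : F ⟶ G}, c.PiEq S f →
    c.PiEq S ((c.OmN q).map f) := by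
  induction q with
  | zero => exact fun h => h
  | succ q ih =>
    intro F G f h
    rw [CylD.OmN_succ_map]
    exact ih h.om

end aux

/-- An exact operation `T` with a comparison map `T (F ∘ I) ⟶ (T F) ∘ I`. -/
structure Lax (c : CylD D) (c' : CylD D') (L : Type 1) [CommRing L] where
  /-- the operation -/
  T : Fn D L ⥤ Fn D' L
  [add : T.Additive]
  /-- the comparison map -/
  θ : ∀ F : Fn D L, T.obj (c.I ⋙ F) ⟶ c'.I ⋙ T.obj F
  θ_nat : ∀ {F G : Fn D L} (α : F ⟶ G),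
    T.map (Functor.whiskerLeft c.I α) ≫ θ G = θ F ≫ Functor.whiskerLeft c'.I (T.map α)
  θ_e0 : ∀ F : Fn D L, θ F ≫ c'.e0 (T.obj F) = T.map (c.e0 F)
  θ_e1 : ∀ F : Fn D L, θ F ≫ c'.e1 (T.obj F) = T.map (c.e1 F)
  inj : ∀ {F G : Fn D L} {f : F ⟶ G}, InjOn (fun _ => True) f → InjOn (fun _ => True) (T.map f)
  surj : ∀ {F G : Fn D L} {f : F ⟶ G}, SurjOn (fun _ => True) f → SurjOn (fun _ => True) (T.map f)
  ex : ∀ {F G H : Fn D L} {f : F ⟶ G} {g : G ⟶ H}, ExOn (fun _ => True) f g →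
    ExOn (fun _ => True) (T.map f) (T.map g)

attribute [instance] Lax.add

namespace Lax

variable {c : CylD D} {c' : CylD D'} (X : Lax c c' L)

/-- The comparison map for path objects. -/
def aP (F : Fn D L) : X.T.obj (c.PP.obj F) ⟶ c'.PP.obj (X.T.obj F) :=
  (kerS (c'.e1 (X.T.obj F))).lift (X.T.map (c.Pι F) ≫ X.θ F) fun B x => by
    have h : (X.T.map (c.Pι F) ≫ X.θ F) ≫ c'.e1 (X.T.obj F) = 0 := by
      rw [Category.assoc, X.θ_e1, ← X.T.map_comp,
        show c.Pι F ≫ c.e1 F = 0 from fn_ext fun B x => c.e1_Pι x, X.T.map_zero]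
    exact congrArg (fun k => k.app B x) h

theorem aP_Pι (F : Fn D L) : X.aP F ≫ c'.Pι (X.T.obj F) = X.T.map (c.Pι F) ≫ X.θ F := rfl

theorem aP_ev (F : Fn D L) : X.aP F ≫ c'.ev (X.T.obj F) = X.T.map (c.ev F) := by
  rw [CylD.ev, ← Category.assoc, aP_Pι, Category.assoc, X.θ_e0, ← X.T.map_comp]
  rfl

/-- The comparison map for loop objects. -/
def aO (F : Fn D L) : X.T.obj (c.Om.obj F) ⟶ c'.Om.obj (X.T.obj F) :=
  (kerS (c'.ev (X.T.obj F))).lift (X.T.map (c.Oι F) ≫ X.aP F) fun B x => by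
    have h : (X.T.map (c.Oι F) ≫ X.aP F) ≫ c'.ev (X.T.obj F) = 0 := by
      rw [Category.assoc, X.aP_ev, ← X.T.map_comp,
        show c.Oι F ≫ c.ev F = 0 from fn_ext fun B x => c.ev_Oι x, X.T.map_zero]
    exact congrArg (fun k => k.app B x) h

theorem aO_Oι (F : Fn D L) : X.aO F ≫ c'.Oι (X.T.obj F) = X.T.map (c.Oι F) ≫ X.aP F := rfl

/-- The comparison map for iterated loop objects. -/
def aN : ∀ (q : ℕ) (F : Fn D L), X.T.obj ((c.OmN q).obj F) ⟶ (c'.OmN q).obj (X.T.obj F)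
  | 0, _ => 𝟙 _
  | q + 1, F => aN q (c.Om.obj F) ≫ (c'.OmN q).map (X.aO F)

theorem exists_gam (F : Fn D L) : ∃ γ : X.T.obj (c.pi0.obj F) ⟶ c'.pi0.obj (X.T.obj F),
    X.T.map (c.pr0 F) ≫ γ = c'.pr0 (X.T.obj F) := by
  refine Lax_desc _ (fun B => X.surj (fun B _ => c.pr0_surj F B) B trivial) _ fun B x hx => ?_
  obtain ⟨y, rfl⟩ := (X.ex (Lax_ex_pr c F) B trivial x).1 hx
  exact (c'.pr0_eq_zero _).2 ⟨(X.aP F).app B y, Lax_apply_of_eq (X.aP_ev F) B y⟩

/-- The comparison map for homotopy groups. -/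
def kap (q : ℕ) (F : Fn D L) : X.T.obj ((c.piq q).obj F) ⟶ (c'.piq q).obj (X.T.obj F) :=
  (X.exists_gam ((c.OmN q).obj F)).choose ≫ c'.pi0.map (X.aN q F)

theorem prq_kap (q : ℕ) (F : Fn D L) :
    X.T.map (c.prq q F) ≫ X.kap q F = X.aN q F ≫ c'.prq q (X.T.obj F) := by
  rw [kap, ← Category.assoc]
  exact congrArg (· ≫ c'.pi0.map (X.aN q F)) (X.exists_gam ((c.OmN q).obj F)).choose_spec

theorem Lax_aN_succ (q : ℕ) (F : Fn D L) :
    X.aN (q + 1) F = X.aN q (c.Om.obj F) ≫ (c'.OmN q).map (X.aO F) := rfl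

theorem Lax_T_prq_surj (q : ℕ) (F : Fn D L) (B : D') :
    Function.Surjective ((X.T.map (c.prq q F)).app B) :=
  X.surj (fun B _ => c.prq_surj q F B) B trivial

theorem Lax_aP_nat {F G : Fn D L} (α : F ⟶ G) :
    X.T.map (c.PP.map α) ≫ X.aP G = X.aP F ≫ c'.PP.map (X.T.map α) := by
  refine Lax_cancel_mono (c'.Pι_inj (X.T.obj G)) ?_
  rw [Category.assoc, Category.assoc, X.aP_Pι, Lax_PP_Pι, ← Category.assoc, ← X.T.map_comp,
    Lax_PP_Pι, X.T.map_comp, Category.assoc, X.θ_nat, ← Category.assoc, ← X.aP_Pι,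
    Category.assoc]

theorem Lax_aO_nat {F G : Fn D L} (α : F ⟶ G) :
    X.T.map (c.Om.map α) ≫ X.aO G = X.aO F ≫ c'.Om.map (X.T.map α) := by
  refine Lax_cancel_mono (c'.Oι_inj (X.T.obj G)) ?_
  rw [Category.assoc, Category.assoc, X.aO_Oι, Lax_Om_Oι, ← Category.assoc, ← X.T.map_comp,
    Lax_Om_Oι, X.T.map_comp, Category.assoc, X.Lax_aP_nat, ← Category.assoc, ← X.aO_Oι,
    Category.assoc]

theorem Lax_aN_nat (q : ℕ) : ∀ {F G : Fn D L} (α : F ⟶ G),
    X.T.map ((c.OmN q).map α) ≫ X.aN q G = X.aN q F ≫ (c'.OmN q).map (X.T.map α) := by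
  induction q with
  | zero => exact fun α => (Category.comp_id _).trans (Category.id_comp _).symm
  | succ q ih =>
    intro F G α
    have h1 : X.T.map ((c.OmN q).map (c.Om.map α)) ≫ X.aN q (c.Om.obj G) ≫
        (c'.OmN q).map (X.aO G) = (X.aN q (c.Om.obj F) ≫ (c'.OmN q).map (X.aO F)) ≫
        (c'.OmN q).map (c'.Om.map (X.T.map α)) := by
      rw [← Category.assoc, ih, Category.assoc, Category.assoc, ← Functor.map_comp,
        ← Functor.map_comp, X.Lax_aO_nat]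
    exact h1

theorem kap_nat (q : ℕ) {F G : Fn D L} (α : F ⟶ G) :
    X.T.map ((c.piq q).map α) ≫ X.kap q G = X.kap q F ≫ (c'.piq q).map (X.T.map α) := by
  refine Lax_cancel_epi (X.Lax_T_prq_surj q F) ?_
  rw [← Category.assoc, ← X.T.map_comp, CylD.prq_nat, X.T.map_comp, Category.assoc, X.prq_kap,
    ← Category.assoc, X.Lax_aN_nat, ← Category.assoc, X.prq_kap, Category.assoc, Category.assoc,
    CylD.prq_nat]

theorem Lax_contr {K : Fn D L} (h : c.Contr K) : c'.Contr (X.T.obj K) := by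
  obtain ⟨k, h0, h1⟩ := h
  refine ⟨X.T.map k ≫ X.θ K, ?_, ?_⟩
  · rw [Category.assoc, X.θ_e0, ← X.T.map_comp, h0, X.T.map_id]
  · rw [Category.assoc, X.θ_e1, ← X.T.map_comp, h1, X.T.map_zero]

/-- The images of `TPF` and `PTF` in `TF` agree on `S`. -/
def Lax_A (S : D' → Prop) (F : Fn D L) : Prop :=
  ∀ B, S B → ∀ z, ∃ w, (X.T.map (c.ev F)).app B w = (c'.ev (X.T.obj F)).app B z

theorem Lax_gam_bij {S : D' → Prop} {F : Fn D L} (h : X.Lax_A S F)
    {γ : X.T.obj (c.pi0.obj F) ⟶ c'.pi0.obj (X.T.obj F)}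
    (hγ : X.T.map (c.pr0 F) ≫ γ = c'.pr0 (X.T.obj F)) : BijOn S γ := by
  intro B hB
  refine ⟨(injective_iff_map_eq_zero _).2 fun y hy => ?_, fun y => ?_⟩
  · obtain ⟨x, rfl⟩ := X.surj (fun B _ => c.pr0_surj F B) B trivial y
    have h1 : (c'.pr0 (X.T.obj F)).app B x = 0 := (Lax_apply_of_eq hγ B x).symm.trans hy
    obtain ⟨z, hz⟩ := (c'.pr0_eq_zero x).1 h1
    obtain ⟨w, hw⟩ := h B hB z
    exact (X.ex (Lax_ex_pr c F) B trivial x).2 ⟨w, hw.trans hz⟩
  · obtain ⟨x, rfl⟩ := c'.pr0_surj (X.T.obj F) B y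
    exact ⟨_, Lax_apply_of_eq hγ B x⟩

theorem Lax_piEq_aO {S : D' → Prop} (hS : c'.Stab S) {F : Fn D L} (h : X.Lax_A S F) :
    c'.PiEq S (X.aO F) := by
  let g' : c'.PP.obj (X.T.obj F) ⟶ (imS (c'.ev (X.T.obj F))).fn :=
    (imS (c'.ev (X.T.obj F))).lift (c'.ev (X.T.obj F)) fun _ x => ⟨x, rfl⟩
  have hι : ∀ B x, (imS (c'.ev (X.T.obj F))).ι.app B (g'.app B x) =
      (c'.ev (X.T.obj F)).app B x := fun _ _ => rfl
  have h0 : ∀ B x, g'.app B x = 0 ↔ (c'.ev (X.T.obj F)).app B x = 0 := fun B x => by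
    rw [← hι]
    exact (map_eq_zero_iff _ ((imS (c'.ev (X.T.obj F))).ι_inj B)).symm
  refine CylD.PiEq.schanuel hS (f := X.T.map (c.Oι F)) (g := X.aP F ≫ g')
    (f' := c'.Oι (X.T.obj F)) (g' := g') (X.aO F) (X.aP F) (X.aO_Oι F).symm rfl
    (fun B _ => X.inj (fun B _ => c.Oι_inj F B) B trivial) (fun B _ x => ?_) (fun B hB y => ?_)
    (fun B _ => c'.Oι_inj _ B) (fun B _ x => ?_) (X.Lax_contr (CylD.contr_PP F)).null
    (CylD.contr_PP _).null
  · rw [Lax_comp_apply, h0, Lax_apply_of_eq (X.aP_ev F)]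
    exact X.ex (Lax_ex_O c F) B trivial x
  · obtain ⟨z, hz⟩ := (imS (c'.ev (X.T.obj F))).ι_mem B y
    obtain ⟨w, hw⟩ := h B hB z
    refine ⟨w, (imS (c'.ev (X.T.obj F))).ι_inj B ?_⟩
    rw [Lax_comp_apply, hι, Lax_apply_of_eq (X.aP_ev F), hw]
    exact hz
  · rw [h0]
    exact Lax_ex_O c' _ B trivial x

theorem Lax_piEq_aN {S : D' → Prop} (hS : c'.Stab S) (q : ℕ) : ∀ F : Fn D L,
    (∀ j, X.Lax_A S ((c.OmN j).obj F)) → c'.PiEq S (X.aN q F) := by
  induction q with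
  | zero => exact fun F _ => CylD.PiEq.of_bijOn hS fun B _ => Function.bijective_id
  | succ q ih =>
    intro F h
    have h1 : c'.PiEq S (X.aN q (c.Om.obj F)) := ih _ fun j => by
      rw [← CylD.OmN_succ_obj]
      exact h (j + 1)
    have h2 : c'.PiEq S ((c'.OmN q).map (X.aO F)) :=
      Lax_piEq_OmN c' q (X.Lax_piEq_aO hS (h 0))
    exact h1.comp h2

theorem Lax_kap_bij {S : D' → Prop} (hS : c'.Stab S) (F : Fn D L)
    (h : ∀ j, X.Lax_A S ((c.OmN j).obj F)) (q : ℕ) : BijOn S (X.kap q F) := by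
  intro B hB
  have h1 := X.Lax_gam_bij (h q) (X.exists_gam ((c.OmN q).obj F)).choose_spec B hB
  have h2 : Function.Bijective ((c'.pi0.map (X.aN q F)).app B) := X.Lax_piEq_aN hS q F h 0 B hB
  exact h2.comp h1

/-- The strong case. -/
theorem kap_bij_of_strong {S : D' → Prop} (hS : c'.Stab S) (h : ∀ F, BijOn S (X.θ F)) (q : ℕ)
    (F : Fn D L) : BijOn S (X.kap q F) := by
  refine X.Lax_kap_bij hS F (fun j => ?_) q
  generalize (c.OmN j).obj F = G
  intro B hB z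
  obtain ⟨y, hy⟩ := (h G B hB).2 ((c'.Pι (X.T.obj G)).app B z)
  have h1 : (X.T.map (c.e1 G)).app B y = 0 := by
    rw [← Lax_apply_of_eq (X.θ_e1 G), hy]
    exact c'.e1_Pι z
  obtain ⟨w, rfl⟩ := (X.ex (Lax_ex_P c G) B trivial y).1 h1
  have h2 : (X.aP G).app B w = z := c'.Pι_inj _ B hy
  exact ⟨w, by rw [← h2, Lax_apply_of_eq (X.aP_ev G)]⟩

/-- `T` preserves contractible objects. -/
theorem contr {K : Fn D L} (h : c.Contr K) : c'.Contr (X.T.obj K) := by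
  exact X.Lax_contr h

theorem Lax_A_of_inv {S : D' → Prop} {G : Fn D L} (h : c'.Inv S (X.T.obj (c.pi0.obj G))) :
    X.Lax_A S G := by
  intro B hB z
  refine (X.ex (Lax_ex_pr c G) B trivial _).1 ?_
  rw [CylD.ev_apply, nat_apply, h.e0_eq_e1 hB, ← nat_apply, c'.e1_Pι, map_zero]

/-- If `T π_0 F` is invariant then `T π_0 F = π_0 T F` on `S`, the images of `TPF` and `PTF` in `TF`
agree on `S`, and `PiEq.schanuel` (with `K` the image of `PTF ⟶ TF`) shows that `aO F` is an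
equivalence. Then `aN q F` is a composite of equivalences. -/
theorem kap_bij_of_inv {S : D' → Prop} (hS : c'.Stab S) (F : Fn D L)
    (h : ∀ q, c'.Inv S (X.T.obj ((c.piq q).obj F))) (q : ℕ) : BijOn S (X.kap q F) := by
  exact X.Lax_kap_bij hS F (fun j => X.Lax_A_of_inv (h j)) q

theorem unit_kap {c : CylD D} (X : Lax c c L) (η : ∀ F : Fn D L, F ⟶ X.T.obj F)
    (hn : ∀ {F G : Fn D L} (α : F ⟶ G), α ≫ η G = η F ≫ X.T.map α)
    (hθ : ∀ F : Fn D L, η (c.I ⋙ F) ≫ X.θ F = Functor.whiskerLeft c.I (η F)) (q : ℕ)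
    (F : Fn D L) : η ((c.piq q).obj F) ≫ X.kap q F = (c.piq q).map (η F) := by
  have hP : ∀ G : Fn D L, η (c.PP.obj G) ≫ X.aP G = c.PP.map (η G) := fun G => by
    refine Lax_cancel_mono (c.Pι_inj (X.T.obj G)) ?_
    rw [Category.assoc, X.aP_Pι, ← Category.assoc, ← hn, Category.assoc, hθ, Lax_PP_Pι]
  have hO : ∀ G : Fn D L, η (c.Om.obj G) ≫ X.aO G = c.Om.map (η G) := fun G => by
    refine Lax_cancel_mono (c.Oι_inj (X.T.obj G)) ?_
    rw [Category.assoc, X.aO_Oι, ← Category.assoc, ← hn, Category.assoc, hP, Lax_Om_Oι]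
  have hN : ∀ (q : ℕ) (G : Fn D L), η ((c.OmN q).obj G) ≫ X.aN q G = (c.OmN q).map (η G) := by
    intro q
    induction q with
    | zero => exact fun G => Category.comp_id _
    | succ q ih =>
      intro G
      have h1 : η ((c.OmN q).obj (c.Om.obj G)) ≫ X.aN q (c.Om.obj G) ≫ (c.OmN q).map (X.aO G) =
          (c.OmN q).map (c.Om.map (η G)) := by
        rw [← Category.assoc, ih, ← Functor.map_comp, hO]
      exact h1
  refine Lax_cancel_epi (c.prq_surj q F) ?_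
  rw [← Category.assoc, hn, Category.assoc, X.prq_kap, ← Category.assoc, hN, CylD.prq_nat]

theorem kap_counit {c : CylD D} (X : Lax c c L) (ε : ∀ F : Fn D L, X.T.obj F ⟶ F)
    (hn : ∀ {F G : Fn D L} (α : F ⟶ G), X.T.map α ≫ ε G = ε F ≫ α)
    (hθ : ∀ F : Fn D L, X.θ F ≫ Functor.whiskerLeft c.I (ε F) = ε (c.I ⋙ F)) (q : ℕ)
    (F : Fn D L) : X.kap q F ≫ (c.piq q).map (ε F) = ε ((c.piq q).obj F) := by
  have hP : ∀ G : Fn D L, X.aP G ≫ c.PP.map (ε G) = ε (c.PP.obj G) := fun G => by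
    refine Lax_cancel_mono (c.Pι_inj G) ?_
    rw [Category.assoc, Lax_PP_Pι, ← Category.assoc, X.aP_Pι, Category.assoc, hθ, hn]
  have hO : ∀ G : Fn D L, X.aO G ≫ c.Om.map (ε G) = ε (c.Om.obj G) := fun G => by
    refine Lax_cancel_mono (c.Oι_inj G) ?_
    rw [Category.assoc, Lax_Om_Oι, ← Category.assoc, X.aO_Oι, Category.assoc, hP, hn]
  have hN : ∀ (q : ℕ) (G : Fn D L), X.aN q G ≫ (c.OmN q).map (ε G) = ε ((c.OmN q).obj G) := by
    intro q
    induction q with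
    | zero => exact fun G => Category.id_comp _
    | succ q ih =>
      intro G
      have h1 : (X.aN q (c.Om.obj G) ≫ (c.OmN q).map (X.aO G)) ≫
          (c.OmN q).map (c.Om.map (ε G)) = ε ((c.OmN q).obj (c.Om.obj G)) := by
        rw [Category.assoc, ← Functor.map_comp, hO, ih]
      exact h1
  refine Lax_cancel_epi (X.Lax_T_prq_surj q F) ?_
  rw [← Category.assoc, X.prq_kap, Category.assoc, CylD.prq_nat, ← Category.assoc, hN, hn]

end Lax

/-- A functor `Ψ` with a comparison map `I (Ψ B) ⟶ Ψ (I' B)`. -/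
structure CylF (c : CylD D) (c' : CylD D') (Ψ : D' ⥤ D) where
  /-- the comparison map -/
  w : ∀ B : D', c.I.obj (Ψ.obj B) ⟶ Ψ.obj (c'.I.obj B)
  w_nat : ∀ {B B' : D'} (f : B ⟶ B'), c.I.map (Ψ.map f) ≫ w B' = w B ≫ Ψ.map (c'.I.map f)
  w_i0 : ∀ B : D', w B ≫ Ψ.map (c'.i0 B) = c.i0 (Ψ.obj B)
  w_i1 : ∀ B : D', w B ≫ Ψ.map (c'.i1 B) = c.i1 (Ψ.obj B)

/-- Precomposition with `Ψ` as a lax operation. -/
def CylF.lax {c : CylD D} {c' : CylD D'} {Ψ : D' ⥤ D} (W : CylF c c' Ψ) (L : Type 1) [CommRing L] :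
    Lax c c' L where
  T := (Functor.whiskeringLeft D' D (ModuleCat.{1} L)).obj Ψ
  add := ⟨rfl⟩
  θ F := { app := fun B => F.map (W.w B)
           naturality := fun _ _ f => (F.map_comp _ _).symm.trans
            ((congrArg F.map (W.w_nat f)).trans (F.map_comp _ _)) }
  θ_nat α := fn_ext fun B x => (nat_apply α (W.w B) x).symm
  θ_e0 F := fn_ext fun B x => (map_map F _ _ x).trans (congrArg (fun k => F.map k x) (W.w_i0 B))
  θ_e1 F := fn_ext fun B x => (map_map F _ _ x).trans (congrArg (fun k => F.map k x) (W.w_i1 B))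
  inj h B _ := h (Ψ.obj B) trivial
  surj h B _ := h (Ψ.obj B) trivial
  ex h B _ := h (Ψ.obj B) trivial

/-- Change of category. -/
theorem CylF.kap_bij {c : CylD D} {c' : CylD D'} {Ψ : D' ⥤ D} (W : CylF c c' Ψ)
    (h : ∀ B, IsIso (W.w B)) (q : ℕ) (F : Fn D L) (B : D') :
    Function.Bijective (((W.lax L).kap q F).app B) :=
  (W.lax L).kap_bij_of_strong CylD.stab_top
    (fun F B _ => ConcreteCategory.bijective_of_isIso (F.map (W.w B))) q F B trivial

/-- Change of category, as an isomorphism. -/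
theorem CylF.exists_iso {c : CylD D} {c' : CylD D'} {Ψ : D' ⥤ D} (W : CylF c c' Ψ)
    (h : ∀ B, IsIso (W.w B)) (q : ℕ) {F : Fn D L} {F' : Fn D' L} (e : F' ≅ Ψ ⋙ F) :
    Nonempty ((c'.piq q).obj F' ≅ Ψ ⋙ (c.piq q).obj F) := by
  have := Lax_isIso ((W.lax L).kap q F) (W.kap_bij h q F)
  exact ⟨(c'.piq q).mapIso e ≪≫ (asIso ((W.lax L).kap q F)).symm⟩

end Pool.Agent.KEW.L8
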