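import Pool.Agent.P.MP_6277db_ag.KEW.L8a.Germ
import Pool.Agent.P.MP_6277db_ag.KEW.L8a.Ann
import Pool.Agent.P.MP_6277db_ag.KEW.L8a.Lax
import Pool.Agent.P.MP_6277db_ag.KEW.L8a.Hens
import Pool.Agent.P.MP_6277db_ag.KEW.L8b.GB
import Pool.Agent.P.MP_6277db_ag.KEW.L6.Defs

/-!
KEW project, layer L8a: the germ functor as a lax operation, overconvergence of germs, and the
comparison with `GB` and `G2`.
-/

set_option backward.isDefEq.respectTransparency false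

noncomputable section

open CategoryTheory Polynomial

namespace Pool.Agent.KEW.L8

open _root_.KEW

variable {A : Type} [CommRing A] {L : Type 1} [CommRing L]

/-- Laurent rings are compatible with the cylinder. -/
def lauW (A : Type) [CommRing A] : CylF (cyl A) (cyl A) (lauF A) where
  w := lp
  w_nat := lp_nat
  w_i0 := lp_i0
  w_i1 := lp_i1

theorem isIso_of_bijective {B B' : Alg A} (f : B ⟶ B') (h : Function.Bijective f.1) : IsIso f := by
  let e := RingEquiv.ofBijective f.1 h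
  exact ⟨⟨⟨e.symm.toRingHom, RingHom.ext fun a => e.symm_apply_eq.2 (Alg.map_s f a).symm⟩,
    Alg.hom_ext (RingHom.ext e.symm_apply_apply), Alg.hom_ext (RingHom.ext e.apply_symm_apply)⟩⟩

theorem GermApi_po {B B' : Alg A} (g : B ⟶ B') : IsPO (𝟙 B : B ⟶ B).1 g.1 g.1 (𝟙 B' : B' ⟶ B').1 :=
  (isPO_id g.1).flip

/-- The unit section `F ∘ Lau ⟶ F`. -/
def eLau (F : Fn (Alg A) L) : lauF A ⋙ F ⟶ F where
  app B := F.map (eL B)
  naturality _ _ f := (F.map_comp _ _).symm.trans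
    ((congrArg F.map (eL_nat f)).trans (F.map_comp _ _))

/-- The constants `F ⟶ F ∘ Lau`. -/
def cLau (F : Fn (Alg A) L) : F ⟶ lauF A ⋙ F where
  app B := F.map (cL B)
  naturality _ _ f := (F.map_comp _ _).symm.trans
    ((congrArg F.map (cL_nat f)).trans (F.map_comp _ _))

/-- `F` inverts the maps which are bijective after inverting `π`. -/
def PInv (π : A) (F : Fn (Alg A) L) : Prop :=
  ∀ {B B' : Alg A} (g : B ⟶ B'), PI π g → Function.Bijective (F.map g)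

/-- A functor on `A`-algebras as an `RF`. -/
def toRF (F : Fn (Alg A) L) : RF.{0, 1} A where
  obj a := F.obj ⟨_, a⟩
  map {_ _ _ _ a b} f h := (F.map (X := ⟨_, a⟩) (Y := ⟨_, b⟩) ⟨f, h⟩).hom.toAddMonoidHom
  map_id {_ _ a} _ x := map_id' F ⟨_, a⟩ x
  map_comp {_ _ _ _ _ _ a b c} f g hf hg _ _ x :=
    map_map F (B := ⟨_, a⟩) (B' := ⟨_, b⟩) (B'' := ⟨_, c⟩) ⟨f, hf⟩ ⟨g, hg⟩ x

/-- An isomorphism of `h` with `F` on `EP` algebras. -/
structure RFIso (h : RF.{0, 1} A) (F : Fn (Alg A) L) where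
  /-- the bijections -/
  e : ∀ B : Alg A, EP B.s → (h.obj B.s ≃+ F.obj B)
  nat : ∀ {B B' : Alg A} (hB : EP B.s) (hB' : EP B'.s) (f : B ⟶ B') (x : h.obj B.s),
    e B' hB' (h.map f.1 f.2 x) = F.map f (e B hB x)

/-- `x` is killed by the endomorphisms in `Λ`. -/
def Kil (F : Fn (Alg A) L) (B : Alg A) (Λ : Set (B.R →+* B.R)) (x : F.obj B) : Prop :=
  ∀ φ : B ⟶ B, φ.1 ∈ Λ → F.map φ x = 0

/-- `f` is bijective on the elements killed by `Λ`. -/
structure KBij {F F' : Fn (Alg A) L} (f : F ⟶ F') (B : Alg A) (Λ : Set (B.R →+* B.R)) : Prop where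
  inj : ∀ x, Kil F B Λ x → f.app B x = 0 → x = 0
  surj : ∀ y, Kil F' B Λ y → ∃ x, Kil F B Λ x ∧ f.app B x = y

namespace Germ

variable {π π' : A} (G : Germ π' L) {F F' : Fn (Alg A) L}

theorem exists_th (Ψ : Alg A ⥤ Alg A) (hΨ : ∀ {B E : Alg A} (f : B ⟶ E), IsEE π' f → IsEE π' (Ψ.map f))
    (F : Fn (Alg A) L) : ∃ θ : G.Γ.obj (Ψ ⋙ F) ⟶ Ψ ⋙ G.Γ.obj F,
      ∀ {B E : Alg A} (f : B ⟶ E) (h : IsEE π' f) (a : F.obj (Ψ.obj E)),
        θ.app B (G.cl (Ψ ⋙ F) f h a) = G.cl F (Ψ.map f) (hΨ f h) a := by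
  choose U hU using fun B : Alg A => G.exists_desc (Ψ ⋙ F) B (N := (G.Γ.obj F).obj (Ψ.obj B))
    (fun E f h => G.cl F (Ψ.map f) (hΨ f h)) fun E E' f h j h' a =>
      (G.mk_congr (Ψ.map_comp f j) _ (Ψ.map_comp f j ▸ hΨ _ h') _).trans
        (G.mk_comp (F := F) (Ψ.map f) _ (Ψ.map j) _ a)
  refine ⟨{ app := fun B => ModuleCat.ofHom (U B), naturality := fun B B' g => ?_ },
    fun f h a => hU _ _ f h a⟩
  refine ModuleCat.hom_ext (LinearMap.ext fun x => ?_)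
  obtain ⟨E, f, h, a, rfl⟩ := G.surj _ B x
  obtain ⟨P, i, j, po⟩ := Alg.exists_po f g
  change U B' ((G.Γ.obj (Ψ ⋙ F)).map g _) = (G.Γ.obj F).map (Ψ.map g) (U B _)
  rw [G.map_mk _ f h j (h.of_po po) g i (Alg.po_comm po), hU, hU]
  exact (G.map_mk F _ _ _ _ (Ψ.map g) (Ψ.map i)
    (by rw [← Ψ.map_comp, ← Ψ.map_comp, Alg.po_comm po]) a).symm

/-- The comparison map for Laurent rings. -/
def thL (F : Fn (Alg A) L) : G.Γ.obj (lauF A ⋙ F) ⟶ lauF A ⋙ G.Γ.obj F :=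
  (G.exists_th (lauF A) (fun _ h => h.lauF) F).choose

theorem thL_mk (F : Fn (Alg A) L) {B E : Alg A} (f : B ⟶ E) (h : IsEE π' f)
    (a : F.obj ((lauF A).obj E)) :
    (G.thL F).app B (G.cl (lauF A ⋙ F) f h a) = G.cl F ((lauF A).map f) h.lauF a :=
  (G.exists_th (lauF A) (fun _ h => h.lauF) F).choose_spec f h a

instance : G.Γ.Additive := by
  refine ⟨fun {F F' α β} => fn_ext fun B x => ?_⟩
  obtain ⟨E, f, h, a, rfl⟩ := G.surj F B x
  change _ = (G.Γ.map α).app B _ + (G.Γ.map β).app B _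
  rw [G.app_mk, G.app_mk, G.app_mk, ← map_add]
  rfl

theorem Γ_inj {f : F ⟶ F'} (h : InjOn (fun _ => True) f) : InjOn (fun _ => True) (G.Γ.map f) := by
  refine fun B _ => (injective_iff_map_eq_zero ((G.Γ.map f).app B).hom).2 fun x hx => ?_
  obtain ⟨E, e, he, a, rfl⟩ := G.surj F B x
  obtain ⟨E', j, hj, h0⟩ := G.eq_zero F' e he _ ((G.app_mk f e he a).symm.trans hx)
  rw [← G.mk_comp e he j (he.comp hj), h E' trivial ((nat_apply f j a).trans
    (h0.trans (map_zero _).symm)), map_zero]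

theorem Γ_ex {F'' : Fn (Alg A) L} {f : F ⟶ F'} {g : F' ⟶ F''} (h : ExOn (fun _ => True) f g) :
    ExOn (fun _ => True) (G.Γ.map f) (G.Γ.map g) := by
  intro B _ y
  constructor
  · intro hy
    obtain ⟨E, e, he, b, rfl⟩ := G.surj F' B y
    obtain ⟨E', j, hj, h0⟩ := G.eq_zero F'' e he _ ((G.app_mk g e he b).symm.trans hy)
    obtain ⟨a, ha⟩ := (h E' trivial _).1 ((nat_apply g j b).trans h0)
    exact ⟨G.cl F (e ≫ j) (he.comp hj) a, by rw [G.app_mk, ha, G.mk_comp]⟩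
  · rintro ⟨x, rfl⟩
    obtain ⟨E, e, he, a, rfl⟩ := G.surj F B x
    rw [G.app_mk, G.app_mk, (h E trivial _).2 ⟨a, rfl⟩, map_zero]

theorem Γ_surj {f : F ⟶ F'} (h : SurjOn (fun _ => True) f) :
    SurjOn (fun _ => True) (G.Γ.map f) := by
  intro B _ y
  obtain ⟨E, e, he, b, rfl⟩ := G.surj F' B y
  obtain ⟨a, rfl⟩ := h E trivial b
  exact ⟨_, G.app_mk f e he a⟩

/-- The comparison map for polynomial rings. -/
def thP (F : Fn (Alg A) L) : G.Γ.obj (polyF A ⋙ F) ⟶ polyF A ⋙ G.Γ.obj F :=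
  (G.exists_th (polyF A) (fun _ h => h.polyF) F).choose

theorem thP_mk (F : Fn (Alg A) L) {B E : Alg A} (f : B ⟶ E) (h : IsEE π' f)
    (a : F.obj ((polyF A).obj E)) :
    (G.thP F).app B (G.cl (polyF A ⋙ F) f h a) = G.cl F ((polyF A).map f) h.polyF a :=
  (G.exists_th (polyF A) (fun _ h => h.polyF) F).choose_spec f h a

/-- The germ functor as a lax operation. -/
def lax : Lax (cyl A) (cyl A) L where
  T := G.Γ
  θ := G.thP
  θ_nat {F F'} α := fn_ext fun B x => by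
    obtain ⟨E, f, h, a, rfl⟩ := G.surj _ B x
    exact (congrArg ((G.thP F').app B) (G.app_mk (Functor.whiskerLeft (polyF A) α) f h a)).trans
      ((G.thP_mk F' f h _).trans ((congrArg ((G.Γ.map α).app _) (G.thP_mk F f h a)).trans
        (G.app_mk α _ _ a)).symm)
  θ_e0 F := fn_ext fun B x => by
    obtain ⟨E, f, h, a, rfl⟩ := G.surj _ B x
    exact (congrArg ((G.Γ.obj F).map ((cyl A).i0 B)) (G.thP_mk F f h a)).trans
      ((G.map_mk F _ _ f h _ _ ((cyl A).i0_nat f) a).trans (G.app_mk ((cyl A).e0 F) f h a).symm)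
  θ_e1 F := fn_ext fun B x => by
    obtain ⟨E, f, h, a, rfl⟩ := G.surj _ B x
    exact (congrArg ((G.Γ.obj F).map ((cyl A).i1 B)) (G.thP_mk F f h a)).trans
      ((G.map_mk F _ _ f h _ _ ((cyl A).i1_nat f) a).trans (G.app_mk ((cyl A).e1 F) f h a).symm)
  inj := G.Γ_inj
  surj := G.Γ_surj
  ex := G.Γ_ex

/-- Germs commute with homotopy groups if the germs of the homotopy groups are invariant
(build the `Lax` structure on `G.Γ` with `exists_th` for `polyF`; `Lax.kap_bij_of_inv`,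
`Lax.unit_kap`). -/
theorem exists_kap (F : Fn (Alg A) L)
    (h : ∀ q, (cyl A).Inv (fun B => EP B.s) (G.Γ.obj (((cyl A).piq q).obj F))) (q : ℕ) :
    ∃ κ : G.Γ.obj (((cyl A).piq q).obj F) ⟶ ((cyl A).piq q).obj (G.Γ.obj F),
      BijOn (fun B => EP B.s) κ ∧ G.η _ ≫ κ = ((cyl A).piq q).map (G.η F) := by
  exact ⟨(G.lax).kap q F, (G.lax).kap_bij_of_inv (S := fun B => EP B.s) (fun _ => ep_polyF) F h q,
    (G.lax).unit_kap G.η G.η_nat (fun F => fn_ext fun B a => (G.thP_mk F (𝟙 B) (IsEE.id B) a).trans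
      (G.mk_congr ((polyF A).map_id B) _ _ a)) q F⟩

theorem η_bij (G : Germ (0 : A) L) (F : Fn (Alg A) L) : BijOn (fun _ => True) (G.η F) := by
  intro B _
  refine ⟨(injective_iff_map_eq_zero ((G.η F).app B).hom).2 fun a ha => ?_, fun x => ?_⟩
  · obtain ⟨E, j, hj, h0⟩ := G.eq_zero F (𝟙 B) _ a ha
    have := isIso_of_bijective j hj.bijective
    rw [← map_id' F B a, ← IsIso.hom_inv_id j, ← map_map, h0, map_zero]
  · obtain ⟨E, f, h, a, rfl⟩ := G.surj F B x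
    have := isIso_of_bijective f h.bijective
    exact ⟨F.map (inv f) a, by rw [← G.η_map f h, map_map, IsIso.inv_hom_id, map_id']⟩

/-- Over a henselian base every germ at the base is a section (`hens_section`, `IsEE.coeq`). -/
theorem η_bij_base [HenselianLocalRing A] (hπ : IsLocalRing.maximalIdeal A = Ideal.span {π'})
    (F : Fn (Alg A) L) : Function.Bijective ((G.η F).app ⟨A, RingHom.id A⟩) := by
  have hs : ∀ {E : Alg A} (f : (⟨A, RingHom.id A⟩ : Alg A) ⟶ E), IsEE π' f →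
      ∃ s : E ⟶ ⟨A, RingHom.id A⟩, f ≫ s = 𝟙 _ := fun f h => by
    obtain ⟨s, hs⟩ := hens_section (f := f.1) (hπ ▸ h)
    exact ⟨⟨s, (congrArg s.comp f.2.symm).trans hs⟩, Alg.hom_ext hs⟩
  refine ⟨(injective_iff_map_eq_zero ((G.η F).app _).hom).2 fun a ha => ?_, fun x => ?_⟩
  · obtain ⟨E, j, hj, h0⟩ := G.eq_zero F (𝟙 _) _ a ha
    obtain ⟨s, e⟩ := hs j hj
    rw [← map_id' F _ a, ← e, ← map_map, h0, map_zero]
  · obtain ⟨E, f, h, a, rfl⟩ := G.surj F _ x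
    obtain ⟨s, e⟩ := hs f h
    obtain ⟨Y, l, hl, e'⟩ := h.coeq (a := s ≫ f) (b := 𝟙 E)
      (by rw [← Category.assoc, e, Category.id_comp, Category.comp_id])
    refine ⟨F.map s a, ?_⟩
    rw [← G.η_map f h, ← G.mk_comp f h l (h.comp hl), ← G.mk_comp f h l (h.comp hl) a, map_map,
      map_map, ← Category.assoc, e', Category.id_comp]

theorem inv_of_G2 {h : RF.{0, 1} A} (e : RFIso h F) (hG : L6.G2 π' h) :
    (cyl A).Inv (fun B => EP B.s) (G.Γ.obj F) := by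
  intro B hB x
  obtain ⟨E, ε, hε, a, rfl⟩ := G.surj F _ x
  have hE : EP E.s := hε.ep (ep_polyF hB)
  obtain ⟨a, rfl⟩ := (e.e E hE).surjective a
  obtain ⟨B1, E', _, _, f, j, ψ, hψ, b, hf, hj, w, H⟩ := hG B.R E.R B.s E.s ε.1 ε.2 hB hε a
  have hf' : IsEE π' (B.toUnder f) := hf
  have hj' : IsEE π' (E.toUnder j) := hj
  let ψ' : B.under f ⟶ E.under j := ⟨ψ, hψ⟩
  refine ⟨G.cl F (B.toUnder f) hf' (e.e _ (hf'.ep hB) b), ?_⟩
  rw [G.map_mk F _ hf' (ε ≫ E.toUnder j) (hε.comp hj') ((cyl A).p B) ψ' (Alg.hom_ext w),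
    ← e.nat (hf'.ep hB) (hj'.ep hE) ψ' b, ← G.mk_comp ε hε _ (hε.comp hj'),
    ← e.nat hE (hj'.ep hE) (E.toUnder j) a]
  exact congrArg _ (congrArg _ H.symm)

theorem gb_of_kBij {h : RF.{0, 1} A} (e : RFIso h F) {B : Alg A} (hB : EP B.s)
    {Λ : Set (B.R →+* B.R)} (hΛ : ∀ φ ∈ Λ, φ.comp B.s = B.s) (H : KBij (G.η F) B Λ) :
    GB π' h B.s Λ := by
  have hz : ∀ {R S : Type} [CommRing R] [CommRing S] {a : A →+* R} {b : A →+* S} (f : R →+* S)
      (hf : f.comp a = b) (x : h.obj a), h.map f hf x = 0 ↔ h.map f rfl x = 0 := by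
    intro R S _ _ a b f hf x
    subst hf
    rfl
  have hk : ∀ b : h.obj B.s, Kil F B Λ (e.e B hB b) ↔ ∀ φ ∈ Λ, h.map φ rfl b = 0 := fun b =>
    ⟨fun H φ hφ => (hz φ (hΛ φ hφ) b).1 ((e.e B hB).injective
        ((e.nat hB hB ⟨φ, hΛ φ hφ⟩ b).trans ((H ⟨φ, hΛ φ hφ⟩ hφ).trans (map_zero _).symm))),
      fun H φ hφ => by rw [← e.nat hB hB φ b, (hz φ.1 φ.2 b).2 (H _ hφ), map_zero]⟩
  refine ⟨fun b hb E _ f hf h0 => ?_, fun E _ f hf a ha => ?_⟩
  · have hf' : IsEE π' (B.toUnder f) := hf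
    refine (e.e B hB).injective ((H.inj _ ((hk b).2 hb) ?_).trans (map_zero _).symm)
    rw [← G.η_map _ hf', ← e.nat hB (hf'.ep hB) (B.toUnder f) b]
    exact (congrArg _ ((congrArg _ h0).trans (map_zero _))).trans (map_zero _)
  · have hf' : IsEE π' (B.toUnder f) := hf
    have hE := hf'.ep hB
    obtain ⟨x, hx, ex⟩ := H.surj (G.cl F _ hf' (e.e _ hE a)) fun φ hφ => by
      obtain ⟨E1, _, f1, ψ, h1, w, h0⟩ := ha φ.1 hφ
      have h1' : IsEE π' (B.toUnder f1) := h1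
      let ψ' : B.under f ⟶ B.under f1 :=
        ⟨ψ, by rw [← RingHom.comp_assoc, w, RingHom.comp_assoc, φ.2]⟩
      rw [G.map_mk F _ hf' _ h1' φ ψ' (Alg.hom_ext w), ← e.nat hE (h1'.ep hB) ψ' a,
        (hz ψ ψ'.2 a).2 h0, map_zero, map_zero]
    obtain ⟨b, rfl⟩ := (e.e B hB).surjective x
    rw [← G.η_map _ hf', ← sub_eq_zero, ← map_sub] at ex
    obtain ⟨E', j, hj, h0⟩ := G.eq_zero F _ _ _ ex
    rw [map_sub, map_map, sub_eq_zero, ← e.nat hB (hj.ep hE), ← e.nat hE (hj.ep hE)] at h0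
    refine ⟨b, (hk b).1 hx, E'.R, inferInstance, j.1, hf'.comp hj, ?_⟩
    have key : ∀ (s : A →+* E'.R) (h1 : j.1.comp (f.comp B.s) = s)
        (h2 : (j.1.comp f).comp B.s = s), h.map j.1 h1 a = h.map (j.1.comp f) h2 b →
        h.map j.1 rfl a = h.map (j.1.comp f) rfl b := by
      rintro s rfl h2 h3
      exact h3
    exact key _ j.2 _ ((e.e _ _).injective h0).symm

/-- Overconvergence, surjectivity (`oc_ring` with `N = 0`, `f = 𝟙`). -/
theorem oc_surj (hπ : π' = π ∨ π' = 0) (hF : PInv π F) (T : Alg A)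
    (v : (G.Γ.obj F).obj ((lauF A).obj T)) :
    ∃ N0 : ℕ, ∀ N, N0 ≤ N → ∃ w, (G.Γ.obj F).map (rnι π N T) w = v := by
  obtain ⟨E1, ε, hε, a, rfl⟩ := G.surj F _ v
  obtain ⟨N0, H⟩ := oc_ring (N := 0) (f := 𝟙 _) (i := rnι π 0 T) (γ := 𝟙 _) hπ
    (GermApi_po _) hε
  refine ⟨N0, fun N hN => ?_⟩
  obtain ⟨St, E2, X2, k, f', ε2, i2, γ2, η, po, h1, h2, h3, w1, -, w3⟩ := H N (Nat.zero_le N) hN
  obtain ⟨a2, ha⟩ := (hF i2 h2).2 (F.map η a)
  have hf : IsEE π' (f' ≫ ε2) := ((IsEE.id _).of_po po).comp h1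
  refine ⟨G.cl F _ hf a2, ?_⟩
  rw [G.map_mk F _ hf γ2 h3 _ i2 (by rw [Category.assoc, w3, Category.id_comp]), ha,
    G.mk_congr w1.symm h3 (w1 ▸ h3), G.mk_comp]

/-- Overconvergence, injectivity. -/
theorem oc_inj (hπ : π' = π ∨ π' = 0) (hF : PInv π F) (T : Alg A) {N : ℕ}
    (w : (G.Γ.obj F).obj ((RN π N).obj T)) (hw : (G.Γ.obj F).map (rnι π N T) w = 0) :
    ∃ N0 : ℕ, ∀ (N' : ℕ) (h : N ≤ N'), N0 ≤ N' → (G.Γ.obj F).map (rnT π h T) w = 0 := by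
  obtain ⟨E, f, hf, a, rfl⟩ := G.surj F _ w
  obtain ⟨X, i, γ, po⟩ := Alg.exists_po f (rnι π N T)
  rw [G.map_mk F f hf γ (hf.of_po po) _ i (Alg.po_comm po)] at hw
  obtain ⟨E1, ε, hε, h0⟩ := G.eq_zero F _ _ _ hw
  obtain ⟨N0, H⟩ := oc_ring hπ po hε
  refine ⟨N0, fun N' h hN => ?_⟩
  obtain ⟨St, E2, X2, k, f', ε2, i2, γ2, η, po', h1, h2, -, w1, w2, -⟩ := H N' h hN
  have h3 : F.map ε2 (F.map k a) = 0 := (hF i2 h2).1 (by
    rw [map_zero, map_map, map_map, w2, ← w1, ← map_map, ← map_map, h0, map_zero])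
  rw [G.map_mk F f hf f' (hf.of_po po') _ k (Alg.po_comm po'),
    ← G.mk_comp f' _ ε2 ((hf.of_po po').comp h1), h3, map_zero]

end Germ

end Pool.Agent.KEW.L8
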