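import Pool.Agent.P.MP_6277db_ag.KEW.L8a.OpsR
import Pool.Agent.P.MP_6277db_ag.KEW.L8a.GermApi

/-!
KEW project, layer L8a: the operations on germs of correspondences.
-/

set_option backward.isDefEq.respectTransparency false

noncomputable section

open CategoryTheory Polynomial

namespace Pool.Agent.KEW.L8

open _root_.KEW

variable {A F : Type} [CommRing A] [Field F] (φ : A →+* F) (m : ℕ) {π π' : A}
  (G : Germ π' (Lm m)) {B B' E E' Q Q' D D' : Alg A} {R R' R'' : Alg F}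

/-- Germs of correspondences with target `R`. -/
abbrev NN (R : Alg F) : Fn (Alg A) (Lm m) := G.Γ.obj (MM φ m (Lm m) R)

variable {φ m}

/-- The germ of a correspondence. -/
def gm (f : B ⟶ E) (h : IsEE π' f) : ZZ φ m E R →+ (NN φ m G R).obj B :=
  (G.cl _ f h).toAddMonoidHom.comp (one (Lm m))

theorem gm_apply (f : B ⟶ E) (h : IsEE π' f) (c : ZZ φ m E R) :
    gm G f h c = G.cl _ f h (one (Lm m) c) := rfl

theorem gm_surj (v : (NN φ m G R).obj B) :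
    ∃ (E : Alg A) (f : B ⟶ E) (h : IsEE π' f) (c : ZZ φ m E R), gm G f h c = v := by
  obtain ⟨E, f, h, a, rfl⟩ := G.surj _ B v
  obtain ⟨c, rfl⟩ := one_surj a
  exact ⟨E, f, h, c, rfl⟩

theorem gm_nsmul (f : B ⟶ E) (h : IsEE π' f) (c : ZZ φ m E R) : gm G f h (m • c) = 0 := by
  rw [gm_apply, (one_eq_zero _).2 ⟨c, rfl⟩, map_zero]

theorem gm_eq_zero {f : B ⟶ E} {h : IsEE π' f} {c : ZZ φ m E R} (e : gm G f h c = 0) :
    ∃ (E' : Alg A) (j : E ⟶ E') (d : ZZ φ m E' R), IsEE π' j ∧ m • d = pullZ j c := by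
  obtain ⟨E', j, hj, e⟩ := G.eq_zero _ f h _ e
  obtain ⟨d, hd⟩ := (one_eq_zero _).1 ((map_one_eq (Lm m) j c).symm.trans e)
  exact ⟨E', j, d, hj, hd⟩

theorem map_gm {f : B ⟶ E} (h : IsEE π' f) {f' : B' ⟶ E'} (h' : IsEE π' f') (g : B ⟶ B')
    (k : E ⟶ E') (w : f ≫ k = g ≫ f') (c : ZZ φ m E R) :
    (NN φ m G R).map g (gm G f h c) = gm G f' h' (pullZ k c) :=
  G.map_mk _ f h f' h' g k w _

theorem gm_comp {f : B ⟶ E} (h : IsEE π' f) (j : E ⟶ E') {f' : B ⟶ E'} (h' : IsEE π' f')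
    (w : f ≫ j = f') (c : ZZ φ m E R) : gm G f' h' (pullZ j c) = gm G f h c := by
  subst w
  exact G.mk_comp f h j h' (one (Lm m) c)

/-- Push forward of germs. -/
def pushG (k : R' ⟶ R) (B : Alg A) : (NN φ m G R).obj B →+ (NN φ m G R').obj B :=
  ((G.Γ.map (MMpush φ m (Lm m) k)).app B).hom.toAddMonoidHom

theorem pushG_apply (k : R' ⟶ R) (v : (NN φ m G R).obj B) :
    pushG G k B v = (G.Γ.map (MMpush φ m (Lm m) k)).app B v := rfl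

theorem pushG_gm (k : R' ⟶ R) (f : B ⟶ E) (h : IsEE π' f) (c : ZZ φ m E R) :
    pushG G k B (gm G f h c) = gm G f h (pushZ k c) :=
  G.app_mk (MMpush φ m (Lm m) k) f h _

theorem map_pushG (k : R' ⟶ R) (g : B ⟶ B') (v : (NN φ m G R).obj B) :
    (NN φ m G R').map g (pushG G k B v) = pushG G k B' ((NN φ m G R).map g v) :=
  (nat_apply (G.Γ.map (MMpush φ m (Lm m) k)) g v).symm

theorem pushG_pushG (k : R'' ⟶ R') (l : R' ⟶ R) (v : (NN φ m G R).obj B) :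
    pushG G k B (pushG G l B v) = pushG G (k ≫ l) B v := by
  obtain ⟨E, f, h, c, rfl⟩ := gm_surj G v
  rw [pushG_gm, pushG_gm, pushG_gm, pushZ_pushZ]

/-- Operations which are compatible with pull backs descend to germs (`Germ.exists_desc`, `ext1`). -/
theorem exists_opG (u : ∀ (E : Alg A), (B ⟶ E) → (ZZ φ m E R →+ ZZ φ m E R'))
    (hu : ∀ (E E' : Alg A) (f : B ⟶ E) (j : E ⟶ E') (c : ZZ φ m E R),
      u E' (f ≫ j) (pullZ j c) = pullZ j (u E f c)) :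
    ∃ U : (NN φ m G R).obj B →+ (NN φ m G R').obj B,
      ∀ (E : Alg A) (f : B ⟶ E) (h : IsEE π' f) (c : ZZ φ m E R),
        U (gm G f h c) = gm G f h (u E f c) := by
  obtain ⟨U, hU⟩ := G.exists_desc (MM φ m (Lm m) R) B (N := (NN φ m G R').obj B)
    (fun E f h => G.cl _ f h ∘ₗ (ext1 (Lm m) (u E f)).hom) fun E E' f h j h' a => by
      obtain ⟨c, rfl⟩ := one_surj a
      exact (congrArg (gm G (f ≫ j) h') (hu E E' f j c)).trans (gm_comp G h j h' rfl _)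
  exact ⟨U.toAddMonoidHom, fun E f h c => hU E f h (one (Lm m) c)⟩

variable (hb : Bs π φ m)

/-- The product of a germ with a graph. -/
def sigG {a : B.R} (ha : GU π a) (k : ℕ) :
    (NN φ m G R).obj B →+ (NN φ m G ((lauF F).obj R)).obj B :=
  (exists_opG G (fun _ f => sig hb (ha.map f) k)
    fun _ _ f j c => (pull_sig hb (ha.map f) k j (ha.map (f ≫ j)) rfl c).symm).choose

theorem sigG_gm {a : B.R} (ha : GU π a) (k : ℕ) (f : B ⟶ E) (h : IsEE π' f) (c : ZZ φ m E R) :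
    sigG G hb ha k (gm G f h c) = gm G f h (sig hb (ha.map f) k c) :=
  (exists_opG G (fun _ f => sig hb (ha.map f) k)
    fun _ _ f j c => (pull_sig hb (ha.map f) k j (ha.map (f ≫ j)) rfl c).symm).choose_spec E f h c

/-- The homotopy on germs. -/
def htG (s : B.R) : (NN φ m G ((lauF F).obj ((lauF F).obj R))).obj B →+
    (NN φ m G ((lauF F).obj ((lauF F).obj R))).obj B :=
  (exists_opG G (fun _ f => ht hb (f.1 s)) fun _ _ f j c => (pull_ht hb (f.1 s) j c).symm).choose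

theorem htG_gm (s : B.R) (f : B ⟶ E) (h : IsEE π' f)
    (c : ZZ φ m E ((lauF F).obj ((lauF F).obj R))) :
    htG G hb s (gm G f h c) = gm G f h (ht hb (f.1 s) c) :=
  (exists_opG G (fun _ f => ht hb (f.1 s))
    fun _ _ f j c => (pull_ht hb (f.1 s) j c).symm).choose_spec E f h c

/-- `Cof` for `Alg`. -/
theorem GOps_cof {δ : Q ⟶ D} (hδ : δ.1.Finite) {ε : D ⟶ E} (hε : IsEE π' ε) :
    ∃ (Q' D' : Alg A) (ρ : Q ⟶ Q') (k : D ⟶ D') (δ' : Q' ⟶ D') (s : E ⟶ D'),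
      IsEE π' ρ ∧ IsPO δ.1 ρ.1 k.1 δ'.1 ∧ ε ≫ s = k := by
  obtain ⟨S, _, ρ, hρ, H⟩ := Cof hδ (Ideal.span {Q.s π'})
    ((map_span_s δ π').ge.trans Ideal.le_radical) hε
  obtain ⟨D', k, δ', po⟩ := Alg.exists_po δ (Q.toUnder ρ)
  obtain ⟨s, hs⟩ := H D'.R k.1 δ'.1 po.comm
  exact ⟨Q.under ρ, D', Q.toUnder ρ, k, δ',
    ⟨s, by rw [← ε.2, ← RingHom.comp_assoc, hs, k.2]⟩, hρ, po, Alg.hom_ext hs⟩

theorem GOps_surj {δ : Q ⟶ D} (hδ : δ.1.Finite) (v : (NN φ m G R).obj D) :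
    ∃ (Q' D' : Alg A) (ρ : Q ⟶ Q') (k : D ⟶ D') (δ' : Q' ⟶ D') (po : IsPO δ.1 ρ.1 k.1 δ'.1)
      (hρ : IsEE π' ρ) (c : ZZ φ m D' R), gm G k (hρ.of_po po.flip) c = v := by
  obtain ⟨E, f, h, c, rfl⟩ := gm_surj G v
  obtain ⟨Q', D', ρ, k, δ', s, hρ, po, e⟩ := GOps_cof hδ h
  exact ⟨Q', D', ρ, k, δ', po, hρ, pullZ s c, gm_comp G h s _ e c⟩

theorem GOps_refine {δ : Q ⟶ D} {W : Q.R[X]} {α : D.R} (h : TrD π δ W α) {ρ : Q ⟶ Q'} {k : D ⟶ D'}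
    {δ' : Q' ⟶ D'} (po : IsPO δ.1 ρ.1 k.1 δ'.1) (hρ : IsEE π' ρ) {Q2 D2 : Alg A} {ρ2 : Q ⟶ Q2}
    {k2 : D ⟶ D2} {δ2 : Q2 ⟶ D2} (po2 : IsPO δ.1 ρ2.1 k2.1 δ2.1) (h2 : IsEE π' ρ2) (g : Q' ⟶ Q2)
    (hg : ρ ≫ g = ρ2) : ∃ l : D' ⟶ D2, ∀ c : ZZ φ m D' R,
      gm G k2 (h2.of_po po2.flip) (pullZ l c) = gm G k (hρ.of_po po.flip) c ∧
      gm G ρ2 h2 (trn hb (h.of_po po2) (pullZ l c)) = gm G ρ hρ (trn hb (h.of_po po) c) := by
  obtain ⟨l, h3, h4⟩ := Alg.po_lift po k2 (g ≫ δ2) (by rw [← Category.assoc, hg, Alg.po_comm po2])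
  refine ⟨l, fun c => ⟨gm_comp G _ l _ h3 c, ?_⟩⟩
  rw [← pull_trn hb (h.of_po po) (h.of_po po2) g l h4 (by rw [Polynomial.map_map, ← hg]; rfl)
    (Alg.congr_val h3 α), gm_comp G hρ g h2 hg]

theorem GOps_two {δ : Q ⟶ D} {W : Q.R[X]} {α : D.R} (h : TrD π δ W α) {ρ : Q ⟶ Q'} {k : D ⟶ D'}
    {δ' : Q' ⟶ D'} (po : IsPO δ.1 ρ.1 k.1 δ'.1) (hρ : IsEE π' ρ) {Q2 D2 : Alg A} {ρ2 : Q ⟶ Q2}
    {k2 : D ⟶ D2} {δ2 : Q2 ⟶ D2} (po2 : IsPO δ.1 ρ2.1 k2.1 δ2.1) (h2 : IsEE π' ρ2) :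
    ∃ (Q3 D3 : Alg A) (ρ3 : Q ⟶ Q3) (k3 : D ⟶ D3) (δ3 : Q3 ⟶ D3) (po3 : IsPO δ.1 ρ3.1 k3.1 δ3.1)
      (h3 : IsEE π' ρ3) (l : D' ⟶ D3) (l' : D2 ⟶ D3),
      (∀ c : ZZ φ m D' R, gm G k3 (h3.of_po po3.flip) (pullZ l c) = gm G k (hρ.of_po po.flip) c ∧
        gm G ρ3 h3 (trn hb (h.of_po po3) (pullZ l c)) = gm G ρ hρ (trn hb (h.of_po po) c)) ∧
      ∀ c : ZZ φ m D2 R, gm G k3 (h3.of_po po3.flip) (pullZ l' c) = gm G k2 (h2.of_po po2.flip) c ∧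
        gm G ρ3 h3 (trn hb (h.of_po po3) (pullZ l' c)) = gm G ρ2 h2 (trn hb (h.of_po po2) c) := by
  obtain ⟨Q3, a, b, pq⟩ := Alg.exists_po ρ ρ2
  have h3 : IsEE π' (ρ2 ≫ b) := h2.comp (hρ.of_po pq)
  obtain ⟨D3, k3, δ3, po3⟩ := Alg.exists_po δ (ρ2 ≫ b)
  obtain ⟨l, hl⟩ := GOps_refine (R := R) G hb h po hρ po3 h3 a (Alg.po_comm pq)
  obtain ⟨l', hl'⟩ := GOps_refine (R := R) G hb h po2 h2 po3 h3 b rfl
  exact ⟨Q3, D3, _, k3, δ3, po3, h3, l, l', hl, hl'⟩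

theorem GOps_zero {δ : Q ⟶ D} (hδ : δ.1.Finite) {W : Q.R[X]} {α : D.R} (h : TrD π δ W α)
    {ρ : Q ⟶ Q'} {k : D ⟶ D'} {δ' : Q' ⟶ D'} (po : IsPO δ.1 ρ.1 k.1 δ'.1) (hρ : IsEE π' ρ)
    {c : ZZ φ m D' R} (e : gm G k (hρ.of_po po.flip) c = 0) :
    gm G ρ hρ (trn hb (h.of_po po) c) = 0 := by
  obtain ⟨E', j, d, hj, hd⟩ := gm_eq_zero G e
  obtain ⟨Q2, D2, ρ2, k2, δ2, s, h2, po2, e2⟩ := GOps_cof (po.finite hδ) hj
  rw [← gm_comp G hρ ρ2 (hρ.comp h2) rfl,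
    pull_trn hb (h.of_po po) ((h.of_po po).of_po po2) ρ2 k2 (Alg.po_comm po2) rfl rfl,
    show pullZ k2 c = m • pullZ s d by rw [← map_nsmul, hd, pullZ_pullZ, e2], map_nsmul, gm_nsmul]

/-- Transfers of germs along finite maps.  Hint: by `Cof` every germ on `D` has the form
`gm k _ c` for a pushout `k : D ⟶ D'` of an `EE` map `Q ⟶ Q'`; independence of choices by
`pull_trn`, `gm_eq_zero` and `Cof` again. -/
theorem exists_trG {δ : Q ⟶ D} (hδ : δ.1.Finite) {W : Q.R[X]} {α : D.R} (h : TrD π δ W α) :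
    ∃ U : (NN φ m G R).obj D →+ (NN φ m G R).obj Q,
      ∀ (Q' D' : Alg A) (ρ : Q ⟶ Q') (k : D ⟶ D') (δ' : Q' ⟶ D') (po : IsPO δ.1 ρ.1 k.1 δ'.1)
        (hρ : IsEE π' ρ) (c : ZZ φ m D' R),
        U (gm G k (hρ.of_po po.flip) c) = gm G ρ hρ (trn hb (h.of_po po) c) := by
  choose Q0 D0 ρ0 k0 δ0 po0 h0 c0 e0 using GOps_surj (R := R) G hδ
  have key : ∀ (Q' D' : Alg A) (ρ : Q ⟶ Q') (k : D ⟶ D') (δ' : Q' ⟶ D')
      (po : IsPO δ.1 ρ.1 k.1 δ'.1) (hρ : IsEE π' ρ) (c : ZZ φ m D' R) (v : (NN φ m G R).obj D),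
      gm G k (hρ.of_po po.flip) c = v →
      gm G (ρ0 v) (h0 v) (trn hb (h.of_po (po0 v)) (c0 v)) = gm G ρ hρ (trn hb (h.of_po po) c) := by
    intro Q' D' ρ k δ' po hρ c v e
    obtain ⟨Q3, D3, ρ3, k3, δ3, po3, h3, l, l', e1, e2⟩ := GOps_two G hb h (po0 v) (h0 v) po hρ
    rw [← (e1 _).2, ← (e2 _).2, ← sub_eq_zero, ← map_sub, ← map_sub]
    refine GOps_zero G hb hδ h po3 h3 ?_
    rw [map_sub, (e1 _).1, (e2 _).1, e0, e, sub_self]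
  refine ⟨AddMonoidHom.mk' (fun v => gm G (ρ0 v) (h0 v) (trn hb (h.of_po (po0 v)) (c0 v)))
    fun v v' => ?_, fun Q' D' ρ k δ' po hρ c => key Q' D' ρ k δ' po hρ c _ rfl⟩
  obtain ⟨Q3, D3, ρ3, k3, δ3, po3, h3, l, l', e1, e2⟩ :=
    GOps_two G hb h (po0 v) (h0 v) (po0 v') (h0 v')
  rw [key Q3 D3 ρ3 k3 δ3 po3 h3 (pullZ l (c0 v) + pullZ l' (c0 v')) (v + v')
    (by rw [map_add, (e1 _).1, (e2 _).1, e0, e0]), map_add, map_add, (e1 _).2, (e2 _).2]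

/-- The transfer of germs. -/
def trG {δ : Q ⟶ D} (hδ : δ.1.Finite) {W : Q.R[X]} {α : D.R} (h : TrD π δ W α) :
    (NN φ m G R).obj D →+ (NN φ m G R).obj Q := (exists_trG G hb hδ h).choose

theorem trG_gm {δ : Q ⟶ D} (hδ : δ.1.Finite) {W : Q.R[X]} {α : D.R} (h : TrD π δ W α)
    {ρ : Q ⟶ Q'} {k : D ⟶ D'} {δ' : Q' ⟶ D'} (po : IsPO δ.1 ρ.1 k.1 δ'.1) (hρ : IsEE π' ρ)
    (c : ZZ φ m D' R) :
    trG G hb hδ h (gm G k (hρ.of_po po.flip) c) = gm G ρ hρ (trn hb (h.of_po po) c) :=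
  (exists_trG G hb hδ h).choose_spec Q' D' ρ k δ' po hρ c

/-- Germs on a finite algebra (`Cof`). -/
theorem gm_surj_fin {δ : Q ⟶ D} (hδ : δ.1.Finite) (v : (NN φ m G R).obj D) :
    ∃ (Q' D' : Alg A) (ρ : Q ⟶ Q') (k : D ⟶ D') (δ' : Q' ⟶ D') (po : IsPO δ.1 ρ.1 k.1 δ'.1)
      (hρ : IsEE π' ρ) (c : ZZ φ m D' R), gm G k (hρ.of_po po.flip) c = v := by
  exact GOps_surj G hδ v

theorem map_sigG {a : B.R} (ha : GU π a) (k : ℕ) (g : B ⟶ B') {a' : B'.R} (ha' : GU π a')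
    (e : g.1 a = a') (v : (NN φ m G R).obj B) :
    (NN φ m G _).map g (sigG G hb ha k v) = sigG G hb ha' k ((NN φ m G R).map g v) := by
  obtain ⟨E, f, h, c, rfl⟩ := gm_surj G v
  obtain ⟨P, i, j, po⟩ := Alg.exists_po f g
  rw [sigG_gm, map_gm G h (h.of_po po) g i (Alg.po_comm po),
    map_gm G h (h.of_po po) g i (Alg.po_comm po), sigG_gm,
    pull_sig hb (ha.map f) k i (ha'.map j) (e ▸ Alg.congr_val (Alg.po_comm po) a)]

theorem sigG_congr {a a' : B.R} (ha : GU π a) (ha' : GU π a') (e : a = a') (k : ℕ)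
    (v : (NN φ m G R).obj B) : sigG G hb ha k v = sigG G hb ha' k v := by
  subst e
  rfl

theorem sigG_pi_mul {a a' : B.R} (ha : GU π a) (k : ℕ) (ha' : GU π a') (e : a' = B.s π * a)
    (v : (NN φ m G R).obj B) : sigG G hb ha' (k + 1) v = sigG G hb ha k v := by
  obtain ⟨E, f, h, c, rfl⟩ := gm_surj G v
  subst e
  have e : f.1 (B.s π * a) = E.s π * f.1 a := by rw [map_mul, Alg.map_s]
  rw [sigG_gm, sigG_gm, ← sig_pi_mul hb (ha.map f) k (e ▸ ha'.map f)]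
  congr 3

theorem push_sigG {a : B.R} (ha : GU π a) (k : ℕ) (η : R' ⟶ R) (v : (NN φ m G R).obj B) :
    pushG G ((lauF F).map η) B (sigG G hb ha k v) = sigG G hb ha k (pushG G η B v) := by
  obtain ⟨E, f, h, c, rfl⟩ := gm_surj G v
  rw [sigG_gm, pushG_gm, pushG_gm, sigG_gm, push_sig]

theorem eT_sigG {a : B.R} (ha : GU π a) (k : ℕ) (v : (NN φ m G R).obj B) :
    pushG G (eT R) B (sigG G hb ha k v) = sigG G hb (GU.one B) 0 v := by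
  obtain ⟨E, f, h, c, rfl⟩ := gm_surj G v
  rw [sigG_gm, pushG_gm, sigG_gm, eT_sig]
  congr 3
  exact (map_one f.1).symm

theorem map_htG (s : B.R) (g : B ⟶ B') (v : (NN φ m G ((lauF F).obj ((lauF F).obj R))).obj B) :
    (NN φ m G _).map g (htG G hb s v) = htG G hb (g.1 s) ((NN φ m G _).map g v) := by
  obtain ⟨E, f, h, c, rfl⟩ := gm_surj G v
  obtain ⟨P, i, j, po⟩ := Alg.exists_po f g
  rw [htG_gm, map_gm G h (h.of_po po) g i (Alg.po_comm po),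
    map_gm G h (h.of_po po) g i (Alg.po_comm po), htG_gm, pull_ht,
    show i.1 (f.1 s) = j.1 (g.1 s) from Alg.congr_val (Alg.po_comm po) s]

theorem htG_zero (v : (NN φ m G ((lauF F).obj ((lauF F).obj R))).obj B) :
    htG G hb 0 v = v + pushG G (swp R) B v := by
  obtain ⟨E, f, h, c, rfl⟩ := gm_surj G v
  rw [htG_gm, map_zero, ht_zero, map_add, pushG_gm]

theorem htG_one (v : (NN φ m G ((lauF F).obj ((lauF F).obj R))).obj B) :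
    htG G hb 1 v = pushG G (mu1 R) B v + pushG G (mu2 R) B v := by
  obtain ⟨E, f, h, c, rfl⟩ := gm_surj G v
  rw [htG_gm, map_one, ht_one, map_add, pushG_gm, pushG_gm]

theorem map_trG {δ : Q ⟶ D} (hδ : δ.1.Finite) {W : Q.R[X]} {α : D.R} (h : TrD π δ W α)
    {δ' : Q' ⟶ D'} (hδ' : δ'.1.Finite) {W' : Q'.R[X]} {α' : D'.R} (h' : TrD π δ' W' α')
    (g : Q ⟶ Q') (k : D ⟶ D') (w : δ ≫ k = g ≫ δ') (hW : W.map g.1 = W') (hα : k.1 α = α')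
    (v : (NN φ m G R).obj D) :
    (NN φ m G R).map g (trG G hb hδ h v) = trG G hb hδ' h' ((NN φ m G R).map k v) := by
  obtain ⟨Q1, D1, ρ, k1, δ1, po, hρ, c, rfl⟩ := gm_surj_fin G hδ v
  obtain ⟨Q2, a, ρ', pq⟩ := Alg.exists_po ρ g
  have hm : (W.map ρ.1).map a.1 = (W.map g.1).map ρ'.1 := by
    rw [Polynomial.map_map, Polynomial.map_map, pq.comm]
  obtain ⟨D2, k2, δ2, pd⟩ := Alg.exists_po δ' ρ'
  obtain ⟨l, h1, h2⟩ := Alg.po_lift po (k ≫ k2) (a ≫ δ2) (by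
    rw [← Category.assoc, w, Category.assoc, Alg.po_comm pd, ← Category.assoc, ← Category.assoc,
      Alg.po_comm pq])
  rw [trG_gm G hb hδ h po hρ, map_gm G hρ (hρ.of_po pq) g a (Alg.po_comm pq),
    map_gm G _ ((hρ.of_po pq).of_po pd.flip) k l h1, trG_gm G hb hδ' h' pd (hρ.of_po pq),
    pull_trn hb (h.of_po po) (h'.of_po pd) a l h2 (by rw [hm, hW])
      (by rw [← hα]; exact Alg.congr_val h1 α)]

theorem map_trG_split {δ : Q ⟶ D} (hδ : δ.1.Finite) {W : Q.R[X]} {α : D.R} (h : TrD π δ W α)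
    (g : Q ⟶ Q') (σ1 σ2 : D ⟶ Q') (w1 : δ ≫ σ1 = g) (w2 : δ ≫ σ2 = g)
    (hW : W.map g.1 = (X - C (σ1.1 α)) * (X - C (σ2.1 α))) (v : (NN φ m G R).obj D) :
    (NN φ m G R).map g (trG G hb hδ h v) = (NN φ m G R).map σ1 v + (NN φ m G R).map σ2 v := by
  obtain ⟨Q1, D1, ρ, k1, δ1, po, hρ, c, rfl⟩ := gm_surj_fin G hδ v
  obtain ⟨Q2, a, ρ', pq⟩ := Alg.exists_po ρ g
  have hm : (W.map ρ.1).map a.1 = (W.map g.1).map ρ'.1 := by
    rw [Polynomial.map_map, Polynomial.map_map, pq.comm]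
  obtain ⟨l1, h1, h2⟩ := Alg.po_lift po (σ1 ≫ ρ') a (by rw [← Category.assoc, w1, Alg.po_comm pq])
  obtain ⟨l2, h3, h4⟩ := Alg.po_lift po (σ2 ≫ ρ') a (by rw [← Category.assoc, w2, Alg.po_comm pq])
  rw [trG_gm G hb hδ h po hρ, map_gm G hρ (hρ.of_po pq) g a (Alg.po_comm pq),
    map_gm G _ (hρ.of_po pq) σ1 l1 h1, map_gm G _ (hρ.of_po pq) σ2 l2 h3, ← map_add,
    pull_trn_split hb (h.of_po po) a l1 l2 h2 h4 (by
      rw [hm, hW, Polynomial.map_mul, Polynomial.map_sub, Polynomial.map_sub, map_X, map_C, map_C,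
        show l1.1 (k1.1 α) = ρ'.1 (σ1.1 α) from Alg.congr_val h1 α,
        show l2.1 (k1.1 α) = ρ'.1 (σ2.1 α) from Alg.congr_val h3 α])]

include hb in
theorem pInv_MM (R : Alg F) : PInv π (MM φ m (Lm m) R) :=
  fun _ h => MM_map_bijective hb.ne _ h

end Pool.Agent.KEW.L8
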