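import Pool.Agent.P.MP_6277db_ag.KEW.L8a.Alg
import Pool.Agent.P.MP_6277db_ag.KEW.L6.Defs

/-!
KEW project, layer L8a: germs of a functor along `V(π)`.
-/

set_option backward.isDefEq.respectTransparency false

noncomputable section

open CategoryTheory Polynomial

namespace Pool.Agent.KEW.L8

open _root_.KEW

variable {A : Type} [CommRing A]

/-- The functor `F ↦ (B ↦ colim F(E))`, the colimit over all `B ⟶ E` in `EE`. -/
structure Germ (π : A) (L : Type 1) [CommRing L] where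
  /-- the germ functor -/
  Γ : Fn (Alg A) L ⥤ Fn (Alg A) L
  /-- the structure maps -/
  cl : ∀ (F : Fn (Alg A) L) {B E : Alg A} (f : B ⟶ E), IsEE π f → F.obj E →ₗ[L] (Γ.obj F).obj B
  surj : ∀ (F : Fn (Alg A) L) (B : Alg A) (x : (Γ.obj F).obj B),
    ∃ (E : Alg A) (f : B ⟶ E) (h : IsEE π f) (a : F.obj E), cl F f h a = x
  eq_zero : ∀ (F : Fn (Alg A) L) {B E : Alg A} (f : B ⟶ E) (h : IsEE π f) (a : F.obj E),
    cl F f h a = 0 → ∃ (E' : Alg A) (j : E ⟶ E'), IsEE π j ∧ F.map j a = 0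
  map_mk : ∀ (F : Fn (Alg A) L) {B E B' E' : Alg A} (f : B ⟶ E) (h : IsEE π f) (f' : B' ⟶ E')
    (h' : IsEE π f') (g : B ⟶ B') (k : E ⟶ E'), f ≫ k = g ≫ f' → ∀ a : F.obj E,
    (Γ.obj F).map g (cl F f h a) = cl F f' h' (F.map k a)
  app_mk : ∀ {F G : Fn (Alg A) L} (α : F ⟶ G) {B E : Alg A} (f : B ⟶ E) (h : IsEE π f)
    (a : F.obj E), (Γ.map α).app B (cl F f h a) = cl G f h (α.app E a)

section constr

variable {π : A} {L : Type 1} [CommRing L]

variable (π) in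
/-- A neighbourhood of `V(π)` in `Spec B`. -/
structure Nb (B : Alg A) : Type 1 where
  /-- the algebra -/
  E : Alg A
  /-- the structure map -/
  f : B ⟶ E
  h : IsEE π f

variable (F : Fn (Alg A) L) {B B' : Alg A}

/-- The transition maps. -/
def gArr (i j : Nb π B) (T : F.obj i.E →+ F.obj j.E) : Prop :=
  ∃ k : i.E ⟶ j.E, i.f ≫ k = j.f ∧ T = (F.map k).hom.toAddMonoidHom

theorem gArr_filt : EltFiltered (gArr (π := π) (B := B) F) where
  nonempty := ⟨⟨B, 𝟙 B, IsEE.id B⟩⟩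
  refl i := ⟨𝟙 _, Category.comp_id _, AddMonoidHom.ext fun x => (map_id' F _ x).symm⟩
  comp := by
    rintro i j k _ _ ⟨a, ha, rfl⟩ ⟨b, hb, rfl⟩
    exact ⟨a ≫ b, by rw [← Category.assoc, ha, hb], AddMonoidHom.ext fun x => map_map F a b x⟩
  pair i j := by
    obtain ⟨P, a, b, po⟩ := Alg.exists_po i.f j.f
    exact ⟨⟨P, j.f ≫ b, j.h.comp (i.h.of_po po)⟩, _, _, ⟨a, Alg.po_comm po, rfl⟩, ⟨b, rfl, rfl⟩⟩
  coeq := by
    rintro i j _ _ ⟨a, ha, rfl⟩ ⟨b, hb, rfl⟩ x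
    obtain ⟨Y, l, hl, e⟩ := i.h.coeq (ha.trans hb.symm)
    exact ⟨⟨Y, j.f ≫ l, j.h.comp hl⟩, _, ⟨l, rfl, rfl⟩,
      (map_map F a l x).trans ((congrArg (F.map · x) e).trans (map_map F b l x).symm)⟩

variable (π B) in
open Classical in
/-- The relations. -/
def gRel : Submodule L (Π₀ i : Nb π B, F.obj i.E) where
  toAddSubmonoid := (colimRel (gArr F)).toAddSubmonoid
  smul_mem' c z hz := by
    refine (AddSubgroup.closure_le ((colimRel (gArr F)).comap
      (DistribSMul.toAddMonoidHom _ c))).2 ?_ hz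
    rintro _ ⟨i, j, _, a, ⟨k, hk, rfl⟩, rfl⟩
    refine AddSubgroup.subset_closure ⟨i, j, _, c • a, ⟨k, hk, rfl⟩, ?_⟩
    have e : (F.map k).hom.toAddMonoidHom (c • a) = c • (F.map k).hom.toAddMonoidHom a :=
      map_smul (F.map k).hom c a
    rw [e, DFinsupp.single_smul, DFinsupp.single_smul, ← smul_sub]
    rfl

variable (π B) in
/-- The germs. -/
abbrev Gm : Type 1 := (Π₀ i : Nb π B, F.obj i.E) ⧸ gRel π F B

open Classical in
/-- The structure maps. -/
def gcl (i : Nb π B) : F.obj i.E →ₗ[L] Gm π F B := 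
  (gRel π F B).mkQ ∘ₗ DFinsupp.lsingle (M := fun i : Nb π B => F.obj i.E) i

theorem gcl_comp {i j : Nb π B} (k : i.E ⟶ j.E) (hk : i.f ≫ k = j.f) (a : F.obj i.E) :
    gcl F j (F.map k a) = gcl F i a :=
  (Submodule.Quotient.eq _).2 (AddSubgroup.subset_closure ⟨i, j, _, a, ⟨k, hk, rfl⟩, rfl⟩)

theorem gcl_surj (x : Gm π F B) : ∃ i a, gcl F i a = x := by
  obtain ⟨z, rfl⟩ := (gRel π F B).mkQ_surjective x
  obtain ⟨i, a, h⟩ := colim_surj (gArr_filt F).nonempty (gArr_filt F).pair z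
  exact ⟨i, a, ((Submodule.Quotient.eq _).2 h).symm⟩

theorem gcl_zero {i : Nb π B} {a : F.obj i.E} (h : gcl F i a = 0) :
    ∃ (E' : Alg A) (j : i.E ⟶ E'), IsEE π j ∧ F.map j a = 0 := by
  obtain ⟨k, _, ⟨j, hj, rfl⟩, h0⟩ := (gArr_filt F).exists_zero ((Submodule.Quotient.mk_eq_zero _).1 h)
  exact ⟨k.E, j, i.h.cancel (hj ▸ k.h), h0⟩

open Classical in
theorem exists_gdesc {N : Type 1} [AddCommGroup N] [Module L N] (u : ∀ i : Nb π B, F.obj i.E →ₗ[L] N)
    (hu : ∀ (i j : Nb π B) (k : i.E ⟶ j.E), i.f ≫ k = j.f → ∀ a, u j (F.map k a) = u i a) :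
    ∃ U : Gm π F B →ₗ[L] N, ∀ i a, U (gcl F i a) = u i a := by
  refine ⟨(gRel π F B).liftQ (DFinsupp.lsum ℕ u) fun z hz => ?_,
    fun i a => DFinsupp.lsum_single ℕ u i a⟩
  refine (AddSubgroup.closure_le (LinearMap.ker (DFinsupp.lsum ℕ u)).toAddSubgroup).2 ?_ hz
  rintro _ ⟨i, j, _, a, ⟨k, hk, rfl⟩, rfl⟩
  change DFinsupp.lsum ℕ u _ = 0
  rw [map_sub, DFinsupp.lsum_single, DFinsupp.lsum_single, sub_eq_zero]
  exact hu i j k hk a

theorem exists_gmap (g : B ⟶ B') : ∃ U : Gm π F B →ₗ[L] Gm π F B',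
    ∀ (i : Nb π B) (i' : Nb π B') (k : i.E ⟶ i'.E), i.f ≫ k = g ≫ i'.f →
      ∀ a, U (gcl F i a) = gcl F i' (F.map k a) := by
  choose P a b po using fun i : Nb π B => Alg.exists_po i.f g
  have key : ∀ (i : Nb π B) (i' : Nb π B') (k : i.E ⟶ i'.E), i.f ≫ k = g ≫ i'.f → ∀ x,
      gcl F ⟨P i, b i, i.h.of_po (po i)⟩ (F.map (a i) x) = gcl F i' (F.map k x) := by
    intro i i' k hk x
    obtain ⟨d, h1, h2⟩ := Alg.po_lift (po i) k i'.f hk
    rw [← gcl_comp F (i := ⟨P i, b i, i.h.of_po (po i)⟩) (j := i') d h2, map_map, h1]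
  obtain ⟨U, hU⟩ := exists_gdesc F
    (fun i => gcl F ⟨P i, b i, i.h.of_po (po i)⟩ ∘ₗ (F.map (a i)).hom) fun i j k hk x =>
      (congrArg _ (map_map F k (a j) x)).trans (key i ⟨P j, b j, j.h.of_po (po j)⟩ (k ≫ a j)
        (by rw [← Category.assoc, hk]; exact Alg.po_comm (po j)) x).symm
  exact ⟨U, fun i i' k hk x => (hU i x).trans (key i i' k hk x)⟩

theorem exists_push (g : B ⟶ B') (i : Nb π B) :
    ∃ (i' : Nb π B') (k : i.E ⟶ i'.E), i.f ≫ k = g ≫ i'.f := by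
  obtain ⟨P, a, b, po⟩ := Alg.exists_po i.f g
  exact ⟨⟨P, b, i.h.of_po po⟩, a, Alg.po_comm po⟩

variable (π) in
/-- The functor of germs. -/
def gObj : Fn (Alg A) L where
  obj B := ModuleCat.of L (Gm π F B)
  map g := ModuleCat.ofHom (exists_gmap F g).choose
  map_id B := ModuleCat.hom_ext (LinearMap.ext fun x => by
    obtain ⟨i, a, rfl⟩ := gcl_surj F x
    exact ((exists_gmap F (𝟙 B)).choose_spec i i (𝟙 _) (by simp) a).trans
      (congrArg _ (map_id' F _ a)))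
  map_comp g g' := ModuleCat.hom_ext (LinearMap.ext fun x => by
    obtain ⟨i, a, rfl⟩ := gcl_surj F x
    obtain ⟨i', k, hk⟩ := exists_push g i
    obtain ⟨i'', k', hk'⟩ := exists_push g' i'
    refine ((exists_gmap F (g ≫ g')).choose_spec i i'' (k ≫ k')
      (by rw [← Category.assoc, hk, Category.assoc, hk', Category.assoc]) a).trans (Eq.symm ?_)
    exact (congrArg (exists_gmap F g').choose ((exists_gmap F g).choose_spec i i' k hk a)).trans
      (((exists_gmap F g').choose_spec i' i'' k' hk' _).trans (congrArg _ (map_map F k k' a))))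

variable {F}

theorem exists_gapp {F' : Fn (Alg A) L} (α : F ⟶ F') (B : Alg A) :
    ∃ U : Gm π F B →ₗ[L] Gm π F' B, ∀ i a, U (gcl F i a) = gcl F' i (α.app i.E a) :=
  exists_gdesc F (fun i => gcl F' i ∘ₗ (α.app i.E).hom) fun _ _ k hk a =>
    (congrArg _ (nat_apply α k a)).trans (gcl_comp F' k hk _)

variable (π L) in
/-- The germ functor. -/
def gΓ : Fn (Alg A) L ⥤ Fn (Alg A) L where
  obj F := gObj π F
  map {F F'} α :=
    { app := fun B => ModuleCat.ofHom (exists_gapp α B).choose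
      naturality := fun B B' g => ModuleCat.hom_ext (LinearMap.ext fun x => by
        obtain ⟨i, a, rfl⟩ := gcl_surj F x
        obtain ⟨i', k, hk⟩ := exists_push g i
        refine (congrArg (exists_gapp α B').choose
          ((exists_gmap F g).choose_spec i i' k hk a)).trans
          (((exists_gapp α B').choose_spec i' _).trans (Eq.symm ?_))
        exact (congrArg (exists_gmap F' g).choose ((exists_gapp α B).choose_spec i a)).trans
          (((exists_gmap F' g).choose_spec i i' k hk _).trans (congrArg _ (nat_apply α k a).symm))) }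
  map_id F := fn_ext fun B x => by
    obtain ⟨i, a, rfl⟩ := gcl_surj F x
    exact (exists_gapp (𝟙 F) B).choose_spec i a
  map_comp {F _ _} α β := fn_ext fun B x => by
    obtain ⟨i, a, rfl⟩ := gcl_surj F x
    exact ((exists_gapp (α ≫ β) B).choose_spec i a).trans
      ((congrArg (exists_gapp β B).choose ((exists_gapp α B).choose_spec i a)).trans
        ((exists_gapp β B).choose_spec i _)).symm

end constr

theorem exists_germ (π : A) (L : Type 1) [CommRing L] : Nonempty (Germ π L) :=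
  ⟨{ Γ := gΓ π L
     cl := fun F _ E f h => gcl F ⟨E, f, h⟩
     surj := fun F _ x => by
       obtain ⟨i, a, h⟩ := gcl_surj F x
       exact ⟨i.E, i.f, i.h, a, h⟩
     eq_zero := fun F _ _ _ _ _ h => gcl_zero F h
     map_mk := fun F _ E _ E' f h f' h' g k w a =>
       (exists_gmap F g).choose_spec ⟨E, f, h⟩ ⟨E', f', h'⟩ k w a
     app_mk := fun α B E f h a => (exists_gapp α B).choose_spec ⟨E, f, h⟩ a }⟩

namespace Germ

variable {π : A} {L : Type 1} [CommRing L] (G : Germ π L) {F F' : Fn (Alg A) L}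
  {B B' E E' : Alg A}

theorem mk_comp (f : B ⟶ E) (h : IsEE π f) (j : E ⟶ E') (h' : IsEE π (f ≫ j)) (a : F.obj E) :
    G.cl F (f ≫ j) h' (F.map j a) = G.cl F f h a := by
  rw [← G.map_mk F f h (f ≫ j) h' (𝟙 B) j (Category.id_comp _).symm, map_id']

theorem mk_congr {f f' : B ⟶ E} (e : f = f') (h : IsEE π f) (h' : IsEE π f') (a : F.obj E) :
    G.cl F f h a = G.cl F f' h' a := by
  subst e
  rfl

/-- Two germs have representatives on a common neighbourhood. -/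
theorem surj₂ (F F' : Fn (Alg A) L) (B : Alg A) (x : (G.Γ.obj F).obj B) (y : (G.Γ.obj F').obj B) :
    ∃ (E : Alg A) (f : B ⟶ E) (h : IsEE π f) (a : F.obj E) (b : F'.obj E),
      G.cl F f h a = x ∧ G.cl F' f h b = y := by
  obtain ⟨E1, f1, h1, a, rfl⟩ := G.surj F B x
  obtain ⟨E2, f2, h2, b, rfl⟩ := G.surj F' B y
  obtain ⟨P, i, j, po⟩ := Alg.exists_po f1 f2
  have h3 : IsEE π (f2 ≫ j) := h2.comp (h1.of_po po)
  refine ⟨P, f2 ≫ j, h3, F.map i a, F'.map j b, ?_, G.mk_comp _ _ _ _ _⟩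
  rw [G.mk_congr (Alg.po_comm po).symm h3 (Alg.po_comm po ▸ h3), G.mk_comp]

/-- Two representatives of one germ agree on a common refinement. -/
theorem eq_of_mk_eq {f : B ⟶ E} {h : IsEE π f} {f' : B ⟶ E'} {h' : IsEE π f'} {a : F.obj E}
    {a' : F.obj E'} (e : G.cl F f h a = G.cl F f' h' a') :
    ∃ (P : Alg A) (i : E ⟶ P) (j : E' ⟶ P), IsEE π i ∧ IsEE π j ∧ f ≫ i = f' ≫ j ∧
      F.map i a = F.map j a' := by
  obtain ⟨P, i, j, po⟩ := Alg.exists_po f f'
  have h3 : IsEE π (f' ≫ j) := h'.comp (h.of_po po)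
  have h4 : IsEE π (f ≫ i) := Alg.po_comm po ▸ h3
  obtain ⟨P', l, hl, h0⟩ := G.eq_zero F (f' ≫ j) h3 (F.map i a - F.map j a') (by
    rw [map_sub, G.mk_comp f' h', G.mk_congr (Alg.po_comm po).symm h3 h4, G.mk_comp f h, e,
      sub_self])
  rw [map_sub, map_map, map_map, sub_eq_zero] at h0
  exact ⟨P', i ≫ l, j ≫ l, (h.cancel h4).comp hl, (h.of_po po).comp hl,
    by rw [← Category.assoc, Alg.po_comm po, Category.assoc], h0⟩

/-- Maps out of the germs. -/
theorem exists_desc (F : Fn (Alg A) L) (B : Alg A) {N : Type 1} [AddCommGroup N] [Module L N]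
    (u : ∀ (E : Alg A) (f : B ⟶ E), IsEE π f → F.obj E →ₗ[L] N)
    (hu : ∀ (E E' : Alg A) (f : B ⟶ E) (h : IsEE π f) (j : E ⟶ E') (h' : IsEE π (f ≫ j))
      (a : F.obj E), u E' (f ≫ j) h' (F.map j a) = u E f h a) :
    ∃ U : (G.Γ.obj F).obj B →ₗ[L] N, ∀ (E : Alg A) (f : B ⟶ E) (h : IsEE π f) (a : F.obj E),
      U (G.cl F f h a) = u E f h a := by
  choose E0 f0 h0 a0 e0 using G.surj F B
  have key : ∀ (E : Alg A) (f : B ⟶ E) (h : IsEE π f) (a : F.obj E),
      u _ (f0 (G.cl F f h a)) (h0 _) (a0 _) = u E f h a := fun E f h a => by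
    obtain ⟨P, i, j, hi, hj, w, e⟩ := G.eq_of_mk_eq (e0 (G.cl F f h a))
    rw [← hu _ _ _ _ i ((h0 _).comp hi), ← hu _ _ _ _ j (h.comp hj), e]
    congr 2
  refine ⟨⟨⟨fun x => u _ (f0 x) (h0 x) (a0 x), fun x y => ?_⟩, fun c x => ?_⟩, key⟩
  · obtain ⟨E, f, h, a, b, rfl, rfl⟩ := G.surj₂ F F B x y
    rw [← map_add, key, key, key, map_add]
  · obtain ⟨E, f, h, a, rfl⟩ := G.surj F B x
    change u _ (f0 (c • G.cl F f h a)) (h0 _) (a0 _) = c • u _ (f0 (G.cl F f h a)) (h0 _) (a0 _)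
    rw [← map_smul (G.cl F f h), key, key, map_smul]

/-- The unit `F ⟶ Γ F`. -/
def η (F : Fn (Alg A) L) : F ⟶ G.Γ.obj F where
  app B := ModuleCat.ofHom (G.cl F (𝟙 B) (IsEE.id B))
  naturality B B' g := by
    ext a
    exact (G.map_mk F (𝟙 B) _ (𝟙 B') _ g g (by simp) a).symm

theorem η_apply (F : Fn (Alg A) L) (B : Alg A) (a : F.obj B) :
    (G.η F).app B a = G.cl F (𝟙 B) (IsEE.id B) a := rfl

theorem η_nat (α : F ⟶ F') : α ≫ G.η F' = G.η F ≫ G.Γ.map α :=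
  fn_ext fun B a => (G.app_mk α (𝟙 B) _ a).symm

theorem η_map (f : B ⟶ E) (h : IsEE π f) (a : F.obj B) :
    G.cl F f h (F.map f a) = (G.η F).app B a := by
  rw [η_apply, ← G.mk_comp (𝟙 B) (IsEE.id B) f (by simpa using h)]
  exact G.mk_congr (Category.id_comp f).symm _ _ _

end Germ

end Pool.Agent.KEW.L8
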