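import Pool.Agent.P.MP_6277db_ag.KEW.L8a.Step

/-!
KEW project, layer L8a: reduced sections and reduced germs agree on tori.
-/

set_option backward.isDefEq.respectTransparency false

noncomputable section

open CategoryTheory Polynomial

namespace Pool.Agent.KEW.L8

open _root_.KEW

variable {A F : Type} [CommRing A] [Field F] {φ : A →+* F} {m : ℕ} {π : A}

theorem kBij_step (hb : Bs π φ m) (G : Germ π (Lm m)) {P : RP F} (hP : P.Good) (q : ℕ) {B : Alg A}
    {Λ : Set (B.R →+* B.R)} (hΛ : ∀ ψ ∈ Λ, ψ.comp B.s = B.s)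
    (H : KBij (((cyl A).piq q).map (G.η (Red φ m (Lm m) P))) B Λ) :
    KBij (((cyl A).piq q).map (G.η (Red φ m (Lm m) P.step))) ((lauF A).obj B) (lauFam Λ) := by
  obtain ⟨s, -, -, hs, -⟩ := exists_sgP hb hP
  obtain ⟨f, hf, hf'⟩ := sus_glob hb hs hP
  obtain ⟨g, hg, hg'⟩ := sus_germ hb hs hP (Or.inl rfl) G
  obtain ⟨s1, e1, h1⟩ := sus_of_piEq f hf' q
  obtain ⟨s2, e2, h2⟩ := sus_of_piEq g hg' q
  refine KBij.step (fn_ext fun B x => (kapL_bij q _ B).1 ?_) h1 h2 hΛ H
  have : (((cyl A).piq q).map (G.η (Red φ m (Lm m) P)) ≫ s2) ≫ kapL q _ =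
      (s1 ≫ Functor.whiskerLeft (lauF A)
        (((cyl A).piq q).map (G.η (Red φ m (Lm m) P.step)))) ≫ kapL q _ := by
    rw [Category.assoc, e2, Category.assoc, kapL_nat, ← Category.assoc, e1, ← Functor.map_comp,
      ← Functor.map_comp, hf, hg, ← Category.assoc, ← G.η_nat, Category.assoc, G.η_thL]
  exact congrArg (fun k => k.app B x) this

/-- The torus as an `A`-algebra. -/
abbrev torA (A : Type) [CommRing A] (r : ℕ) : Alg A := ⟨Tor A r, torC A r⟩

theorem ep_torA (A : Type) [CommRing A] : ∀ r : ℕ, EP (torA A r).s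
  | 0 => ep_of_etale (RingHom.Etale.of_bijective Function.bijective_id)
  | r + 1 => ep_lauF (B := torA A r) (ep_torA A r)

theorem germBij {A F : Type} [CommRing A] [HenselianLocalRing A] [Field F] {π : A} {φ : A →+* F}
    {m : ℕ} (hπ : IsLocalRing.maximalIdeal A = Ideal.span {π}) (hb : Bs π φ m)
    (H : RP F → ℕ → RF.{0, 1} A)
    (e : ∀ P : RP F, P.Good → ∀ q,
      Nonempty (RFIso (H P q) (((cyl A).piq q).obj (Red φ m (Lm m) P))))
    (hG : ∀ P : RP F, P.Good → ∀ q, L6.G2 π (H P q)) (P : RP F) (hP : P.Good) (r q : ℕ) :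
    GB π (H (RP.step^[r] P) q) (torC A r) (torFam A r) := by
  obtain ⟨G⟩ := exists_germ π (Lm m)
  have hk := fun (P : RP F) (hP : P.Good) =>
    G.exists_kap (Red φ m (Lm m) P) fun q => G.inv_of_G2 (e P hP q).some (hG P hP q)
  have key : ∀ r : ℕ, KBij (((cyl A).piq q).map (G.η (Red φ m (Lm m) (RP.step^[r] P))))
      (torA A r) (torFam A r) := by
    intro r
    induction r with
    | zero =>
      obtain ⟨κ, h1, h2⟩ := hk P hP q
      refine KBij.of_bijective ?_
      have h3 := (h1 (torA A 0) (ep_torA A 0)).comp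
        (G.η_bij_base hπ (((cyl A).piq q).obj (Red φ m (Lm m) P)))
      change Function.Bijective ((((cyl A).piq q).map (G.η (Red φ m (Lm m) P))).app (torA A 0))
      rw [← h2]
      exact h3
    | succ r ih =>
      rw [Function.iterate_succ_apply']
      exact kBij_step hb G (hP.iter r) q (torFam_over A r) ih
  obtain ⟨κ, h1, h2⟩ := hk _ (hP.iter r) q
  have h3 := key r
  rw [← h2] at h3
  exact G.gb_of_kBij (B := torA A r) (e _ (hP.iter r) q).some (ep_torA A r) (torFam_over A r)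
    (h3.of_comp (h1 _ (ep_torA A r)))

end Pool.Agent.KEW.L8
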