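import Pool.Agent.P.MP_6277db_ag.KEW.L8a.Ent

/-!
KEW project, layer L8a: products with graphs, transfers along monogenic covers, and the homotopy
which exchanges two torus coordinates of the target.
-/

set_option backward.isDefEq.respectTransparency false

noncomputable section

open CategoryTheory Limits AlgebraicGeometry Polynomial TensorProduct

namespace Pool.Agent.KEW.L8

open _root_.KEW

variable {A F : Type} [CommRing A] [Field F] {φ : A →+* F} {m : ℕ} {π : A}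
  {B B' Q Q' D D' : Alg A} {R R' : Alg F}

theorem Ops_reindex {α β : Type} {s : Set α} {t : Set β} {f : α → ℚ} {g : β → ℚ} (e : α → β)
    (h1 : Set.MapsTo e s t) (h2 : Set.InjOn e s) (h3 : ∀ b ∈ t, g b ≠ 0 → ∃ a ∈ s, e a = b)
    (h4 : ∀ a ∈ s, f a = g (e a)) : ∑ᶠ a ∈ s, f a = ∑ᶠ b ∈ t, g b := by
  rw [finsum_mem_eq_of_bijOn e h2.bijOn_image h4]
  refine finsum_mem_inter_support_eq _ _ _ (Set.ext fun b => ⟨?_, fun hb => ⟨h3 b hb.1 hb.2, hb.2⟩⟩)
  rintro ⟨⟨a, ha, rfl⟩, hb⟩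
  exact ⟨h1 ha, hb⟩

section rc

variable {W Y Z : Type} [CommRing W] [CommRing Y] [CommRing Z]

/-- There is a cycle on `Spec Z` over `Spec W` with values `w`. -/
def Ops_RC (m : ℕ) (t : W →+* Z) (w : ∀ (K : Type) [Field K], (Z →+* K) → ℚ) : Prop :=
  ∃ d ∈ Cyc m (spm t), ∀ (K : Type) [Field K] (z : Z →+* K), d (gen (spm z)) = w K z

theorem Ops_cast {X T : Scheme.{0}} {p p' : X ⟶ T} [IsSeparated p] [IsSeparated p'] (e : p = p')
    {d : X → ℚ} (h : d ∈ Cyc m p) : d ∈ Cyc m p' := by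
  subst e
  exact h

theorem Ops_RC.mul {t : W →+* Y} {t' : Y →+* Z} {w : ∀ (K : Type) [Field K], (Y →+* K) → ℚ}
    {w' : ∀ (K : Type) [Field K], (Z →+* K) → ℚ} (h : Ops_RC m t w) (h' : Ops_RC m t' w') :
    Ops_RC m (t'.comp t) fun K _ z => w K (z.comp t') * w' K z := by
  obtain ⟨d, hd, h⟩ := h
  obtain ⟨d', hd', h'⟩ := h'
  refine ⟨_, Ops_cast (spm_comp t t') (Cyc.mul_mem hd hd'), fun K _ z => ?_⟩
  beta_reduce
  rw [← h, ← h', ← spm_comp, gen_comp]
  rfl

theorem Ops_root (hm : IsUnit (m : W)) {P : W[X]} (hP : P.Monic) :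
    Ops_RC m (AdjoinRoot.of P) fun _ _ z =>
      ((P.map (z.comp (AdjoinRoot.of P))).rootMultiplicity (z (AdjoinRoot.root P)) : ℚ) := by
  have he : eval₂RingHom (C : W →+* W[X]) X = RingHom.id _ :=
    ringHom_ext (by simp) (by simp)
  have het : Et1 (C : W →+* W[X]) X := by
    unfold Et1
    rw [he]
    exact RingHom.Etale.of_bijective Function.bijective_id
  have ok : TrOK m (C : W →+* W[X]) X P := ⟨hm, het, RingHom.finite_algebraMap.2 hP.finite_adjoinRoot⟩
  have hs : Function.Surjective (AdjoinRoot.mk P) := AdjoinRoot.mk_surjective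
  have : IsClosedImmersion (spm (AdjoinRoot.mk P)) := IsClosedImmersion.spec_of_surjective _ hs
  have h1 := Cyc.restrict_mem (j := spm (AdjoinRoot.mk P)) ok.mem (by
    refine (closure_minimal (support_Div.trans Set.inter_subset_right)
      (Scheme.zeroLocus_isClosed _ _)).trans ?_
    have h2 := range_comap_of_surjective _ (AdjoinRoot.mk P) hs
    rw [show RingHom.ker (AdjoinRoot.mk P) = Ideal.span {P} from Ideal.mk_ker] at h2
    exact (zl_fn P).le.trans h2.ge)
  refine ⟨_, Ops_cast (spm_comp _ _) h1, fun K _ z => ?_⟩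
  have := (etale_lineMap_spm (C : W →+* W[X]) X).2 het
  have h3 : (P.map fn).map (ev (spm (z.comp (AdjoinRoot.mk P)) ≫ spm (C : W →+* W[X]))) =
      P.map (z.comp (AdjoinRoot.of P)) := by
    rw [Polynomial.map_map, spm_comp]
    exact congrArg (P.map ·) (RingHom.ext fun a => ev_spm_fn _ a)
  have h4 := Div_one_poly (p := spm (C : W →+* W[X])) (u := fn X) (P.map fn)
    (spm (z.comp (AdjoinRoot.mk P))) (by rw [h3]; exact (hP.map _).ne_zero)
  have h5 : eval₂ (spm (C : W →+* W[X])).appTop.hom (fn X) (P.map fn) = fn P := by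
    rw [eval₂_map, show (spm (C : W →+* W[X])).appTop.hom.comp fn = fn.comp C from
      RingHom.ext fun a => appTop_spm_fn _ a, ← hom_eval₂, eval₂_C_X]
  rw [h3, h5, ev_spm_fn, ← spm_comp, gen_comp] at h4
  exact h4

theorem Ops_toZ (c : ZZ φ m D R) {ψ : D.R →+* Y} {s : F →+* Y} (h : ψ.comp D.s = s.comp φ)
    {i : Y →+* Z} {k : R.R →+* Z} (po : IsPO s R.s i k) :
    Ops_RC m i fun _ _ z => en c ((z.comp i).comp ψ) (z.comp k) := by
  have e1 : spm (bPt ψ s h) ≫ (spO (bO φ D).s).hom = spm s :=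
    (spm_comp _ _).trans (congrArg spm (bPt_s φ ψ s h))
  have sq : IsPullback (spm i) (spm k) (spm s) (spm R.s) :=
    isPullback_SpecMap_of_isPushout _ _ _ _ po
  have w : (spm i ≫ spm (bPt ψ s h)) ≫ (spO (bO φ D).s).hom = spm k ≫ (spO R.s).hom := by
    rw [Category.assoc, e1]
    exact sq.w
  have sq' : IsPullback (pullback.lift _ _ w) (spm i)
      (pullback.fst (spO (bO φ D).s).hom (spO R.s).hom) (spm (bPt ψ s h)) := by
    refine IsPullback.of_right ?_ (pullback.lift_fst _ _ _) (IsPullback.of_hasPullback _ _).flip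
    rw [pullback.lift_snd, e1]
    exact sq.flip
  refine ⟨_, Cyc.pull_mem sq' c.2, fun K _ z => ?_⟩
  have hc : ((z.comp i).comp ψ).comp D.s = ((z.comp k).comp R.s).comp φ := by
    rw [RingHom.comp_assoc, h, RingHom.comp_assoc R.s k z, ← po.comm]
    rfl
  have e2 : bPt _ _ hc = (z.comp i).comp (bPt ψ s h) := by
    refine (bPO φ D).hom_ext ?_ ?_
    · rw [bPt_bI, RingHom.comp_assoc _ _ (z.comp i), bPt_bI]
    · rw [bPt_s, RingHom.comp_assoc _ _ (z.comp i), bPt_s, RingHom.comp_assoc, RingHom.comp_assoc,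
        po.comm]
  have h1 := Corr.ent_fst_snd c (spm z ≫ pullback.lift _ _ w)
  rw [Category.assoc, Category.assoc, pullback.lift_fst, pullback.lift_snd, gen_comp] at h1
  refine h1.symm.trans ?_
  beta_reduce
  unfold en enF
  rw [dif_pos hc, e2, ← spm_comp, ← spm_comp, ← spm_comp, Category.assoc]
  rfl

theorem Ops_ofZ {t : (bO φ B).R →+* Z} {w : ∀ (K : Type) [Field K], (Z →+* K) → ℚ}
    (hw : Ops_RC m t w) (q : R.R →+* Z) (h : t.comp (bO φ B).s = q.comp R.s) :
    ∃ c : ZZ φ m B R, ∀ (K : Type) [Field K] [IsAlgClosed K] (x : B.R →+* K) (y : R.R →+* K),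
      en c x y =
        ∑ᶠ z ∈ {z : Z →+* K | (z.comp t).comp (bI φ B) = x ∧ z.comp q = y}, w K z := by
  obtain ⟨d, hd, hw⟩ := hw
  have e : spm t ≫ (spO (bO φ B).s).hom = spm q ≫ (spO R.s).hom :=
    (spm_comp _ _).trans ((congrArg spm h).trans (spm_comp _ _).symm)
  refine ⟨Corr.ofCyc m (W := spO (bO φ B).s) (U := spO R.s) (spm t) (spm q) e ⟨d, hd⟩,
    fun K _ _ x y => ?_⟩
  have h0 : ∀ z : Z →+* K, z.comp q = y → (z.comp t).comp (bO φ B).s = y.comp R.s := by
    rintro z rfl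
    rw [RingHom.comp_assoc, h, RingHom.comp_assoc]
  unfold en enF
  split_ifs with hc
  · refine (Corr.ent_ofCyc (W := spO (bO φ B).s) (U := spO R.s) (spm t) (spm q) e ⟨d, hd⟩ _ _).trans
      (Ops_reindex spm ?_ (fun _ _ _ _ => spm_injective) ?_ fun z _ => (hw K z).symm).symm
    · rintro z ⟨h1, h2⟩
      refine ⟨(spm_comp _ _).trans (congrArg spm ((bPO φ B).hom_ext ?_ ?_)),
        (spm_comp _ _).trans (congrArg spm h2)⟩
      · rw [bPt_bI, h1]
      · rw [bPt_s, h0 z h2]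
    · rintro z ⟨h1, h2⟩ -
      obtain ⟨z, rfl⟩ := spm_surjective z
      refine ⟨z, ⟨?_, spm_injective ((spm_comp _ _).symm.trans h2)⟩, rfl⟩
      rw [spm_injective ((spm_comp _ _).symm.trans h1), bPt_bI]
  · rw [Set.eq_empty_of_forall_notMem (s := {z : Z →+* K | _}), finsum_mem_empty]
    rintro z ⟨h1, h2⟩
    refine hc ?_
    rw [← h1, ← h0 z h2, RingHom.comp_assoc, (bPO φ B).comm]
    rfl

theorem Ops_pt {i : (bO φ B).R →+* Z} {k : R.R →+* Z} (po : IsPO (bO φ B).s R.s i k) {K : Type}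
    [CommRing K] {x : B.R →+* K} {y : R.R →+* K} (h : x.comp B.s = (y.comp R.s).comp φ) :
    ∃ z : Z →+* K, (z.comp i).comp (bI φ B) = x ∧ z.comp k = y := by
  obtain ⟨z, h1, h2⟩ := po.exists_lift (bPt x _ h) y (bPt_s φ _ _ h)
  exact ⟨z, by rw [h1, bPt_bI], h2⟩

theorem Ops_ext {i : (bO φ B).R →+* Z} {k : R.R →+* Z} (po : IsPO (bO φ B).s R.s i k) {K : Type}
    [CommRing K] {z z' : Z →+* K} (h : (z.comp i).comp (bI φ B) = (z'.comp i).comp (bI φ B))
    (h' : z.comp k = z'.comp k) : z = z' := by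
  refine po.hom_ext ((bPO φ B).hom_ext h ?_) h'
  rw [RingHom.comp_assoc, RingHom.comp_assoc, po.comm, ← RingHom.comp_assoc, h', RingHom.comp_assoc]

theorem Ops_unit (hb : Bs π φ m) (B : Alg A) : IsUnit (bI φ B (B.s π)) := by
  rw [(bPO φ B).comm_apply]
  exact (IsUnit.mk0 _ hb.ne).map _

theorem Ops_char (hb : Bs π φ m) (s : F →+* Y) : IsUnit (m : Y) := by
  simpa using (IsUnit.mk0 _ hb.char).map s

end rc

open Classical in
/-- The product of `c` with the graph of the unit `a / π^k`. Hint: `Corr.ofCyc` along the map from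
the fibre product to `Spec (Lau R)` given by the second projection and the unit. -/
theorem exists_sig (hb : Bs π φ m) {a : B.R} (ha : GU π a) (k : ℕ) (c : ZZ φ m B R) :
    ∃ c' : ZZ φ m B ((lauF F).obj R), ∀ (K : Type) [Field K] [IsAlgClosed K] (x : B.R →+* K)
      (y : Lau R.R →+* K), en c' x y =
        if y (lauL R.R X) * x (B.s π) ^ k = x a then en c x (y.comp (lauC R.R)) else 0 := by
  obtain ⟨Z, _, i, j, po⟩ := exists_isPO (bO φ B).s R.s
  have hp : IsUnit (i (bI φ B (B.s π))) := (Ops_unit hb B).map i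
  have hu : IsUnit (i (bI φ B a)) := by
    obtain ⟨b, e, he⟩ := ha
    refine isUnit_of_mul_isUnit_left (y := i (bI φ B b)) ?_
    rw [← map_mul, ← map_mul, he, map_pow, map_pow]
    exact hp.pow e
  obtain ⟨u, hu⟩ : ∃ u : Zˣ, u * i (bI φ B (B.s π)) ^ k = i (bI φ B a) :=
    ⟨hu.unit * (hp.pow k).unit⁻¹, by
      rw [Units.val_mul, mul_assoc, IsUnit.val_inv_mul, mul_one, hu.unit_spec]⟩
  have hq : (lauLift j u u.isUnit).comp (lauC R.R) = j :=
    RingHom.ext fun r => lauLift_lauC _ _ u.isUnit r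
  have hX : lauLift j u u.isUnit (lauL R.R X) = u :=
    (lauLift_lauL _ _ u.isUnit _).trans (eval₂_X _ _)
  obtain ⟨c', hc⟩ := Ops_ofZ (R := (lauF F).obj R) (Ops_toZ c (bPO φ B).comm po)
    (lauLift j u u.isUnit) (po.comm.trans (congrArg (·.comp R.s) hq.symm))
  refine ⟨c', fun K _ _ x y => (hc K x y).trans ?_⟩
  have h1 : ∀ z : Z →+* K, (z.comp i).comp (bI φ B) = x → z u * x (B.s π) ^ k = x a := by
    rintro z rfl
    exact ((map_mul z _ _).trans (congrArg (z u * ·) (map_pow z _ _))).symm.trans (congrArg z hu)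
  have h2 : ∀ z : Z →+* K, z.comp (lauLift j u u.isUnit) = y →
      z.comp j = y.comp (lauC R.R) ∧ z u = y (lauL R.R X) := by
    rintro z rfl
    exact ⟨by rw [RingHom.comp_assoc, hq], congrArg z hX.symm⟩
  split_ifs with h
  · refine Eq.trans (Ops_reindex (t := {y.comp (lauC R.R)}) (g := fun y => en c x y)
      (fun z => z.comp j) (fun z hz => (h2 z hz.2).1) ?_ ?_ ?_) finsum_mem_singleton
    · exact fun z hz z' hz' e => Ops_ext po (hz.1.trans hz'.1.symm) e
    · rintro _ rfl hne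
      obtain ⟨z, h3, h4⟩ := Ops_pt po (en_compat c _ _ hne)
      refine ⟨z, ⟨h3, lau_ext (by rw [RingHom.comp_assoc, hq, h4]) ?_⟩, h4⟩
      refine (congrArg z hX).trans (mul_right_cancel₀ (pow_ne_zero k (en_pi_ne c _ _ hb.ne hne)) ?_)
      rw [h1 z h3, h]
    · rintro z ⟨h3, -⟩
      rw [h3]
  · rw [Set.eq_empty_of_forall_notMem (s := {z : Z →+* K | _}), finsum_mem_empty]
    exact fun z hz => h ((h2 z hz.2).2 ▸ h1 z hz.1)

/-- The transfer along the divisor of a monic polynomial. Hint: over `Q ⊗_A F` the function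
`Div 1 W` on the affine line is a cycle (`trC`, `Div_one_poly`) supported in `V(W) = Spec (D ⊗_A F)`;
compose with `c`. -/
theorem exists_trn (hb : Bs π φ m) {δ : Q ⟶ D} {W : Q.R[X]} {α : D.R} (h : TrD π δ W α)
    (c : ZZ φ m D R) :
    ∃ c' : ZZ φ m Q R, ∀ (K : Type) [Field K] [IsAlgClosed K] (x : Q.R →+* K) (y : R.R →+* K),
      en c' x y = ∑ᶠ z ∈ {z : D.R →+* K | z.comp δ.1 = x},
        ((W.map x).rootMultiplicity (z α) : ℚ) * en c z y := by
  obtain ⟨ψ, hψ, -⟩ := h.piso.existsUnique_lift (amap (bI φ Q) W)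
    (by rw [amap_of]; exact (Ops_unit hb Q).map _)
  have hδ : ψ.comp δ.1 = (AdjoinRoot.of _).comp (bI φ Q) := RingHom.ext fun a => by
    have := RingHom.congr_fun hψ (AdjoinRoot.of W a)
    rwa [RingHom.comp_apply, AdjoinRoot.lift_of, amap_of] at this
  have hα : ψ α = AdjoinRoot.root _ := by
    have := RingHom.congr_fun hψ (AdjoinRoot.root W)
    rwa [RingHom.comp_apply, AdjoinRoot.lift_root, amap_root] at this
  have hs : ψ.comp D.s = ((AdjoinRoot.of _).comp (bO φ Q).s).comp φ := by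
    rw [← δ.2, ← RingHom.comp_assoc, hδ, RingHom.comp_assoc, (bPO φ Q).comm]
    rfl
  obtain ⟨Z, _, i, j, po⟩ := exists_isPO
    ((AdjoinRoot.of (W.map (bI φ Q))).comp (bO φ Q).s) R.s
  obtain ⟨c', hc⟩ := Ops_ofZ (R := R)
    ((Ops_root (Ops_char hb (bO φ Q).s) (h.monic.map (bI φ Q))).mul (Ops_toZ c hs po)) j po.comm
  refine ⟨c', fun K _ _ x y => (hc K x y).trans ?_⟩
  have h1 : ∀ z : Z →+* K, ((z.comp i).comp ψ).comp δ.1 =
      (z.comp (i.comp (AdjoinRoot.of _))).comp (bI φ Q) := fun z => by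
    rw [RingHom.comp_assoc, hδ]
    rfl
  have h2 : ∀ z : Z →+* K, (z.comp (i.comp (AdjoinRoot.of _))).comp (bO φ Q).s =
      (z.comp j).comp R.s := fun z => congrArg z.comp po.comm
  refine Ops_reindex (fun z => (z.comp i).comp ψ) (fun z hz => (h1 z).trans hz.1) ?_ ?_ ?_
  · intro z hz z' hz' e
    refine po.hom_ext (AdjoinRoot.ringHom_ext ((bPO φ Q).hom_ext (hz.1.trans hz'.1.symm) ?_) ?_)
      (hz.2.trans hz'.2.symm)
    · exact (h2 z).trans ((congrArg (·.comp R.s) (hz.2.trans hz'.2.symm)).trans (h2 z').symm)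
    · rw [← hα]
      exact RingHom.congr_fun e α
  · rintro z rfl hne
    have h3 := en_compat c _ _ (right_ne_zero_of_mul hne)
    have h4 : (z.comp δ.1).comp Q.s = (y.comp R.s).comp φ := by rwa [RingHom.comp_assoc, δ.2]
    have h5 : (W.map (bI φ Q)).eval₂ (bPt _ _ h4) (z α) = 0 := by
      rw [eval₂_map, bPt_bI, ← hom_eval₂, h.root, map_zero]
    obtain ⟨z', h6, h7⟩ := po.exists_lift (AdjoinRoot.lift _ _ h5) y (by
      rw [← RingHom.comp_assoc, AdjoinRoot.lift_comp_of, bPt_s])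
    have h8 : (z'.comp (i.comp (AdjoinRoot.of _))).comp (bI φ Q) = z.comp δ.1 := by
      rw [← RingHom.comp_assoc _ i z', h6, AdjoinRoot.lift_comp_of, bPt_bI]
    refine ⟨z', ⟨h8, h7⟩, ?_⟩
    have h9 : z.comp δ.1 (Q.s π) ≠ 0 := by
      rw [RingHom.comp_apply, Alg.map_s]
      exact en_pi_ne c _ _ hb.ne (right_ne_zero_of_mul hne)
    refine (h.existsUnique_point _ h9 (h.isRoot z)).unique ⟨(h1 z').trans h8, ?_⟩ ⟨rfl, rfl⟩
    rw [RingHom.comp_apply, hα, h6, AdjoinRoot.lift_root]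
  · rintro z ⟨rfl, rfl⟩
    rw [Polynomial.map_map, ← hα]
    rfl

/-- The inner coordinate of `Lau (Lau R)`. -/
def tA (R : Type) [CommRing R] : Lau (Lau R) := lauC (Lau R) (lauL R X)

/-- The outer coordinate of `Lau (Lau R)`. -/
def tB (R : Type) [CommRing R] : Lau (Lau R) := lauL (Lau R) X

theorem tA_isUnit (R : Type) [CommRing R] : IsUnit (tA R) := (isUnit_lauL_X R).map _

theorem tB_isUnit (R : Type) [CommRing R] : IsUnit (tB R) := isUnit_lauL_X (Lau R)

/-- The endomorphism of `Lau (Lau R)` over `R` with prescribed values on the coordinates. -/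
def ll (R : Alg F) (a b : Lau (Lau R.R)) (ha : IsUnit a) (hb : IsUnit b) :
    (lauF F).obj ((lauF F).obj R) ⟶ (lauF F).obj ((lauF F).obj R) :=
  ⟨lauLift (lauLift ((lauC (Lau R.R)).comp (lauC R.R)) a ha) b hb, RingHom.ext fun r =>
    (lauLift_lauC _ b hb _).trans (lauLift_lauC _ a ha _)⟩

/-- The exchange of the two coordinates. -/
def swp (R : Alg F) := ll R (tB R.R) (tA R.R) (tB_isUnit _) (tA_isUnit _)

/-- The map `(a, b) ↦ (1, a b)`. -/
def mu1 (R : Alg F) := ll R 1 (tA R.R * tB R.R) isUnit_one ((tA_isUnit _).mul (tB_isUnit _))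

/-- The map `(a, b) ↦ (a b, 1)`. -/
def mu2 (R : Alg F) := ll R (tA R.R * tB R.R) 1 ((tA_isUnit _).mul (tB_isUnit _)) isUnit_one

/-- The idempotent `t ↦ 1`. -/
def eT (R : Alg F) : (lauF F).obj R ⟶ (lauF F).obj R := eL R ≫ cL R

/-- The polynomial `X^2 - ((1 - s)(a + b) + s (1 + a b)) X + a b`. -/
def hP {K : Type} [CommRing K] (s a b : K) : K[X] :=
  X ^ 2 - C ((1 - s) * (a + b) + s * (1 + a * b)) * X + C (a * b)

theorem Ops_hP_monic {K : Type} [CommRing K] (s a b : K) : (hP s a b).Monic := by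
  unfold hP
  rw [sub_eq_add_neg, add_assoc, ← neg_mul, ← C_neg]
  exact monic_X_pow_add (degree_linear_lt.trans_le le_rfl)

theorem Ops_hP_map {K K' : Type} [CommRing K] [CommRing K'] (f : K →+* K') (s a b : K) :
    (hP s a b).map f = hP (f s) (f a) (f b) := by
  simp [hP]

theorem Ops_hP_eval {K K' : Type} [CommRing K] [CommRing K'] (f : K →+* K') (r : K') (s a b : K) :
    (hP s a b).eval₂ f r = f (a * b) - r * (f ((1 - s) * (a + b) + s * (1 + a * b)) - r) := by
  rw [hP, eval₂_add, eval₂_sub, eval₂_mul, eval₂_X_pow, eval₂_C, eval₂_C, eval₂_X]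
  ring

/-- The homotopy. Hint: let `Z` be the pushout of `B ⊗_A F` and `Lau (Lau R)`, `Z' = AdjoinRoot` of
`hP s a b` over `Z`, with root `r` (a unit); multiply `c` with the root cycle of `Z' / Z`
(`Cyc.mul_mem`) and apply `Corr.ofCyc` along `a ↦ r`, `b ↦ a b / r`. -/
theorem exists_ht (hb : Bs π φ m) (s : B.R) (c : ZZ φ m B ((lauF F).obj ((lauF F).obj R))) :
    ∃ c' : ZZ φ m B ((lauF F).obj ((lauF F).obj R)), ∀ (K : Type) [Field K] [IsAlgClosed K]
      (x : B.R →+* K) (y : Lau (Lau R.R) →+* K), en c' x y =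
        ∑ᶠ y' ∈ {y' : Lau (Lau R.R) →+* K |
            y'.comp ((lauC _).comp (lauC R.R)) = y.comp ((lauC _).comp (lauC R.R)) ∧
            y' (tA R.R) * y' (tB R.R) = y (tA R.R) * y (tB R.R)},
          ((hP (x s) (y' (tA R.R)) (y' (tB R.R))).rootMultiplicity (y (tA R.R)) : ℚ) *
            en c x y' := by
  obtain ⟨Z, _, i, j, po⟩ : ∃ (Z : Type) (_ : CommRing Z) (i : (bO φ B).R →+* Z)
      (j : Lau (Lau R.R) →+* Z), IsPO (bO φ B).s ((lauF F).obj ((lauF F).obj R)).s i j :=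
    exists_isPO _ _
  let P : Z[X] := hP (i (bI φ B s)) (j (tA R.R)) (j (tB R.R))
  let o : Z →+* AdjoinRoot P := AdjoinRoot.of P
  have hab : IsUnit (o (j (tA R.R) * j (tB R.R))) :=
    (((tA_isUnit _).map j).mul ((tB_isUnit _).map j)).map o
  obtain ⟨r', hr⟩ : ∃ r', AdjoinRoot.root P * r' = o (j (tA R.R) * j (tB R.R)) := by
    have := AdjoinRoot.eval₂_root P
    rw [show P.eval₂ _ _ = _ from Ops_hP_eval _ _ _ _ _] at this
    exact ⟨_, (sub_eq_zero.1 this).symm⟩
  have hu : IsUnit (AdjoinRoot.root P) := isUnit_of_mul_isUnit_left (hr ▸ hab)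
  have hu' : IsUnit r' := isUnit_of_mul_isUnit_right (hr ▸ hab)
  let cc : R.R →+* Lau (Lau R.R) := (lauC _).comp (lauC R.R)
  let q : Lau (Lau R.R) →+* AdjoinRoot P := lauLift (lauLift ((o.comp j).comp cc) _ hu) r' hu'
  have q1 : q.comp cc = (o.comp j).comp cc := RingHom.ext fun a =>
    (lauLift_lauC _ _ hu' _).trans (lauLift_lauC _ _ hu _)
  have q2 : q (tA R.R) = AdjoinRoot.root P :=
    (lauLift_lauC _ _ hu' _).trans ((lauLift_lauL _ _ hu _).trans (eval₂_X _ _))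
  have q3 : q (tB R.R) = r' := (lauLift_lauL _ _ hu' _).trans (eval₂_X _ _)
  obtain ⟨c', hc⟩ := Ops_ofZ (R := (lauF F).obj ((lauF F).obj R))
    ((Ops_toZ c (bPO φ B).comm po).mul
      (Ops_root (Ops_char hb (i.comp (bO φ B).s)) (Ops_hP_monic _ _ _ : P.Monic))) q
    ((congrArg o.comp po.comm).trans (congrArg (·.comp R.s) q1.symm))
  refine ⟨c', fun K _ _ x y => (hc K x y).trans ?_⟩
  have h1 : ∀ z : Z →+* K, (z.comp i).comp (bI φ B) = x →
      P.map z = hP (x s) (z.comp j (tA R.R)) (z.comp j (tB R.R)) := by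
    rintro z rfl
    exact Ops_hP_map _ _ _ _
  refine Ops_reindex (fun z => (z.comp o).comp j) ?_ ?_ ?_ ?_
  · rintro z ⟨-, rfl⟩
    refine ⟨(congrArg z.comp q1).symm, ?_⟩
    rw [RingHom.comp_apply z q, RingHom.comp_apply z q, q2, q3, ← map_mul z, hr, map_mul, map_mul]
    rfl
  · intro z hz z' hz' e
    refine AdjoinRoot.ringHom_ext (Ops_ext po (hz.1.trans hz'.1.symm) e) ?_
    rw [← q2]
    exact RingHom.congr_fun (hz.2.trans hz'.2.symm) _
  · rintro y' ⟨h2, h3⟩ hne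
    obtain ⟨z, h4, h5⟩ := Ops_pt po (en_compat c _ _ (right_ne_zero_of_mul hne))
    replace h5 : z.comp j = y' := h5
    have h6 : P.eval₂ z (y (tA R.R)) = 0 := by
      rw [← Polynomial.eval_map, h1 z h4, h5]
      by_contra h7
      exact left_ne_zero_of_mul hne (by rw [rootMultiplicity_eq_zero h7, Nat.cast_zero])
    obtain ⟨z', h7, h9⟩ : ∃ z' : AdjoinRoot P →+* K, z'.comp o = z ∧
        z' (AdjoinRoot.root P) = y (tA R.R) :=
      ⟨AdjoinRoot.lift z _ h6, AdjoinRoot.lift_comp_of _, AdjoinRoot.lift_root _⟩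
    have h8 : z'.comp q (tA R.R) = y (tA R.R) := by rw [RingHom.comp_apply, q2, h9]
    refine ⟨z', ⟨?_, lau_ext (lau_ext ?_ h8) ?_⟩, ?_⟩
    · rw [← RingHom.comp_assoc _ _ z', h7, h4]
    · refine (congrArg z'.comp q1).trans (Eq.trans ?_ h2)
      rw [← h5, ← h7]
      rfl
    · refine mul_left_cancel₀ ((tA_isUnit R.R).map y).ne_zero (Eq.trans ?_ h3)
      change _ * z' (q (tB R.R)) = _
      rw [← h9, ← map_mul, q3, hr, ← h5]
      exact (RingHom.congr_fun h7 _).trans (map_mul z _ _)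
    · rw [h7, h5]
  · rintro z ⟨h2, rfl⟩
    replace h2 : ((z.comp o).comp i).comp (bI φ B) = x := h2
    rw [mul_comm, h1 _ h2, h2, RingHom.comp_apply z q, q2]

end Pool.Agent.KEW.L8
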