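import Pool.Agent.P.MP_6277db_ag.KEW.L8a.Ops

/-!
KEW project, layer L8a: the rules for the operations on correspondences (all proved by comparing
matrix entries, `ext_en`).
-/

set_option backward.isDefEq.respectTransparency false

noncomputable section

open CategoryTheory Limits AlgebraicGeometry Polynomial TensorProduct

namespace Pool.Agent.KEW.L8

open _root_.KEW

variable {A F : Type} [CommRing A] [Field F] {φ : A →+* F} {m : ℕ} {π : A}
  {B B' Q Q' D D' : Alg A} {R R' : Alg F} (hb : Bs π φ m)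

theorem OpsR_single {ι : Type} {s : Set ι} {f : ι → ℚ} (a : ι) (ha : a ∈ s)
    (h : ∀ b ∈ s, f b ≠ 0 → b = a) : ∑ᶠ b ∈ s, f b = f a := by
  rw [finsum_mem_eq_sum_of_subset f (t := {a}) (fun b hb => by simpa using h b hb.1 hb.2)
    (by simpa using ha), Finset.sum_singleton]

theorem OpsR_fin {ι : Type} (s : Set ι) (w : ι → ℚ) {f : ι → ℚ}
    (h : (Function.support f).Finite) : (s ∩ Function.support fun i => w i * f i).Finite :=
  h.subset fun _ hi => right_ne_zero_of_mul hi.2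

open Classical in
theorem OpsR_mult {K : Type} [Field K] (a b r : K) :
    ((((X - C a) * (X - C b)).rootMultiplicity r : ℕ) : ℚ) =
      (if r = a then 1 else 0) + (if r = b then 1 else 0) := by
  rw [rootMultiplicity_mul (mul_ne_zero (X_sub_C_ne_zero a) (X_sub_C_ne_zero b)),
    rootMultiplicity_X_sub_C, rootMultiplicity_X_sub_C]
  push_cast
  rfl

theorem OpsR_hP0 {K : Type} [CommRing K] (a b : K) : hP 0 a b = (X - C a) * (X - C b) := by
  simp only [hP, sub_zero, one_mul, zero_mul, add_zero, map_add, map_mul]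
  ring

theorem OpsR_hP1 {K : Type} [CommRing K] (a b : K) : hP 1 a b = (X - C 1) * (X - C (a * b)) := by
  simp only [hP, sub_self, one_mul, zero_mul, zero_add, map_add, map_one]
  ring

section lau

variable {S T : Type} [CommRing S] [CommRing T]

theorem OpsR_ext2 {f g : Lau (Lau S) →+* T}
    (h0 : f.comp ((lauC _).comp (lauC S)) = g.comp ((lauC _).comp (lauC S)))
    (hA : f (tA S) = g (tA S)) (hB : f (tB S) = g (tB S)) : f = g :=
  lau_ext (lau_ext h0 hA) hB

/-- The ring map underlying `ll`. -/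
def OpsR_l (a b : Lau (Lau S)) (ha : IsUnit a) (hb : IsUnit b) : Lau (Lau S) →+* Lau (Lau S) :=
  lauLift (lauLift ((lauC (Lau S)).comp (lauC S)) a ha) b hb

theorem OpsR_l_C (a b : Lau (Lau S)) (ha : IsUnit a) (hb : IsUnit b) (r : S) :
    OpsR_l a b ha hb (lauC _ (lauC S r)) = lauC _ (lauC S r) :=
  (lauLift_lauC _ b hb _).trans (lauLift_lauC _ a ha _)

theorem OpsR_l_A (a b : Lau (Lau S)) (ha : IsUnit a) (hb : IsUnit b) :
    OpsR_l a b ha hb (tA S) = a := by
  rw [OpsR_l, tA, lauLift_lauC, lauLift_lauL, eval₂_X]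

theorem OpsR_l_B (a b : Lau (Lau S)) (ha : IsUnit a) (hb : IsUnit b) :
    OpsR_l a b ha hb (tB S) = b := by
  rw [OpsR_l, tB, lauLift_lauL, eval₂_X]

theorem OpsR_comp_l (a b : Lau (Lau S)) (ha : IsUnit a) (hb : IsUnit b)
    (y : Lau (Lau S) →+* T) : (y.comp (OpsR_l a b ha hb)).comp ((lauC _).comp (lauC S)) =
      y.comp ((lauC _).comp (lauC S)) :=
  RingHom.ext fun r => congrArg y (OpsR_l_C a b ha hb r)

theorem OpsR_comp_l_iff (a b : Lau (Lau S)) (ha : IsUnit a) (hb : IsUnit b)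
    (y' y : Lau (Lau S) →+* T) : y'.comp (OpsR_l a b ha hb) = y ↔
      y'.comp ((lauC _).comp (lauC S)) = y.comp ((lauC _).comp (lauC S)) ∧
        y' a = y (tA S) ∧ y' b = y (tB S) := by
  constructor
  · rintro rfl
    exact ⟨(OpsR_comp_l a b ha hb y').symm, (congrArg y' (OpsR_l_A a b ha hb)).symm,
      (congrArg y' (OpsR_l_B a b ha hb)).symm⟩
  · rintro ⟨h0, hA, hB⟩
    exact OpsR_ext2 ((OpsR_comp_l a b ha hb y').trans h0)
      ((congrArg y' (OpsR_l_A a b ha hb)).trans hA) ((congrArg y' (OpsR_l_B a b ha hb)).trans hB)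

/-- The ring map underlying `swp`. -/
def OpsR_sw (S : Type) [CommRing S] : Lau (Lau S) →+* Lau (Lau S) :=
  OpsR_l (tB S) (tA S) (tB_isUnit _) (tA_isUnit _)

/-- The ring map underlying `mu1`. -/
def OpsR_m1 (S : Type) [CommRing S] : Lau (Lau S) →+* Lau (Lau S) :=
  OpsR_l 1 (tA S * tB S) isUnit_one ((tA_isUnit _).mul (tB_isUnit _))

/-- The ring map underlying `mu2`. -/
def OpsR_m2 (S : Type) [CommRing S] : Lau (Lau S) →+* Lau (Lau S) :=
  OpsR_l (tA S * tB S) 1 ((tA_isUnit _).mul (tB_isUnit _)) isUnit_one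

/-- The ring map underlying `eT`. -/
def OpsR_e (S : Type) [CommRing S] : Lau S →+* Lau S := (lauC S).comp (lauE S)

theorem OpsR_e_C (r : S) : OpsR_e S (lauC S r) = lauC S r :=
  congrArg (lauC S) (RingHom.congr_fun (lauE_lauC S) r)

theorem OpsR_e_X : OpsR_e S (lauL S X) = 1 := by
  rw [OpsR_e, RingHom.comp_apply, lauE_X, map_one]

theorem OpsR_map_C (f : S →+* T) (r : S) : lauMap f (lauC S r) = lauC T (f r) :=
  RingHom.congr_fun (lauMap_lauC f) r

theorem OpsR_sw_C (r : S) : OpsR_sw S (lauC _ (lauC S r)) = lauC _ (lauC S r) := OpsR_l_C ..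
theorem OpsR_sw_A : OpsR_sw S (tA S) = tB S := OpsR_l_A ..
theorem OpsR_sw_B : OpsR_sw S (tB S) = tA S := OpsR_l_B ..
theorem OpsR_m1_C (r : S) : OpsR_m1 S (lauC _ (lauC S r)) = lauC _ (lauC S r) := OpsR_l_C ..
theorem OpsR_m1_A : OpsR_m1 S (tA S) = 1 := OpsR_l_A ..
theorem OpsR_m2_C (r : S) : OpsR_m2 S (lauC _ (lauC S r)) = lauC _ (lauC S r) := OpsR_l_C ..
theorem OpsR_m2_B : OpsR_m2 S (tB S) = 1 := OpsR_l_B ..

theorem OpsR_eA_C (r : S) : lauMap (OpsR_e S) (lauC _ (lauC S r)) = lauC _ (lauC S r) := by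
  rw [OpsR_map_C, OpsR_e_C]

theorem OpsR_eA_A : lauMap (OpsR_e S) (tA S) = 1 := by
  rw [tA, OpsR_map_C, OpsR_e_X, map_one]

theorem OpsR_eA_B : lauMap (OpsR_e S) (tB S) = tB S := lauMap_X _

theorem OpsR_eB_A : OpsR_e (Lau S) (tA S) = tA S := OpsR_e_C _

theorem OpsR_eB_B : OpsR_e (Lau S) (tB S) = 1 := OpsR_e_X

theorem OpsR_sw_sw (y : Lau (Lau S) →+* T) : (y.comp (OpsR_sw S)).comp (OpsR_sw S) = y :=
  OpsR_ext2 (RingHom.ext fun r => by simp only [RingHom.comp_apply, OpsR_sw_C])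
    (by simp only [RingHom.comp_apply, OpsR_sw_A, OpsR_sw_B])
    (by simp only [RingHom.comp_apply, OpsR_sw_A, OpsR_sw_B])

theorem OpsR_sw_lauC : (OpsR_sw S).comp (lauC (Lau S)) = lauMap (lauC S) :=
  RingHom.ext fun r => lauLift_lauC _ _ (tA_isUnit S) r

theorem OpsR_comp_e_iff (y y' : Lau S →+* T) : y.comp (OpsR_e S) = y' ↔
    y.comp (lauC S) = y'.comp (lauC S) ∧ y' (lauL S X) = 1 := by
  constructor
  · rintro rfl
    exact ⟨RingHom.ext fun r => (congrArg y (OpsR_e_C r)).symm,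
      by rw [RingHom.comp_apply, OpsR_e_X, map_one]⟩
  · rintro ⟨h0, h1⟩
    refine lau_ext (Eq.trans (RingHom.ext fun r => congrArg y (OpsR_e_C r)) h0) ?_
    rw [RingHom.comp_apply, OpsR_e_X, map_one, h1]

end lau

theorem OpsR_ext_L {c c' : ZZ φ m B ((lauF F).obj R)}
    (h : ∀ (K : Type) [Field K] [IsAlgClosed K] (x : B.R →+* K) (y : Lau R.R →+* K),
      en c x y = en c' x y) : c = c' := ext_en h

theorem OpsR_ext_LL {c c' : ZZ φ m B ((lauF F).obj ((lauF F).obj R))}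
    (h : ∀ (K : Type) [Field K] [IsAlgClosed K] (x : B.R →+* K) (y : Lau (Lau R.R) →+* K),
      en c x y = en c' x y) : c = c' := ext_en h

section

variable {K : Type} [Field K]

theorem OpsR_push_map [IsAlgClosed K] (η : R' ⟶ R) (c : ZZ φ m B ((lauF F).obj R))
    (x : B.R →+* K) (y' : Lau R'.R →+* K) : en (pushZ ((lauF F).map η) c) x y' =
      ∑ᶠ y ∈ {y : Lau R.R →+* K | y.comp (lauMap η.1) = y'}, en c x y :=
  en_push c x ((lauF F).map η) y'

theorem OpsR_push_e [IsAlgClosed K] (c : ZZ φ m B ((lauF F).obj R))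
    (x : B.R →+* K) (y' : Lau R.R →+* K) : en (pushZ (eT R) c) x y' =
      ∑ᶠ y ∈ {y : Lau R.R →+* K | y.comp (OpsR_e R.R) = y'}, en c x y := en_push c x (eT R) y'

theorem OpsR_push_m1 [IsAlgClosed K] (c : ZZ φ m B ((lauF F).obj ((lauF F).obj R)))
    (x : B.R →+* K) (y' : Lau (Lau R.R) →+* K) : en (pushZ (mu1 R) c) x y' =
      ∑ᶠ y ∈ {y : Lau (Lau R.R) →+* K | y.comp (OpsR_m1 R.R) = y'}, en c x y :=
  en_push c x (mu1 R) y'

theorem OpsR_push_m2 [IsAlgClosed K] (c : ZZ φ m B ((lauF F).obj ((lauF F).obj R)))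
    (x : B.R →+* K) (y' : Lau (Lau R.R) →+* K) : en (pushZ (mu2 R) c) x y' =
      ∑ᶠ y ∈ {y : Lau (Lau R.R) →+* K | y.comp (OpsR_m2 R.R) = y'}, en c x y :=
  en_push c x (mu2 R) y'

theorem OpsR_push_sw [IsAlgClosed K] (c : ZZ φ m B ((lauF F).obj ((lauF F).obj R)))
    (x : B.R →+* K) (y' : Lau (Lau R.R) →+* K) :
    en (pushZ (swp R) c) x y' = en c x (y'.comp (OpsR_sw R.R)) := by
  have h : en (pushZ (swp R) c) x y' =
      ∑ᶠ y ∈ {y : Lau (Lau R.R) →+* K | y.comp (OpsR_sw R.R) = y'}, en c x y :=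
    en_push c x (swp R) y'
  rw [h]
  refine OpsR_single (f := fun y : Lau (Lau R.R) →+* K => en c x y) _ (OpsR_sw_sw y')
    fun y hy _ => ?_
  rw [← OpsR_sw_sw y]
  exact congrArg (fun z : Lau (Lau R.R) →+* K => z.comp (OpsR_sw R.R)) hy

theorem OpsR_fin_LL [IsAlgClosed K] (c : ZZ φ m B ((lauF F).obj ((lauF F).obj R)))
    (x : B.R →+* K) (y : Lau (Lau R.R) →+* K) (w : (Lau (Lau R.R) →+* K) → ℚ) :
    ({y' : Lau (Lau R.R) →+* K |
        y'.comp ((lauC _).comp (lauC R.R)) = y.comp ((lauC _).comp (lauC R.R)) ∧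
        y' (tA R.R) * y' (tB R.R) = y (tA R.R) * y (tB R.R)} ∩
      Function.support fun y' => w y' * en c x y').Finite :=
  (en_finite' c x ((y.comp ((lauC _).comp (lauC R.R))).comp R.s)).subset fun _ hz =>
    ⟨congrArg (fun t : R.R →+* K => t.comp R.s) hz.1.1, right_ne_zero_of_mul hz.2⟩

theorem OpsR_evp {S S' S'' : Type} [CommRing S] [CommRing S'] [CommRing S''] (k : S' →+* S'')
    (x : S →+* K) (y : S'' →+* K) (W : MvPolynomial (S ⊕ S') ℤ) :
    evp x y (MvPolynomial.rename (Sum.map id k) W) = evp x (y.comp k) W := by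
  unfold evp
  rw [MvPolynomial.eval₂Hom_rename]
  congr 2
  funext i
  cases i <;> rfl

theorem OpsR_cl_of {c : ZZ φ m B R} {c' : ZZ φ m B R'} (k : R.R →+* R'.R)
    (h : ∀ (K' : Type) [Field K'] [IsAlgClosed K'] (x' : B.R →+* K') (y' : R'.R →+* K'),
      en c' x' y' ≠ 0 → en c x' (y'.comp k) ≠ 0) {x : B.R →+* K} {y : R'.R →+* K}
    (H : Cl c' x y) : Cl c x (y.comp k) := fun W hW => by
  rw [← OpsR_evp]
  refine H _ fun K' _ _ x' y' e => ?_
  rw [OpsR_evp]
  exact hW K' x' _ (h K' x' y' e)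

theorem OpsR_pt_ext {δ : Q ⟶ D} {W : Q.R[X]} {α : D.R} (h : TrD π δ W α) {z z' : D.R →+* K}
    (hz : z (D.s π) ≠ 0) (e : z.comp δ.1 = z'.comp δ.1) (e' : z α = z' α) : z = z' :=
  (h.existsUnique_point (z.comp δ.1) (by rwa [RingHom.comp_apply, Alg.map_s])
    (h.isRoot z)).unique ⟨rfl, rfl⟩ ⟨e.symm, e'.symm⟩

theorem OpsR_pi {δ : Q ⟶ D} {z : D.R →+* K} {x : Q.R →+* K} (e : z.comp δ.1 = x) :
    z (D.s π) = x (Q.s π) := by
  rw [← e, RingHom.comp_apply, Alg.map_s]

theorem OpsR_pt_fin (hπ : φ π ≠ 0) {δ : Q ⟶ D} {W : Q.R[X]} {α : D.R} (h : TrD π δ W α)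
    (x : Q.R →+* K) (w : (D.R →+* K) → ℚ) (c : ZZ φ m D R) (y : R.R →+* K) :
    ({z : D.R →+* K | z.comp δ.1 = x} ∩ Function.support fun z => w z * en c z y).Finite := by
  refine Set.Finite.of_finite_image (f := fun z => z α)
    ((finite_setOfPred_isRoot (h.monic.map x).ne_zero).subset ?_) fun z hz z' hz' e => ?_
  · rintro _ ⟨z, hz, rfl⟩
    have := h.isRoot z
    rwa [hz.1] at this
  · exact OpsR_pt_ext h (en_pi_ne c z y hπ (right_ne_zero_of_mul hz.2)) (hz.1.trans hz'.1.symm) e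

end

include hb

theorem exists_sigHom {a : B.R} (ha : GU π a) (k : ℕ) :
    ∃ u : ZZ φ m B R →+ ZZ φ m B ((lauF F).obj R), ∀ c, u c = (exists_sig hb ha k c).choose := by
  refine ⟨AddMonoidHom.mk' (fun c => (exists_sig hb ha k c).choose) fun c c' =>
    OpsR_ext_L fun K _ _ x y => ?_, fun _ => rfl⟩
  rw [en_add, (exists_sig hb ha k (c + c')).choose_spec, (exists_sig hb ha k c).choose_spec,
    (exists_sig hb ha k c').choose_spec, en_add]
  split_ifs
  · rfl
  · rw [add_zero]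

theorem exists_trnHom {δ : Q ⟶ D} {W : Q.R[X]} {α : D.R} (h : TrD π δ W α) :
    ∃ u : ZZ φ m D R →+ ZZ φ m Q R, ∀ c, u c = (exists_trn hb h c).choose := by
  refine ⟨AddMonoidHom.mk' (fun c => (exists_trn hb h c).choose) fun c c' =>
    ext_en fun K _ _ x y => ?_, fun _ => rfl⟩
  rw [en_add, (exists_trn hb h (c + c')).choose_spec, (exists_trn hb h c).choose_spec,
    (exists_trn hb h c').choose_spec,
    ← finsum_mem_add_distrib' (OpsR_pt_fin hb.ne h x _ c y) (OpsR_pt_fin hb.ne h x _ c' y)]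
  exact finsum_mem_congr rfl fun z _ => by rw [en_add, mul_add]

theorem exists_htHom (s : B.R) :
    ∃ u : ZZ φ m B ((lauF F).obj ((lauF F).obj R)) →+ ZZ φ m B ((lauF F).obj ((lauF F).obj R)),
      ∀ c, u c = (exists_ht hb s c).choose := by
  refine ⟨AddMonoidHom.mk' (fun c => (exists_ht hb s c).choose) fun c c' =>
    OpsR_ext_LL fun K _ _ x y => ?_, fun _ => rfl⟩
  rw [en_add, (exists_ht hb s (c + c')).choose_spec, (exists_ht hb s c).choose_spec,
    (exists_ht hb s c').choose_spec,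
    ← finsum_mem_add_distrib' (OpsR_fin_LL c x y _) (OpsR_fin_LL c' x y _)]
  exact finsum_mem_congr rfl fun z _ => by rw [en_add, mul_add]

/-- The product with the graph of `a / π^k`. -/
def sig {a : B.R} (ha : GU π a) (k : ℕ) : ZZ φ m B R →+ ZZ φ m B ((lauF F).obj R) :=
  (exists_sigHom hb ha k).choose

/-- The transfer along the divisor of `W`. -/
def trn {δ : Q ⟶ D} {W : Q.R[X]} {α : D.R} (h : TrD π δ W α) : ZZ φ m D R →+ ZZ φ m Q R :=
  (exists_trnHom hb h).choose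

/-- The homotopy with parameter `s`. -/
def ht (s : B.R) :
    ZZ φ m B ((lauF F).obj ((lauF F).obj R)) →+ ZZ φ m B ((lauF F).obj ((lauF F).obj R)) :=
  (exists_htHom hb s).choose

open Classical in
theorem en_sig {a : B.R} (ha : GU π a) (k : ℕ) (c : ZZ φ m B R) {K : Type} [Field K]
    [IsAlgClosed K] (x : B.R →+* K) (y : Lau R.R →+* K) : en (sig hb ha k c) x y =
      if y (lauL R.R X) * x (B.s π) ^ k = x a then en c x (y.comp (lauC R.R)) else 0 := by
  rw [sig, (exists_sigHom hb ha k).choose_spec]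
  exact (exists_sig hb ha k c).choose_spec K x y

theorem en_trn {δ : Q ⟶ D} {W : Q.R[X]} {α : D.R} (h : TrD π δ W α) (c : ZZ φ m D R) {K : Type}
    [Field K] [IsAlgClosed K] (x : Q.R →+* K) (y : R.R →+* K) :
    en (trn hb h c) x y = ∑ᶠ z ∈ {z : D.R →+* K | z.comp δ.1 = x},
      ((W.map x).rootMultiplicity (z α) : ℚ) * en c z y := by
  rw [trn, (exists_trnHom hb h).choose_spec]
  exact (exists_trn hb h c).choose_spec K x y

theorem OpsR_en_ht (s : B.R) (c : ZZ φ m B ((lauF F).obj ((lauF F).obj R))) {K : Type} [Field K]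
    [IsAlgClosed K] (x : B.R →+* K) (y : Lau (Lau R.R) →+* K) : en (ht hb s c) x y =
      ∑ᶠ y' ∈ {y' : Lau (Lau R.R) →+* K |
          y'.comp ((lauC _).comp (lauC R.R)) = y.comp ((lauC _).comp (lauC R.R)) ∧
          y' (tA R.R) * y' (tB R.R) = y (tA R.R) * y (tB R.R)},
        ((hP (x s) (y' (tA R.R)) (y' (tB R.R))).rootMultiplicity (y (tA R.R)) : ℚ) *
          en c x y' := by
  rw [ht, (exists_htHom hb s).choose_spec]
  exact (exists_ht hb s c).choose_spec K x y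

theorem pull_sig {a : B.R} (ha : GU π a) (k : ℕ) (g : B ⟶ B') {a' : B'.R} (ha' : GU π a')
    (e : g.1 a = a') (c : ZZ φ m B R) : pullZ g (sig hb ha k c) = sig hb ha' k (pullZ g c) := by
  refine OpsR_ext_L fun K _ _ x y => ?_
  rw [en_pull, en_sig, en_sig, en_pull, RingHom.comp_apply, RingHom.comp_apply, Alg.map_s, e]

theorem sig_pi_mul {a : B.R} (ha : GU π a) (k : ℕ) (ha' : GU π (B.s π * a)) (c : ZZ φ m B R) :
    sig hb ha' (k + 1) c = sig hb ha k c := by
  classical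
  refine OpsR_ext_L fun K _ _ x y => ?_
  rw [en_sig, en_sig]
  by_cases h0 : en c x (y.comp (lauC R.R)) = 0
  · rw [h0, ite_self, ite_self]
  · have hx := en_pi_ne c x _ hb.ne h0
    refine if_congr ?_ rfl rfl
    rw [map_mul, pow_succ, ← mul_assoc, mul_comm (x (B.s π)) (x a)]
    exact mul_left_inj' hx

theorem push_sig {a : B.R} (ha : GU π a) (k : ℕ) (η : R' ⟶ R) (c : ZZ φ m B R) :
    pushZ ((lauF F).map η) (sig hb ha k c) = sig hb ha k (pushZ η c) := by
  refine OpsR_ext_L fun K _ _ x y' => ?_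
  rw [OpsR_push_map, en_sig]
  have ht : ∀ y ∈ {y : Lau R.R →+* K | y.comp (lauMap η.1) = y'},
      y (lauL R.R X) = y' (lauL R'.R X) := by
    rintro y rfl
    rw [RingHom.comp_apply, lauMap_X]
  split_ifs with h0
  · rw [en_push]
    refine finsum_mem_eq_of_bijOn (fun y : Lau R.R →+* K => y.comp (lauC R.R))
      ⟨?_, fun y hy z hz e => lau_ext e ((ht y hy).trans (ht z hz).symm), fun w hw => ?_⟩
      fun y hy => ?_
    · rintro y rfl
      exact RingHom.ext fun r => (congrArg y (OpsR_map_C η.1 r)).symm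
    · refine ⟨lauLift w (y' (lauL R'.R X)) ((isUnit_lauL_X _).map y'), lau_ext ?_ ?_, ?_⟩
      · refine RingHom.ext fun r => ?_
        rw [RingHom.comp_apply, RingHom.comp_apply, OpsR_map_C, lauLift_lauC]
        exact RingHom.congr_fun hw r
      · rw [RingHom.comp_apply, lauMap_X, lauLift_lauL, eval₂_X]
      · exact RingHom.ext fun r => lauLift_lauC _ _ ((isUnit_lauL_X _).map y') r
    · rw [en_sig, if_pos (by rw [ht y hy, h0])]
  · exact finsum_mem_eq_zero_of_forall_eq_zero fun y hy => by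
      rw [en_sig, if_neg (by rw [ht y hy]; exact h0)]

theorem eT_sig {a : B.R} (ha : GU π a) (k : ℕ) (c : ZZ φ m B R) :
    pushZ (eT R) (sig hb ha k c) = sig hb (GU.one B) 0 c := by
  refine OpsR_ext_L fun K _ _ x y' => ?_
  rw [OpsR_push_e, en_sig, pow_zero, mul_one, map_one]
  split_ifs with h1
  · by_cases h0 : en c x (y'.comp (lauC R.R)) = 0
    · rw [h0]
      refine finsum_mem_eq_zero_of_forall_eq_zero fun y hy => ?_
      rw [en_sig, ((OpsR_comp_e_iff y y').1 hy).1, h0, ite_self]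
    · have hx := en_pi_ne c x _ hb.ne h0
      have hu : IsUnit (x a / x (B.s π) ^ k) :=
        isUnit_iff_ne_zero.2 (div_ne_zero (ha.ne_zero x hx) (pow_ne_zero k hx))
      have e1 : (lauLift (y'.comp (lauC R.R)) _ hu).comp (lauC R.R) = y'.comp (lauC R.R) :=
        RingHom.ext fun r => lauLift_lauC _ _ hu r
      have e2 : lauLift (y'.comp (lauC R.R)) _ hu (lauL R.R X) = x a / x (B.s π) ^ k := by
        rw [lauLift_lauL, eval₂_X]
      rw [OpsR_single (f := fun y : Lau R.R →+* K => en (sig hb ha k c) x y)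
        (lauLift (y'.comp (lauC R.R)) _ hu) ((OpsR_comp_e_iff _ y').2 ⟨e1, h1⟩)]
      · rw [en_sig, e1, e2, if_pos (div_mul_cancel₀ _ (pow_ne_zero k hx))]
      · intro y hy hy0
        rw [en_sig] at hy0
        refine lau_ext (((OpsR_comp_e_iff y y').1 hy).1.trans e1.symm) ?_
        rw [e2, eq_div_iff (pow_ne_zero k hx)]
        by_contra h2
        exact hy0 (if_neg h2)
  · exact finsum_mem_eq_zero_of_forall_eq_zero fun y hy =>
      absurd ((OpsR_comp_e_iff y y').1 hy).2 h1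

theorem cl_sig {a : B.R} (ha : GU π a) (k : ℕ) {c : ZZ φ m B R} {K : Type} [Field K]
    {x : B.R →+* K} {y : Lau R.R →+* K} (h : Cl (sig hb ha k c) x y) :
    y (lauL R.R X) * x (B.s π) ^ k = x a ∧ Cl c x (y.comp (lauC R.R)) := by
  constructor
  · have key : ∀ (K' : Type) [Field K'] (x' : B.R →+* K') (y' : Lau R.R →+* K'),
        evp x' y' (MvPolynomial.X (Sum.inr (lauL R.R X)) * MvPolynomial.X (Sum.inl (B.s π)) ^ k -
          MvPolynomial.X (Sum.inl a)) = y' (lauL R.R X) * x' (B.s π) ^ k - x' a := by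
      intro K' _ x' y'
      simp [evp]
    rw [← sub_eq_zero, ← key]
    refine h _ fun K' _ _ x' y' e => (key K' x' y').trans (sub_eq_zero.2 ?_)
    by_contra h2
    exact e ((en_sig hb ha k c x' y').trans (if_neg h2))
  · refine OpsR_cl_of (R' := (lauF F).obj R) (lauC R.R) (fun K' _ _ x' y' e h0 => e ?_) h
    refine (en_sig hb ha k c x' y').trans ?_
    split_ifs
    · exact h0
    · rfl

theorem cl_swp_sig {a : B.R} (ha : GU π a) (k : ℕ) {c : ZZ φ m B ((lauF F).obj R)} {K : Type}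
    [Field K] {x : B.R →+* K} {y : Lau (Lau R.R) →+* K}
    (h : Cl (pushZ (swp R) (sig hb ha k c)) x y) :
    y (tA R.R) * x (B.s π) ^ k = x a ∧ Cl c x (y.comp (lauMap (lauC R.R))) := by
  have h1 : Cl (sig hb ha k c) x (y.comp (OpsR_sw R.R)) :=
    OpsR_cl_of (R := (lauF F).obj ((lauF F).obj R)) (R' := (lauF F).obj ((lauF F).obj R))
      (OpsR_sw R.R) (fun K' _ _ x' y' e h0 => e ((OpsR_push_sw _ x' y').trans h0)) h
  obtain ⟨h2, h3⟩ := cl_sig hb ha k h1
  refine ⟨?_, ?_⟩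
  · rw [← OpsR_sw_B]
    exact h2
  · rw [← OpsR_sw_lauC]
    exact h3

theorem pull_trn {δ : Q ⟶ D} {W : Q.R[X]} {α : D.R} (h : TrD π δ W α) {δ' : Q' ⟶ D'}
    {W' : Q'.R[X]} {α' : D'.R} (h' : TrD π δ' W' α') (g : Q ⟶ Q') (k : D ⟶ D')
    (w : δ ≫ k = g ≫ δ') (hW : W.map g.1 = W') (hα : k.1 α = α') (c : ZZ φ m D R) :
    pullZ g (trn hb h c) = trn hb h' (pullZ k c) := by
  refine ext_en fun K _ _ x y => ?_
  have w' : k.1.comp δ.1 = δ'.1.comp g.1 := congrArg Subtype.val w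
  have hW' : W.map (x.comp g.1) = W'.map x := by rw [← hW, Polynomial.map_map]
  rw [en_pull, en_trn, en_trn, hW']
  by_cases hx : x (Q'.s π) = 0
  · rw [finsum_mem_eq_zero_of_forall_eq_zero, finsum_mem_eq_zero_of_forall_eq_zero]
    · intro z hz
      by_contra h0
      exact en_pi_ne _ z y hb.ne (right_ne_zero_of_mul h0) ((OpsR_pi hz).trans hx)
    · intro z hz
      by_contra h0
      refine en_pi_ne _ z y hb.ne (right_ne_zero_of_mul h0) ((OpsR_pi hz).trans ?_)
      rwa [RingHom.comp_apply, Alg.map_s]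
  · have hm : ∀ z : D'.R →+* K, z.comp δ'.1 = x → (z.comp k.1).comp δ.1 = x.comp g.1 := by
      rintro z rfl
      rw [RingHom.comp_assoc, w', RingHom.comp_assoc]
    refine (finsum_mem_eq_of_bijOn (fun z : D'.R →+* K => z.comp k.1)
      ⟨fun z hz => hm z hz, fun z hz z' hz' e => ?_, fun z hz => ?_⟩ fun z _ => ?_).symm
    · refine OpsR_pt_ext h' (by rwa [OpsR_pi hz]) (hz.trans hz'.symm) ?_
      rw [← hα]
      exact RingHom.congr_fun e α
    · have hr := h.isRoot z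
      rw [hz, hW'] at hr
      obtain ⟨z', ⟨h1, h2⟩, -⟩ := h'.existsUnique_point x hx hr
      refine ⟨z', h1, OpsR_pt_ext h ?_ ((hm z' h1).trans hz.symm) ?_⟩
      · rwa [RingHom.comp_apply, Alg.map_s, OpsR_pi h1]
      · rw [RingHom.comp_apply, hα, h2]
    · rw [en_pull, RingHom.comp_apply, hα]

theorem pull_trn_split {δ : Q ⟶ D} {W : Q.R[X]} {α : D.R} (h : TrD π δ W α) (g : Q ⟶ Q')
    (σ1 σ2 : D ⟶ Q') (w1 : δ ≫ σ1 = g) (w2 : δ ≫ σ2 = g)
    (hW : W.map g.1 = (X - C (σ1.1 α)) * (X - C (σ2.1 α))) (c : ZZ φ m D R) :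
    pullZ g (trn hb h c) = pullZ σ1 c + pullZ σ2 c := by
  classical
  refine ext_en fun K _ _ x y => ?_
  have hW' : W.map (x.comp g.1) =
      (X - C ((x.comp σ1.1) α)) * (X - C ((x.comp σ2.1) α)) := by
    rw [← Polynomial.map_map, hW]
    simp
  have key : ∀ σ : D ⟶ Q', δ ≫ σ = g → ∑ᶠ z ∈ {z : D.R →+* K | z.comp δ.1 = x.comp g.1},
      (if z α = (x.comp σ.1) α then (1 : ℚ) else 0) * en c z y = en c (x.comp σ.1) y := by
    intro σ w
    have hσ : (x.comp σ.1).comp δ.1 = x.comp g.1 := by rw [← w]; rfl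
    rw [OpsR_single (x.comp σ.1) hσ, if_pos rfl, one_mul]
    intro z hz h0
    refine OpsR_pt_ext h (en_pi_ne c z y hb.ne (right_ne_zero_of_mul h0)) (hz.trans hσ.symm) ?_
    by_contra h2
    exact left_ne_zero_of_mul h0 (if_neg h2)
  rw [en_pull, en_trn, en_add, en_pull, en_pull, ← key σ1 w1, ← key σ2 w2,
    ← finsum_mem_add_distrib' (OpsR_pt_fin hb.ne h _ _ c y) (OpsR_pt_fin hb.ne h _ _ c y)]
  exact finsum_mem_congr rfl fun z _ => by rw [hW', OpsR_mult, add_mul]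

theorem pull_ht (s : B.R) (g : B ⟶ B') (c : ZZ φ m B ((lauF F).obj ((lauF F).obj R))) :
    pullZ g (ht hb s c) = ht hb (g.1 s) (pullZ g c) := by
  refine OpsR_ext_LL fun K _ _ x y => ?_
  rw [en_pull, OpsR_en_ht, OpsR_en_ht]
  exact finsum_mem_congr rfl fun z _ => by rw [en_pull, RingHom.comp_apply]

theorem ht_zero (c : ZZ φ m B ((lauF F).obj ((lauF F).obj R))) :
    ht hb 0 c = c + pushZ (swp R) c := by
  classical
  refine OpsR_ext_LL fun K _ _ x y => ?_
  have hA : y (tA R.R) ≠ 0 := ((tA_isUnit R.R).map y).ne_zero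
  rw [OpsR_en_ht, en_add, OpsR_push_sw, map_zero]
  simp only [OpsR_hP0, OpsR_mult, add_mul]
  rw [finsum_mem_add_distrib' (OpsR_fin_LL c x y _) (OpsR_fin_LL c x y _),
    OpsR_single y, OpsR_single (y.comp (OpsR_sw R.R))]
  · rw [if_pos rfl, one_mul, if_pos (by rw [RingHom.comp_apply, OpsR_sw_B]), one_mul]
  · refine ⟨OpsR_comp_l _ _ _ _ y, ?_⟩
    rw [RingHom.comp_apply, RingHom.comp_apply, OpsR_sw_A, OpsR_sw_B, mul_comm]
  · intro z hz h0
    have h1 : y (tA R.R) = z (tB R.R) := by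
      by_contra h2
      exact left_ne_zero_of_mul h0 (if_neg h2)
    refine OpsR_ext2 (hz.1.trans (OpsR_comp_l _ _ _ _ y).symm) ?_ ?_
    · have h2 := hz.2
      rw [← h1, mul_comm] at h2
      rw [RingHom.comp_apply, OpsR_sw_A]
      exact mul_left_cancel₀ hA h2
    · rw [RingHom.comp_apply, OpsR_sw_B, h1]
  · exact ⟨rfl, rfl⟩
  · intro z hz h0
    have h1 : y (tA R.R) = z (tA R.R) := by
      by_contra h2
      exact left_ne_zero_of_mul h0 (if_neg h2)
    refine OpsR_ext2 hz.1 h1.symm ?_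
    have h2 := hz.2
    rw [← h1] at h2
    exact mul_left_cancel₀ hA h2

theorem ht_one (c : ZZ φ m B ((lauF F).obj ((lauF F).obj R))) :
    ht hb 1 c = pushZ (mu1 R) c + pushZ (mu2 R) c := by
  classical
  refine OpsR_ext_LL fun K _ _ x y => ?_
  have hA : y (tA R.R) ≠ 0 := ((tA_isUnit R.R).map y).ne_zero
  rw [OpsR_en_ht, en_add, OpsR_push_m1, OpsR_push_m2, map_one]
  simp only [OpsR_hP1, OpsR_mult, add_mul]
  rw [finsum_mem_add_distrib' (OpsR_fin_LL c x y _) (OpsR_fin_LL c x y _)]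
  congr 1
  · by_cases h1 : y (tA R.R) = 1
    · refine finsum_mem_congr (Set.ext fun z => ?_) fun z _ => by rw [if_pos h1, one_mul]
      rw [Set.mem_ofPred_eq, Set.mem_ofPred_eq, OpsR_m1, OpsR_comp_l_iff, map_one, map_mul, h1,
        one_mul]
      simp
    · rw [finsum_mem_eq_zero_of_forall_eq_zero fun z _ => by rw [if_neg h1, zero_mul],
        finsum_mem_eq_zero_of_forall_eq_zero]
      intro z hz
      have := ((OpsR_comp_l_iff _ _ _ _ z y).1 hz).2.1
      rw [map_one] at this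
      exact absurd this.symm h1
  · by_cases h1 : y (tB R.R) = 1
    · refine finsum_mem_congr (Set.ext fun z => ?_) fun z hz => ?_
      · rw [Set.mem_ofPred_eq, Set.mem_ofPred_eq, OpsR_m2, OpsR_comp_l_iff, map_one, map_mul, h1,
          mul_one]
        simp
      · have := ((OpsR_comp_l_iff _ _ _ _ z y).1 hz).2.1
        rw [map_mul] at this
        rw [if_pos this.symm, one_mul]
    · rw [finsum_mem_eq_zero_of_forall_eq_zero, finsum_mem_eq_zero_of_forall_eq_zero]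
      · intro z hz
        have := ((OpsR_comp_l_iff _ _ _ _ z y).1 hz).2.2
        rw [map_one] at this
        exact absurd this.symm h1
      · intro z hz
        rw [if_neg, zero_mul]
        rw [hz.2]
        intro h2
        exact h1 (mul_left_cancel₀ hA (h2.symm.trans (mul_one _).symm))

omit hb

theorem eA_mu1 (R : Alg F) : (lauF F).map (eT R) ≫ mu1 R = mu1 R := by
  refine Alg.hom_ext (?_ : (OpsR_m1 R.R).comp (lauMap (OpsR_e R.R)) = OpsR_m1 R.R)
  refine OpsR_ext2 (RingHom.ext fun r => ?_) ?_ ?_ <;>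
  simp only [RingHom.comp_apply, OpsR_m1_A, OpsR_eA_C, OpsR_eA_A, OpsR_eA_B, map_one]

theorem eB_mu2 (R : Alg F) : eT ((lauF F).obj R) ≫ mu2 R = mu2 R := by
  refine Alg.hom_ext (?_ : (OpsR_m2 R.R).comp (OpsR_e (Lau R.R)) = OpsR_m2 R.R)
  refine OpsR_ext2 (RingHom.ext fun r => ?_) ?_ ?_ <;>
  simp only [RingHom.comp_apply, OpsR_m2_B, OpsR_eB_A, OpsR_eB_B, OpsR_e_C, map_one]

theorem eA_swp (R : Alg F) : (lauF F).map (eT R) ≫ swp R = swp R ≫ eT ((lauF F).obj R) := by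
  refine Alg.hom_ext (?_ : (OpsR_sw R.R).comp (lauMap (OpsR_e R.R)) =
    (OpsR_e (Lau R.R)).comp (OpsR_sw R.R))
  refine OpsR_ext2 (RingHom.ext fun r => ?_) ?_ ?_ <;>
  simp only [RingHom.comp_apply, OpsR_sw_C, OpsR_sw_A, OpsR_sw_B, OpsR_eA_C, OpsR_eA_A, OpsR_eA_B,
    OpsR_eB_A, OpsR_eB_B, OpsR_e_C, map_one]

theorem eB_swp (R : Alg F) : eT ((lauF F).obj R) ≫ swp R = swp R ≫ (lauF F).map (eT R) := by
  refine Alg.hom_ext (?_ : (OpsR_sw R.R).comp (OpsR_e (Lau R.R)) =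
    (lauMap (OpsR_e R.R)).comp (OpsR_sw R.R))
  refine OpsR_ext2 (RingHom.ext fun r => ?_) ?_ ?_ <;>
  simp only [RingHom.comp_apply, OpsR_sw_C, OpsR_sw_A, OpsR_sw_B, OpsR_eA_C, OpsR_eA_A, OpsR_eA_B,
    OpsR_eB_A, OpsR_eB_B, OpsR_e_C, map_one]

theorem eA_eB (R : Alg F) :
    (lauF F).map (eT R) ≫ eT ((lauF F).obj R) = eT ((lauF F).obj R) ≫ (lauF F).map (eT R) := by
  refine Alg.hom_ext (?_ : (OpsR_e (Lau R.R)).comp (lauMap (OpsR_e R.R)) =
    (lauMap (OpsR_e R.R)).comp (OpsR_e (Lau R.R)))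
  refine OpsR_ext2 (RingHom.ext fun r => ?_) ?_ ?_ <;>
  simp only [RingHom.comp_apply, OpsR_eA_C, OpsR_eA_A, OpsR_eA_B,
    OpsR_eB_A, OpsR_eB_B, OpsR_e_C, map_one]

theorem eT_eT (R : Alg F) : eT R ≫ eT R = eT R := by
  rw [eT, Category.assoc, ← Category.assoc (cL R), cL_eL, Category.id_comp]

theorem eT_nat (η : R' ⟶ R) : (lauF F).map η ≫ eT R = eT R' ≫ (lauF F).map η := by
  rw [eT, eT, ← Category.assoc, eL_nat, Category.assoc, cL_nat, Category.assoc]

end Pool.Agent.KEW.L8
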