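import Pool.Agent.P.MP_6277db_ag.KEW.L8a.Cyl

/-!
KEW project, layer L8a: formal properties of the naive homotopy groups.
-/

set_option backward.isDefEq.respectTransparency false

noncomputable section

open CategoryTheory

namespace Pool.Agent.KEW.L8

universe v u v' u'

variable {D : Type u} [Category.{v} D] {L : Type 1} [CommRing L]

/-- `f` is surjective on the objects in `S`. -/
def SurjOn (S : D → Prop) {F G : Fn D L} (f : F ⟶ G) : Prop :=
  ∀ B, S B → Function.Surjective (f.app B)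

/-- `f` is injective on the objects in `S`. -/
def InjOn (S : D → Prop) {F G : Fn D L} (f : F ⟶ G) : Prop :=
  ∀ B, S B → Function.Injective (f.app B)

/-- `f` is bijective on the objects in `S`. -/
def BijOn (S : D → Prop) {F G : Fn D L} (f : F ⟶ G) : Prop :=
  ∀ B, S B → Function.Bijective (f.app B)

/-- The sequence `f, g` is exact on the objects in `S`. -/
def ExOn (S : D → Prop) {F G H : Fn D L} (f : F ⟶ G) (g : G ⟶ H) : Prop :=
  ∀ B, S B → Function.Exact (f.app B) (g.app B)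

namespace CylD

variable {c : CylD D} {S : D → Prop} {F G H K : Fn D L}

instance : (c.PP : Fn D L ⥤ _).Additive :=
  ⟨fn_ext fun _ _ => Subtype.ext rfl⟩

instance : (c.Om : Fn D L ⥤ _).Additive :=
  ⟨fn_ext fun _ _ => Subtype.ext (Subtype.ext rfl)⟩

instance : (c.pi0 : Fn D L ⥤ _).Additive :=
  ⟨fun {F G α β} => fn_ext fun B x => by
    obtain ⟨y, rfl⟩ := c.pr0_surj F B x
    exact map_add ((c.pr0 G).app B).hom (α.app B y) (β.app B y)⟩

instance (q : ℕ) : (c.OmN q : Fn D L ⥤ _).Additive := by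
  induction q with
  | zero => exact inferInstanceAs (𝟭 (Fn D L)).Additive
  | succ q ih => exact inferInstanceAs (c.Om ⋙ c.OmN q : Fn D L ⥤ _).Additive

instance (q : ℕ) : (c.piq q : Fn D L ⥤ _).Additive :=
  inferInstanceAs (c.OmN q ⋙ c.pi0 : Fn D L ⥤ _).Additive

theorem stab_top : c.Stab fun _ => True := fun _ _ => trivial

theorem prq_surj (q : ℕ) (F : Fn D L) (B : D) : Function.Surjective ((c.prq q F).app B) :=
  c.pr0_surj _ B

theorem prq_nat (q : ℕ) (α : F ⟶ G) :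
    c.prq q F ≫ (c.piq q).map α = (c.OmN q).map α ≫ c.prq q G := rfl

/-- `x ↦ x - p i1 x` retracts `F ∘ I` onto `PF`. -/
theorem PP_surjOn (hS : c.Stab S) {f : F ⟶ G} (h : SurjOn S f) : SurjOn S (c.PP.map f) := by
  intro B hB y
  obtain ⟨x, hx⟩ := h _ (hS B hB) ((c.Pι G).app B y)
  obtain ⟨z, hz⟩ := c.exists_Pι (x := x - F.map (c.p B) (F.map (c.i1 B) x)) (by
    rw [map_sub, map_map, c.p_i1, map_id', sub_self])
  refine ⟨z, c.Pι_inj G B ?_⟩
  rw [c.Pι_nat, hz, map_sub, nat_apply, nat_apply, hx, c.e1_Pι, map_zero, sub_zero]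

/-- `PΩF` is the kernel of `P(ev) : PPF ⟶ PF`, which is split by `mu` (`mu_out0`, `mu_out1`,
`mu_in1`), naturally in `F`. -/
theorem PP_Om_surjOn (hS : c.Stab S) {f : F ⟶ G} (h : SurjOn S f) :
    SurjOn S (c.PP.map (c.Om.map f)) := by
  intro B hB y
  obtain ⟨z, hz⟩ := PP_surjOn hS (PP_surjOn hS h) B hB ((c.PP.map (c.Oι G)).app B y)
  let w : F.obj (c.I.obj (c.I.obj B)) := z.1.1
  have h1 : F.map (c.i1 (c.I.obj B)) w = 0 := z.1.2
  have h2 : F.map (c.I.map (c.i1 B)) w = 0 := congrArg Subtype.val z.2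
  have h3 : F.map (c.i1 B) (F.map (c.i0 (c.I.obj B)) w) = 0 := by
    rw [map_map, ← c.i0_nat, ← map_map, h2, map_zero]
  have h4 : f.app _ w = y.1.1.1 := congrArg (fun t => t.1.1) hz
  have h5 : G.map (c.i0 (c.I.obj B)) y.1.1.1 = 0 := y.1.2
  refine ⟨⟨⟨⟨w - F.map (c.mu B) (F.map (c.i0 (c.I.obj B)) w), ?_⟩, ?_⟩,
    Subtype.ext (Subtype.ext ?_)⟩, Subtype.ext (Subtype.ext (Subtype.ext ?_))⟩
  · change F.map (c.i1 (c.I.obj B)) (w - _) = 0
    rw [map_sub, h1, map_map, c.mu_out1, ← map_map, h3, map_zero, sub_zero]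
  · change F.map (c.i0 (c.I.obj B)) (w - _) = 0
    rw [map_sub, map_map, c.mu_out0, map_id', sub_self]
  · change F.map (c.I.map (c.i1 B)) (w - _) = 0
    rw [map_sub, h2, map_map, c.mu_in1, ← map_map, h3, map_zero, sub_zero]
  · change f.app _ (w - _) = y.1.1.1
    rw [map_sub, nat_apply, nat_apply, h4, h5, map_zero, sub_zero]

theorem Om_injOn (hS : c.Stab S) {f : F ⟶ G} (h : InjOn S f) : InjOn S (c.Om.map f) :=
  fun B hB _ _ e => Subtype.ext (Subtype.ext (h _ (hS B hB) (congrArg (fun t => t.1.1) e)))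

theorem Om_exOn (hS : c.Stab S) {f : F ⟶ G} {g : G ⟶ H} (hf : InjOn S f) (h : ExOn S f g) :
    ExOn S (c.Om.map f) (c.Om.map g) := by
  intro B hB y
  constructor
  · intro hy
    obtain ⟨x, hx⟩ := (h _ (hS B hB) y.1.1).1 (congrArg (fun t => t.1.1) hy)
    refine ⟨⟨⟨x, hf B hB ?_⟩, hf B hB ?_⟩, Subtype.ext (Subtype.ext hx)⟩
    · exact (nat_apply f (c.i1 B) x).trans (by rw [hx, map_zero]; exact y.1.2)
    · exact (nat_apply f (c.i0 B) x).trans (by rw [hx, map_zero]; exact y.2)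
  · rintro ⟨x, rfl⟩
    exact Subtype.ext (Subtype.ext ((h _ (hS B hB) _).2 ⟨x.1.1, rfl⟩))

theorem Null.om (h : c.Null S K) : c.Null S (c.Om.obj K) := by
  intro q
  rw [← piq_succ_obj]
  exact h (q + 1)

theorem PiEq.om {f : F ⟶ G} (h : c.PiEq S f) : c.PiEq S (c.Om.map f) := by
  intro q B hB
  have := h (q + 1) B hB
  rw [piq_succ_map] at this
  exact this

theorem Pi_comp (T : Fn D L ⥤ Fn D L) (f : F ⟶ G) (g : G ⟶ H) (B : D) :
    ⇑((T.map (f ≫ g)).app B) = (T.map g).app B ∘ (T.map f).app B := by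
  rw [Functor.map_comp]
  rfl

theorem Pi_inj0 {f : F ⟶ G} {B : D}
    (h : ∀ x, (c.pr0 G).app B (f.app B x) = 0 → (c.pr0 F).app B x = 0) :
    Function.Injective ((c.pi0.map f).app B) :=
  (injective_iff_map_eq_zero _).2 fun x hx => by
    obtain ⟨y, rfl⟩ := c.pr0_surj F B x
    exact h y hx

theorem Pi_surj0 {f : F ⟶ G} {B : D}
    (h : ∀ y, ∃ x, (c.pr0 G).app B (f.app B x) = (c.pr0 G).app B y) :
    Function.Surjective ((c.pi0.map f).app B) := fun y => by
  obtain ⟨y, rfl⟩ := c.pr0_surj G B y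
  obtain ⟨x, hx⟩ := h y
  exact ⟨(c.pr0 F).app B x, hx⟩

theorem PiEq.comp {f : F ⟶ G} {g : G ⟶ H} (hf : c.PiEq S f) (hg : c.PiEq S g) :
    c.PiEq S (f ≫ g) := fun q B hB => by
  rw [Pi_comp]
  exact (hg q B hB).comp (hf q B hB)

theorem PiEq.cancel_left {f : F ⟶ G} {g : G ⟶ H} (hf : c.PiEq S f) (h : c.PiEq S (f ≫ g)) :
    c.PiEq S g := fun q B hB => by
  have h' := h q B hB
  rw [Pi_comp] at h'
  exact (Function.Bijective.of_comp_iff _ (hf q B hB)).1 h'

theorem PiEq.cancel_right {f : F ⟶ G} {g : G ⟶ H} (hg : c.PiEq S g) (h : c.PiEq S (f ≫ g)) :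
    c.PiEq S f := fun q B hB => by
  have h' := h q B hB
  rw [Pi_comp] at h'
  exact (Function.Bijective.of_comp_iff' (hg q B hB) _).1 h'

theorem PiEq.of_bijOn (hS : c.Stab S) {f : F ⟶ G} (h : BijOn S f) : c.PiEq S f := by
  intro q
  induction q generalizing F G with
  | zero =>
    intro B hB
    refine ⟨Pi_inj0 fun x hx => ?_, Pi_surj0 fun y => ?_⟩
    · obtain ⟨k, h1, h0⟩ := (c.pr0_eq_zero' _).1 hx
      obtain ⟨k, rfl⟩ := (h _ (hS B hB)).2 k
      exact (c.pr0_eq_zero' _).2 ⟨k, (h B hB).1 (by rw [nat_apply, h1, map_zero]),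
        (h B hB).1 (by rw [nat_apply, h0])⟩
    · obtain ⟨x, rfl⟩ := (h B hB).2 y
      exact ⟨x, rfl⟩
  | succ q ih =>
    rw [piq_succ_map]
    refine ih fun B hB => ⟨Om_injOn hS (fun B hB => (h B hB).1) B hB, fun y => ?_⟩
    obtain ⟨x, hx⟩ := (h _ (hS B hB)).2 y.1.1
    refine ⟨⟨⟨x, (h B hB).1 ?_⟩, (h B hB).1 ?_⟩, Subtype.ext (Subtype.ext hx)⟩
    · exact (nat_apply f (c.i1 B) x).trans (by rw [hx, map_zero]; exact y.1.2)
    · exact (nat_apply f (c.i0 B) x).trans (by rw [hx, map_zero]; exact y.2)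

/-- Retracts of equivalences are equivalences. -/
theorem PiEq.retract {F' G' : Fn D L} {f : F ⟶ G} {f' : F' ⟶ G'} (h : c.PiEq S f) (i : F' ⟶ F)
    (r : F ⟶ F') (j : G' ⟶ G) (s : G ⟶ G') (hi : i ≫ r = 𝟙 F') (hj : j ≫ s = 𝟙 G')
    (h1 : i ≫ f = f' ≫ j) (h2 : r ≫ f' = f ≫ s) : c.PiEq S f' := by
  intro q B hB
  have e : ∀ {X Y Z : Fn D L} (a : X ⟶ Y) (b : Y ⟶ Z) (x), ((c.piq q).map b).app B
      (((c.piq q).map a).app B x) = ((c.piq q).map (a ≫ b)).app B x := fun a b x =>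
    (congrFun (Pi_comp (c.piq q) a b B) x).symm
  have e' : ∀ (X : Fn D L) (x), ((c.piq q).map (𝟙 X)).app B x = x := fun X x => by
    rw [CategoryTheory.Functor.map_id]
    rfl
  constructor
  · intro x y hxy
    have h3 : ((c.piq q).map i).app B x = ((c.piq q).map i).app B y := (h q B hB).1 (by
      rw [e, e, h1, ← e, ← e, hxy])
    rw [← e' _ x, ← e' _ y, ← hi, ← e, ← e, h3]
  · intro y
    obtain ⟨x, hx⟩ := (h q B hB).2 (((c.piq q).map j).app B y)
    exact ⟨((c.piq q).map r).app B x, by rw [e, h2, ← e, hx, e, hj, e']⟩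

theorem Pi_ev (α : F ⟶ G) {B : D} (x : (c.PP.obj F).obj B) :
    (c.ev G).app B ((c.PP.map α).app B x) = α.app B ((c.ev F).app B x) :=
  (nat_apply α (c.i0 B) x.1).symm

theorem Pi_Om_surjOn (hS : c.Stab S) {g : G ⟶ K} (hg : SurjOn S g) (hK : c.Null S K) :
    SurjOn S (c.Om.map g) := by
  intro B hB y
  obtain ⟨z, rfl⟩ := (c.pr0_eq_zero _).1 (hK.om 0 B hB ((c.pr0 (c.Om.obj K)).app B y))
  obtain ⟨z, rfl⟩ := PP_Om_surjOn hS hg B hB z
  exact ⟨_, (Pi_ev _ z).symm⟩

/-- Induction on `q` for all sequences at once: `ΩG ⟶ ΩK` is onto because `π_1 K = 0` and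
`PΩG ⟶ PΩK` is onto; this gives injectivity on `π_0` and the exact sequence of loop objects. -/
theorem PiEq.of_null_coker (hS : c.Stab S) {f : F ⟶ G} {g : G ⟶ K} (hf : InjOn S f)
    (h : ExOn S f g) (hg : SurjOn S g) (hK : c.Null S K) : c.PiEq S f := by
  intro q
  induction q generalizing F G K with
  | zero =>
    intro B hB
    refine ⟨Pi_inj0 fun x hx => ?_, Pi_surj0 fun y => ?_⟩
    · obtain ⟨z, hz⟩ := (c.pr0_eq_zero _).1 hx
      obtain ⟨y, hy⟩ := c.exists_Oι (x := (c.PP.map g).app B z) (by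
        rw [Pi_ev, hz]
        exact (h B hB _).2 ⟨x, rfl⟩)
      obtain ⟨y, rfl⟩ := Pi_Om_surjOn hS hg hK B hB y
      obtain ⟨w, hw⟩ := (h _ (hS B hB) ((c.Pι G).app B (z - (c.Oι G).app B y))).1 (by
        rw [← c.Pι_nat, map_sub, ← hy, c.Oι_nat, sub_self, map_zero])
      refine (c.pr0_eq_zero' _).2 ⟨w, hf B hB ?_, hf B hB ?_⟩
      · rw [nat_apply, hw, c.e1_Pι, map_zero]
      · rw [nat_apply, hw, ← c.ev_apply, map_sub, c.ev_Oι, sub_zero, hz]
    · obtain ⟨z, hz⟩ := (c.pr0_eq_zero _).1 (hK 0 B hB ((c.pr0 K).app B (g.app B y)))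
      obtain ⟨z, rfl⟩ := PP_surjOn hS hg B hB z
      obtain ⟨w, hw⟩ := (h B hB (y - (c.ev G).app B z)).1 (by
        rw [map_sub, ← Pi_ev, hz, sub_self])
      exact ⟨w, by rw [hw, map_sub, (c.pr0_eq_zero _).2 ⟨z, rfl⟩, sub_zero]⟩
  | succ q ih =>
    rw [piq_succ_map]
    exact ih (Om_injOn hS hf) (Om_exOn hS hf h) (Pi_Om_surjOn hS hg hK) hK.om

/-- Schanuel: apply `of_null_coker` to `0 → F → G ⊞ F' → G' → 0` and to
`0 → F' → G ⊞ F' → G → 0` (any elementwise model of the sum will do). -/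
theorem PiEq.schanuel (hS : c.Stab S) {F' G' : Fn D L} {f : F ⟶ G} {g : G ⟶ K} {f' : F' ⟶ G'}
    {g' : G' ⟶ K} (a : F ⟶ F') (b : G ⟶ G') (h1 : f ≫ b = a ≫ f') (h2 : b ≫ g' = g)
    (hf : InjOn S f) (h : ExOn S f g) (hg : SurjOn S g) (hf' : InjOn S f') (h' : ExOn S f' g')
    (hG : c.Null S G) (hG' : c.Null S G') : c.PiEq S a := by
  let P : Fn D L :=
    { obj := fun B => ModuleCat.of L (G.obj B × F'.obj B)
      map := fun φ => ModuleCat.ofHom ((G.map φ).hom.prodMap (F'.map φ).hom)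
      map_id := fun B => ModuleCat.hom_ext (LinearMap.ext fun x =>
        Prod.ext (map_id' G B x.1) (map_id' F' B x.2))
      map_comp := fun φ ψ => ModuleCat.hom_ext (LinearMap.ext fun x =>
        Prod.ext (map_map G φ ψ x.1).symm (map_map F' φ ψ x.2).symm) }
  let k : F ⟶ P :=
    { app := fun B => ModuleCat.ofHom ((f.app B).hom.prod (a.app B).hom)
      naturality := fun _ _ φ => ModuleCat.hom_ext (LinearMap.ext fun x =>
        Prod.ext (nat_apply f φ x) (nat_apply a φ x)) }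
  let l : P ⟶ G' :=
    { app := fun B => ModuleCat.ofHom ((b.app B).hom.coprod (-(f'.app B).hom))
      naturality := fun _ _ φ => ModuleCat.hom_ext (LinearMap.ext fun x => by
        change b.app _ (G.map φ x.1) + -f'.app _ (F'.map φ x.2) =
          G'.map φ (b.app _ x.1 + -f'.app _ x.2)
        rw [nat_apply, nat_apply, map_add, map_neg]) }
  let i₂ : F' ⟶ P :=
    { app := fun B => ModuleCat.ofHom (LinearMap.inr L (G.obj B) (F'.obj B))
      naturality := fun _ _ φ => ModuleCat.hom_ext (LinearMap.ext fun x =>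
        Prod.ext (map_zero (G.map φ).hom).symm rfl) }
  let p₁ : P ⟶ G := { app := fun B => ModuleCat.ofHom (LinearMap.fst L (G.obj B) (F'.obj B)) }
  let p₂ : P ⟶ F' := { app := fun B => ModuleCat.ofHom (LinearMap.snd L (G.obj B) (F'.obj B)) }
  have e1 : ∀ B x, b.app B (f.app B x) = f'.app B (a.app B x) := fun B x =>
    congrArg (fun t => t.app B x) h1
  have e2 : ∀ B x, g'.app B (b.app B x) = g.app B x := fun B x => congrArg (fun t => t.app B x) h2
  have hk : c.PiEq S k := by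
    refine PiEq.of_null_coker hS (g := l) (fun B hB x y e => hf B hB (congrArg Prod.fst e))
      (fun B hB y => ⟨fun hy => ?_, ?_⟩) (fun B hB y => ?_) hG'
    · have h3 : b.app B y.1 = f'.app B y.2 := add_neg_eq_zero.1 hy
      obtain ⟨x, hx⟩ := (h B hB y.1).1 (by rw [← e2, h3]; exact (h' B hB _).2 ⟨_, rfl⟩)
      exact ⟨x, Prod.ext hx (hf' B hB (((e1 B x).symm.trans (congrArg _ hx)).trans h3))⟩
    · rintro ⟨x, rfl⟩
      exact add_neg_eq_zero.2 (e1 B x)
    · obtain ⟨z, hz⟩ := hg B hB (g'.app B y)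
      obtain ⟨x, hx⟩ := (h' B hB (b.app B z - y)).1 (by rw [map_sub, e2, hz, sub_self])
      refine ⟨(z, x), ?_⟩
      change b.app B z + -f'.app B x = y
      rw [hx]
      abel
  have hi : c.PiEq S i₂ := by
    refine PiEq.of_null_coker hS (g := p₁) (fun B _ x y e => congrArg Prod.snd e)
      (fun B _ y => ⟨fun hy => ⟨y.2, Prod.ext hy.symm rfl⟩, ?_⟩) (fun B _ y => ⟨(y, 0), rfl⟩) hG
    rintro ⟨x, rfl⟩
    rfl
  exact hk.comp (g := p₂) (hi.cancel_left
    (PiEq.of_bijOn hS fun B _ => Function.bijective_id))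

theorem contr_PP (F : Fn D L) : c.Contr (c.PP.obj F) := by
  refine ⟨{ app := fun B => ModuleCat.ofHom (((F.map (c.mu B)).hom ∘ₗ ((c.Pι F).app B).hom).codRestrict
              ((kerS (c.e1 F)).N (c.I.obj B)) fun x => ?_)
            naturality := fun B B' φ => ModuleCat.hom_ext (LinearMap.ext fun x => Subtype.ext ?_) },
    fn_ext fun B x => Subtype.ext ?_, fn_ext fun B x => Subtype.ext ?_⟩
  · change F.map (c.i1 (c.I.obj B)) (F.map (c.mu B) ((c.Pι F).app B x)) = 0
    rw [map_map, c.mu_out1, ← map_map, c.e1_Pι, map_zero]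
  · change F.map (c.mu B') (F.map (c.I.map φ) x.1) =
      F.map (c.I.map (c.I.map φ)) (F.map (c.mu B) x.1)
    rw [map_map, map_map, c.mu_nat]
  · change F.map (c.I.map (c.i0 B)) (F.map (c.mu B) x.1) = x.1
    rw [map_map, c.mu_in0, map_id']
  · change F.map (c.I.map (c.i1 B)) (F.map (c.mu B) ((c.Pι F).app B x)) = 0
    rw [map_map, c.mu_in1, ← map_map, c.e1_Pι, map_zero]

/-- Conjugate the contraction by `sw`. -/
theorem Contr.om (h : c.Contr K) : c.Contr (c.Om.obj K) := by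
  obtain ⟨h, h0, h1⟩ := h
  have hn : ∀ {B B' : D} (φ : B ⟶ B') (x : K.obj B),
      K.map (c.I.map φ) (h.app B x) = h.app B' (K.map φ x) := fun φ x => (nat_apply h φ x).symm
  refine ⟨{ app := fun B => ModuleCat.ofHom ((((K.map (c.sw B)).hom ∘ₗ (h.app (c.I.obj B)).hom ∘ₗ
              ((c.Oι K ≫ c.Pι K).app B).hom).codRestrict ((kerS (c.e1 K)).N (c.I.obj B))
              fun x => ?_).codRestrict ((kerS (c.ev K)).N (c.I.obj B)) fun x => ?_)
            naturality := fun B B' φ => ModuleCat.hom_ext (LinearMap.ext fun x =>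
              Subtype.ext (Subtype.ext ?_)) },
    fn_ext fun B x => Subtype.ext (Subtype.ext ?_), fn_ext fun B x => Subtype.ext (Subtype.ext ?_)⟩
  · change K.map (c.i1 (c.I.obj B)) (K.map (c.sw B) (h.app (c.I.obj B) x.1.1)) = 0
    rw [map_map, c.sw_out1, hn, show K.map (c.i1 B) x.1.1 = 0 from x.1.2, map_zero]
  · change K.map (c.i0 (c.I.obj B)) (K.map (c.sw B) (h.app (c.I.obj B) x.1.1)) = 0
    rw [map_map, c.sw_out0, hn, show K.map (c.i0 B) x.1.1 = 0 from x.2, map_zero]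
  · change K.map (c.sw B') (h.app (c.I.obj B') (K.map (c.I.map φ) x.1.1)) =
      K.map (c.I.map (c.I.map φ)) (K.map (c.sw B) (h.app (c.I.obj B) x.1.1))
    rw [← hn, map_map, map_map, c.sw_nat]
  · change K.map (c.I.map (c.i0 B)) (K.map (c.sw B) (h.app (c.I.obj B) x.1.1)) = x.1.1
    rw [map_map, c.sw_in0]
    exact congrArg (fun t => t.app (c.I.obj B) x.1.1) h0
  · change K.map (c.I.map (c.i1 B)) (K.map (c.sw B) (h.app (c.I.obj B) x.1.1)) = 0
    rw [map_map, c.sw_in1]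
    exact congrArg (fun t => t.app (c.I.obj B) x.1.1) h1

theorem Contr.null (h : c.Contr K) : c.Null S K := by
  intro q
  induction q generalizing K with
  | zero =>
    intro B _ x
    obtain ⟨h, h0, h1⟩ := h
    obtain ⟨y, rfl⟩ := c.pr0_surj K B x
    exact (c.pr0_eq_zero' y).2 ⟨h.app B y, congrArg (fun t => t.app B y) h1,
      congrArg (fun t => t.app B y) h0⟩
  | succ q ih =>
    rw [piq_succ_obj]
    exact ih h.om

theorem inv_pi0 (F : Fn D L) : c.Inv S (c.pi0.obj F) := by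
  intro B _ y
  obtain ⟨y, rfl⟩ := c.pr0_surj F _ y
  refine ⟨(c.pr0 F).app B (F.map (c.i1 B) y), ?_⟩
  rw [← nat_apply, eq_comm, ← sub_eq_zero, ← map_sub, c.pr0_eq_zero']
  refine ⟨F.map (c.mu B) y - F.map (c.p (c.I.obj B)) (F.map (c.p B) (F.map (c.i1 B) y)), ?_, ?_⟩
  · rw [map_sub, map_map F (c.mu B), c.mu_out1, map_map F (c.p (c.I.obj B)), c.p_i1, map_id',
      map_map, sub_self]
  · rw [map_sub, map_map F (c.mu B), c.mu_out0, map_map F (c.p (c.I.obj B)), c.p_i0, map_id',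
      map_id']

theorem inv_piq (q : ℕ) (F : Fn D L) : c.Inv S ((c.piq q).obj F) := inv_pi0 _

theorem Inv.e0_eq_e1 (h : c.Inv S G) {B : D} (hB : S B) (x : G.obj (c.I.obj B)) :
    G.map (c.i0 B) x = G.map (c.i1 B) x := by
  obtain ⟨y, rfl⟩ := h B hB x
  rw [map_map, map_map, c.p_i0, c.p_i1]

/-- The kernel of a split epimorphism is preserved by the homotopy groups. -/
theorem piq_split (q : ℕ) {f : F ⟶ G} {g : G ⟶ H} (s : H ⟶ G) (hs : s ≫ g = 𝟙 H)
    (hf : InjOn (fun _ => True) f) (h : ExOn (fun _ => True) f g) :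
    InjOn (fun _ => True) ((c.piq q).map f) ∧
      ExOn (fun _ => True) ((c.piq q).map f) ((c.piq q).map g) := by
  have hm : ∀ B y, y - s.app B (g.app B y) ∈ LinearMap.range (f.app B).hom := fun B y =>
    (h B trivial _).1 (by
      rw [map_sub, show g.app B (s.app B (g.app B y)) = g.app B y from
        congrArg (fun t => t.app B (g.app B y)) hs, sub_self])
  let ρ : ∀ B, G.obj B →ₗ[L] F.obj B := fun B =>
    (LinearEquiv.ofInjective (f.app B).hom (hf B trivial)).symm.toLinearMap ∘ₗ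
      (LinearMap.id - (s.app B).hom ∘ₗ (g.app B).hom).codRestrict _ (hm B)
  have hρ : ∀ B y, f.app B (ρ B y) = y - s.app B (g.app B y) := fun B y =>
    LinearEquiv.ofInjective_symm_apply (f.app B).hom (h := hf B trivial) _
  let r : G ⟶ F :=
    { app := fun B => ModuleCat.ofHom (ρ B)
      naturality := fun B B' φ => ModuleCat.hom_ext (LinearMap.ext fun y => hf B' trivial (by
        change f.app B' (ρ B' (G.map φ y)) = f.app B' (F.map φ (ρ B y))
        rw [nat_apply f, hρ, hρ, map_sub, nat_apply, nat_apply])) }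
  have h0 : f ≫ g = 0 := fn_ext fun B x => (h B trivial _).2 ⟨x, rfl⟩
  have h1 : f ≫ r = 𝟙 F := fn_ext fun B x => hf B trivial (by
    change f.app B (ρ B (f.app B x)) = f.app B x
    rw [hρ, (h B trivial _).2 ⟨x, rfl⟩, map_zero, sub_zero])
  have h2 : r ≫ f + g ≫ s = 𝟙 G := fn_ext fun B y => by
    change f.app B (ρ B y) + s.app B (g.app B y) = y
    rw [hρ, sub_add_cancel]
  have k0 := congrArg (c.piq q).map h0
  have k1 := congrArg (c.piq q).map h1
  have k2 := congrArg (c.piq q).map h2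
  rw [Functor.map_comp, Functor.map_zero] at k0
  rw [Functor.map_comp, CategoryTheory.Functor.map_id] at k1
  rw [Functor.map_add, Functor.map_comp, Functor.map_comp, CategoryTheory.Functor.map_id] at k2
  generalize (c.piq q).map f = f' at *
  generalize (c.piq q).map g = g' at *
  generalize (c.piq q).map r = r' at *
  generalize (c.piq q).map s = s' at *
  refine ⟨fun B _ => Function.LeftInverse.injective (g := r'.app B)
    fun x => congrArg (fun t => t.app B x) k1, fun B _ y => ⟨fun hy => ⟨r'.app B y, ?_⟩, ?_⟩⟩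
  · have k3 : f'.app B (r'.app B y) + s'.app B (g'.app B y) = y := congrArg (fun t => t.app B y) k2
    rwa [hy, map_zero, add_zero] at k3
  · rintro ⟨x, rfl⟩
    exact congrArg (fun t => t.app B x) k0

end CylD

end Pool.Agent.KEW.L8
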