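import Pool.Agent.P.MP_6277db_ag.KEW.L8a.RhoB
import Pool.Agent.P.MP_6277db_ag.KEW.L8a.GOps
import Pool.Agent.P.MP_6277db_ag.KEW.L8a.Fin

/-!
KEW project, layer L8a: the operation `ρ_n` on germs over annuli, as a relation.
-/

set_option backward.isDefEq.respectTransparency false

noncomputable section

open CategoryTheory Polynomial

namespace Pool.Agent.KEW.L8

open _root_.KEW

variable {A F : Type} [CommRing A] [Field F] {φ : A →+* F} {m : ℕ} (π : A) {π' : A}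
  (G : Germ π' (Lm m)) (N n : ℕ) {T T0 : Alg A} {R : Alg F}

/-- `w = ρ_n v`. -/
def RG (T : Alg A) (v : (NN φ m G ((lauF F).obj R)).obj ((RN π N).obj T))
    (w : (NN φ m G R).obj T) : Prop :=
  ∃ (T' E : Alg A) (ρ : T ⟶ T') (f : (RN π N).obj T ⟶ E) (τ : T' ⟶ E) (hρ : IsEE π' ρ)
    (hf : IsEE π' f) (c : ZZ φ m E ((lauF F).obj R)) (d : ZZ φ m T' R),
    ρ ≫ τ = rnC π N T ≫ f ∧ IsRho π n τ (f.1 (rnU π N T)) c d ∧ v = gm G f hf c ∧ w = gm G ρ hρ d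

variable {π n} (hb : Bs π φ m) (hR : R.s.FiniteType)

/-- The suspension on the model of the annulus. -/
def sgL (T : Alg A) (x : (NN φ m G R).obj T) :
    (NN φ m G ((lauF F).obj R)).obj ((RN π N).obj T) :=
  sigG G hb (rnU_GU π N T) 1 ((NN φ m G R).map (rnC π N T) x) -
    sigG G hb (GU.one _) 0 ((NN φ m G R).map (rnC π N T) x)

variable {G N} {v v' : (NN φ m G ((lauF F).obj R)).obj ((RN π N).obj T)}
  {w w' : (NN φ m G R).obj T}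

section refine

variable {T' T1 E E1 : Alg A} {τ : T' ⟶ E} {τ1 : T1 ⟶ E1} {g : T' ⟶ T1} {j : E ⟶ E1}

/-- `E1 / (J E1 + π') = E / (J + π')`. -/
theorem finMod_sup_of_ee (hj : IsEE π' j) (w : g ≫ τ1 = τ ≫ j) {J : Ideal E.R}
    (h : FinMod τ.1 (J ⊔ Ideal.span {E.s π'})) :
    FinMod τ1.1 (J.map j.1 ⊔ Ideal.span {E1.s π'}) := by
  have hle : J ⊔ Ideal.span {E.s π'} ≤ (J.map j.1 ⊔ Ideal.span {E1.s π'}).comap j.1 := by
    rw [← Ideal.map_le_iff_le_comap, Ideal.map_sup, map_span_s]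
  have hs : Function.Surjective (Ideal.quotientMap _ j.1 hle) := fun y => by
    obtain ⟨y, rfl⟩ := Ideal.Quotient.mk_surjective y
    obtain ⟨x, hx⟩ := hj.surj y
    rw [map_span_s] at hx
    exact ⟨Ideal.Quotient.mk _ x, (Ideal.Quotient.eq.2 (Ideal.mem_sup_right hx)).symm⟩
  have h1 := (RingHom.Finite.of_surjective _ hs).comp h
  rw [← RingHom.comp_assoc, Ideal.quotientMap_comp_mk, RingHom.comp_assoc, ← Alg.comp_val, ← w,
    Alg.comp_val, ← RingHom.comp_assoc] at h1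
  exact h1.of_comp_finite

/-- `FP'` for `Alg`. -/
theorem exists_finMod (hτ : τ.1.FiniteType) {J : Ideal E.R}
    (h : FinMod τ.1 (J ⊔ Ideal.span {E.s π'})) :
    ∃ (T1 E1 : Alg A) (g : T' ⟶ T1) (j : E ⟶ E1) (τ1 : T1 ⟶ E1), IsEE π' g ∧ IsEE π' j ∧
      g ≫ τ1 = τ ≫ j ∧ FinMod τ1.1 (J.map j.1) := by
  obtain ⟨R', _, ρ, Y', _, ξ, φ', h1, h2, h3, h4⟩ :=
    FP' hτ (Ideal.span {T'.s π'}) J (by rwa [map_span_s])
  rw [map_span_s] at h3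
  exact ⟨T'.under ρ, E.under ξ, T'.toUnder ρ, E.toUnder ξ,
    ⟨φ', by rw [← RingHom.comp_assoc, ← h2, RingHom.comp_assoc, τ.2]⟩, h1, h3,
    Alg.hom_ext h2.symm, h4⟩

include hb hR in
/-- Refinement does not change the germ (`IsRho.of_po` for the pushout `P` of `τ` and `g`, then
`IsRho.ee_eq` for `P ⟶ E1`, which is `EE` by `IsEE.cancel`). -/
theorem gm_rho_refine {u : E.R} {c : ZZ φ m E ((lauF F).obj R)} {d : ZZ φ m T' R}
    (h : IsRho π n τ u c d) (hg : IsEE π' g) (hj : IsEE π' j) (w : g ≫ τ1 = τ ≫ j)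
    {d1 : ZZ φ m T1 R} (h1 : IsRho π n τ1 (j.1 u) (pullZ j c) d1) {ρ : T ⟶ T'} (hρ : IsEE π' ρ) :
    gm G (ρ ≫ g) (hρ.comp hg) d1 = gm G ρ hρ d := by
  obtain ⟨P, k, τ0, po⟩ := Alg.exists_po τ g
  obtain ⟨ε, e1, e2⟩ := Alg.po_lift po j τ1 w.symm
  subst e1
  obtain ⟨T2, l, hl, e⟩ := (h.of_po hb hR po).ee_eq hb hR ((hg.of_po po.flip).cancel hj) e2.symm
    (by rwa [pullZ_pullZ])
  rw [← gm_comp G (hρ.comp hg) l ((hρ.comp hg).comp hl) rfl, e,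
    gm_comp G (hρ.comp hg) l ((hρ.comp hg).comp hl) rfl, gm_comp G hρ g (hρ.comp hg) rfl]

theorem RG_ft {ρ : T ⟶ T'} {f : (RN π N).obj T ⟶ E} (hf : IsEE π' f)
    (w : ρ ≫ τ = rnC π N T ≫ f) : τ.1.FiniteType :=
  RingHom.FiniteType.of_comp_finiteType (f := ρ.1) (by
    rw [← Alg.comp_val, w]
    exact (etale_finiteType hf.etale).comp (rnC_finiteType π N T))

theorem RG_inf (hτ : τ.1.FiniteType) {J J' I : Ideal E.R} (h : FinMod τ.1 (J ⊔ I))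
    (h' : FinMod τ.1 (J' ⊔ I)) : FinMod τ.1 (J ⊓ J' ⊔ I) := by
  refine finMod_of_val hτ _ fun K _ O x hx hO => ?_
  have h0 : J ⊓ J' ⊔ I ≤ RingHom.ker x := hx
  rcases (RingHom.ker_isPrime x).inf_le.1 (le_sup_left.trans h0) with h1 | h1
  · exact h.mem O x (sup_le h1 (le_sup_right.trans h0)) hO
  · exact h'.mem O x (sup_le h1 (le_sup_right.trans h0)) hO

theorem RG_sig {a a' : E.R} (ha : GU π a) (ha' : GU π a') (e : a = a') (k : ℕ) (c : ZZ φ m E R) :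
    sig hb ha k c = sig hb ha' k c := by
  subst e
  rfl

include hb hR in
theorem RG_ref {ρ : T ⟶ T'} {f : (RN π N).obj T ⟶ E} (hρ : IsEE π' ρ) (hf : IsEE π' f)
    {c : ZZ φ m E ((lauF F).obj R)} {d : ZZ φ m T' R} (w0 : ρ ≫ τ = rnC π N T ≫ f)
    (h : IsRho π n τ (f.1 (rnU π N T)) c d) (hg : IsEE π' g) (hj : IsEE π' j)
    (w : g ≫ τ1 = τ ≫ j) {J : Ideal E1.R} (hJ : FinMod τ1.1 J)
    (hV : Van π n (j.1 (f.1 (rnU π N T))) (pullZ j c) J) {ρ1 : T ⟶ T1} (hρ1 : IsEE π' ρ1)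
    (e : ρ ≫ g = ρ1) {f1 : (RN π N).obj T ⟶ E1} (hf1 : IsEE π' f1) (e' : f ≫ j = f1) :
    ∃ d1, IsRho π n τ1 (f1.1 (rnU π N T)) (pullZ j c) d1 ∧ gm G ρ1 hρ1 d1 = gm G ρ hρ d ∧
      gm G f1 hf1 (pullZ j c) = gm G f hf c ∧ ρ1 ≫ τ1 = rnC π N T ≫ f1 := by
  subst e e'
  have w1 : (ρ ≫ g) ≫ τ1 = rnC π N T ≫ f ≫ j := by rw [Category.assoc, w, reassoc_of% w0]
  obtain ⟨d1, h1⟩ := exists_rho hb hR (c := pullZ j c)
    ⟨RG_ft hf1 w1, gEt_rn π N hf1.etale hρ1.etale w1, J, hJ, hV⟩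
  exact ⟨d1, h1, gm_rho_refine hb hR h hg hj w h1 hρ, gm_comp G hf j hf1 rfl c, w1⟩

end refine

include hb hR

/-- `exists_carrier`, `fin_main`, `exists_finMod`, `gEt_rn`, `exists_rho`. -/
theorem RG.ex (hπ : π' = π ∨ π' = 0) (v : (NN φ m G ((lauF F).obj R)).obj ((RN π N).obj T)) :
    ∃ n0 : ℕ, ∀ n, n0 ≤ n → ∃ w, RG π G N n T v w := by
  obtain ⟨E, f, hf, c, rfl⟩ := gm_surj G v
  obtain ⟨S, _, i, k, hik, hint, hpt⟩ := exists_carrier hb c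
  have hu : IsUnit (i (E.s π)) :=
    (RingHom.congr_fun hik π).symm ▸ hb.ne.isUnit.map (k.comp ((lauF F).obj R).s)
  obtain ⟨n0, H⟩ := fin_main hπ hf i hint hu ((isUnit_lauL_X R.R).map k)
  refine ⟨n0, fun n hn => ?_⟩
  obtain ⟨T1, E1, g, j, τ1, hg, hj, w, hJ⟩ :=
    exists_finMod (RG_ft (ρ := 𝟙 T) hf (Category.id_comp _)) (H n hn)
  have hV : Van π n (f.1 (rnU π N T)) c ((Ideal.span
      {i (f.1 (rnU π N T)) ^ n - i (E.s π) ^ n * k (lauL R.R X)}).comap i) := by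
    rintro K _ _ z ⟨y, h1, h2⟩ a ha
    obtain ⟨z', rfl, rfl⟩ := hpt K z y h1
    obtain ⟨s, hs⟩ := Ideal.mem_span_singleton'.1 ha
    rw [RingHom.comp_apply, ← hs, map_mul, map_sub, map_mul, map_pow, map_pow]
    exact mul_eq_zero_of_right _ (sub_eq_zero.2 h2)
  rw [Category.assoc] at w
  obtain ⟨d, hd⟩ := exists_rho hb hR (c := pullZ j c) ⟨RG_ft (hf.comp hj) w,
    gEt_rn π N (hf.comp hj).etale hg.etale w, _, hJ, hV.pull j⟩
  exact ⟨_, T1, E1, g, f ≫ j, τ1, hg, hf.comp hj, _, d, w, hd, (gm_comp G hf j _ rfl c).symm, rfl⟩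

/-- Common refinement by pushouts, `finMod_sup_of_ee`, `finMod_inf`, `exists_finMod`. -/
theorem RG.add (h : RG π G N n T v w) (h' : RG π G N n T v' w') :
    RG π G N n T (v + v') (w + w') := by
  obtain ⟨T1, E1, ρ1, f1, τ1, hρ1, hf1, c1, d1, w1, h1, rfl, rfl⟩ := h
  obtain ⟨T2, E2, ρ2, f2, τ2, hρ2, hf2, c2, d2, w2, h2, rfl, rfl⟩ := h'
  obtain ⟨P, i1, i2, po⟩ := Alg.exists_po ρ1 ρ2
  obtain ⟨Q, k1, k2, po'⟩ := Alg.exists_po f1 f2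
  obtain ⟨τ, e1, e2⟩ := Alg.po_lift po (τ1 ≫ k1) (τ2 ≫ k2) (by
    rw [reassoc_of% w1, reassoc_of% w2, Alg.po_comm po'])
  obtain ⟨J1, a1, b1⟩ := h1.ok.adm
  obtain ⟨J2, a2, b2⟩ := h2.ok.adm
  have hi1 := hρ2.of_po po.flip
  have hi2 := hρ1.of_po po
  have hk1 := hf2.of_po po'.flip
  have hk2 := hf1.of_po po'
  have ft : τ.1.FiniteType := RG_ft (ρ := ρ1 ≫ i1) (hf1.comp hk1) (by
    rw [Category.assoc, e1, reassoc_of% w1])
  obtain ⟨T3, E3, g, j, τ3, hg, hj, w, hJ⟩ := exists_finMod ft (RG_inf ft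
    (finMod_sup_of_ee hk1 e1 (a1.mono le_sup_left)) (finMod_sup_of_ee hk2 e2 (a2.mono le_sup_left)))
  obtain ⟨d1', p1, q1, r1, s1⟩ := RG_ref (G := G) hb hR hρ1 hf1 w1 h1 (hi1.comp hg) (hk1.comp hj)
    (by rw [Category.assoc, w, reassoc_of% e1]) hJ
    (pullZ_pullZ k1 j c1 ▸ ((b1.pull k1).mono inf_le_left).pull j) (hρ1.comp (hi1.comp hg)) rfl
    (hf1.comp (hk1.comp hj)) rfl
  obtain ⟨d2', p2, q2, r2, -⟩ := RG_ref (G := G) hb hR hρ2 hf2 w2 h2 (hi2.comp hg) (hk2.comp hj)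
    (by rw [Category.assoc, w, reassoc_of% e2]) hJ
    (pullZ_pullZ k2 j c2 ▸ ((b2.pull k2).mono inf_le_right).pull j) (hρ1.comp (hi1.comp hg))
    (by rw [reassoc_of% Alg.po_comm po]) (hf1.comp (hk1.comp hj))
    (by rw [reassoc_of% Alg.po_comm po'])
  exact ⟨T3, E3, _, _, τ3, _, _, _, _, s1, p1.add hb hR p2, by rw [map_add, r1, r2],
    by rw [map_add, q1, q2]⟩

theorem RG.neg (h : RG π G N n T v w) : RG π G N n T (-v) (-w) := by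
  obtain ⟨T1, E1, ρ1, f1, τ1, hρ1, hf1, c1, d1, w1, h1, rfl, rfl⟩ := h
  exact ⟨T1, E1, ρ1, f1, τ1, hρ1, hf1, _, _, w1, h1.neg hb hR, (map_neg _ _).symm,
    (map_neg _ _).symm⟩

/-- `gm_eq_zero`, `Van.of_nsmul` (`m ≠ 0` by `hb.char`), `IsRho.nsmul`, `gm_nsmul`. -/
theorem RG.zero (h : RG π G N n T (0 : (NN φ m G ((lauF F).obj R)).obj _) w) : w = 0 := by
  obtain ⟨T1, E1, ρ, f, τ, hρ, hf, c, d, w1, h1, e, rfl⟩ := h
  obtain ⟨E2, j, d0, hj, e0⟩ := gm_eq_zero G e.symm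
  obtain ⟨J, a, b⟩ := h1.ok.adm
  obtain ⟨T3, E3, g, j', τ3, hg, hj', w, hJ⟩ := exists_finMod (τ := τ ≫ j)
    (RG_ft (ρ := ρ) (hf.comp hj) (by rw [reassoc_of% w1]))
    (finMod_sup_of_ee hj (Category.id_comp _) (a.mono le_sup_left))
  have hV := (b.pull j).pull j'
  obtain ⟨d1, p, q, -, -⟩ := RG_ref (G := G) hb hR hρ hf w1 h1 hg (hj.comp hj')
    (by rw [w, Category.assoc]) hJ (pullZ_pullZ j j' c ▸ hV) (hρ.comp hg) rfl
    (hf.comp (hj.comp hj')) rfl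
  rw [← e0, map_nsmul] at hV
  rw [← pullZ_pullZ, ← e0, map_nsmul] at p
  obtain ⟨d2, h2⟩ := exists_rho hb hR (c := pullZ j' d0) ⟨p.ok.ft, p.ok.get, _, hJ,
    hV.of_nsmul fun h => hb.char (by rw [h, Nat.cast_zero])⟩
  rw [← q, p.unique (h2.nsmul hb hR m), gm_nsmul]

theorem RG.sub (h : RG π G N n T v w) (h' : RG π G N n T v' w') :
    RG π G N n T (v - v') (w - w') := by
  rw [sub_eq_add_neg, sub_eq_add_neg]
  exact h.add hb hR (h'.neg hb hR)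

theorem RG.unique (h : RG π G N n T v w) (h' : RG π G N n T v w') : w = w' := by
  have := h.sub hb hR h'
  rw [sub_self] at this
  exact sub_eq_zero.1 (this.zero hb hR)

/-- `IsRho.bc`, `rn_bc_finMod`, `rn_bc_point`. -/
theorem RG.map (h : RG π G N n T v w) (g : T ⟶ T0) :
    RG π G N n T0 ((NN φ m G _).map ((RN π N).map g) v) ((NN φ m G R).map g w) := by
  obtain ⟨T1, E, ρ, f, τ, hρ, hf, c, d, w1, h1, rfl, rfl⟩ := h
  obtain ⟨E0, k, f0, po⟩ := Alg.exists_po f ((RN π N).map g)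
  obtain ⟨T0', g', ρ0, po'⟩ := Alg.exists_po ρ g
  obtain ⟨τ0, e1, e2⟩ := Alg.po_lift po' (τ ≫ k) (rnC π N T0 ≫ f0) (by
    rw [reassoc_of% w1, Alg.po_comm po, reassoc_of% rnC_nat π N g])
  have e : k.1 (f.1 (rnU π N T)) = f0.1 (rnU π N T0) := by
    rw [← map_rnU π N g]
    exact po.comm_apply _
  have h2 := h1.bc hb hR e1 (RG_ft (hf.of_po po) e2)
    (e ▸ gEt_rn π N (hf.of_po po).etale (hρ.of_po po').etale e2)
    (fun J hJ => rn_bc_finMod π N w1 po po' e1 e2 hJ)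
    fun K _ x hx z hz => rn_bc_point π N w1 po po' e1 e2 x hx z hz
  rw [e] at h2
  exact ⟨T0', E0, ρ0, f0, τ0, hρ.of_po po', hf.of_po po, _, _, e2, h2,
    map_gm G hf _ _ k (Alg.po_comm po) c, map_gm G hρ _ g g' (Alg.po_comm po') d⟩

/-- Take `E = RN T'`; `isRho_sig_u`, `isRho_sig_one`. -/
theorem RG.sg (hn : 2 ≤ n) (x : (NN φ m G R).obj T) : RG π G N n T (sgL G N hb T x) (-x) := by
  obtain ⟨T', ρ, hρ, c0, rfl⟩ := gm_surj G x
  have h := (isRho_sig_u hb hR N hn c0).add hb hR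
    ((isRho_sig_one hb hR N (by omega : 1 ≤ n) c0).neg hb hR)
  have e : (n - 1) • c0 + -(n • c0) = -c0 := by
    obtain ⟨k, rfl⟩ : ∃ k, n = k + 1 := ⟨n - 1, by omega⟩
    rw [Nat.add_sub_cancel, succ_nsmul]
    abel
  rw [e] at h
  refine ⟨T', _, ρ, (RN π N).map ρ, rnC π N T', hρ, hρ.RN π N, _, _, rnC_nat π N ρ,
    by rw [map_rnU]; exact h, ?_, (map_neg _ _).symm⟩
  rw [sgL, map_gm G hρ (hρ.RN π N) _ _ (rnC_nat π N ρ), sigG_gm, sigG_gm, map_add, map_neg,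
    sub_eq_add_neg, RG_sig hb _ (rnU_GU π N T') (map_rnU π N ρ),
    RG_sig hb ((GU.one _).map _) (GU.one _) (map_one _)]

/-- `IsRho.prod`. -/
theorem RG.prod (h : RG π G N n T v w) {a : T.R} (ha : GU π a) (k : ℕ) {a' : ((RN π N).obj T).R}
    (ha' : GU π a') (e : (rnC π N T).1 a = a') :
    RG π G N n T (pushG G (swp R) _ (sigG G hb ha' k v)) (sigG G hb ha k w) := by
  obtain ⟨T1, E, ρ, f, τ, hρ, hf, c, d, w1, h1, rfl, rfl⟩ := h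
  refine ⟨T1, E, ρ, f, τ, hρ, hf, _, _, w1, h1.prod hb hR (ha.map ρ) k, ?_, sigG_gm G hb ha k ρ hρ d⟩
  rw [sigG_gm, pushG_gm, RG_sig hb (ha'.map f) ((ha.map ρ).map τ)
    (e ▸ (Alg.congr_val w1 a).symm)]

end Pool.Agent.KEW.L8
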