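import Pool.Agent.P.MP_6277db_ag.KEW.L8a.OpsR

/-!
KEW project, layer L8a: the divisor of `u ^ n - π ^ n t` on a correspondence from a relative curve
`E / T` with coordinate `u` to `R[t, 1/t]`.
-/

set_option backward.isDefEq.respectTransparency false

noncomputable section

open CategoryTheory Limits AlgebraicGeometry Polynomial TensorProduct

namespace Pool.Agent.KEW.L8

open _root_.KEW

variable {A F : Type} [CommRing A] [Field F] {φ : A →+* F} {m : ℕ} (π : A) (n : ℕ)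
  {T T0 E E0 : Alg A} {R : Alg F}

/-- The scheme `Spec (E ⊗_A F) × Spec R`. -/
abbrev XX (φ : A →+* F) (E : Alg A) (R : Alg F) : Scheme.{0} :=
  pullback (spO (bO φ E).s).hom (spO R.s).hom

/-- An element of `E` as a function on `XX`. -/
def fnE (φ : A →+* F) {E : Alg A} (R : Alg F) (a : E.R) : Γ(XX φ E R, ⊤) :=
  (pullback.fst (spO (bO φ E).s).hom (spO R.s).hom).appTop (fn (bI φ E a))

/-- An element of `R` as a function on `XX`. -/
def fnR (φ : A →+* F) (E : Alg A) {R : Alg F} (a : R.R) : Γ(XX φ E R, ⊤) :=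
  (pullback.snd (spO (bO φ E).s).hom (spO R.s).hom).appTop (fn a)

/-- The projection to `Spec (T ⊗_A F)`. -/
def prT (φ : A →+* F) (τ : T ⟶ E) (R : Alg F) : XX φ E R ⟶ Spec (.of (bO φ T).R) :=
  pullback.fst (spO (bO φ E).s).hom (spO R.s).hom ≫ spm (bM φ τ).1

/-- The multiplicities of the divisor of `u ^ n - π ^ n t` on `c`. -/
def dvm (τ : T ⟶ E) (u : E.R) (c : ZZ φ m E ((lauF F).obj R)) {K : Type} [Field K]
    (z : E.R →+* K) (y : Lau R.R →+* K) : ℚ :=
  enF (R := (lauF F).obj R) (Div (prT φ τ _) (fnE φ _ u)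
    (fnE φ _ u ^ n - fnE φ _ (E.s π) ^ n * fnR φ E (R := (lauF F).obj R) (lauL R.R X)) c.1) z y

/-- The points of `E` below the intersection of the closure of the support with the divisor. -/
def Lc (u : E.R) (c : ZZ φ m E ((lauF F).obj R)) {K : Type} [Field K] (z : E.R →+* K) : Prop :=
  ∃ y : Lau R.R →+* K, Cl c z y ∧ z u ^ n = z (E.s π) ^ n * y (lauL R.R X)

/-- The ideal `J` vanishes on the locus `Lc`. -/
def Van (u : E.R) (c : ZZ φ m E ((lauF F).obj R)) (J : Ideal E.R) : Prop :=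
  ∀ (K : Type) [Field K] [IsAlgClosed K] (z : E.R →+* K), Lc π n u c z → ∀ a ∈ J, z a = 0

/-- The hypotheses under which the divisor is finite over `T`. -/
structure ROK (τ : T ⟶ E) (u : E.R) (c : ZZ φ m E ((lauF F).obj R)) : Prop where
  ft : τ.1.FiniteType
  get : GEt π τ u
  adm : ∃ J : Ideal E.R, FinMod τ.1 J ∧ Van π n u c J

/-- `d` is the push forward to `T × R` of the divisor. -/
structure IsRho (τ : T ⟶ E) (u : E.R) (c : ZZ φ m E ((lauF F).obj R)) (d : ZZ φ m T R) : Prop where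
  ok : ROK π n τ u c
  ent : ∀ (K : Type) [Field K] [IsAlgClosed K] (x : T.R →+* K) (y : R.R →+* K), en d x y =
    ∑ᶠ p ∈ {p : (E.R →+* K) × (Lau R.R →+* K) | p.1.comp τ.1 = x ∧ p.2.comp (lauC R.R) = y},
      dvm π n τ u c p.1 p.2

variable {π n}

section pt

variable {S : Alg F} {O : Type} [Field O]

/-- The point of `XX` given by a pair of compatible points. -/
def Rho_pt (z : E.R →+* O) (y : S.R →+* O) (h : z.comp E.s = (y.comp S.s).comp φ) :
    Spec (.of O) ⟶ XX φ E S :=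
  pullback.lift (spm (bPt z (y.comp S.s) h)) (spm y) (Ent_over.2 (bPt_s φ z _ h))

variable {z : E.R →+* O} {y : S.R →+* O}

theorem Rho_fst (h : z.comp E.s = (y.comp S.s).comp φ) :
    Rho_pt z y h ≫ pullback.fst _ _ = spm (bPt z (y.comp S.s) h) := pullback.lift_fst _ _ _

theorem Rho_snd (h : z.comp E.s = (y.comp S.s).comp φ) :
    Rho_pt z y h ≫ pullback.snd _ _ = spm y := pullback.lift_snd _ _ _

theorem Rho_enF (f : XX φ E S → ℚ) (h : z.comp E.s = (y.comp S.s).comp φ) :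
    enF f z y = f (gen (Rho_pt z y h)) :=
  (dif_pos h).trans (dif_pos (Ent_over.2 (bPt_s φ z _ h)))

theorem Rho_compat {f : XX φ E S → ℚ} (h : enF f z y ≠ 0) : z.comp E.s = (y.comp S.s).comp φ := by
  by_contra h'
  exact h (dif_neg h')

theorem Rho_evE (h : z.comp E.s = (y.comp S.s).comp φ) (a : E.R) :
    ev (Rho_pt z y h) (fnE φ S a) = z a := by
  rw [fnE, ← ev_comp, Rho_fst]
  exact (ev_spm_fn _ _).trans (RingHom.congr_fun (bPt_bI φ z _ h) a)

theorem Rho_evR (h : z.comp E.s = (y.comp S.s).comp φ) (a : S.R) :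
    ev (Rho_pt z y h) (fnR φ E a) = y a := by
  rw [fnR, ← ev_comp, Rho_snd]
  exact ev_spm_fn _ _

theorem Rho_surj (t : Spec (.of O) ⟶ XX φ E S) : ∃ z y h, Rho_pt z y h = t := by
  obtain ⟨a, ha⟩ := spm_surjective (R := (bO φ E).R) (t ≫ pullback.fst _ _)
  obtain ⟨y, hy⟩ := spm_surjective (R := S.R) (t ≫ pullback.snd _ _)
  have h : a.comp (bO φ E).s = y.comp S.s := Ent_over.1 (by
    rw [ha, hy, Category.assoc, Category.assoc, pullback.condition])
  refine ⟨a.comp (bI φ E), y, Ent_compat h, pullback.hom_ext ?_ ?_⟩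
  · rw [Rho_fst, Ent_bPt_eq _ rfl h, ha]
  · rw [Rho_snd, hy]

theorem Rho_inj {z' : E.R →+* O} {y' : S.R →+* O} {h : z.comp E.s = (y.comp S.s).comp φ}
    {h' : z'.comp E.s = (y'.comp S.s).comp φ} (e : Rho_pt z y h = Rho_pt z' y' h') :
    z = z' ∧ y = y' :=
  ⟨RingHom.ext fun a => by rw [← Rho_evE h, e, Rho_evE],
    RingHom.ext fun a => by rw [← Rho_evR h, e, Rho_evR]⟩

theorem Rho_prT (τ : T ⟶ E) (h : z.comp E.s = (y.comp S.s).comp φ) {x : T.R →+* O} {t : F →+* O}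
    (h' : x.comp T.s = t.comp φ) :
    Rho_pt z y h ≫ prT φ τ S = spm (bPt x t h') ↔ z.comp τ.1 = x ∧ y.comp S.s = t := by
  have h1 : ((bPt z (y.comp S.s) h).comp (bM φ τ).1).comp (bI φ T) = z.comp τ.1 := by
    rw [RingHom.comp_assoc, bM_bI, ← RingHom.comp_assoc, bPt_bI]
  have h2 : ((bPt z (y.comp S.s) h).comp (bM φ τ).1).comp (bO φ T).s = y.comp S.s := by
    rw [RingHom.comp_assoc, (bM φ τ).2, bPt_s]
  rw [prT, ← Category.assoc, Rho_fst, spm_comp]
  refine ⟨fun e => ?_, fun e => congrArg spm (Ent_bPt_eq h' (h1.trans e.1) (h2.trans e.2)).symm⟩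
  rw [spm_injective e] at h1 h2
  exact ⟨h1.symm.trans (bPt_bI φ _ _ _), h2.symm.trans (bPt_s φ _ _ _)⟩

theorem Rho_cl {c : ZZ φ m E S} (h : z.comp E.s = (y.comp S.s).comp φ) :
    Cl c z y ↔ gen (Rho_pt z y h) ∈ closure (Function.support c.1) := cl_iff h _

theorem Rho_zl {u : E.R} {y : Lau R.R →+* O}
    (h : z.comp E.s = (y.comp ((lauF F).obj R).s).comp φ) :
    gen (Rho_pt (S := (lauF F).obj R) z y h) ∈ zl (fnE φ _ u ^ n - fnE φ _ (E.s π) ^ n *
      fnR φ E (R := (lauF F).obj R) (lauL R.R X)) ↔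
    z u ^ n = z (E.s π) ^ n * y (lauL R.R X) := by
  rw [gen_mem_zeroLocus, map_sub, map_mul, map_pow, map_pow, Rho_evE, Rho_evE, Rho_evR, sub_eq_zero]
  rfl

theorem Rho_lft (hS : S.s.FiniteType) :
    LocallyOfFiniteType (pullback.fst (spO (bO φ E).s).hom (spO S.s).hom) := by
  have : LocallyOfFiniteType (spO S.s).hom :=
    (HasRingHomProperty.Spec_iff (P := @LocallyOfFiniteType)).2 hS
  infer_instance

theorem Rho_qc {P Q : Type} [CommRing P] [CommRing Q] (j : P →+* Q) : QuasiCompact (spm j) :=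
  inferInstance

end pt

variable {τ : T ⟶ E} {u : E.R} {c c' : ZZ φ m E ((lauF F).obj R)} {K : Type} [Field K]
  [IsAlgClosed K]

/-- Hint: `bM_bijective`, `E ⊗_A F = E ⊗_T (T ⊗_A F)`, `etale_lineMap_spm`. -/
theorem GEt.etale (hb : Bs π φ m) (h : GEt π τ u) :
    Etale (lineMap (spm (bM φ τ).1) (fn (bI φ E u))) := by
  obtain ⟨Y, l, hl, het⟩ := h
  have h1 := (Ent_po (φ := φ) (τ ≫ l)).et1 het
  let e := RingEquiv.ofBijective _ (bM_bijective hb.ne hl)
  have h2 := h1.comp (g := e.symm.toRingHom) (RingHom.Etale.of_bijective e.symm.bijective)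
  have h3 : e.symm.toRingHom.comp (bM φ (τ ≫ l)).1 = (bM φ τ).1 := by
    rw [show bM φ (τ ≫ l) = bM φ τ ≫ bM φ l from (bF φ).map_comp τ l]
    exact RingHom.ext fun a => e.symm_apply_apply _
  have h4 : e.symm.toRingHom (bI φ Y (l.1 u)) = bI φ E u :=
    (congrArg e.symm (RingHom.congr_fun (bM_bI φ l) u)).symm.trans (e.symm_apply_apply _)
  rw [h3, h4] at h2
  exact (etale_lineMap_spm _ _).2 h2

/-- Hint: `DivOK.of_etale_base`. The closed set `closure (support c) ∩ zl _` lies in the closure of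
the support, which is finite over `E ⊗_A F`, and above `V(J)` (`cl_iff`), which is finite over
`T ⊗_A F`. -/
theorem ROK.divOK (hb : Bs π φ m) (hR : R.s.FiniteType) (h : ROK π n τ u c) :
    DivOK m (prT φ τ _) (fnE φ _ u)
      (fnE φ _ u ^ n - fnE φ _ (E.s π) ^ n * fnR φ E (R := (lauF F).obj R) (lauL R.R X)) c.1 ∧
    FinOver (prT φ τ ((lauF F).obj R)) (closure (Function.support c.1) ∩
      zl (fnE φ _ u ^ n - fnE φ _ (E.s π) ^ n * fnR φ E (R := (lauF F).obj R) (lauL R.R X))) := by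
  obtain ⟨J, hJ, hV⟩ := h.adm
  have := Rho_lft (φ := φ) (E := E) (S := (lauF F).obj R) ((finiteType_lauC R.R).comp hR)
  have := h.get.etale hb
  have := Rho_qc (bM φ τ).1
  have hf : FinOver (prT φ τ ((lauF F).obj R)) (closure (Function.support c.1) ∩
      zl (fnE φ _ u ^ n - fnE φ _ (E.s π) ^ n * fnR φ E (R := (lauF F).obj R) (lauL R.R X))) := by
    refine ((finOver_spm _ _ ((Ent_po (φ := φ) τ).finMod hJ)).comp c.2.2.2.closure).mono
      fun p hp => ⟨hp.1, ?_⟩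
    obtain ⟨z, y, hz, e⟩ := Rho_surj (geo p)
    rw [← gen_geo p, ← e] at hp ⊢
    rw [Set.mem_preimage, ← gen_comp, Rho_fst]
    refine Ideal.map_le_iff_le_comap.2 fun a ha => ?_
    exact (RingHom.congr_fun (bPt_bI φ z _ hz) a).trans
      (hV _ z ⟨y, (Rho_cl hz).2 hp.1, (Rho_zl hz).1 hp.2⟩ a ha)
  refine ⟨DivOK.of_etale_base ?_ (Cyc.le_QCyc c.2) hf.gfin, hf⟩
  exact Ops_char hb ((pullback.fst (spO (bO φ E).s).hom (spO ((lauF F).obj R).s).hom).appTop.hom.comp
    (fn.comp (bO φ E).s))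

/-- Hint: `support_Div`, `cl_iff`. -/
theorem dvm_ne {z : E.R →+* K} {y : Lau R.R →+* K} (h : dvm π n τ u c z y ≠ 0) :
    Cl c z y ∧ z u ^ n = z (E.s π) ^ n * y (lauL R.R X) := by
  have hz := Rho_compat h
  rw [dvm, Rho_enF _ hz] at h
  have h1 := support_Div h
  exact ⟨(Rho_cl hz).2 h1.1, (Rho_zl hz).1 h1.2⟩

theorem dvm_finite (hb : Bs π φ m) (hR : R.s.FiniteType) (h : ROK π n τ u c) (x : T.R →+* K)
    (y : R.R →+* K) : ({p : (E.R →+* K) × (Lau R.R →+* K) | p.1.comp τ.1 = x ∧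
      p.2.comp (lauC R.R) = y} ∩ Function.support fun p => dvm π n τ u c p.1 p.2).Finite := by
  by_cases hx : x.comp T.s = (y.comp R.s).comp φ
  · refine Set.Finite.of_finite_image (f := fun p => (spm p.1, spm p.2))
      ((((h.divOK hb hR).1.fin K (spm (bPt x _ hx))).image fun t =>
        (t ≫ pullback.fst _ _ ≫ spm (bI φ E), t ≫ pullback.snd _ _)).subset ?_)
      fun p _ q _ e => Prod.ext (spm_injective (congrArg Prod.fst e))
        (spm_injective (congrArg Prod.snd e))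
    rintro _ ⟨⟨z, y'⟩, ⟨⟨h1, h2⟩, h3⟩, rfl⟩
    have hz := Rho_compat h3
    refine ⟨Rho_pt z y' hz, ⟨(Rho_prT τ hz hx).2 ⟨h1, congrArg (RingHom.comp · R.s) h2⟩,
      (Rho_cl hz).1 (dvm_ne h3).1, (Rho_zl hz).2 (dvm_ne h3).2⟩, Prod.ext ?_ (Rho_snd hz)⟩
    change _ ≫ _ ≫ _ = spm z
    rw [← Category.assoc, Rho_fst, spm_comp, bPt_bI]
  · refine Set.finite_empty.subset ?_
    rintro ⟨z, y'⟩ ⟨⟨rfl, rfl⟩, h3⟩
    exact hx ((congrArg z.comp τ.2).trans (Rho_compat (S := (lauF F).obj R) (y := y') h3))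

theorem dvm_add (hb : Bs π φ m) (h : GEt π τ u) (z : E.R →+* K) (y : Lau R.R →+* K) :
    dvm π n τ u (c + c') z y = dvm π n τ u c z y + dvm π n τ u c' z y := by
  have := h.etale hb
  have h1 : ∀ d : ZZ φ m E ((lauF F).obj R),
      GFin (lineMap (prT φ τ ((lauF F).obj R)) (fnE φ _ u)) (Function.support d.1) := fun d => by
    rw [prT, fnE, ← comp_lineMap]
    have := Rho_qc (bM φ τ).1
    have := DivOK.DivOK_qc (spm (bM φ τ).1) (fn (bI φ E u))
    have := CycL_lqf (lineMap (spm (bM φ τ).1) (fn (bI φ E u)))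
    exact ((GFin.of_locallyQuasiFinite _ Set.univ).comp (Cyc.gfin d)).mono fun _ hx => ⟨hx, trivial⟩
  by_cases hz : z.comp E.s = (y.comp ((lauF F).obj R).s).comp φ
  · simp only [dvm, Rho_enF (S := (lauF F).obj R) _ hz]
    exact congrFun (Div_add (h1 c) (h1 c')) _
  · exact (dif_neg hz).trans ((congrArg₂ (· + ·) (dif_neg hz) (dif_neg hz)).trans (add_zero 0)).symm

theorem dvm_neg (z : E.R →+* K) (y : Lau R.R →+* K) :
    dvm π n τ u (-c) z y = -dvm π n τ u c z y := by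
  by_cases hz : z.comp E.s = (y.comp ((lauF F).obj R).s).comp φ
  · simp only [dvm, Rho_enF (S := (lauF F).obj R) _ hz]
    exact congrFun Div_neg _
  · exact (dif_neg hz).trans ((congrArg (- ·) (dif_neg hz)).trans neg_zero).symm

/-- Hint: `Div_mem_Cyc`, `Corr.ofCyc`. -/
theorem exists_rho (hb : Bs π φ m) (hR : R.s.FiniteType) (h : ROK π n τ u c) :
    ∃ d, IsRho π n τ u c d := by
  obtain ⟨h1, h2⟩ := h.divOK hb hR
  have : IsSeparated (prT φ τ ((lauF F).obj R)) := by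
    unfold prT
    infer_instance
  have e : prT φ τ ((lauF F).obj R) ≫ (spO (bO φ T).s).hom =
      (pullback.snd _ _ ≫ spm (lauC R.R)) ≫ (spO R.s).hom := by
    rw [prT, Category.assoc, Category.assoc]
    exact (congrArg (_ ≫ ·) ((spm_comp _ _).trans (congrArg spm (bM φ τ).2))).trans
      (pullback.condition.trans (congrArg (_ ≫ ·) (spm_comp _ _).symm))
  refine ⟨Corr.ofCyc m (W := spO (bO φ T).s) (U := spO R.s) _ _ e ⟨_, Div_mem_Cyc h1 h2⟩, h,
    fun K _ _ x y => ?_⟩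
  by_cases hx : x.comp T.s = (y.comp R.s).comp φ
  · have hc : ∀ p : (E.R →+* K) × (Lau R.R →+* K), p.1.comp τ.1 = x ∧ p.2.comp (lauC R.R) = y →
        p.1.comp E.s = (p.2.comp ((lauF F).obj R).s).comp φ := by
      rintro ⟨z, y'⟩ ⟨rfl, rfl⟩
      exact (congrArg z.comp τ.2).symm.trans hx
    have hq : ∀ {z : E.R →+* K} {y' : Lau R.R →+* K} (hz), Rho_pt (φ := φ) (S := (lauF F).obj R) z y' hz ≫
        pullback.snd _ _ ≫ spm (lauC R.R) = spm (y'.comp (lauC R.R)) := fun hz => by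
      rw [← Category.assoc, Rho_snd]
      exact spm_comp _ _
    rw [Ent_pos _ x y hx, Corr.ent_ofCyc, ← finsum_set_coe_eq_finsum_mem,
      ← finsum_set_coe_eq_finsum_mem]
    refine (finsum_eq_of_bijective (fun p => ⟨Rho_pt p.1.1 p.1.2 (hc p.1 p.2),
      (Rho_prT τ _ hx).2 ⟨p.2.1, congrArg (RingHom.comp · R.s) p.2.2⟩,
      (hq _).trans (congrArg spm p.2.2)⟩) ⟨fun p q e => ?_, fun t => ?_⟩ fun p => ?_).symm
    · have := Rho_inj (congrArg Subtype.val e)
      exact Subtype.ext (Prod.ext this.1 this.2)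
    · obtain ⟨t, h3, h4⟩ := t
      obtain ⟨z, y', hz, rfl⟩ := Rho_surj t
      exact ⟨⟨(z, y'), ((Rho_prT τ hz hx).1 h3).1, spm_injective ((hq hz).symm.trans h4)⟩, rfl⟩
    · exact Rho_enF _ (hc p.1 p.2)
  · rw [Ent_neg _ x y hx]
    refine (finsum_mem_eq_zero_of_forall_eq_zero ?_).symm
    rintro ⟨z, y'⟩ ⟨rfl, rfl⟩
    by_contra h3
    exact hx ((congrArg z.comp τ.2).trans (Rho_compat (S := (lauF F).obj R) (y := y') h3))

end Pool.Agent.KEW.L8
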