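import Pool.Agent.P.MP_6277db_ag.KEW.L8a.Rho

/-!
KEW project, layer L8a: base change and product formulas for the multiplicities `dvm`.
-/

set_option backward.isDefEq.respectTransparency false

noncomputable section

open CategoryTheory Limits AlgebraicGeometry Polynomial TensorProduct

namespace Pool.Agent.KEW.L8

open _root_.KEW

variable {A F : Type} [CommRing A] [Field F] {φ : A →+* F} {m : ℕ} {π : A} {n : ℕ}
  {T T0 E E0 : Alg A} {R : Alg F} {τ : T ⟶ E} {u : E.R} {c c' : ZZ φ m E ((lauF F).obj R)}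
  {K : Type} [Field K] [IsAlgClosed K]

theorem RhoA_app {X Y Z : Scheme.{0}} (f : X ⟶ Y) (g : Y ⟶ Z) (a : Γ(Z, ⊤)) :
    (f ≫ g).appTop a = f.appTop (g.appTop a) := rfl

theorem RhoA_fun {X Y Z : Scheme.{0}} (f : X ⟶ Y) (g : Y ⟶ Z) (d : Z → ℚ) :
    (d ∘ g) ∘ f = d ∘ (f ≫ g :) := rfl

theorem RhoA_bc {X X0 S S0 U U0 : Scheme.{0}} {q : X ⟶ S} {q0 : X0 ⟶ S0} {r : S ⟶ U} {r0 : S0 ⟶ U0}
    {f : X0 ⟶ X} {k : S0 ⟶ S} {g : U0 ⟶ U} (sq : IsPullback f q0 q k) (w : k ≫ r = r0 ≫ g)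
    {v : Γ(S, ⊤)} (e0 : Etale (lineMap r v)) (e : Etale (lineMap r0 (k.appTop v))) {ψ : Γ(X, ⊤)}
    {d : X → ℚ} (h : DivOK m (q ≫ r) (q.appTop v) ψ d) :
    Div (q0 ≫ r0) (f.appTop (q.appTop v)) (f.appTop ψ) (d ∘ f) =
      Div (q ≫ r) (q.appTop v) ψ d ∘ f := by
  have s1 := IsPullback.of_hasPullback r g
  have hl₁ := s1.lift_fst _ _ w
  have hl₂ := s1.lift_snd _ _ w
  generalize s1.lift _ _ w = l at hl₁ hl₂
  have e1 : Etale (lineMap (pullback.snd r g) ((pullback.fst r g).appTop v)) :=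
    MorphismProperty.of_isPullback (isPullback_lineMap s1 v) e0
  have e2 : Etale (l ≫ lineMap (pullback.snd r g) ((pullback.fst r g).appTop v)) := by
    rwa [comp_lineMap, hl₂, ← RhoA_app, hl₁]
  have e3 : Etale l := Etale.of_comp l (lineMap (pullback.snd r g) ((pullback.fst r g).appTop v))
  have s2 := IsPullback.of_hasPullback q (pullback.fst r g)
  have w2 : f ≫ q = (q0 ≫ l) ≫ pullback.fst r g := by rw [Category.assoc, hl₁, sq.w]
  have hj₁ := s2.lift_fst _ _ w2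
  have hj₂ := s2.lift_snd _ _ w2
  generalize s2.lift _ _ w2 = j at hj₁ hj₂
  have s3 : IsPullback j q0 (pullback.snd q (pullback.fst r g)) l :=
    IsPullback.of_right (by rwa [hj₁, hl₁]) hj₂ s2
  have e4 : Etale j := MorphismProperty.of_isPullback s3.flip e3
  have s4 := s2.paste_vert s1
  have h1 := Div_etale j (h.pullback s4)
  rw [Div_pullback s4 h, ← Category.assoc, hj₂, Category.assoc, hl₂, ← RhoA_app j,
    ← RhoA_app j _ ψ, RhoA_fun, RhoA_fun, hj₁] at h1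
  exact h1

section pt

variable {B B' : Alg A} {R' : Alg F} {O : Type} [Field O] {w w' : Spec (.of O) ⟶ XX φ B R}
  {x x' : B.R →+* O} {y y' : R.R →+* O}

/-- `w` is the point with coordinates `x` and `y`. -/
def RhoA_Pt (w : Spec (.of O) ⟶ XX φ B R) (x : B.R →+* O) (y : R.R →+* O) : Prop :=
  ∃ a : (bO φ B).R →+* O, a.comp (bI φ B) = x ∧ w ≫ pullback.fst _ _ = spm a ∧
    w ≫ pullback.snd _ _ = spm y

theorem RhoA_coords (w : Spec (.of O) ⟶ XX φ B R) : ∃ x y, RhoA_Pt w x y := by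
  obtain ⟨a, ha⟩ := spm_surjective (w ≫ pullback.fst _ _)
  obtain ⟨y, hy⟩ := spm_surjective (w ≫ pullback.snd _ _)
  exact ⟨_, y, a, rfl, ha.symm, hy.symm⟩

theorem RhoA_exists (h : x.comp B.s = (y.comp R.s).comp φ) :
    ∃ w : Spec (.of O) ⟶ XX φ B R, RhoA_Pt w x y :=
  ⟨pullback.lift _ _ (Ent_over.2 (bPt_s φ _ _ h)), _, bPt_bI φ _ _ h, pullback.lift_fst _ _ _,
    pullback.lift_snd _ _ _⟩

theorem RhoA_over {a : (bO φ B).R →+* O} (h1 : w ≫ pullback.fst _ _ = spm a)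
    (h2 : w ≫ pullback.snd _ _ = spm y) : a.comp (bO φ B).s = y.comp R.s :=
  Ent_over.1 (by rw [← h1, ← h2, Category.assoc, Category.assoc, pullback.condition])

theorem RhoA_Pt.enF (h : RhoA_Pt w x y) (d : XX φ B R → ℚ) : enF d x y = d (gen w) := by
  obtain ⟨a, rfl, h1, h2⟩ := h
  have h3 := RhoA_over h1 h2
  unfold L8.enF Corr.entF
  rw [dif_pos (Ent_compat h3), Ent_bPt_eq _ rfl h3, dif_pos (Ent_over.2 h3)]
  refine congrArg (fun z => d (gen z)) (pullback.hom_ext ?_ ?_)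
  · rw [pullback.lift_fst, h1]
  · rw [pullback.lift_snd, h2]

theorem RhoA_Pt.ext (h : RhoA_Pt w x y) (h' : RhoA_Pt w' x y) : w = w' := by
  obtain ⟨a, h0, h1, h2⟩ := h
  obtain ⟨a', h0', h1', h2'⟩ := h'
  refine pullback.hom_ext ?_ (h2.trans h2'.symm)
  rw [h1, h1', (bPO φ B).hom_ext (h0.trans h0'.symm)
    ((RhoA_over h1 h2).trans (RhoA_over h1' h2').symm)]

theorem RhoA_Pt.eq (h : RhoA_Pt w x y) (h' : RhoA_Pt w x' y') : x = x' ∧ y = y' := by
  obtain ⟨a, rfl, h1, h2⟩ := h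
  obtain ⟨a', rfl, h1', h2'⟩ := h'
  exact ⟨by rw [spm_injective (h1.symm.trans h1')], spm_injective (h2.symm.trans h2')⟩

theorem RhoA_Pt.fnE (h : RhoA_Pt w x y) (b : B.R) : ev w (fnE φ R b) = x b := by
  obtain ⟨a, rfl, h1, -⟩ := h
  rw [L8.fnE, ← ev_comp, h1]
  exact ev_spm_fn a _

theorem RhoA_Pt.fnR (h : RhoA_Pt w x y) (b : R.R) : ev w (fnR φ B b) = y b := by
  obtain ⟨a, -, -, h1⟩ := h
  rw [L8.fnR, ← ev_comp, h1]
  exact ev_spm_fn y _

/-- The map on fibre products induced by a map of sources. -/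
abbrev RhoA_l (φ : A →+* F) (g : B' ⟶ B) (R : Alg F) : XX φ B R ⟶ XX φ B' R :=
  Corr.lmap (spA (bM φ g)) (spO R.s)

/-- The map on fibre products induced by a map of targets. -/
abbrev RhoA_r (φ : A →+* F) (B : Alg A) (η : R' ⟶ R) : XX φ B R ⟶ XX φ B R' :=
  Corr.rmap (spO (bO φ B).s) (spA η)

theorem RhoA_Pt.l (h : RhoA_Pt w x y) (g : B' ⟶ B) :
    RhoA_Pt (w ≫ RhoA_l φ g R) (x.comp g.1) y := by
  obtain ⟨a, rfl, h1, h2⟩ := h
  refine ⟨a.comp (bM φ g).1, by rw [RingHom.comp_assoc, bM_bI, RingHom.comp_assoc], ?_, ?_⟩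
  · rw [Category.assoc, Corr.Corr_lmap_fst, ← Category.assoc, h1]
    exact spm_comp _ _
  · rw [Category.assoc, Corr.Corr_lmap_snd, h2]

theorem RhoA_Pt.r (h : RhoA_Pt w x y) (η : R' ⟶ R) :
    RhoA_Pt (w ≫ RhoA_r φ B η) x (y.comp η.1) := by
  obtain ⟨a, rfl, h1, h2⟩ := h
  refine ⟨a, rfl, ?_, ?_⟩
  · rw [Category.assoc, Corr.rmap_fst, h1]
  · rw [Category.assoc, Corr.Corr_rmap_snd, ← Category.assoc, h2]
    exact spm_comp _ _

theorem RhoA_l_fnE (g : B' ⟶ B) (b : B'.R) :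
    (RhoA_l φ g R).appTop (fnE φ R b) = fnE φ R (g.1 b) := by
  rw [fnE, ← RhoA_app, Corr.Corr_lmap_fst, RhoA_app]
  exact congrArg _ ((appTop_spm_fn _ _).trans (congrArg fn (RingHom.congr_fun (bM_bI φ g) b)))

theorem RhoA_l_fnR (g : B' ⟶ B) (b : R.R) : (RhoA_l φ g R).appTop (fnR φ B' b) = fnR φ B b := by
  rw [fnR, ← RhoA_app, Corr.Corr_lmap_snd, fnR]

theorem RhoA_r_fnE (η : R' ⟶ R) (b : B.R) : (RhoA_r φ B η).appTop (fnE φ R' b) = fnE φ R b := by
  rw [fnE, ← RhoA_app, Corr.rmap_fst, fnE]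

theorem RhoA_r_fnR (η : R' ⟶ R) (b : R'.R) :
    (RhoA_r φ B η).appTop (fnR φ B b) = fnR φ B (η.1 b) := by
  rw [fnR, ← RhoA_app, Corr.Corr_rmap_snd, RhoA_app]
  exact congrArg _ (appTop_spm_fn _ _)

theorem RhoA_r_prT (η : R' ⟶ R) : RhoA_r φ E η ≫ prT φ τ R' = prT φ τ R := by
  rw [prT, ← Category.assoc, Corr.rmap_fst, prT]

theorem RhoA_neg (d : XX φ B R → ℚ) (h : x.comp B.s ≠ (y.comp R.s).comp φ) : enF d x y = 0 :=
  dif_neg h

end pt

/-- Push forward along a map of targets which is injective on the divisor. -/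
theorem RhoA_push {R' : Alg F} (η : R' ⟶ R) (d : ZZ φ m E R) {ψ : Γ(XX φ E R', ⊤)}
    (h : DivOK m (prT φ τ R) (fnE φ R u) ((RhoA_r φ E η).appTop ψ) d.1) (z : E.R →+* K)
    (y : R.R →+* K) (hy : ∀ y' : R.R →+* K, y'.comp η.1 = y.comp η.1 →
      enF (Div (prT φ τ R) (fnE φ R u) ((RhoA_r φ E η).appTop ψ) d.1) z y' ≠ 0 → y' = y) :
    enF (Div (prT φ τ R) (fnE φ R u) ((RhoA_r φ E η).appTop ψ) d.1) z y =
      enF (Div (prT φ τ R') (fnE φ R' u) ψ (pushZ η d).1) z (y.comp η.1) := by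
  by_cases hc : z.comp E.s = (y.comp R.s).comp φ
  swap
  · rw [RhoA_neg _ hc, RhoA_neg _ (by rwa [RingHom.comp_assoc _ η.1, η.2])]
  obtain ⟨w, hw⟩ := RhoA_exists hc
  have h1 : FinOver (RhoA_r φ E η) (Function.support d.1) :=
    FinOver.of_comp (q := pullback.fst _ _) (by rw [Corr.rmap_fst]; exact d.2.2.2)
  have : IsSeparated (RhoA_r φ E η) := MorphismProperty.of_isPullback
    (Corr.isPullback_rmap (spO (bO φ E).s) (spA η)) (inferInstanceAs (IsSeparated (spm η.1)))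
  have h2 := push_Div (p := prT φ τ R') (u := fnE φ R' u) (φ := ψ) (RhoA_r φ E η) h1
    (by rwa [RhoA_r_prT, RhoA_r_fnE])
  rw [RhoA_r_prT, RhoA_r_fnE] at h2
  rw [hw.enF, (hw.r η).enF, gen_comp]
  refine Eq.trans ?_ (congrFun h2 _)
  refine (push_apply_of_inj (GFin.of_comp (q := prT φ τ R') ?_) w fun w' e hne => ?_).symm
  · rw [RhoA_r_prT]
    exact h.fin.mono support_Div
  · obtain ⟨z', y', hw'⟩ := RhoA_coords w'
    obtain ⟨rfl, h3⟩ := (e ▸ hw'.r η).eq (hw.r η)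
    obtain rfl := hy y' h3 (by rwa [hw'.enF])
    exact hw'.ext hw

/-- Hint: `Div_pullback` for the pushout of `τ` and `g` over `F`, then `Div_etale`: the map from
`Spec (E0 ⊗_A F)` to the fibre product is etale because both are etale over the line. -/
theorem dvm_pull (hb : Bs π φ m) (hR : R.s.FiniteType) (h : ROK π n τ u c) {τ0 : T0 ⟶ E0}
    {g : T ⟶ T0} {k : E ⟶ E0} (w : g ≫ τ0 = τ ≫ k) (h0 : GEt π τ0 (k.1 u)) (z : E0.R →+* K)
    (y : Lau R.R →+* K) :
    dvm π n τ0 (k.1 u) (pullZ k c) z y = dvm π n τ u c (z.comp k.1) y := by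
  by_cases hc : z.comp E0.s = (y.comp ((lauF F).obj R).s).comp φ
  swap
  · exact (RhoA_neg _ hc).trans (RhoA_neg _ (by rwa [RingHom.comp_assoc, k.2])).symm
  obtain ⟨p, hp⟩ := RhoA_exists (R := (lauF F).obj R) hc
  have h1 := RhoA_bc (Corr.isPullback_lmap (spA (bM φ k)) (spO ((lauF F).obj R).s))
    (r := spm (bM φ τ).1) (r0 := spm (bM φ τ0).1) (g := spm (bM φ g).1)
    ((spm_comp _ _).trans (Eq.trans (congrArg (fun e => spm e.1) (((bF φ).map_comp τ k).symm.trans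
      ((congrArg (bF φ).map w.symm).trans ((bF φ).map_comp g τ0)))) (spm_comp _ _).symm))
    (h.get.etale hb) (by
      have := h0.etale hb
      rwa [← show (bM φ k).1 (bI φ E u) = bI φ E0 (k.1 u) from RingHom.congr_fun (bM_bI φ k) u,
        ← appTop_spm_fn] at this)
    (h.divOK hb hR).1
  have h2 := RhoA_l_fnE (φ := φ) (R := (lauF F).obj R) k
  unfold dvm
  rw [hp.enF, (hp.l k).enF, gen_comp]
  refine Eq.trans ?_ (congrFun h1 _)
  rw [map_sub, map_mul, map_pow, map_pow, RhoA_l_fnR, h2 (E.s π), Alg.map_s, ← h2 u]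
  rfl

omit [IsAlgClosed K] in
theorem RhoA_uniq (hb : Bs π φ m) {a : E.R} (ha : GU π a) {k : ℕ} {d : ZZ φ m E R}
    {z : E.R →+* K} {y y' : Lau R.R →+* K} (h : Cl (sig hb ha k d) z y')
    (hc : y (lauL R.R X) * z (E.s π) ^ k = z a) (e : y'.comp (lauC R.R) = y.comp (lauC R.R)) :
    y' = y :=
  lau_ext e (mul_right_cancel₀ (pow_ne_zero k (h.pi_ne hb.ne)) ((cl_sig hb ha k h).1.trans hc.symm))

theorem RhoA_cL_sig (hb : Bs π φ m) {a : E.R} (ha : GU π a) (k : ℕ) (d : ZZ φ m E R) :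
    pushZ (cL R) (sig hb ha k d) = d := by
  refine ext_en fun K _ _ x y => ?_
  rw [en_push]
  by_cases hx : x (E.s π) = 0
  · have h1 : en d x y = 0 := by
      by_contra h
      exact en_pi_ne d _ _ hb.ne h hx
    rw [h1]
    refine finsum_mem_of_eqOn_zero fun y' _ => ?_
    by_contra h
    exact en_pi_ne _ _ _ hb.ne h hx
  · have hu : IsUnit (x a / x (E.s π) ^ k) :=
      (div_ne_zero (ha.ne_zero x hx) (pow_ne_zero k hx)).isUnit
    have h1 : (lauLift y _ hu).comp (lauC R.R) = y := RingHom.ext fun b => lauLift_lauC _ _ hu b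
    have h2 : lauLift y _ hu (lauL R.R X) * x (E.s π) ^ k = x a := by
      rw [lauLift_lauL, eval₂_X, div_mul_cancel₀ _ (pow_ne_zero k hx)]
    refine (Ops_reindex (s := {lauLift y _ hu}) (f := fun _ => en d x y) id ?_ (Set.injOn_id _) ?_
      ?_).symm.trans finsum_mem_singleton
    · rintro _ rfl
      exact h1
    · exact fun y' e hne => ⟨_, rfl, (RhoA_uniq hb ha (Cl.of_ne hne) h2 (e.trans h1.symm)).symm⟩
    · rintro _ rfl
      rw [id, en_sig, if_pos h2, h1]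

open Classical in
/-- The divisor on the product of a constant correspondence with a graph.  On the graph
`t = a / π ^ k` the function `u ^ n - π ^ n t` is `W(u)`. -/
theorem dvm_sig (hb : Bs π φ m) (hR : R.s.FiniteType) {a : E.R} (ha : GU π a) (k : ℕ)
    (c0 : ZZ φ m T R) (h : ROK π n τ u (sig hb ha k (pullZ τ c0))) {W : T.R[X]} (hW : W.Monic)
    (e : E.s π ^ k * (u ^ n - W.eval₂ τ.1 u) = E.s π ^ n * a) (z : E.R →+* K)
    (y : Lau R.R →+* K) : dvm π n τ u (sig hb ha k (pullZ τ c0)) z y =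
      if y (lauL R.R X) * z (E.s π) ^ k = z a then
        ((W.map (z.comp τ.1)).rootMultiplicity (z u) : ℚ) *
          en c0 (z.comp τ.1) (y.comp (lauC R.R)) else 0 := by
  split_ifs with hc
  swap
  · by_contra hne
    exact hc (cl_sig hb ha k (dvm_ne hne).1).1
  have h1 := (h.divOK hb hR).1
  set c := sig hb ha k (pullZ τ c0) with hcd
  have h2 : ∀ p ∈ closure (Function.support c.1), p ∈ zl
      ((fnE φ _ u ^ n - fnE φ _ (E.s π) ^ n * fnR φ E (R := (lauF F).obj R) (lauL R.R X)) -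
        (RhoA_r φ E (cL R)).appTop (fnE φ R (W.eval₂ τ.1 u))) := by
    refine closure_minimal (fun p hp => ?_) (Scheme.zeroLocus_isClosed _ _)
    obtain ⟨z', y', hw⟩ := RhoA_coords (geo p)
    have h3 : en c z' y' ≠ 0 := by rwa [en, hw.enF, gen_geo]
    have h4 := (cl_sig hb ha k (Cl.of_ne h3)).1
    rw [DivOK.DivOK_mem_zl, RhoA_r_fnE, map_sub, map_sub, map_mul, map_pow, map_pow, hw.fnE, hw.fnE,
      hw.fnE, hw.fnR]
    refine mul_left_cancel₀ (pow_ne_zero k (en_pi_ne c _ _ hb.ne h3)) ?_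
    have h5 := congrArg z' e
    rw [map_mul, map_mul, map_sub, map_pow, map_pow, map_pow, ← h4] at h5
    linear_combination h5
  have h3 := Div_congr (p := prT φ τ _) (u := fnE φ ((lauF F).obj R) u) (u' := fnE φ _ u)
    (c := c.1) (fun p _ => by rw [sub_self, DivOK.DivOK_mem_zl, map_zero])
    fun p hp => h2 p (subset_closure hp)
  have h4 : DivOK m (prT φ τ _) (fnE φ _ u)
      ((RhoA_r φ E (cL R)).appTop (fnE φ R (W.eval₂ τ.1 u))) c.1 :=
    ⟨h1.lft, h1.inv, h1.mem, h1.fin.mono fun p hp => ⟨hp.1, by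
      have h5 := h2 p hp.1
      have h6 := hp.2
      rw [DivOK.DivOK_mem_zl] at h5 h6 ⊢
      rwa [map_sub, h6, sub_zero] at h5⟩⟩
  have h5 : pushZ (cL R) c = pullZ τ c0 := RhoA_cL_sig hb ha k _
  have h6 := RhoA_push (cL R) c h4 z y fun y' e' hne => by
    rw [← h3] at hne
    exact RhoA_uniq hb ha (dvm_ne hne).1 hc e'
  rw [← h3, h5] at h6
  refine h6.trans ?_
  by_cases hz : z.comp E.s = ((y.comp (lauC R.R)).comp R.s).comp φ
  swap
  · rw [Ent_neg c0 _ _ (by rwa [RingHom.comp_assoc, τ.2]), mul_zero]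
    exact RhoA_neg _ hz
  obtain ⟨p, hp⟩ := RhoA_exists hz
  have : Etale (lineMap (RhoA_l φ τ R) (fnE φ R u)) := MorphismProperty.of_isPullback
    (isPullback_lineMap (Corr.isPullback_lmap (spA (bM φ τ)) (spO R.s)).flip _) (h.get.etale hb)
  let fT : T.R →+* Γ(XX φ T R, ⊤) :=
    (pullback.fst (spO (bO φ T).s).hom (spO R.s).hom).appTop.hom.comp (fn.comp (bI φ T))
  let fE : E.R →+* Γ(XX φ E R, ⊤) :=
    (pullback.fst (spO (bO φ E).s).hom (spO R.s).hom).appTop.hom.comp (fn.comp (bI φ E))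
  have h7 : (W.map fT).map (ev (p ≫ RhoA_l φ τ R)) = W.map (z.comp τ.1) := by
    rw [Polynomial.map_map]
    exact congrArg (W.map ·) (RingHom.ext fun b => (hp.l τ).fnE b)
  have h8 := Div_one_poly (p := RhoA_l φ τ R) (u := fnE φ R u) (W.map fT) p
    (by rw [h7]; exact (hW.map _).ne_zero)
  have h9 : eval₂ (RhoA_l φ τ R).appTop.hom (fnE φ R u) (W.map fT) = fnE φ R (W.eval₂ τ.1 u) := by
    rw [eval₂_map, show (RhoA_l φ τ R).appTop.hom.comp fT = fE.comp τ.1 from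
      RingHom.ext fun b => RhoA_l_fnE τ b]
    exact (hom_eval₂ W τ.1 fE u).symm
  rw [h7, h9, hp.fnE] at h8
  have h10 := congrFun (Div_base_mul (p := RhoA_l φ τ R) (u := fnE φ R u)
    (φ := fnE φ R (W.eval₂ τ.1 u)) (c := 1) (Cyc.gfin c0)) (gen p)
  rw [mul_one, Corr.Corr_lmap_fst, Pi.mul_apply, h8, mul_comm] at h10
  refine (hp.enF _).trans (h10.trans ?_)
  rw [en, (hp.l τ).enF, gen_comp]
  rfl

open Classical in
/-- The divisor on the product with the graph of a function on the base. -/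
theorem dvm_prod (hb : Bs π φ m) (hR : R.s.FiniteType) (h : ROK π n τ u c) {a : T.R}
    (ha : GU π (τ.1 a)) (k : ℕ) (z : E.R →+* K) (y : Lau (Lau R.R) →+* K) :
    dvm π n τ u (pushZ (swp R) (sig hb ha k c)) z y =
      if y (tA R.R) * z (E.s π) ^ k = z (τ.1 a) then
        dvm π n τ u c z (y.comp (lauMap (lauC R.R))) else 0 := by
  split_ifs with hc
  swap
  · by_contra hne
    exact hc (cl_swp_sig hb ha k (dvm_ne (R := (lauF F).obj R) hne).1).1
  have h1 : ROK (R := (lauF F).obj R) π n τ u (pushZ (swp R) (sig hb ha k c)) := by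
    obtain ⟨J, hJ, hV⟩ := h.adm
    refine ⟨h.ft, h.get, J, hJ, fun K' _ _ z' ⟨y', h2, h3⟩ => hV K' z'
      ⟨_, (cl_swp_sig hb ha k h2).2, h3.trans ?_⟩⟩
    exact congrArg (fun b => _ * y' b) (lauMap_X _).symm
  have h2 := (h1.divOK hb ((finiteType_lauC R.R).comp hR)).1
  have h3 : (RhoA_r φ E ((lauF F).map (cL R))).appTop
      (fnE φ _ u ^ n - fnE φ _ (E.s π) ^ n * fnR φ E (R := (lauF F).obj R) (lauL R.R X)) =
      fnE φ _ u ^ n - fnE φ _ (E.s π) ^ n *
        fnR φ E (R := (lauF F).obj ((lauF F).obj R)) (lauL (Lau R.R) X) := by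
    rw [map_sub, map_mul, map_pow, map_pow, RhoA_r_fnE, RhoA_r_fnE, RhoA_r_fnR]
    exact congrArg (fun b => _ - _ * fnR φ E b) (lauMap_X _)
  have h4 : (lauF F).map (cL R) ≫ swp R = cL ((lauF F).obj R) := by
    refine Alg.hom_ext (lau_ext (RingHom.ext fun b => ?_) ?_)
    · exact (congrArg (swp R).1 (RingHom.congr_fun (lauMap_lauC (lauC R.R)) b)).trans
        ((lauLift_lauC _ _ (tA_isUnit _) _).trans (lauLift_lauC _ _ (tB_isUnit _) _))
    · exact (congrArg (swp R).1 (lauMap_X _)).trans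
        ((lauLift_lauL _ _ (tA_isUnit _) _).trans (eval₂_X _ _))
  have h5 := RhoA_push ((lauF F).map (cL R)) (pushZ (swp R) (sig hb ha k c)) (h3 ▸ h2) z y
    fun y' e' hne => by
      rw [h3] at hne
      have h6 := (dvm_ne (R := (lauF F).obj R) hne).1
      have e'' : y'.comp (lauMap (lauC R.R)) = y.comp (lauMap (lauC R.R)) := e'
      refine lau_ext (lau_ext ?_ ?_) ?_
      · exact (congrArg y'.comp (lauMap_lauC _)).symm.trans
          ((congrArg (·.comp (lauC R.R)) e'').trans (congrArg y.comp (lauMap_lauC _)))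
      · exact mul_right_cancel₀ (pow_ne_zero k (h6.pi_ne hb.ne))
          ((cl_swp_sig hb ha k h6).1.trans hc.symm)
      · exact (congrArg y' (lauMap_X _)).symm.trans
          ((RingHom.congr_fun e'' (lauL R.R X)).trans (congrArg y (lauMap_X _)))
  rw [h3, pushZ_pushZ, h4, RhoA_cL_sig] at h5
  exact h5

end Pool.Agent.KEW.L8
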