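import Pool.Agent.P.MP_6277db_ag.KEW.L8a.RhoA

/-!
KEW project, layer L8a: the calculus of the relation `IsRho` (from the rules for `dvm`, by comparing
matrix entries).
-/

set_option backward.isDefEq.respectTransparency false
set_option linter.unusedSectionVars false

noncomputable section

open CategoryTheory Polynomial

namespace Pool.Agent.KEW.L8

open _root_.KEW

variable {A F : Type} [CommRing A] [Field F] {φ : A →+* F} {m : ℕ} {π π' : A} {n : ℕ}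
  {T T0 E E0 : Alg A} {R : Alg F} {τ : T ⟶ E} {u : E.R} {c c' : ZZ φ m E ((lauF F).obj R)}
  {d d' : ZZ φ m T R} {J J' : Ideal E.R}

/-- Hint: `finMod_of_val`, `FinMod.mem`. -/
theorem finMod_inf {S S' : Type} [CommRing S] [CommRing S'] {f : S →+* S'} (hf : f.FiniteType)
    {I I' : Ideal S'} (h : FinMod f I) (h' : FinMod f I') : FinMod f (I ⊓ I') := by
  refine finMod_of_val hf _ fun K _ O x hJ hx y => ?_
  by_cases h1 : ∀ a ∈ I, x a = 0
  · exact h.mem O x h1 hx y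
  · simp only [not_forall] at h1
    obtain ⟨a, ha, hxa⟩ := h1
    refine h'.mem O x (fun b hb => ?_) hx y
    have h2 := hJ (a * b) ⟨I.mul_mem_right _ ha, I'.mul_mem_left _ hb⟩
    rw [map_mul] at h2
    exact (mul_eq_zero.1 h2).resolve_left hxa

theorem Van.mono (h : Van π n u c J) (hJ : J' ≤ J) : Van π n u c J' :=
  fun K _ _ z hz a ha => h K z hz a (hJ ha)

theorem Van.zero : Van π n u (0 : ZZ φ m E ((lauF F).obj R)) ⊤ :=
  fun _ _ _ _ ⟨_, hy, _⟩ => (not_cl_zero hy).elim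

theorem Van.add (h : Van π n u c J) (h' : Van π n u c' J) : Van π n u (c + c') J :=
  fun K _ _ z ⟨y, hy, e⟩ => hy.add.elim (fun h1 => h K z ⟨y, h1, e⟩) fun h1 => h' K z ⟨y, h1, e⟩

theorem Van.neg (h : Van π n u c J) : Van π n u (-c) J :=
  fun K _ _ z ⟨y, hy, e⟩ => h K z ⟨y, hy.neg, e⟩

theorem Van.of_nsmul {k : ℕ} (hk : k ≠ 0) (h : Van π n u (k • c) J) : Van π n u c J :=
  fun K _ _ z ⟨y, hy, e⟩ => h K z ⟨y, hy.nsmul hk, e⟩

theorem RhoB_lc_pull (k : E ⟶ E0) {K : Type} [Field K] {z : E0.R →+* K}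
    (h : Lc π n (k.1 u) (pullZ k c) z) : Lc π n u c (z.comp k.1) := by
  obtain ⟨y, hy, e⟩ := h
  refine ⟨y, hy.pull, ?_⟩
  rw [RingHom.comp_apply, RingHom.comp_apply, Alg.map_s]
  exact e

theorem Van.pull (h : Van π n u c J) (k : E ⟶ E0) :
    Van π n (k.1 u) (pullZ k c) (J.map k.1) :=
  fun K _ _ z hz _ ha => (Ideal.map_le_iff_le_comap.2 (fun b hb => h K _ (RhoB_lc_pull k hz) b hb) :
    J.map k.1 ≤ RingHom.ker z) ha

theorem IsRho.unique (h : IsRho π n τ u c d) (h' : IsRho π n τ u c d') : d = d' :=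
  ext_en fun K _ _ x y => (h.ent K x y).trans (h'.ent K x y).symm

variable (hb : Bs π φ m) (hR : R.s.FiniteType)

include hb hR

theorem IsRho.add (h : IsRho π n τ u c d) (h' : IsRho π n τ u c' d') :
    IsRho π n τ u (c + c') (d + d') := by
  obtain ⟨J, hJ, hv⟩ := h.ok.adm
  obtain ⟨J', hJ', hv'⟩ := h'.ok.adm
  refine ⟨⟨h.ok.ft, h.ok.get, J ⊓ J', finMod_inf h.ok.ft hJ hJ',
    (hv.mono inf_le_left).add (hv'.mono inf_le_right)⟩, fun K _ _ x y => ?_⟩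
  rw [en_add, h.ent, h'.ent, ← finsum_mem_add_distrib' (dvm_finite hb hR h.ok x y)
    (dvm_finite hb hR h'.ok x y)]
  exact finsum_mem_congr rfl fun p _ => (dvm_add hb h.ok.get p.1 p.2).symm

theorem IsRho.neg (h : IsRho π n τ u c d) : IsRho π n τ u (-c) (-d) := by
  obtain ⟨J, hJ, hv⟩ := h.ok.adm
  refine ⟨⟨h.ok.ft, h.ok.get, J, hJ, hv.neg⟩, fun K _ _ x y => ?_⟩
  rw [en_neg, h.ent, ← mul_neg_one, finsum_mem_mul]
  exact finsum_mem_congr rfl fun p _ => (mul_neg_one _).trans (dvm_neg p.1 p.2).symm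

theorem IsRho.nsmul (h : IsRho π n τ u c d) (k : ℕ) : IsRho π n τ u (k • c) (k • d) := by
  induction k with
  | zero =>
    have h1 := h.add hb hR (h.neg hb hR)
    rwa [add_neg_cancel, add_neg_cancel, ← zero_nsmul c, ← zero_nsmul d] at h1
  | succ k ih =>
    rw [succ_nsmul, succ_nsmul]
    exact ih.add hb hR h

/-- Base change, pointwise (`dvm_pull`, `dvm_ne`). -/
theorem IsRho.bc_pt (h : IsRho π n τ u c d) {τ0 : T0 ⟶ E0} {g : T ⟶ T0} {k : E ⟶ E0}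
    (w : g ≫ τ0 = τ ≫ k) {d0 : ZZ φ m T0 R} (h0 : IsRho π n τ0 (k.1 u) (pullZ k c) d0) {K : Type}
    [Field K] [IsAlgClosed K] (x : T0.R →+* K)
    (hl : ∀ z : E.R →+* K, z.comp τ.1 = x.comp g.1 → Lc π n u c z →
      ∃ z0 : E0.R →+* K, z0.comp k.1 = z ∧ z0.comp τ0.1 = x)
    (hu : ∀ z0 z1 : E0.R →+* K, z0.comp τ0.1 = x → z1.comp τ0.1 = x →
      z0.comp k.1 = z1.comp k.1 → Lc π n (k.1 u) (pullZ k c) z0 → Lc π n (k.1 u) (pullZ k c) z1 →
      z0 = z1) (y : R.R →+* K) : en d0 x y = en d (x.comp g.1) y := by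
  have hp := fun z y => dvm_pull (K := K) hb hR h.ok w h0.ok.get z y
  have hw : ∀ z : E0.R →+* K, (z.comp k.1).comp τ.1 = (z.comp τ0.1).comp g.1 := fun z =>
    congrArg z.comp (congrArg Subtype.val w).symm
  rw [h0.ent, h.ent, ← finsum_mem_inter_support]
  refine Ops_reindex (fun p => (p.1.comp k.1, p.2)) ?_ ?_ ?_ fun p _ => hp p.1 p.2
  · rintro p ⟨⟨h1, h2⟩, -⟩
    exact ⟨(hw p.1).trans (congrArg (·.comp g.1) h1), h2⟩
  · rintro p ⟨⟨h1, -⟩, h2⟩ q ⟨⟨h3, -⟩, h4⟩ e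
    exact Prod.ext (hu _ _ h1 h3 (Prod.ext_iff.1 e).1 ⟨_, dvm_ne h2⟩ ⟨_, dvm_ne h4⟩)
      (Prod.ext_iff.1 e).2
  · rintro p ⟨h1, h2⟩ h3
    obtain ⟨z0, h4, h5⟩ := hl p.1 h1 ⟨_, dvm_ne h3⟩
    refine ⟨(z0, p.2), ⟨⟨h5, h2⟩, fun h6 => h3 ?_⟩, Prod.ext h4 rfl⟩
    rw [← h4]
    exact (hp z0 p.2).symm.trans h6

/-- Base change along generically cartesian squares (`exists_rho`, `bc_pt`, `en_pi_ne`). -/
theorem IsRho.bc (h : IsRho π n τ u c d) {τ0 : T0 ⟶ E0} {g : T ⟶ T0} {k : E ⟶ E0}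
    (w : g ≫ τ0 = τ ≫ k) (hf : τ0.1.FiniteType) (hE : GEt π τ0 (k.1 u))
    (hJ : ∀ J : Ideal E.R, FinMod τ.1 J → FinMod τ0.1 (J.map k.1))
    (hp : ∀ (K : Type) [Field K] (x : T0.R →+* K), x (T0.s π) ≠ 0 → ∀ z : E.R →+* K,
      z.comp τ.1 = x.comp g.1 → ∃! z0 : E0.R →+* K, z0.comp k.1 = z ∧ z0.comp τ0.1 = x) :
    IsRho π n τ0 (k.1 u) (pullZ k c) (pullZ g d) := by
  obtain ⟨J, h1, h2⟩ := h.ok.adm
  obtain ⟨d0, h0⟩ := exists_rho hb hR
    (⟨hf, hE, _, hJ J h1, h2.pull k⟩ : ROK π n τ0 (k.1 u) (pullZ k c))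
  have e : d0 = pullZ g d := ext_en fun K _ _ x y => by
    by_cases hx : x (T0.s π) = 0
    · have h3 : ∀ d1 : ZZ φ m T0 R, en d1 x y = 0 := fun d1 => by
        by_contra h4
        exact en_pi_ne d1 x y hb.ne h4 hx
      rw [h3, h3]
    · rw [en_pull]
      refine h.bc_pt hb hR w h0 x (fun z hz _ => (hp K x hx z hz).exists)
        (fun z0 z1 h3 h4 h5 _ _ => ?_) y
      have h6 : (z1.comp k.1).comp τ.1 = x.comp g.1 :=
        (congrArg z1.comp (congrArg Subtype.val w).symm).trans (congrArg (·.comp g.1) h4)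
      exact (hp K x hx _ h6).unique ⟨h5, h3⟩ ⟨rfl, h4⟩
  rwa [e] at h0

/-- Base change along pushouts. -/
theorem IsRho.of_po (h : IsRho π n τ u c d) {τ0 : T0 ⟶ E0} {g : T ⟶ T0} {k : E ⟶ E0}
    (po : IsPO τ.1 g.1 k.1 τ0.1) : IsRho π n τ0 (k.1 u) (pullZ k c) (pullZ g d) := by
  refine h.bc hb hR (Alg.po_comm po).symm (po.finiteType h.ok.ft) ?_ (fun J hJ => po.finMod hJ)
    fun K _ x _ z hz => ?_
  · obtain ⟨Y, l, h1, h2⟩ := h.ok.get
    obtain ⟨Y0, i, j, po'⟩ := Alg.exists_po l k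
    refine ⟨Y0, j, PI.of_po po' h1, ?_⟩
    rw [← po'.comm_apply]
    exact (po.paste' po').et1 h2
  · obtain ⟨z0, h1⟩ := po.exists_lift z x hz
    exact ⟨z0, h1, fun z1 h2 => po.hom_ext (h2.1.trans h1.1.symm) (h2.2.trans h1.2.symm)⟩

/-- Independence of the neighbourhood (`FP3`, `exists_isEE_away`, `bc_pt` with `g = 𝟙`). -/
theorem IsRho.ee_eq (h : IsRho π n τ u c d) {ε : E ⟶ E0} (hε : IsEE π' ε) {τ0 : T ⟶ E0}
    (w : τ0 = τ ≫ ε) (h' : IsRho π n τ0 (ε.1 u) (pullZ ε c) d') :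
    ∃ (T1 : Alg A) (l : T ⟶ T1), IsEE π' l ∧ pullZ l d' = pullZ l d := by
  subst w
  obtain ⟨J, h1, h2⟩ := h.ok.adm
  obtain ⟨J1, h3, h4⟩ := h'.ok.adm
  obtain ⟨a, ha, hl, hu⟩ := FP3 (φ := τ.1) (ε := ε.1) (Ideal.span {T.s π'})
    (by rw [map_span_s]; exact hε) h1 h3
  obtain ⟨T1, l, h5, h6⟩ := exists_isEE_away ha
  refine ⟨T1, l, h5, ext_en fun K _ _ x y => ?_⟩
  have hx : (x.comp l.1) a ≠ 0 := (h6.isUnit.map x).ne_zero
  rw [en_pull, en_pull]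
  refine h.bc_pt hb hR (g := 𝟙 T) (Category.id_comp _) h' (x.comp l.1) (fun z hz hc => ?_)
    (fun z0 z1 e0 _ e h7 h8 => ?_) y
  · obtain ⟨z0, e⟩ := hl K z (h2 K z hc) (by rwa [← RingHom.comp_apply, hz])
    refine ⟨z0, e, ?_⟩
    rw [Alg.comp_val, ← RingHom.comp_assoc, e]
    exact hz
  · refine hu K z0 z1 (h4 K z0 h7) (h4 K z1 h8) e ?_
    rw [← e0] at hx
    exact hx

omit hb hR in
theorem RhoB_roots {K : Type} [Field K] [IsAlgClosed K] {P : K[X]} (hP : P ≠ 0)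
    (h0 : ¬P.IsRoot 0) :
    ∑ᶠ a ∈ {a : K | a ≠ 0}, (P.rootMultiplicity a : ℚ) = P.natDegree := by
  classical
  rw [finsum_mem_eq_sum_of_inter_support_eq _ (t := P.roots.toFinset),
    ← IsAlgClosed.card_roots_eq_natDegree, ← Multiset.toFinset_sum_count_eq, Nat.cast_sum]
  · exact Finset.sum_congr rfl fun a _ => by rw [count_roots]
  · ext a
    simp only [Set.mem_inter_iff, Set.mem_ofPred_eq, Function.mem_support, Finset.mem_coe,
      Multiset.mem_toFinset, mem_roots hP, and_congr_left_iff, Nat.cast_ne_zero]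
    intro h
    have h1 := (rootMultiplicity_pos hP).1 (Nat.pos_of_ne_zero h)
    exact ⟨fun _ => h1, fun _ e => h0 (e ▸ h1)⟩

omit hb hR in
theorem RhoB_roots' {K : Type} [Field K] [IsAlgClosed K] {p : K} (hp : p ≠ 0) {j : ℕ}
    (hj : 1 ≤ j) : ∑ᶠ a ∈ {a : K | a ≠ 0}, ((X ^ j - C (p ^ j)).rootMultiplicity a : ℚ) = j := by
  rw [RhoB_roots (X_pow_sub_C_ne_zero hj _), natDegree_X_pow_sub_C]
  simp [IsRoot, zero_pow (Nat.one_le_iff_ne_zero.1 hj), hp]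

/-- The common part of the two computations on the models of annuli. -/
theorem RhoB_sig (N : ℕ) (c0 : ZZ φ m T R) {a : ((RN π N).obj T).R} (ha : GU π a) (k : ℕ)
    {W : T.R[X]} (hW : W.Monic)
    (e : ((RN π N).obj T).s π ^ k * (rnU π N T ^ n - W.eval₂ (rnC π N T).1 (rnU π N T)) =
      ((RN π N).obj T).s π ^ n * a) {j : ℕ} (hj : 1 ≤ j)
    (h1 : ∀ (K : Type) [Field K] (p v : K), p ≠ 0 → v ≠ 0 → ∀ x : T.R →+* K, x (T.s π) = p →
      (W.map x).rootMultiplicity v = (X ^ j - C (p ^ j)).rootMultiplicity v)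
    (h2 : ∀ (K : Type) [Field K] (z : ((RN π N).obj T).R →+* K) (t : K),
      z (((RN π N).obj T).s π) ≠ 0 → t * z (((RN π N).obj T).s π) ^ k = z a →
      z (rnU π N T) ^ n = z (((RN π N).obj T).s π) ^ n * t →
      z (rnU π N T) ^ j = z (((RN π N).obj T).s π) ^ j) :
    IsRho π n (rnC π N T) (rnU π N T) (sig hb ha k (pullZ (rnC π N T) c0)) (j • c0) := by
  classical
  have hok : ROK π n (rnC π N T) (rnU π N T) (sig hb ha k (pullZ (rnC π N T) c0)) := by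
    obtain ⟨J, h3, h4⟩ := rn_roots π N T hj
    refine ⟨rnC_finiteType π N T, gEt_rn π N (f := 𝟙 _) (ρ := 𝟙 T) (IsEE.id (π := π) _).etale
      (IsEE.id (π := π) _).etale ((Category.id_comp _).trans (Category.comp_id _).symm), J, h3, ?_⟩
    rintro K _ _ z ⟨y, hy, h5⟩
    exact h4 K z (hy.pi_ne hb.ne) (h2 K z _ (hy.pi_ne hb.ne) (cl_sig hb ha k hy).1 h5)
  refine ⟨hok, fun K _ _ x y => ?_⟩
  have hd := fun z y => dvm_sig (K := K) hb hR ha k c0 hok hW e z y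
  rw [en_nsmul]
  by_cases h0 : en c0 x y = 0
  · rw [h0, mul_zero]
    refine (finsum_mem_of_eqOn_zero fun p hp => ?_).symm
    simp only [hd, hp.1, hp.2, h0, mul_zero, ite_self, Pi.zero_apply]
  have hx : x (T.s π) ≠ 0 := en_pi_ne c0 x y hb.ne h0
  have hz : ∀ z : ((RN π N).obj T).R →+* K, z.comp (rnC π N T).1 = x →
      z (((RN π N).obj T).s π) ≠ 0 := fun z hz => by
    rwa [← Alg.map_s (rnC π N T), ← RingHom.comp_apply, hz]
  rw [← RhoB_roots' hx hj, finsum_mem_mul]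
  refine (Ops_reindex (s := {p : (((RN π N).obj T).R →+* K) × (Lau R.R →+* K) |
    (p.1.comp (rnC π N T).1 = x ∧ p.2.comp (lauC R.R) = y) ∧
      p.2 (lauL R.R X) * p.1 (((RN π N).obj T).s π) ^ k = p.1 a})
    (f := fun p => dvm π n (rnC π N T) (rnU π N T) (sig hb ha k (pullZ (rnC π N T) c0)) p.1 p.2)
    (fun p => p.1 (rnU π N T)) ?_ ?_ ?_ ?_).symm.trans (Ops_reindex id (fun p hp => hp.1)
      (Set.injOn_id _) (fun p hp h3 => ⟨p, ⟨hp, ?_⟩, rfl⟩) fun _ _ => rfl)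
  · exact fun p hp => (rnU_GU π N T).ne_zero p.1 (hz p.1 hp.1.1)
  · intro p hp q hq h3
    have h4 : p.1 = q.1 := (rn_point π N T x hx ((rnU_GU π N T).ne_zero q.1 (hz q.1 hq.1.1))).unique
      ⟨hp.1.1, h3⟩ ⟨hq.1.1, rfl⟩
    refine Prod.ext h4 (lau_ext (hp.1.2.trans hq.1.2.symm)
      (mul_right_cancel₀ (pow_ne_zero k (hz q.1 hq.1.1)) ?_))
    rw [hq.2, ← h4]
    exact hp.2
  · intro v hv _
    obtain ⟨z, ⟨h3, h4⟩, -⟩ := rn_point π N T x hx hv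
    have h5 := pow_ne_zero k (hz z h3)
    have h6 := (div_ne_zero (ha.ne_zero z (hz z h3)) h5).isUnit
    refine ⟨(z, lauLift y _ h6), ⟨⟨h3, RingHom.ext fun r => lauLift_lauC y _ h6 r⟩, ?_⟩, h4⟩
    rw [lauLift_lauL, eval₂_X]
    exact div_mul_cancel₀ _ h5
  · intro p hp
    rw [hd, if_pos hp.2, hp.1.1, hp.1.2,
      h1 K _ _ hx ((rnU_GU π N T).ne_zero p.1 (hz p.1 hp.1.1)) x rfl]
  · by_contra h4
    exact h3 ((hd p.1 p.2).trans (if_neg h4))

/-- `dvm_sig` with `W = X ^ n - π ^ (n - 1) X`; `rn_roots`, `cl_sig`, `rn_point`, `gEt_rn`. -/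
theorem isRho_sig_u (N : ℕ) (hn : 2 ≤ n) (c0 : ZZ φ m T R) :
    IsRho π n (rnC π N T) (rnU π N T) (sig hb (rnU_GU π N T) 1 (pullZ (rnC π N T) c0))
      ((n - 1) • c0) := by
  obtain ⟨j, rfl⟩ : ∃ j, n = j + 1 := ⟨n - 1, by omega⟩
  have hj : 1 ≤ j := by omega
  rw [Nat.add_sub_cancel]
  refine RhoB_sig hb hR N c0 _ 1 (W := X * (X ^ j - C (T.s π ^ j)))
    (monic_X.mul (monic_X_pow_sub_C _ (by omega))) ?_ hj (fun K _ p v hp hv x hx => ?_)
    fun K _ z t h1 h2 h3 => ?_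
  · rw [eval₂_mul, eval₂_sub, eval₂_X_pow, eval₂_X, eval₂_C, map_pow, Alg.map_s]
    ring
  · rw [Polynomial.map_mul, Polynomial.map_sub, Polynomial.map_pow, map_X, map_C, map_pow, hx,
      rootMultiplicity_mul (mul_ne_zero X_ne_zero (X_pow_sub_C_ne_zero hj _)),
      rootMultiplicity_eq_zero (p := X) (by simpa using hv), zero_add]
  · refine mul_right_cancel₀ ((rnU_GU π N T).ne_zero z h1) ?_
    rw [← pow_succ, h3, ← h2]
    ring

/-- `dvm_sig` with `W = X ^ n - π ^ n`. -/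
theorem isRho_sig_one (N : ℕ) (hn : 1 ≤ n) (c0 : ZZ φ m T R) :
    IsRho π n (rnC π N T) (rnU π N T) (sig hb (GU.one _) 0 (pullZ (rnC π N T) c0)) (n • c0) := by
  refine RhoB_sig hb hR N c0 _ 0 (W := X ^ n - C (T.s π ^ n)) (monic_X_pow_sub_C _ (by omega)) ?_ hn
    (fun K _ p v _ _ x hx => ?_) fun K _ z t _ h2 h3 => ?_
  · rw [eval₂_sub, eval₂_X_pow, eval₂_C, map_pow, Alg.map_s]
    ring
  · rw [Polynomial.map_sub, Polynomial.map_pow, map_X, map_C, map_pow, hx]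
  · rw [pow_zero, mul_one, map_one] at h2
    rw [h3, h2, mul_one]

/-- `dvm_prod`, `cl_swp_sig`. -/
theorem IsRho.prod (h : IsRho π n τ u c d) {a : T.R} (ha : GU π a) (k : ℕ) :
    IsRho π n τ u (pushZ (swp R) (sig hb (ha.map τ) k c)) (sig hb ha k d) := by
  classical
  obtain ⟨J, h1, h2⟩ := h.ok.adm
  refine ⟨⟨h.ok.ft, h.ok.get, J, h1, ?_⟩, fun K _ _ x (y : Lau R.R →+* K) => ?_⟩
  · rintro K _ _ z ⟨y, hy, e⟩
    refine h2 K z ⟨_, (cl_swp_sig hb _ k hy).2, ?_⟩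
    rw [RingHom.comp_apply, lauMap_X]
    exact e
  have hd : ∀ p : (E.R →+* K) × (Lau (Lau R.R) →+* K), p.1.comp τ.1 = x →
      p.2.comp (lauC (Lau R.R)) = y →
      dvm π n τ u (pushZ (swp R) (sig hb (ha.map τ) k c)) p.1 p.2 =
        if y (lauL R.R X) * x (T.s π) ^ k = x a then
          dvm π n τ u c p.1 (p.2.comp (lauMap (lauC R.R))) else 0 := by
    rintro p rfl rfl
    rw [dvm_prod hb hR h.ok, ← Alg.map_s τ]
    rfl
  refine (en_sig hb ha k d x y).trans ?_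
  by_cases hc : y (lauL R.R X) * x (T.s π) ^ k = x a
  · rw [if_pos hc, h.ent]
    refine (Ops_reindex (fun p : (E.R →+* K) × (Lau (Lau R.R) →+* K) =>
      (p.1, p.2.comp (lauMap (lauC R.R)))) ?_ ?_ ?_ fun p hp =>
        (hd p hp.1 hp.2).trans (if_pos hc)).symm
    · refine fun p hp => ⟨hp.1, ?_⟩
      have h3 : p.2.comp (lauC (Lau R.R)) = y := hp.2
      rw [RingHom.comp_assoc, lauMap_lauC, ← RingHom.comp_assoc, h3]
    · intro p hp q hq e
      have h3 : p.2.comp (lauC (Lau R.R)) = y := hp.2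
      have h4 : q.2.comp (lauC (Lau R.R)) = y := hq.2
      have h5 := RingHom.congr_fun (Prod.ext_iff.1 e).2 (lauL R.R X)
      simp only [RingHom.comp_apply, lauMap_X] at h5
      exact Prod.ext (Prod.ext_iff.1 e).1 (lau_ext (h3.trans h4.symm) h5)
    · intro q hq _
      have h3 : (lauLift y (q.2 (lauL R.R X)) ((isUnit_lauL_X R.R).map q.2)).comp
          (lauC (Lau R.R)) = y :=
        RingHom.ext fun r => lauLift_lauC y _ ((isUnit_lauL_X R.R).map q.2) r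
      refine ⟨(q.1, lauLift y (q.2 (lauL R.R X)) ((isUnit_lauL_X R.R).map q.2)), ⟨hq.1, h3⟩,
        Prod.ext rfl (lau_ext ?_ ?_)⟩
      · rw [RingHom.comp_assoc, lauMap_lauC, ← RingHom.comp_assoc, h3]
        exact hq.2.symm
      · rw [RingHom.comp_apply, lauMap_X, lauLift_lauL, eval₂_X]
  · rw [if_neg hc]
    exact (finsum_mem_of_eqOn_zero fun p hp => (hd p hp.1 hp.2).trans (if_neg hc)).symm

end Pool.Agent.KEW.L8
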