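import Pool.Agent.P.MP_6277db_ag.KEW.L8a.Pi

/-!
KEW project, layer L8a: surjectivity and injectivity up to homotopy relative to finite families of
maps give an equivalence.
-/

set_option backward.isDefEq.respectTransparency false

noncomputable section

open CategoryTheory

namespace Pool.Agent.KEW.L8

universe v u v' u'

variable {D : Type u} [Category.{v} D] {L : Type 1} [CommRing L]

namespace CylD

variable (c : CylD D) {Y Y' : Fn D L}

/-- Surjectivity up to homotopy, relative to finite families of maps. -/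
def CondS (f : Y ⟶ Y') : Prop :=
  ∀ (B : D) (ι : Type) [Finite ι] (T : ι → D) (φ : ∀ i, B ⟶ T i) (x' : Y'.obj B),
    (∀ i, Y'.map (φ i) x' = 0) →
    ∃ (x : Y.obj B) (h : Y'.obj (c.I.obj B)), (∀ i, Y.map (φ i) x = 0) ∧
      (∀ i, Y'.map (c.I.map (φ i)) h = 0) ∧ Y'.map (c.i1 B) h = 0 ∧
      Y'.map (c.i0 B) h = x' - f.app B x

/-- Injectivity up to homotopy, relative to finite families of maps. -/
def CondI (f : Y ⟶ Y') : Prop :=
  ∀ (B : D) (ι : Type) [Finite ι] (T : ι → D) (φ : ∀ i, B ⟶ T i) (x : Y.obj B)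
    (h : Y'.obj (c.I.obj B)), (∀ i, Y'.map (c.I.map (φ i)) h = 0) → Y'.map (c.i1 B) h = 0 →
    Y'.map (c.i0 B) h = f.app B x →
    ∃ h0 : Y.obj (c.I.obj B), (∀ i, Y.map (c.I.map (φ i)) h0 = 0) ∧ Y.map (c.i1 B) h0 = 0 ∧
      Y.map (c.i0 B) h0 = x

variable {c}

/-- The underlying path of a loop. -/
def SI_v (c : CylD D) (F : Fn D L) (B : D) : (c.Om.obj F).obj B →ₗ[L] F.obj (c.I.obj B) :=
  ((c.Pι F).app B).hom ∘ₗ ((c.Oι F).app B).hom

theorem SI_inj (F : Fn D L) (B : D) : Function.Injective (SI_v c F B) :=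
  (c.Pι_inj F B).comp (c.Oι_inj F B)

theorem SI_zero {F : Fn D L} {B : D} {x : (c.Om.obj F).obj B} (h : SI_v c F B x = 0) : x = 0 :=
  SI_inj F B (h.trans (map_zero _).symm)

theorem SI_map {F : Fn D L} {B B' : D} (φ : B ⟶ B') (x : (c.Om.obj F).obj B) :
    SI_v c F B' ((c.Om.obj F).map φ x) = F.map (c.I.map φ) (SI_v c F B x) := rfl

theorem SI_nat {F G : Fn D L} (α : F ⟶ G) {B : D} (x : (c.Om.obj F).obj B) :
    SI_v c G B ((c.Om.map α).app B x) = α.app (c.I.obj B) (SI_v c F B x) := rfl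

theorem SI_i0 {F : Fn D L} {B : D} (x : (c.Om.obj F).obj B) :
    F.map (c.i0 B) (SI_v c F B x) = 0 := c.ev_Oι x

theorem SI_i1 {F : Fn D L} {B : D} (x : (c.Om.obj F).obj B) :
    F.map (c.i1 B) (SI_v c F B x) = 0 := c.e1_Pι _

theorem SI_ex {F : Fn D L} {B : D} {y : F.obj (c.I.obj B)} (h0 : F.map (c.i0 B) y = 0)
    (h1 : F.map (c.i1 B) y = 0) : ∃ x, SI_v c F B x = y := ⟨⟨⟨y, h1⟩, h0⟩, rfl⟩

/-- The targets of the enlarged family. -/
def SI_T (c : CylD D) (B : D) {ι : Type} (T : ι → D) : ι ⊕ Bool → D :=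
  Sum.elim (fun i => c.I.obj (T i)) fun _ => B

/-- The enlarged family. -/
def SI_φ (c : CylD D) {B : D} {ι : Type} {T : ι → D} (φ : ∀ i, B ⟶ T i) :
    ∀ j, c.I.obj B ⟶ SI_T c B T j
  | Sum.inl i => c.I.map (φ i)
  | Sum.inr false => c.i0 B
  | Sum.inr true => c.i1 B

theorem SI_sw_map (F : Fn D L) {B B' : D} (φ : B ⟶ B') (y : F.obj (c.I.obj (c.I.obj B))) :
    F.map (c.I.map (c.I.map φ)) (F.map (c.sw B) y) =
      F.map (c.sw B') (F.map (c.I.map (c.I.map φ)) y) := by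
  rw [map_map, map_map, c.sw_nat]

theorem SI_out0 (F : Fn D L) {B : D} (y : F.obj (c.I.obj (c.I.obj B))) :
    F.map (c.i0 (c.I.obj B)) (F.map (c.sw B) y) = F.map (c.I.map (c.i0 B)) y := by
  rw [map_map, c.sw_out0]

theorem SI_out1 (F : Fn D L) {B : D} (y : F.obj (c.I.obj (c.I.obj B))) :
    F.map (c.i1 (c.I.obj B)) (F.map (c.sw B) y) = F.map (c.I.map (c.i1 B)) y := by
  rw [map_map, c.sw_out1]

theorem SI_in0 (F : Fn D L) {B : D} (y : F.obj (c.I.obj (c.I.obj B))) :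
    F.map (c.I.map (c.i0 B)) (F.map (c.sw B) y) = F.map (c.i0 (c.I.obj B)) y := by
  rw [map_map, c.sw_in0]

theorem SI_in1 (F : Fn D L) {B : D} (y : F.obj (c.I.obj (c.I.obj B))) :
    F.map (c.I.map (c.i1 B)) (F.map (c.sw B) y) = F.map (c.i1 (c.I.obj B)) y := by
  rw [map_map, c.sw_in1]

/-- Use the family `I φ_i, i0, i1` on `I B` (index type `ι ⊕ Bool`) and conjugate by `sw`. -/
theorem CondS.om {f : Y ⟶ Y'} (h : c.CondS f) : c.CondS (c.Om.map f) := by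
  intro B ι _ T φ x' hx'
  obtain ⟨X, H, h1, h2, h3, h4⟩ := h (c.I.obj B) (ι ⊕ Bool) (SI_T c B T) (SI_φ c φ)
    (SI_v c Y' B x') (by
      rintro (i | _ | _)
      · exact (SI_map (φ i) x').symm.trans (by rw [hx' i, map_zero])
      · exact SI_i0 x'
      · exact SI_i1 x')
  obtain ⟨x, rfl⟩ := SI_ex (y := X) (h1 (Sum.inr false)) (h1 (Sum.inr true))
  obtain ⟨k, hk⟩ := SI_ex (y := Y'.map (c.sw B) H)
    ((SI_out0 Y' H).trans (h2 (Sum.inr false))) ((SI_out1 Y' H).trans (h2 (Sum.inr true)))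
  refine ⟨x, k, fun i => SI_zero ?_, fun i => SI_zero ?_, SI_zero ?_, SI_inj _ _ ?_⟩
  · exact (SI_map (φ i) x).trans (h1 (Sum.inl i))
  · have e : Y'.map (c.I.map (c.I.map (φ i))) H = 0 := h2 (Sum.inl i)
    rw [SI_map, hk, SI_sw_map, e, map_zero]
  · rw [SI_map, hk, SI_in1, h3]
  · rw [SI_map, hk, SI_in0, h4, map_sub, SI_nat]

theorem CondI.om {f : Y ⟶ Y'} (h : c.CondI f) : c.CondI (c.Om.map f) := by
  intro B ι _ T φ x k h1 h2 h3
  obtain ⟨H, h4, h5, h6⟩ := h (c.I.obj B) (ι ⊕ Bool) (SI_T c B T) (SI_φ c φ)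
    (SI_v c Y B x) (Y'.map (c.sw B) (SI_v c Y' (c.I.obj B) k)) (by
      rintro (i | _ | _)
      · refine (SI_sw_map Y' (φ i) _).trans ?_
        rw [← SI_map, h1 i, map_zero, map_zero]
      · exact (SI_in0 Y' _).trans (SI_i0 k)
      · exact (SI_in1 Y' _).trans (SI_i1 k))
    (by rw [SI_out1, ← SI_map, h2, map_zero]) (by rw [SI_out0, ← SI_map, h3, SI_nat])
  obtain ⟨k0, hk⟩ := SI_ex (y := Y.map (c.sw B) H)
    ((SI_out0 Y H).trans (h4 (Sum.inr false))) ((SI_out1 Y H).trans (h4 (Sum.inr true)))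
  refine ⟨k0, fun i => SI_zero ?_, SI_zero ?_, SI_inj _ _ ?_⟩
  · have e : Y.map (c.I.map (c.I.map (φ i))) H = 0 := h4 (Sum.inl i)
    rw [SI_map, hk, SI_sw_map, e, map_zero]
  · rw [SI_map, hk, SI_in1, h5]
  · rw [SI_map, hk, SI_in0, h6]

theorem SI_base {f : Y ⟶ Y'} (hS : c.CondS f) (hI : c.CondI f) (B : D) :
    Function.Bijective ((c.pi0.map f).app B) := by
  constructor
  · refine (injective_iff_map_eq_zero ((c.pi0.map f).app B).hom).2 fun ξ hξ => ?_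
    obtain ⟨x, rfl⟩ := c.pr0_surj Y B ξ
    obtain ⟨k, h1, h0⟩ := (c.pr0_eq_zero' _).1 ((c.pr0_nat f x).symm.trans hξ)
    obtain ⟨k0, -, h2, h3⟩ := hI B Empty (fun i => i.elim) (fun i => i.elim) x k
      (fun i => i.elim) h1 h0
    exact (c.pr0_eq_zero' x).2 ⟨k0, h2, h3⟩
  · intro ξ
    obtain ⟨x', rfl⟩ := c.pr0_surj Y' B ξ
    obtain ⟨x, k, -, -, h1, h0⟩ := hS B Empty (fun i => i.elim) (fun i => i.elim) x'
      fun i => i.elim
    refine ⟨(c.pr0 Y).app B x, ?_⟩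
    have e := (c.pr0_eq_zero' _).2 ⟨k, h1, h0⟩
    rw [map_sub, sub_eq_zero] at e
    rw [pr0_nat, e]

theorem PiEq.of_cond {f : Y ⟶ Y'} (hS : c.CondS f) (hI : c.CondI f) :
    c.PiEq (fun _ => True) f := by
  intro q
  induction q generalizing Y Y' with
  | zero => exact fun B _ => SI_base hS hI B
  | succ q ih =>
    intro B hB
    have := ih hS.om hI.om B hB
    rw [← piq_succ_map] at this
    exact this

end CylD

end Pool.Agent.KEW.L8
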