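import Pool.Agent.P.MP_6277db_ag.KEW.L8a.Sw0

/-!
KEW project, layer L8a: existence of the finite model of the divisor `a^2 - c_s a + x y`.
-/

set_option backward.isDefEq.respectTransparency false

noncomputable section

open CategoryTheory Polynomial

namespace Pool.Agent.KEW.L8

open _root_.KEW

variable {A : Type} [CommRing A] (π : A) (N : ℕ)

section book

variable {π N}

theorem Sw_ι_map {M : ℕ} {T T' : Alg A} (f : T ⟶ T') (z : ((RN π M).obj T).R) :
    (rnι π M T').1 (((RN π M).map f).1 z) = lauMap f.1 ((rnι π M T).1 z) :=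
  Alg.congr_val (rnι_nat π M f) z

theorem Sw_ι_C {M : ℕ} (T : Alg A) (x : T.R) : (rnι π M T).1 ((rnC π M T).1 x) = lauC T.R x :=
  Alg.congr_val (rnC_rnι π M T) x

theorem Sw_C_map {M : ℕ} {T T' : Alg A} (f : T ⟶ T') (x : T.R) :
    ((RN π M).map f).1 ((rnC π M T).1 x) = (rnC π M T').1 (f.1 x) :=
  (Alg.congr_val (rnC_nat π M f) x).symm

variable (π N)

theorem swS_map (B : Alg A) {B' : Alg A} (g : B ⟶ B') :
    ((RN π _).map ((lauF A).map ((polyF A).map g))).1 (swS π N B) = swS π N B' :=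
  (Sw_C_map _ _).trans (congrArg _ ((Sw_lauC (mapRingHom g.1) X).trans (congrArg _ (map_X _))))

theorem swX_map (B : Alg A) {B' : Alg A} (g : B ⟶ B') :
    ((RN π _).map ((lauF A).map ((polyF A).map g))).1 (swX π N B) = swX π N B' :=
  (Sw_C_map _ _).trans (congrArg _ (lauMap_X (mapRingHom g.1)))

theorem swC_hom (B : Alg A) {S : Type} [CommRing S] (φ : (swQ π N B).R →+* S) {s x p u : S}
    (h1 : φ (swS π N B) = s) (h2 : φ (swX π N B) = x) (h3 : φ ((swQ π N B).s π) = p)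
    (h4 : φ (rnU π _ (swT B)) = u) : φ (swC π N B) = (1 - s) * (p * x + u) + s * (p + x * u) := by
  simp only [swC, map_add, map_mul, map_sub, map_one, h1, h2, h3, h4]

theorem swP_hom (B : Alg A) {S : Type} [CommRing S] (φ : (swQ π N B).R →+* S) {c x p u : S}
    (h1 : φ (swC π N B) = c) (h2 : φ (swX π N B) = x) (h3 : φ ((swQ π N B).s π) = p)
    (h4 : φ (rnU π _ (swT B)) = u) : (swP π N B).map φ = X ^ 2 - C c * X + C (p * x * u) := by
  rw [swP, Polynomial.map_add, Polynomial.map_sub, Polynomial.map_mul, Polynomial.map_pow, map_X,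
    map_C, map_C, map_mul φ, map_mul φ, h1, h2, h3, h4]

theorem swC_map (B : Alg A) {B' : Alg A} (g : B ⟶ B') :
    ((RN π _).map ((lauF A).map ((polyF A).map g))).1 (swC π N B) = swC π N B' :=
  swC_hom π N B _ (swS_map π N B g) (swX_map π N B g) (Alg.map_s _ π) (map_rnU π _ _)

theorem swP_map (B : Alg A) {B' : Alg A} (g : B ⟶ B') :
    (swP π N B).map ((RN π _).map ((lauF A).map ((polyF A).map g))).1 = swP π N B' :=
  swP_hom π N B _ (swC_map π N B g) (swX_map π N B g) (Alg.map_s _ π) (map_rnU π _ _)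

theorem swS_i0 (B : Alg A) : ((RN π _).map ((lauF A).map ((cyl A).i0 B))).1 (swS π N B) = 0 :=
  (Sw_C_map _ _).trans ((congrArg _ ((Sw_lauC (evalRingHom (0 : B.R)) X).trans
    ((congrArg _ eval_X).trans (map_zero _)))).trans (map_zero _))

theorem swS_i1 (B : Alg A) : ((RN π _).map ((lauF A).map ((cyl A).i1 B))).1 (swS π N B) = 1 :=
  (Sw_C_map _ _).trans ((congrArg _ ((Sw_lauC (evalRingHom (1 : B.R)) X).trans
    ((congrArg _ eval_X).trans (map_one _)))).trans (map_one _))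

theorem swX_i0 (B : Alg A) :
    ((RN π _).map ((lauF A).map ((cyl A).i0 B))).1 (swX π N B) = swX0 π N B :=
  (Sw_C_map _ _).trans (congrArg _ (lauMap_X (evalRingHom (0 : B.R))))

theorem swX_i1 (B : Alg A) :
    ((RN π _).map ((lauF A).map ((cyl A).i1 B))).1 (swX π N B) = swX0 π N B :=
  (Sw_C_map _ _).trans (congrArg _ (lauMap_X (evalRingHom (1 : B.R))))

theorem swC_i0 (B : Alg A) : ((RN π _).map ((lauF A).map ((cyl A).i0 B))).1 (swC π N B) =
    (swQ0 π N B).s π * swX0 π N B + rnU π _ ((lauF A).obj B) :=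
  (swC_hom π N B _ (swS_i0 π N B) (swX_i0 π N B) (Alg.map_s _ π) (map_rnU π _ _)).trans (by ring)

theorem swC_i1 (B : Alg A) : ((RN π _).map ((lauF A).map ((cyl A).i1 B))).1 (swC π N B) =
    (swQ0 π N B).s π + swX0 π N B * rnU π _ ((lauF A).obj B) :=
  (swC_hom π N B _ (swS_i1 π N B) (swX_i1 π N B) (Alg.map_s _ π) (map_rnU π _ _)).trans (by ring)

theorem Sw_prod {S : Type} [CommRing S] {a b c d : S} (h1 : c = a + b) (h2 : d = a * b) :
    (X ^ 2 - C c * X + C d : S[X]) = (X - C a) * (X - C b) := by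
  rw [h1, h2, map_add, map_mul]
  ring

theorem swP_i0 (B : Alg A) : (swP π N B).map ((RN π _).map ((lauF A).map ((cyl A).i0 B))).1 =
    (X - C ((swQ0 π N B).s π * swX0 π N B)) * (X - C (rnU π _ ((lauF A).obj B))) :=
  (swP_hom π N B _ (swC_i0 π N B) (swX_i0 π N B) (Alg.map_s _ π) (map_rnU π _ _)).trans
    (Sw_prod rfl rfl)

theorem swP_i1 (B : Alg A) : (swP π N B).map ((RN π _).map ((lauF A).map ((cyl A).i1 B))).1 =
    (X - C ((swQ0 π N B).s π)) * (X - C (swX0 π N B * rnU π _ ((lauF A).obj B))) :=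
  (swP_hom π N B _ (swC_i1 π N B) (swX_i1 π N B) (Alg.map_s _ π) (map_rnU π _ _)).trans
    (Sw_prod rfl (mul_assoc _ _ _))

section ring

variable {R S : Type} [CommRing R] [CommRing S]

theorem Sw_map_zpow (f : R →+* S) (u : Rˣ) (b : ℤ) :
    ((Units.map f.toMonoidHom u ^ b : Sˣ) : S) = f ((u ^ b : Rˣ) : R) := by
  rw [← map_zpow]
  rfl

/-- Functoriality of the ambient Laurent ring, followed by the map to the ring of the divisor. -/
def lθ (g : R →+* S) : Lau (Lau R[X]) →+* AdjoinRoot (lP S) :=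
  (AdjoinRoot.of (lP S)).comp (lauMap (lauMap (mapRingHom g)))

theorem lθ_lk (g : R →+* S) (x : R) : lθ g (lk R x) = AdjoinRoot.of (lP S) (lk S (g x)) := by
  rw [lθ, RingHom.comp_apply, lauMap2_lk, coe_mapRingHom, map_C]
  rfl

theorem lθ_eq (g : R →+* S) : ((isUnit_la S).unit : AdjoinRoot (lP S)) ^ 2 -
    lθ g (lc R) * (isUnit_la S).unit + lθ g (lx R * ly R) = 0 := by
  have h1 : lauMap (lauMap (mapRingHom g)) (ls R) = ls S := by
    rw [lauMap2_ls, coe_mapRingHom, map_X, ls]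
  have h2 : lauMap (lauMap (mapRingHom g)) (lx R) = lx S := lauMap2_lx _
  have h3 : lauMap (lauMap (mapRingHom g)) (ly R) = ly S := lauMap2_ly _
  have h4 : lauMap (lauMap (mapRingHom g)) (lc R) = lc S := by
    simp only [lc, map_add, map_mul, map_sub, map_one, h1, h2, h3]
  rw [lθ, RingHom.comp_apply, RingHom.comp_apply, h4, map_mul (lauMap _), h2, h3, IsUnit.unit_spec]
  exact la_eq S

variable (R) in
/-- The unit `x` of `R[x, 1/x][y, 1/y]`. -/
def uX : (Lau (Lau R))ˣ := Units.map (lauC (Lau R)).toMonoidHom (tU R)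

theorem uX_val : (uX R : Lau (Lau R)) = lauC _ (lauL R X) := rfl

/-- Specialisation of `s`. -/
def lev (s : R) : Lau (Lau R[X]) →+* Lau (Lau R) := lauMap (lauMap (evalRingHom s))

theorem lev_lk (s x : R) : lev s (lk R x) = lauC _ (lauC R x) := by
  rw [lev, lauMap2_lk, coe_evalRingHom, eval_C]

theorem lev_eq (s : R) (r : Lau (Lau R)) : r ^ 2 - lev s (lc R) * r + lev s (lx R * ly R) =
    r ^ 2 - ((1 - lauC _ (lauC R s)) * ((uX R : Lau (Lau R)) + tU (Lau R)) +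
      lauC _ (lauC R s) * (1 + (uX R : Lau (Lau R)) * tU (Lau R))) * r +
      (uX R : Lau (Lau R)) * tU (Lau R) := by
  have h1 : lev s (ls R) = lauC _ (lauC R s) := by rw [lev, lauMap2_ls, coe_evalRingHom, eval_X]
  have h2 : lev s (lx R) = uX R := lauMap2_lx _
  have h3 : lev s (ly R) = tU (Lau R) := lauMap2_ly _
  simp only [lc, map_add, map_mul, map_sub, map_one, h1, h2, h3]

end ring

theorem sw_nat {B B' : Alg A} (g : B ⟶ B') : ∃ k : swD π N B ⟶ swD π N B',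
    swδ π N B ≫ k = (RN π _).map ((lauF A).map ((polyF A).map g)) ≫ swδ π N B' ∧
      k.1 (swα π N B) = swα π N B' ∧ swψ π N B ≫ k = (RN π N).map g ≫ swψ π N B' := by
  have hπ : lθ g.1 (lk B.R (B.s π)) = AdjoinRoot.of (lP B'.R) (lk B'.R (B'.s π)) := by
    rw [lθ_lk, Alg.map_s]
  obtain ⟨k, h1, h2, h3⟩ := sw_lift (swj π N B') (swj_inj π N B') (lθ g.1)
    (isUnit_la B'.R).unit (lθ_eq g.1)
    ((RN π (2 * N + 1)).map ((lauF A).map ((polyF A).map g)) ≫ swδ π N B')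
    (fun q => (swj_δ π N B' _).trans (congrArg (AdjoinRoot.of (lP B'.R))
      (Sw_ι_map ((lauF A).map ((polyF A).map g)) q)))
    fun b hb => ⟨⟨swG π B' b, swG_mem π N B' hb⟩, by rw [hπ]; rfl⟩
  refine ⟨k, h1, swj_inj π N B' (by rw [h2, hπ, swj_α, IsUnit.unit_spec]),
    h3 _ ((swΨ B').comp (lauMap g.1)) (fun x => ?_) ?_ fun z => ?_⟩
  · rw [RingHom.comp_apply, Sw_lauC, swΨ, lauLift_lauC, lθ_lk, RingHom.comp_apply]
  · rw [RingHom.comp_apply, lauMap_X, swΨ, lauLift_lauL, eval₂_X, IsUnit.unit_spec]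
  · exact (swj_ψ π N B' _).trans (congrArg (swΨ B') (Sw_ι_map g z))

/-- The inclusion of `swQ0` in the Laurent ring. -/
def swι0 (B : Alg A) : (swQ0 π N B).R →+* Lau (Lau B.R) := (rnι π (2 * N + 1) ((lauF A).obj B)).1

theorem swι0_inj (B : Alg A) : Function.Injective (swι0 π N B) := rnι_inj π _ _

theorem swι0_s (B : Alg A) (a : A) : swι0 π N B ((swQ0 π N B).s a) = lauC _ (lauC B.R (B.s a)) := rfl

theorem swι0_X (B : Alg A) : swι0 π N B (swX0 π N B) = uX B.R := rfl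

theorem swι0_U (B : Alg A) : swι0 π N B (rnU π _ ((lauF A).obj B)) =
    lauC _ (lauC B.R (B.s π)) * tU (Lau B.R) := rnι_rnU π _ ((lauF A).obj B)

theorem swι0_C (B : Alg A) (x : Lau B.R) :
    swι0 π N B ((rnC π _ ((lauF A).obj B)).1 x) = lauC _ x := rfl

theorem swι0_G (B : Alg A) {b : ℤ} (hb : |b| ≤ N + 1) : ∃ y, swι0 π N B y =
    lauC _ (lauC B.R (B.s π)) * ((tU (Lau B.R) ^ b : (Lau (Lau B.R))ˣ) : Lau (Lau B.R)) :=
  ⟨rnG π _ ((lauF A).obj B) b (hb.trans (by omega)), rfl⟩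

variable {π N}

theorem sw_spec {B : Alg A} (s : B.R) (τ : swQ π N B ⟶ swQ0 π N B)
    (hτ : ∀ q, swι0 π N B (τ.1 q) = lev s (swι π N B q)) (r : (Lau (Lau B.R))ˣ)
    (hr : (r : Lau (Lau B.R)) ^ 2 - lev s (lc B.R) * r + lev s (lx B.R * ly B.R) = 0)
    (hb : ∀ b : ℤ, |b| ≤ N + 1 → ∃ y, swι0 π N B y =
      lauC _ (lauC B.R (B.s π)) * ((r ^ b : (Lau (Lau B.R))ˣ) : Lau (Lau B.R))) :
    ∃ σ : swD π N B ⟶ swQ0 π N B, swδ π N B ≫ σ = τ ∧
      swι0 π N B (σ.1 (swα π N B)) = lauC _ (lauC B.R (B.s π)) * r ∧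
      ∀ κ : (RN π N).obj B ⟶ swQ0 π N B, ∀ μ : Lau B.R →+* Lau (Lau B.R),
        (∀ x, μ (lauC B.R x) = lauC _ (lauC B.R x)) → μ (lauL B.R X) = r →
        (∀ z, swι0 π N B (κ.1 z) = μ ((rnι π N B).1 z)) → swψ π N B ≫ σ = κ := by
  obtain ⟨σ, h1, h2, h3⟩ := sw_lift (swι0 π N B) (swι0_inj π N B) (lev s) r hr τ hτ
    fun b h => by rw [lev_lk]; exact hb b h
  exact ⟨σ, h1, by rw [h2, lev_lk], fun κ μ h4 => h3 κ μ fun x => by rw [h4, lev_lk]⟩

variable (π N)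

theorem sw_at0 (B : Alg A) : ∃ σ1 σ2 : swD π N B ⟶ swQ0 π N B,
    swδ π N B ≫ σ1 = (RN π _).map ((lauF A).map ((cyl A).i0 B)) ∧
    swδ π N B ≫ σ2 = (RN π _).map ((lauF A).map ((cyl A).i0 B)) ∧
    σ1.1 (swα π N B) = (swQ0 π N B).s π * swX0 π N B ∧
    σ2.1 (swα π N B) = rnU π _ ((lauF A).obj B) ∧
    swψ π N B ≫ σ1 = rnι π N B ≫ rnC π _ ((lauF A).obj B) ∧
    swψ π N B ≫ σ2 = rnT π (by omega : N ≤ 2 * N + 1) B ≫ (RN π _).map (cL B) := by
  have hτ : ∀ q, swι0 π N B (((RN π _).map ((lauF A).map ((cyl A).i0 B))).1 q) =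
      lev 0 (swι π N B q) := fun q => Sw_ι_map ((lauF A).map ((cyl A).i0 B)) q
  obtain ⟨σ1, h1, h2, h3⟩ := sw_spec (0 : B.R) _ hτ (uX B.R)
    (by rw [lev_eq, map_zero, map_zero]; ring)
    fun b _ => ⟨_, (swι0_C π N B _).trans (by rw [uX, Sw_map_zpow, ← map_mul])⟩
  obtain ⟨σ2, k1, k2, k3⟩ := sw_spec (0 : B.R) _ hτ (tU (Lau B.R))
    (by rw [lev_eq, map_zero, map_zero]; ring) fun b hb => swι0_G π N B hb
  refine ⟨σ1, σ2, h1, k1, swι0_inj π N B (by rw [h2, map_mul, swι0_s, swι0_X]),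
    swι0_inj π N B (by rw [k2, swι0_U]),
    h3 _ (lauC (Lau B.R)) (fun _ => rfl) uX_val.symm fun z => swι0_C π N B _,
    k3 _ (lauMap (lauC B.R)) (fun x => Sw_lauC _ x) (lauMap_X _) fun z => ?_⟩
  exact (Sw_ι_map (cL B) _).trans (congrArg (lauMap (lauC B.R))
    (Alg.congr_val (rnT_rnι π (by omega : N ≤ 2 * N + 1) B) z))

theorem sw_at1 (B : Alg A) : ∃ σ1 σ2 : swD π N B ⟶ swQ0 π N B,
    swδ π N B ≫ σ1 = (RN π _).map ((lauF A).map ((cyl A).i1 B)) ∧
    swδ π N B ≫ σ2 = (RN π _).map ((lauF A).map ((cyl A).i1 B)) ∧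
    σ1.1 (swα π N B) = (swQ0 π N B).s π ∧
    σ2.1 (swα π N B) = swX0 π N B * rnU π _ ((lauF A).obj B) ∧
    swψ π N B ≫ σ1 = rnι π N B ≫ eL B ≫ cL B ≫ rnC π _ ((lauF A).obj B) := by
  have hτ : ∀ q, swι0 π N B (((RN π _).map ((lauF A).map ((cyl A).i1 B))).1 q) =
      lev 1 (swι π N B q) := fun q => Sw_ι_map ((lauF A).map ((cyl A).i1 B)) q
  obtain ⟨σ1, h1, h2, h3⟩ := sw_spec (1 : B.R) _ hτ 1
    (by rw [lev_eq, map_one, map_one, Units.val_one]; ring)
    fun b _ => ⟨_, (swι0_s π N B π).trans (by rw [one_zpow, Units.val_one, mul_one])⟩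
  obtain ⟨σ2, k1, k2, -⟩ := sw_spec (1 : B.R) _ hτ (uX B.R * tU (Lau B.R))
    (by rw [lev_eq, map_one, map_one, Units.val_mul]; ring)
    fun b hb => by
      obtain ⟨y, hy⟩ := swι0_G π N B hb
      refine ⟨(rnC π _ ((lauF A).obj B)).1 ((tU B.R ^ b : (Lau B.R)ˣ) : Lau B.R) * y, ?_⟩
      rw [map_mul, hy, swι0_C, mul_zpow, Units.val_mul, uX, Sw_map_zpow, mul_left_comm]
  refine ⟨σ1, σ2, h1, k1, swι0_inj π N B (by rw [h2, swι0_s, Units.val_one, mul_one]),
    swι0_inj π N B (by rw [k2, map_mul, swι0_X, swι0_U, Units.val_mul, mul_left_comm]),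
    h3 _ (((lauC (Lau B.R)).comp (lauC B.R)).comp (lauE B.R))
      (fun x => congrArg ((lauC (Lau B.R)).comp (lauC B.R)) (RingHom.congr_fun (lauE_lauC B.R) x))
      (by rw [RingHom.comp_apply, lauE_X, map_one, Units.val_one]) fun z => swι0_C π N B _⟩

end book

theorem exists_swD : Nonempty (SwD π N) :=
  ⟨{ D := swD π N
     δ := swδ π N
     α := swα π N
     ψ := swψ π N
     fin := fun B => Sw_finite _ _ ((Set.finite_Icc (-(N + 1 : ℤ)) (N + 1)).subset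
       (fun _ h => abs_le.1 h) |>.image _) (swW_eq π N B)
       (by rintro _ ⟨b, hb, rfl⟩; exact swG_integral π N B hb) _
     trd := sw_trd π N
     gu := sw_gu π N
     nat := sw_nat π N
     at0 := sw_at0 π N
     at1 := sw_at1 π N }⟩

end Pool.Agent.KEW.L8
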