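import Pool.Agent.P.MP_6277db_ag.KEW.L8a.RG
import Pool.Agent.P.MP_6277db_ag.KEW.L8a.Sw

/-!
KEW project, layer L8a: surjectivity and injectivity of the suspension up to homotopy, on germs.
-/

set_option backward.isDefEq.respectTransparency false

noncomputable section

open CategoryTheory Polynomial

namespace Pool.Agent.KEW.L8

open _root_.KEW

variable {A F : Type} [CommRing A] [Field F] {φ : A →+* F} {m : ℕ} {π π' : A}
  (G : Germ π' (Lm m)) (hb : Bs π φ m) {R : Alg F} {B B' : Alg A}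

/-- Evaluation at `0`. -/
def ev0 (B : Alg A) : (polyF A).obj B ⟶ B := (cyl A).i0 B

/-- Evaluation at `1`. -/
def ev1 (B : Alg A) : (polyF A).obj B ⟶ B := (cyl A).i1 B

/-- The constants. -/
def pC (B : Alg A) : B ⟶ (polyF A).obj B := (cyl A).p B

theorem gu_t (B : Alg A) : GU π (B := (lauF A).obj B) (lauL B.R X) :=
  GU.of_isUnit (isUnit_lauL_X B.R)

/-- The difference of the products with the graph of `a / π ^ k` and with the graph of `1`. -/
def sd {a : B.R} (ha : GU π a) (k : ℕ) :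
    (NN φ m G R).obj B →+ (NN φ m G ((lauF F).obj R)).obj B :=
  sigG G hb ha k - sigG G hb (GU.one B) 0

theorem sd_apply {a : B.R} (ha : GU π a) (k : ℕ) (v : (NN φ m G R).obj B) :
    sd G hb ha k v = sigG G hb ha k v - sigG G hb (GU.one B) 0 v := rfl

theorem map_sd {a : B.R} (ha : GU π a) (k : ℕ) (g : B ⟶ B') {a' : B'.R} (ha' : GU π a')
    (e : g.1 a = a') (v : (NN φ m G R).obj B) :
    (NN φ m G _).map g (sd G hb ha k v) = sd G hb ha' k ((NN φ m G R).map g v) := by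
  rw [sd_apply, map_sub, map_sigG G hb ha k g ha' e,
    map_sigG G hb (GU.one B) 0 g (GU.one B') (map_one _), sd_apply]

theorem sd_pi_mul {a a' : B.R} (ha : GU π a) (ha' : GU π a') (e : a' = B.s π * a)
    (v : (NN φ m G R).obj B) : sd G hb ha' 1 v = sd G hb ha 0 v := by
  rw [sd_apply, sd_apply, ← sigG_pi_mul G hb ha 0 ha' e]

theorem push_sd {R' : Alg F} {a : B.R} (ha : GU π a) (k : ℕ) (η : R' ⟶ R)
    (v : (NN φ m G R).obj B) :
    pushG G ((lauF F).map η) B (sd G hb ha k v) = sd G hb ha k (pushG G η B v) := by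
  rw [sd_apply, map_sub, push_sigG, push_sigG, sd_apply]

theorem eT_sd {a : B.R} (ha : GU π a) (k : ℕ) (v : (NN φ m G R).obj B) :
    pushG G (eT R) B (sd G hb ha k v) = 0 := by
  rw [sd_apply, map_sub, eT_sigG, eT_sigG, sub_self]

/-- The suspension of a germ. -/
def sgG (B : Alg A) (x : (NN φ m G R).obj B) :
    (NN φ m G ((lauF F).obj R)).obj ((lauF A).obj B) :=
  sigG G hb (gu_t B) 0 ((NN φ m G R).map (cL B) x) -
    sigG G hb (GU.one _) 0 ((NN φ m G R).map (cL B) x)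

theorem sgG_apply (x : (NN φ m G R).obj B) :
    sgG G hb B x = sd G hb (gu_t B) 0 ((NN φ m G R).map (cL B) x) := rfl

theorem sgG_neg (B : Alg A) (x : (NN φ m G R).obj B) : sgG G hb B (-x) = -sgG G hb B x := by
  rw [sgG_apply, sgG_apply, map_neg, map_neg]

theorem sgL_eq (N : ℕ) (x : (NN φ m G R).obj B) :
    sgL G N hb B x = sd G hb (rnU_GU π N B) 1 ((NN φ m G R).map (rnC π N B) x) := rfl

theorem rnι_sgL (N : ℕ) (B : Alg A) (x : (NN φ m G R).obj B) :
    (NN φ m G _).map (rnι π N B) (sgL G N hb B x) = sgG G hb B x := by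
  rw [sgL_eq, map_sd G hb _ 1 (rnι π N B) ((GU.pi _).mul (gu_t B)) (rnι_rnU π N B),
    sd_pi_mul G hb (gu_t B) _ rfl, map_map, rnC_rnι, sgG_apply]

theorem rnT_sgL {N N' : ℕ} (h : N ≤ N') (B : Alg A) (x : (NN φ m G R).obj B) :
    (NN φ m G _).map (rnT π h B) (sgL G N hb B x) = sgL G N' hb B x := by
  rw [sgL_eq, map_sd G hb _ 1 (rnT π h B) (rnU_GU π N' B) (rnT_rnU π h B), map_map, rnC_rnT, sgL_eq]

include hb in
/-- Finitely many germs on models which vanish on the annuli vanish on common larger models. -/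
theorem oc_fam (hπ : π' = π ∨ π' = 0) {ι : Type} [Finite ι] (T : ι → Alg A) {N : ℕ}
    (w : ∀ i, (NN φ m G R).obj ((RN π N).obj (T i)))
    (hw : ∀ i, (NN φ m G R).map (rnι π N (T i)) (w i) = 0) :
    ∃ N0 : ℕ, ∀ (N' : ℕ) (h : N ≤ N'), N0 ≤ N' →
      ∀ i, (NN φ m G R).map (rnT π h (T i)) (w i) = 0 := by
  choose N0 H using fun i => G.oc_inj hπ (pInv_MM hb R) (T i) (w i) (hw i)
  obtain ⟨N1, h1⟩ := (Set.finite_range N0).bddAbove
  exact ⟨N1, fun N' hN h2 i => H i N' hN ((h1 ⟨i, rfl⟩).trans h2)⟩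

include hb in
/-- Finitely many relations hold at a common level. -/
theorem SI0_level (hπ : π' = π ∨ π' = 0) {N : ℕ} (v : (NN φ m G R).obj ((RN π N).obj B))
    {ι : Type} [Finite ι] {T : ι → Alg A} (f : ∀ i, B ⟶ T i)
    (h : ∀ i, (NN φ m G R).map ((lauF A).map (f i)) ((NN φ m G R).map (rnι π N B) v) = 0) :
    ∃ N0 : ℕ, ∀ (N' : ℕ) (hN : N ≤ N'), N0 ≤ N' → ∀ i,
      (NN φ m G R).map ((RN π N').map (f i)) ((NN φ m G R).map (rnT π hN B) v) = 0 := by
  obtain ⟨N0, H⟩ := oc_fam G hb hπ T (fun i => (NN φ m G R).map ((RN π N).map (f i)) v)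
    fun i => by rw [map_map, rnι_nat, ← map_map, h]
  refine ⟨N0, fun N' hN h2 i => ?_⟩
  rw [map_map, ← rnT_nat, ← map_map]
  exact H N' hN h2 i

theorem SI0_I (hπ : π' = π ∨ π' = 0) (hR : R.s.FiniteType) (B : Alg A) (ι : Type) [Finite ι]
    (T : ι → Alg A) (f : ∀ i, B ⟶ T i) (x : (NN φ m G R).obj B)
    (h : (NN φ m G ((lauF F).obj R)).obj ((lauF A).obj ((polyF A).obj B)))
    (h1 : ∀ i, (NN φ m G _).map ((lauF A).map ((polyF A).map (f i))) h = 0)
    (h2 : (NN φ m G _).map ((lauF A).map (ev1 B)) h = 0)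
    (h3 : (NN φ m G _).map ((lauF A).map (ev0 B)) h = sgG G hb B x) :
    ∃ h0 : (NN φ m G R).obj ((polyF A).obj B),
      (∀ i, (NN φ m G R).map ((polyF A).map (f i)) h0 = 0) ∧
      (NN φ m G R).map (ev1 B) h0 = 0 ∧ (NN φ m G R).map (ev0 B) h0 = x := by
  obtain ⟨N, H⟩ := G.oc_surj hπ (pInv_MM hb _) _ h
  obtain ⟨w, rfl⟩ := H N le_rfl
  obtain ⟨N1, H1⟩ := SI0_level G hb hπ w (fun i => (polyF A).map (f i)) h1
  obtain ⟨N2, H2⟩ := SI0_level G hb hπ w (fun _ : Unit => ev1 B) fun _ => h2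
  obtain ⟨N3, H3⟩ := G.oc_inj hπ (pInv_MM hb _) B
    ((NN φ m G _).map ((RN π N).map (ev0 B)) w - sgL G N hb B x)
    (by rw [map_sub, rnι_sgL, map_map, rnι_nat, ← map_map, sub_eq_zero]; exact h3)
  have hN : N ≤ N + N1 + N2 + N3 := by omega
  obtain ⟨n0, H0⟩ := RG.ex hb hR hπ ((NN φ m G _).map (rnT π hN _) w)
  obtain ⟨d, hd⟩ := H0 (n0 + 2) (by omega)
  refine ⟨-d, fun i => ?_, ?_, ?_⟩
  · have := hd.map hb hR ((polyF A).map (f i))
    rw [H1 _ hN (by omega) i] at this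
    rw [map_neg, this.zero hb hR, neg_zero]
  · have := hd.map hb hR (ev1 B)
    rw [H2 _ hN (by omega) ()] at this
    rw [map_neg, this.zero hb hR, neg_zero]
  · have := hd.map hb hR (ev0 B)
    have h4 := H3 _ hN (by omega)
    rw [map_sub, rnT_sgL, sub_eq_zero, map_map, rnT_nat, ← map_map] at h4
    rw [h4] at this
    rw [map_neg, this.unique hb hR (RG.sg hb hR (by omega) x), neg_neg]

/-- The projector `(1 - e_a) (1 - e_b)` on the target. -/
def SI0_prj (B : Alg A) : (NN φ m G ((lauF F).obj ((lauF F).obj R))).obj B →+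
    (NN φ m G ((lauF F).obj ((lauF F).obj R))).obj B :=
  (AddMonoidHom.id _ - pushG G (eT ((lauF F).obj R)) B).comp
    (AddMonoidHom.id _ - pushG G ((lauF F).map (eT R)) B)

theorem SI0_prj_apply (y : (NN φ m G ((lauF F).obj ((lauF F).obj R))).obj B) :
    SI0_prj G B y = (y - pushG G ((lauF F).map (eT R)) B y) -
      pushG G (eT ((lauF F).obj R)) B (y - pushG G ((lauF F).map (eT R)) B y) := rfl

theorem SI0_map_prj (g : B ⟶ B') (y : (NN φ m G ((lauF F).obj ((lauF F).obj R))).obj B) :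
    (NN φ m G _).map g (SI0_prj G B y) = SI0_prj G B' ((NN φ m G _).map g y) := by
  rw [SI0_prj_apply, SI0_prj_apply, map_sub, map_pushG, map_sub, map_pushG]

theorem SI0_prj_ht_zero {z : (NN φ m G ((lauF F).obj ((lauF F).obj R))).obj B}
    (h1 : pushG G ((lauF F).map (eT R)) B z = 0) (h2 : pushG G (eT ((lauF F).obj R)) B z = 0) :
    SI0_prj G B (htG G hb 0 z) = z + pushG G (swp R) B z := by
  have h3 : pushG G ((lauF F).map (eT R)) B (z + pushG G (swp R) B z) = 0 := by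
    rw [map_add, h1, pushG_pushG, eA_swp, ← pushG_pushG, h2, map_zero, add_zero]
  rw [htG_zero, SI0_prj_apply, h3, sub_zero, map_add, h2, pushG_pushG, eB_swp, ← pushG_pushG, h1,
    map_zero, add_zero, sub_zero]

theorem SI0_prj_ht_one (z : (NN φ m G ((lauF F).obj ((lauF F).obj R))).obj B) :
    SI0_prj G B (htG G hb 1 z) = 0 := by
  rw [htG_one, map_add, SI0_prj_apply, SI0_prj_apply, pushG_pushG, eA_mu1, sub_self, map_zero, sub_self,
    zero_add, map_sub, pushG_pushG _ _ (mu2 R), pushG_pushG _ _ (mu2 R), eB_mu2, pushG_pushG,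
    ← Category.assoc, ← eA_eB, Category.assoc, eB_mu2, sub_self]

section hty

variable {N : ℕ} (S : SwD π N)

/-- The map `t ↦ y`. -/
def κQ (π : A) (N : ℕ) (B : Alg A) : (RN π N).obj B ⟶ swQ π N B :=
  rnT π (by omega : N ≤ 2 * N + 1) B ≫ (RN π _).map (pC B ≫ cL _)

theorem κQ_nat (g : B ⟶ B') : κQ π N B ≫ (RN π _).map ((lauF A).map ((polyF A).map g)) =
    (RN π N).map g ≫ κQ π N B' := by
  have e : (pC B ≫ cL _) ≫ (lauF A).map ((polyF A).map g) = g ≫ pC B' ≫ cL _ := by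
    rw [Category.assoc, ← cL_nat, ← Category.assoc, ← Category.assoc,
      show g ≫ pC B' = pC B ≫ (polyF A).map g from (cyl A).p_nat g]
  rw [κQ, κQ, Category.assoc, ← Functor.map_comp, e, Functor.map_comp, ← Category.assoc,
    ← Category.assoc, rnT_nat]

theorem κQ_ev (ev : (polyF A).obj B ⟶ B) (h : pC B ≫ ev = 𝟙 B) :
    κQ π N B ≫ (RN π _).map ((lauF A).map ev) =
      rnT π (by omega : N ≤ 2 * N + 1) B ≫ (RN π _).map (cL B) := by
  have e : (pC B ≫ cL _) ≫ (lauF A).map ev = cL B := by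
    rw [Category.assoc, ← cL_nat, ← Category.assoc, h, Category.id_comp]
  rw [κQ, Category.assoc, ← Functor.map_comp, e]

/-- The homotopy. -/
def hty (B : Alg A) (v : (NN φ m G ((lauF F).obj R)).obj ((RN π N).obj B)) :
    (NN φ m G ((lauF F).obj ((lauF F).obj R))).obj (swQ π N B) :=
  trG G hb (S.fin B) (S.trd B) (sd G hb (S.gu B) 1 ((NN φ m G _).map (S.ψ B) v)) -
    SI0_prj G _ (htG G hb (swS π N B)
      (sd G hb (GU.of_isUnit (swX_isUnit π N B)) 0 ((NN φ m G _).map (κQ π N B) v)))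

theorem hty_nat (g : B ⟶ B') (v : (NN φ m G ((lauF F).obj R)).obj ((RN π N).obj B)) :
    (NN φ m G _).map ((RN π _).map ((lauF A).map ((polyF A).map g))) (hty G hb S B v) =
      hty G hb S B' ((NN φ m G _).map ((RN π N).map g) v) := by
  obtain ⟨k, h1, h2, h3⟩ := S.nat g
  rw [hty, map_sub, map_trG G hb (S.fin B) (S.trd B) (S.fin B') (S.trd B') _ k h1
      (swP_map π N B g) h2,
    map_sd G hb (S.gu B) 1 k (S.gu B') (by
      rw [map_sub, h2, ← swC_map π N B g]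
      exact congrArg (· - _) (Alg.congr_val h1 _)),
    map_map, h3, SI0_map_prj, map_htG, swS_map,
    map_sd G hb _ 0 _ (GU.of_isUnit (swX_isUnit π N B')) (swX_map π N B g), map_map, κQ_nat, hty,
    map_map, map_map]

theorem hty_zero (B : Alg A) : hty (R := R) G hb S B 0 = 0 := by
  simp only [hty, map_zero, sub_self]

theorem hty_i0 (v : (NN φ m G ((lauF F).obj R)).obj ((RN π N).obj B))
    (hv : pushG G (eT R) _ v = 0) :
    (NN φ m G _).map ((RN π _).map ((lauF A).map (ev0 B))) (hty G hb S B v) =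
      sgL G _ hb ((lauF A).obj B) ((NN φ m G _).map (rnι π N B) v) -
        pushG G (swp R) _ (sd G hb (GU.of_isUnit (swX0_isUnit π N B)) 0 ((NN φ m G _).map
          (rnT π (by omega : N ≤ 2 * N + 1) B ≫ (RN π _).map (cL B)) v)) := by
  obtain ⟨σ1, σ2, w1, w2, a1, a2, p1, p2⟩ := S.at0 B
  have s0 : ((RN π _).map ((lauF A).map (ev0 B))).1 (swS π N B) = 0 := swS_i0 π N B
  replace w1 : S.δ B ≫ σ1 = (RN π _).map ((lauF A).map (ev0 B)) := w1
  replace w2 : S.δ B ≫ σ2 = (RN π _).map ((lauF A).map (ev0 B)) := w2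
  have c1 : σ1.1 ((S.δ B).1 (swC π N B)) = _ := (Alg.congr_val w1 _).trans (swC_i0 π N B)
  have c2 : σ2.1 ((S.δ B).1 (swC π N B)) = _ := (Alg.congr_val w2 _).trans (swC_i0 π N B)
  rw [hty, map_sub, map_trG_split G hb (S.fin B) (S.trd B) _ σ1 σ2 w1 w2
      (by rw [a1, a2]; exact swP_i0 π N B),
    map_sd G hb (S.gu B) 1 σ1 (rnU_GU π _ _) (by rw [map_sub, c1, a1, add_sub_cancel_left]),
    map_sd G hb (S.gu B) 1 σ2 ((GU.pi _).mul (GU.of_isUnit (swX0_isUnit π N B)))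
      (by rw [map_sub, c2, a2, add_sub_cancel_right]),
    sd_pi_mul G hb (GU.of_isUnit (swX0_isUnit π N B)) _ rfl, map_map, map_map, p1, p2, SI0_map_prj,
    map_htG, s0, map_sd G hb _ 0 ((RN π _).map ((lauF A).map (ev0 B)))
      (GU.of_isUnit (swX0_isUnit π N B)) (swX_i0 π N B), map_map,
    κQ_ev (ev0 B) ((cyl A).p_i0 B), SI0_prj_ht_zero G hb
      (by rw [push_sd, ← map_pushG, hv, map_zero, map_zero]) (eT_sd G hb _ _ _),
    add_comm (sd G hb _ 1 _), add_sub_add_left_eq_sub, sgL_eq, map_map]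

theorem hty_i1 (v : (NN φ m G ((lauF F).obj R)).obj ((RN π N).obj B))
    (hv : (NN φ m G _).map (eL B) ((NN φ m G _).map (rnι π N B) v) = 0) :
    (NN φ m G _).map ((RN π _).map ((lauF A).map (ev1 B))) (hty G hb S B v) = 0 := by
  obtain ⟨σ1, σ2, w1, w2, a1, a2, p1⟩ := S.at1 B
  have s1 : ((RN π _).map ((lauF A).map (ev1 B))).1 (swS π N B) = 1 := swS_i1 π N B
  replace w1 : S.δ B ≫ σ1 = (RN π _).map ((lauF A).map (ev1 B)) := w1
  replace w2 : S.δ B ≫ σ2 = (RN π _).map ((lauF A).map (ev1 B)) := w2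
  have c2 : σ2.1 ((S.δ B).1 (swC π N B)) = _ := (Alg.congr_val w2 _).trans (swC_i1 π N B)
  rw [hty, map_sub, map_trG_split G hb (S.fin B) (S.trd B) _ σ1 σ2 w1 w2
      (by rw [a1, a2]; exact swP_i1 π N B),
    map_sd G hb (S.gu B) 1 σ1 ((S.gu B).map σ1) rfl,
    map_sd G hb (S.gu B) 1 σ2 (GU.pi _) (by rw [map_sub, c2, a2, add_sub_cancel_right]),
    sd_pi_mul G hb (GU.one _) (GU.pi _) (mul_one _).symm, map_map, p1, ← map_map, ← map_map, hv, map_zero,
    map_zero, sd_apply, sub_self, add_zero, SI0_map_prj, map_htG, s1, SI0_prj_ht_one, sub_self]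

end hty

theorem SI0_S (hπ : π' = π ∨ π' = 0) (hR : R.s.FiniteType) (B : Alg A) (ι : Type) [Finite ι]
    (T : ι → Alg A) (f : ∀ i, B ⟶ T i) (x' : (NN φ m G ((lauF F).obj R)).obj ((lauF A).obj B))
    (h1 : ∀ i, (NN φ m G _).map ((lauF A).map (f i)) x' = 0)
    (h2 : (NN φ m G _).map (eL B) x' = 0) (h3 : pushG G (eT R) _ x' = 0) :
    ∃ (x : (NN φ m G R).obj B)
      (h : (NN φ m G ((lauF F).obj R)).obj ((lauF A).obj ((polyF A).obj B))),
      (∀ i, (NN φ m G R).map (f i) x = 0) ∧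
      (∀ i, (NN φ m G _).map ((lauF A).map ((polyF A).map (f i))) h = 0) ∧
      (NN φ m G _).map ((lauF A).map (ev1 B)) h = 0 ∧
      (NN φ m G _).map ((lauF A).map (ev0 B)) h = x' - sgG G hb B x := by
  have hR' : ((lauF F).obj R).s.FiniteType := (finiteType_lauC R.R).comp hR
  obtain ⟨N0, H⟩ := G.oc_surj hπ (pInv_MM hb _) _ x'
  obtain ⟨v0, rfl⟩ := H N0 le_rfl
  obtain ⟨N1, H1⟩ := SI0_level G hb hπ v0 f h1
  obtain ⟨N2, H2⟩ := G.oc_inj hπ (pInv_MM hb _) B (pushG G (eT R) _ v0) (by rw [map_pushG, h3])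
  have hN : N0 ≤ N0 + N1 + N2 := by omega
  have e0 : (NN φ m G _).map (rnι π N0 B) v0 =
      (NN φ m G _).map (rnι π _ B) ((NN φ m G _).map (rnT π hN B) v0) := by rw [map_map, rnT_rnι]
  have k1 := H1 _ hN (by omega)
  have k2 := H2 _ hN (by omega)
  rw [map_pushG] at k2
  rw [e0] at h2 ⊢
  generalize (NN φ m G _).map (rnT π hN B) v0 = v at h2 k1 k2 ⊢
  generalize N0 + N1 + N2 = N at v h2 k1 k2 ⊢
  obtain ⟨S⟩ := exists_swD π N
  have hM : N ≤ 2 * N + 1 := by omega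
  obtain ⟨n0, E0⟩ := RG.ex hb hR' hπ (hty G hb S B v)
  obtain ⟨n1, E1⟩ := RG.ex hb hR hπ ((NN φ m G _).map (rnT π hM B) v)
  obtain ⟨d, hd⟩ := E0 (n0 + n1 + 2) (by omega)
  obtain ⟨w, hw⟩ := E1 (n0 + n1 + 2) (by omega)
  refine ⟨-w, -d, fun i => ?_, fun i => ?_, ?_, ?_⟩
  · have := hw.map hb hR (f i)
    rw [map_map, ← rnT_nat, ← map_map, k1, map_zero] at this
    rw [map_neg, this.zero hb hR, neg_zero]
  · have := hd.map hb hR' ((lauF A).map ((polyF A).map (f i)))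
    rw [hty_nat, k1, hty_zero] at this
    rw [map_neg, this.zero hb hR', neg_zero]
  · have := hd.map hb hR' ((lauF A).map (ev1 B))
    rw [hty_i1 G hb S v h2] at this
    rw [map_neg, this.zero hb hR', neg_zero]
  · have h4 := hd.map hb hR' ((lauF A).map (ev0 B))
    have h5 := hw.map hb hR (cL B)
    rw [map_map] at h5
    have h6 := (h5.prod hb hR (gu_t B) 0 (GU.of_isUnit (swX0_isUnit π N B)) rfl).sub hb hR'
      (h5.prod hb hR (GU.one _) 0 (GU.one _) (map_one _))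
    rw [← map_sub] at h6
    rw [hty_i0 G hb S v k2] at h4
    rw [map_neg, h4.unique hb hR' ((RG.sg hb hR' (by omega) _).sub hb hR' h6), sgG_neg, neg_sub,
      sub_neg_eq_add, sub_neg_eq_add, add_comm]
    rfl

variable (hπ : π' = π ∨ π' = 0) (hR : R.s.FiniteType) (B : Alg A) {ι : Type} [Finite ι]
  (T : ι → Alg A) (ψ : ∀ i, B ⟶ T i)

include hπ hR

theorem cond_I0 (x : (NN φ m G R).obj B)
    (h : (NN φ m G ((lauF F).obj R)).obj ((lauF A).obj ((polyF A).obj B)))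
    (h1 : ∀ i, (NN φ m G _).map ((lauF A).map ((polyF A).map (ψ i))) h = 0)
    (h2 : (NN φ m G _).map ((lauF A).map ((cyl A).i1 B)) h = 0)
    (h3 : (NN φ m G _).map ((lauF A).map ((cyl A).i0 B)) h = sgG G hb B x) :
    ∃ h0 : (NN φ m G R).obj ((polyF A).obj B),
      (∀ i, (NN φ m G R).map ((polyF A).map (ψ i)) h0 = 0) ∧
      (NN φ m G R).map ((cyl A).i1 B) h0 = 0 ∧ (NN φ m G R).map ((cyl A).i0 B) h0 = x :=
  SI0_I G hb hπ hR B ι T ψ x h h1 h2 h3

theorem cond_S0 (x' : (NN φ m G ((lauF F).obj R)).obj ((lauF A).obj B))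
    (h1 : ∀ i, (NN φ m G _).map ((lauF A).map (ψ i)) x' = 0)
    (h2 : (NN φ m G _).map (eL B) x' = 0) (h3 : pushG G (eT R) _ x' = 0) :
    ∃ (x : (NN φ m G R).obj B)
      (h : (NN φ m G ((lauF F).obj R)).obj ((lauF A).obj ((polyF A).obj B))),
      (∀ i, (NN φ m G R).map (ψ i) x = 0) ∧
      (∀ i, (NN φ m G _).map ((lauF A).map ((polyF A).map (ψ i))) h = 0) ∧
      (NN φ m G _).map ((lauF A).map ((cyl A).i1 B)) h = 0 ∧
      (NN φ m G _).map ((lauF A).map ((cyl A).i0 B)) h = x' - sgG G hb B x :=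
  SI0_S G hb hπ hR B ι T ψ x' h1 h2 h3

end Pool.Agent.KEW.L8
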