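import Pool.Agent.P.MP_6277db_ag.KEW.L8a.GermApi

/-!
KEW project, layer L8a: formal lemmas on projectors and on suspension isomorphisms.
-/

set_option backward.isDefEq.respectTransparency false

noncomputable section

open CategoryTheory Polynomial

namespace Pool.Agent.KEW.L8

open _root_.KEW

variable {A : Type} [CommRing A] {L : Type 1} [CommRing L] {h h' k k' Y Y' : Fn (Alg A) L}

theorem Sus_proj (s : Set (Y ⟶ Y)) (hs : s.Finite) (h1 : ∀ θ ∈ s, θ ≫ θ = θ)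
    (h2 : ∀ θ ∈ s, ∀ θ' ∈ s, θ ≫ θ' = θ' ≫ θ) :
    ∃ P : Y ⟶ Y, (∀ θ ∈ s, θ ≫ P = 0) ∧ (∀ θ ∈ s, P ≫ θ = 0) ∧
      (∀ (W : Fn (Alg A) L) (α : W ⟶ Y), (∀ θ ∈ s, α ≫ θ = 0) → α ≫ P = α) ∧
      (∀ (Z : Fn (Alg A) L) (β : Y ⟶ Z), (∀ θ ∈ s, θ ≫ β = 0) → P ≫ β = β) ∧
      ∀ τ : Y ⟶ Y, (∀ θ ∈ s, θ ≫ τ = τ ≫ θ) → P ≫ τ = τ ≫ P := by
  induction s, hs using Set.Finite.induction_on with
  | empty => exact ⟨𝟙 Y, by simp, by simp, by simp, by simp, by simp⟩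
  | @insert a s _ _ ih =>
    obtain ⟨P, p1, p2, p3, p4, p5⟩ := ih (fun θ h => h1 θ (Or.inr h))
      fun θ h θ' h' => h2 θ (Or.inr h) θ' (Or.inr h')
    have ha : a ≫ a = a := h1 a (Or.inl rfl)
    have hc : (𝟙 Y - a) ≫ P = P ≫ (𝟙 Y - a) := by
      rw [Preadditive.sub_comp, Preadditive.comp_sub, Category.id_comp, Category.comp_id,
        p5 a fun θ h => h2 θ (Or.inr h) a (Or.inl rfl)]
    refine ⟨(𝟙 Y - a) ≫ P, ?_, ?_, fun W α h => ?_, fun Z β h => ?_, fun τ h => ?_⟩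
    · rintro θ (rfl | h)
      · rw [← Category.assoc, Preadditive.comp_sub, Category.comp_id, ha, sub_self,
          Limits.zero_comp]
      · rw [hc, ← Category.assoc, p1 θ h, Limits.zero_comp]
    · rintro θ (rfl | h)
      · rw [hc, Category.assoc, Preadditive.sub_comp, Category.id_comp, ha, sub_self,
          Limits.comp_zero]
      · rw [Category.assoc, p2 θ h, Limits.comp_zero]
    · rw [← Category.assoc, Preadditive.comp_sub, Category.comp_id, h a (Or.inl rfl), sub_zero,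
        p3 W α fun θ h' => h θ (Or.inr h')]
    · rw [hc, Category.assoc, Preadditive.sub_comp, Category.id_comp, h a (Or.inl rfl), sub_zero,
        p4 Z β fun θ h' => h θ (Or.inr h')]
    · rw [Category.assoc, p5 τ fun θ h' => h θ (Or.inr h'), ← Category.assoc, ← Category.assoc,
        Preadditive.sub_comp, Preadditive.comp_sub, Category.id_comp, Category.comp_id,
        h a (Or.inl rfl)]

/-- The projector attached to a finite family of commuting idempotents (the product of the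
`1 - θ`; induction on the finite set). -/
theorem exists_proj (s : Set (Y ⟶ Y)) (hs : s.Finite) (h1 : ∀ θ ∈ s, θ ≫ θ = θ)
    (h2 : ∀ θ ∈ s, ∀ θ' ∈ s, θ ≫ θ' = θ' ≫ θ) :
    ∃ r : Y ⟶ (kerSet s).fn, (kerSet s).ι ≫ r = 𝟙 _ ∧ (∀ θ ∈ s, θ ≫ r = 0) ∧
      ∀ (Z : Fn (Alg A) L) (β : Y ⟶ Z), (∀ θ ∈ s, θ ≫ β = 0) → r ≫ (kerSet s).ι ≫ β = β := by
  obtain ⟨P, p1, p2, p3, p4, -⟩ := Sus_proj s hs h1 h2
  have hm : ∀ B x, P.app B x ∈ (kerSet s).N B := fun B x =>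
    (mem_kerSet s B _).2 fun θ hθ => Lax_apply_of_eq (p2 θ hθ) B x
  refine ⟨(kerSet s).lift P hm, Lax_cancel_mono (kerSet s).ι_inj ?_,
    fun θ hθ => Lax_cancel_mono (kerSet s).ι_inj ?_, fun Z β h => ?_⟩
  · rw [Category.assoc, SubF.lift_ι, Category.id_comp]
    exact p3 _ _ fun θ hθ => fn_ext fun B x =>
      (mem_kerSet s B _).1 ((kerSet s).ι_mem B x) θ hθ
  · rw [Category.assoc, SubF.lift_ι, p1 θ hθ, Limits.zero_comp]
  · rw [← Category.assoc, SubF.lift_ι, p4 Z β h]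

/-- `s` identifies `h` with the kernel of the unit section of `h' ∘ Lau`. -/
structure Sus (s : h ⟶ lauF A ⋙ h') : Prop where
  inj : ∀ B, Function.Injective (s.app B)
  ex : ∀ B, Function.Exact (s.app B) ((eLau h').app B)

/-- The comparison map `(π_q Y) ∘ Lau ⟶ π_q (Y ∘ Lau)`. -/
def kapL (q : ℕ) (Y : Fn (Alg A) L) :
    lauF A ⋙ ((cyl A).piq q).obj Y ⟶ ((cyl A).piq q).obj (lauF A ⋙ Y) :=
  ((lauW A).lax L).kap q Y

theorem kapL_bij (q : ℕ) (Y : Fn (Alg A) L) (B : Alg A) :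
    Function.Bijective ((kapL q Y).app B) :=
  (lauW A).kap_bij (fun B => isIso_of_bijective _ (lp_bijective B)) q Y B

theorem kapL_nat (q : ℕ) (α : Y ⟶ Y') :
    Functor.whiskerLeft (lauF A) (((cyl A).piq q).map α) ≫ kapL q Y' =
      kapL q Y ≫ ((cyl A).piq q).map (Functor.whiskerLeft (lauF A) α) :=
  ((lauW A).lax L).kap_nat q α

/-- `Lax.kap_counit`, `lp_eL`. -/
theorem kapL_eLau (q : ℕ) (Y : Fn (Alg A) L) :
    kapL q Y ≫ ((cyl A).piq q).map (eLau Y) = eLau _ := by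
  exact ((lauW A).lax L).kap_counit eLau
    (fun α => fn_ext fun B x => (nat_apply α (eL B) x).symm)
    (fun F => fn_ext fun B x =>
      (map_map F _ _ x).trans (congrArg (fun k => F.map k x) (lp_eL B))) q Y

/-- `kapL` is an isomorphism; `piq_split` for `ι`, `eLau` with the section `cLau`. -/
theorem sus_of_piEq (f : Y ⟶ (kerS (eLau Y')).fn) (hf : (cyl A).PiEq (fun _ => True) f) (q : ℕ) :
    ∃ s : ((cyl A).piq q).obj Y ⟶ lauF A ⋙ ((cyl A).piq q).obj Y',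
      s ≫ kapL q Y' = ((cyl A).piq q).map (f ≫ (kerS (eLau Y')).ι) ∧ Sus s := by
  have := Lax_isIso (kapL q Y') (kapL_bij q Y')
  obtain ⟨h1, h2⟩ := CylD.piq_split (c := cyl A) q (f := (kerS (eLau Y')).ι) (g := eLau Y')
    (cLau Y') (fn_ext fun B x => (map_map Y' _ _ x).trans
      ((congrArg (fun k => Y'.map k x) (cL_eL B)).trans (map_id' Y' B x)))
    (fun B _ => (kerS (eLau Y')).ι_inj B) fun B _ y =>
      ⟨fun h => (kerS (eLau Y')).exists_ι h, fun ⟨x, hx⟩ => hx ▸ (kerS (eLau Y')).ι_mem B x⟩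
  obtain ⟨s, hs⟩ : ∃ s : ((cyl A).piq q).obj Y ⟶ lauF A ⋙ ((cyl A).piq q).obj Y',
      s ≫ kapL q Y' = ((cyl A).piq q).map (f ≫ (kerS (eLau Y')).ι) :=
    ⟨((cyl A).piq q).map (f ≫ (kerS (eLau Y')).ι) ≫ inv (kapL q Y'), by
      rw [Category.assoc, IsIso.inv_hom_id, Category.comp_id]⟩
  have e : ∀ B x, (kapL q Y').app B (s.app B x) =
      (((cyl A).piq q).map (kerS (eLau Y')).ι).app B ((((cyl A).piq q).map f).app B x) := by
    intro B x
    rw [Lax_apply_of_eq hs, Functor.map_comp, Lax_comp_apply]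
  refine ⟨s, hs, fun B x x' hx => (hf q B trivial).1 (h1 B trivial ?_), fun B y => ?_⟩
  · rw [← e, ← e, hx]
  · rw [← Lax_apply_of_eq (kapL_eLau q Y'), h2 B trivial]
    constructor
    · rintro ⟨z, hz⟩
      obtain ⟨x, rfl⟩ := (hf q B trivial).2 z
      exact ⟨x, (kapL_bij q Y' B).1 ((e B x).trans hz)⟩
    · rintro ⟨x, rfl⟩
      exact ⟨_, (e B x).symm⟩

theorem Sus_down {s : h ⟶ lauF A ⋙ h'} (hs : Sus s) {B : Alg A} {Λ : Set (B.R →+* B.R)}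
    {y : h'.obj ((lauF A).obj B)} (hy : Kil h' ((lauF A).obj B) (lauFam Λ) y) :
    ∃ x, Kil h B Λ x ∧ s.app B x = y := by
  have h0 : h'.map (eL B) y = 0 := by
    have h1 := congrArg (h'.map (eL B)) (hy (eL B ≫ cL B) (Or.inl rfl))
    rwa [map_map, Category.assoc, cL_eL, Category.comp_id, map_zero] at h1
  obtain ⟨x, rfl⟩ := (hs.ex B y).1 h0
  refine ⟨x, fun φ hφ => hs.inj B ?_, rfl⟩
  rw [nat_apply, map_zero]
  exact hy ((lauF A).map φ) (Or.inr ⟨φ.1, hφ, rfl⟩)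

theorem Sus_up {s : h ⟶ lauF A ⋙ h'} (hs : Sus s) {B : Alg A} {Λ : Set (B.R →+* B.R)}
    (hΛ : ∀ φ ∈ Λ, φ.comp B.s = B.s) {x : h.obj B} (hx : Kil h B Λ x) :
    Kil h' ((lauF A).obj B) (lauFam Λ) (s.app B x) := by
  rintro ψ (e | ⟨φ, hφ, e⟩)
  · have h0 : h'.map (eL B) (s.app B x) = 0 := (hs.ex B _).2 ⟨x, rfl⟩
    rw [show ψ = eL B ≫ cL B from Alg.hom_ext e, ← map_map, h0, map_zero]
  · have h0 := nat_apply s (⟨φ, hΛ φ hφ⟩ : B ⟶ B) x
    rw [hx ⟨φ, hΛ φ hφ⟩ hφ, map_zero] at h0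
    rw [show ψ = (lauF A).map (⟨φ, hΛ φ hφ⟩ : B ⟶ B) from Alg.hom_ext e.symm]
    exact h0.symm

/-- One more torus coordinate. -/
theorem KBij.step {η : h ⟶ k} {η' : h' ⟶ k'} {s : h ⟶ lauF A ⋙ h'} {s' : k ⟶ lauF A ⋙ k'}
    (w : η ≫ s' = s ≫ Functor.whiskerLeft (lauF A) η') (hs : Sus s) (hs' : Sus s') {B : Alg A}
    {Λ : Set (B.R →+* B.R)} (hΛ : ∀ φ ∈ Λ, φ.comp B.s = B.s) (H : KBij η B Λ) :
    KBij η' ((lauF A).obj B) (lauFam Λ) := by
  have e : ∀ x, s'.app B (η.app B x) = η'.app ((lauF A).obj B) (s.app B x) :=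
    fun x => congrArg (fun t => t.app B x) w
  refine ⟨fun x' hx' h0 => ?_, fun y' hy' => ?_⟩
  · obtain ⟨x, hx, rfl⟩ := Sus_down hs hx'
    rw [H.inj x hx (hs'.inj B (by rw [e, h0, map_zero])), map_zero]
  · obtain ⟨y, hy, rfl⟩ := Sus_down hs' hy'
    obtain ⟨x, hx, rfl⟩ := H.surj y hy
    exact ⟨s.app B x, Sus_up hs hΛ hx, (e x).symm⟩

theorem KBij.of_comp {f : h ⟶ h'} {κ : h' ⟶ k} {B : Alg A} {Λ : Set (B.R →+* B.R)}
    (hκ : Function.Bijective (κ.app B)) (H : KBij (f ≫ κ) B Λ) : KBij f B Λ := by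
  refine ⟨fun x hx h0 => H.inj x hx ?_, fun y hy => ?_⟩
  · rw [Lax_comp_apply, h0, map_zero]
  · obtain ⟨x, hx, e⟩ := H.surj (κ.app B y) fun φ hφ => by
      rw [← nat_apply, hy φ hφ, map_zero]
    exact ⟨x, hx, hκ.1 e⟩

theorem KBij.of_bijective {f : h ⟶ h'} {B : Alg A} (hf : Function.Bijective (f.app B)) :
    KBij f B ∅ := by
  refine ⟨fun x _ h0 => hf.1 (h0.trans (map_zero _).symm), fun y _ => ?_⟩
  obtain ⟨x, rfl⟩ := hf.2 y
  exact ⟨x, fun _ h => h.elim, rfl⟩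

namespace Germ

variable {π : A} (G : Germ π L)

theorem thL_nat (α : Y ⟶ Y') :
    G.Γ.map (Functor.whiskerLeft (lauF A) α) ≫ G.thL Y' =
      G.thL Y ≫ Functor.whiskerLeft (lauF A) (G.Γ.map α) := by
  refine fn_ext fun B x => ?_
  obtain ⟨E, f, h, a, rfl⟩ := G.surj _ B x
  exact (congrArg ((G.thL Y').app B) (G.app_mk (Functor.whiskerLeft (lauF A) α) f h a)).trans
    ((G.thL_mk Y' f h _).trans ((congrArg ((G.Γ.map α).app _) (G.thL_mk Y f h a)).trans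
      (G.app_mk α _ _ a)).symm)

theorem η_thL (Y : Fn (Alg A) L) :
    G.η (lauF A ⋙ Y) ≫ G.thL Y = Functor.whiskerLeft (lauF A) (G.η Y) := by
  exact fn_ext fun B a => (G.thL_mk Y (𝟙 B) (IsEE.id B) a).trans
    (G.mk_congr ((lauF A).map_id B) _ _ a)

theorem thL_eLau (Y : Fn (Alg A) L) : G.thL Y ≫ eLau (G.Γ.obj Y) = G.Γ.map (eLau Y) := by
  refine fn_ext fun B x => ?_
  obtain ⟨E, f, h, a, rfl⟩ := G.surj _ B x
  exact (congrArg ((G.Γ.obj Y).map (eL B)) (G.thL_mk Y f h a)).trans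
    ((G.map_mk Y _ _ f h _ _ (eL_nat f) a).trans (G.app_mk (eLau Y) f h a).symm)

end Germ

end Pool.Agent.KEW.L8
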