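import Pool.Agent.P.MP_6277db_ag.KEW.L8a.SI0
import Pool.Agent.P.MP_6277db_ag.KEW.L8a.Sus
import Pool.Agent.P.MP_6277db_ag.KEW.L8a.SI

/-!
KEW project, layer L8a: the suspension is an equivalence.
-/

set_option backward.isDefEq.respectTransparency false

noncomputable section

open CategoryTheory Polynomial

namespace Pool.Agent.KEW.L8

open _root_.KEW

section abs

variable {A : Type} [CommRing A] {L : Type 1} [CommRing L] {Y Y' N N' : Fn (Alg A) L}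

theorem Step_proj (Y : Fn (Alg A) L) (B : Alg A) (h : Y.obj ((lauF A).obj B)) :
    ∃ k : (kerS (eLau Y)).fn.obj B, ∀ (C : Alg A) (g : B ⟶ C) (w : (kerS (eLau Y)).fn.obj C),
      Y.map ((lauF A).map g) h = (kerS (eLau Y)).ι.app C w → (kerS (eLau Y)).fn.map g k = w := by
  obtain ⟨k, hk⟩ := (kerS (eLau Y)).exists_ι (B := B) (x := h - Y.map (cL B) (Y.map (eL B) h)) (by
    change Y.map (eL B) (h - _) = 0
    rw [map_sub, map_map Y (cL B), cL_eL, map_id', sub_self])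
  refine ⟨k, fun C g w e => (kerS (eLau Y)).ι_inj C ?_⟩
  have h0 : Y.map (eL C) ((kerS (eLau Y)).ι.app C w) = 0 := (kerS (eLau Y)).ι_mem C w
  rw [nat_apply, hk, ← e]
  change Y.map ((lauF A).map g) (h - _) = _
  rw [map_sub, map_map Y (cL B), ← cL_nat, ← map_map, map_map Y (eL B), ← eL_nat, ← map_map, e, h0,
    map_zero, sub_zero]

theorem Step_abs (i : Y ⟶ N) (r : N ⟶ Y) (i' : Y' ⟶ N') (r' : N' ⟶ Y') (σ : Y ⟶ lauF A ⋙ Y')
    (τ : N ⟶ lauF A ⋙ N') (e : N' ⟶ N') (h1 : i ≫ r = 𝟙 _) (h2 : i' ≫ r' = 𝟙 _)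
    (h3 : σ ≫ Functor.whiskerLeft (lauF A) i' = i ≫ τ)
    (h4 : r ≫ σ = τ ≫ Functor.whiskerLeft (lauF A) r') (h5 : τ ≫ eLau N' = 0) (h6 : i' ≫ e = 0)
    (t : ∀ B, N.obj B → N'.obj ((lauF A).obj B)) (ht : ∀ B x, τ.app B x = t B x)
    (hI : ∀ (B : Alg A) (ι : Type) [Finite ι] (T : ι → Alg A) (ψ : ∀ j, B ⟶ T j) (x : N.obj B)
      (h : N'.obj ((lauF A).obj ((polyF A).obj B))),
      (∀ j, N'.map ((lauF A).map ((polyF A).map (ψ j))) h = 0) →
      N'.map ((lauF A).map ((cyl A).i1 B)) h = 0 →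
      N'.map ((lauF A).map ((cyl A).i0 B)) h = t B x →
      ∃ h0 : N.obj ((polyF A).obj B), (∀ j, N.map ((polyF A).map (ψ j)) h0 = 0) ∧
        N.map ((cyl A).i1 B) h0 = 0 ∧ N.map ((cyl A).i0 B) h0 = x)
    (hS : ∀ (B : Alg A) (ι : Type) [Finite ι] (T : ι → Alg A) (ψ : ∀ j, B ⟶ T j)
      (x' : N'.obj ((lauF A).obj B)), (∀ j, N'.map ((lauF A).map (ψ j)) x' = 0) →
      N'.map (eL B) x' = 0 → e.app _ x' = 0 →
      ∃ (x : N.obj B) (h : N'.obj ((lauF A).obj ((polyF A).obj B))),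
        (∀ j, N.map (ψ j) x = 0) ∧ (∀ j, N'.map ((lauF A).map ((polyF A).map (ψ j))) h = 0) ∧
        N'.map ((lauF A).map ((cyl A).i1 B)) h = 0 ∧
        N'.map ((lauF A).map ((cyl A).i0 B)) h = x' - t B x) :
    ∃ f : Y ⟶ (kerS (eLau Y')).fn, f ≫ (kerS _).ι = σ ∧ (cyl A).PiEq (fun _ => True) f := by
  have a1 : ∀ B x, r.app B (i.app B x) = x := fun B x => Lax_apply_of_eq h1 B x
  have a2 : ∀ B x, r'.app B (i'.app B x) = x := fun B x => Lax_apply_of_eq h2 B x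
  have a3 : ∀ B x, i'.app ((lauF A).obj B) (σ.app B x) = t B (i.app B x) :=
    fun B x => (Lax_apply_of_eq h3 B x).trans (ht B _)
  have a4 : ∀ B x, r'.app ((lauF A).obj B) (t B x) = σ.app B (r.app B x) :=
    fun B x => ht B x ▸ Lax_apply_of_eq h4.symm B x
  have a5 : ∀ B x, N'.map (eL B) (t B x) = 0 := fun B x => ht B x ▸ Lax_apply_of_eq h5 B x
  have a6 : ∀ B x, e.app B (i'.app B x) = 0 := fun B x => Lax_apply_of_eq h6 B x
  have a7 : ∀ {B C : Alg A} (g : B ⟶ C) (k : (kerS (eLau Y')).fn.obj B),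
      N'.map ((lauF A).map g) (i'.app _ ((kerS (eLau Y')).ι.app B k)) =
        i'.app _ ((kerS (eLau Y')).ι.app C ((kerS (eLau Y')).fn.map g k)) :=
    fun g k => (nat_apply i' _ _).symm
  have hσ : ∀ B x, σ.app B x ∈ (kerS (eLau Y')).N B := fun B x => by
    change Y'.map (eL B) (σ.app B x) = 0
    rw [← a2 B (Y'.map _ _), nat_apply, a3, a5, map_zero]
  refine ⟨(kerS _).lift σ hσ, rfl, CylD.PiEq.of_cond ?_ ?_⟩
  · intro B ι _ T ψ x' hx
    have b0 : Y'.map (eL B) ((kerS (eLau Y')).ι.app B x') = 0 := (kerS (eLau Y')).ι_mem B x'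
    obtain ⟨x, h, b1, b2, b3, b4⟩ := hS B ι T ψ (i'.app _ ((kerS (eLau Y')).ι.app B x'))
      (fun j => by rw [a7, hx j, map_zero, map_zero]) (by rw [← nat_apply, b0, map_zero]) (a6 _ _)
    obtain ⟨k, hk⟩ := Step_proj Y' ((polyF A).obj B) (r'.app _ h)
    refine ⟨r.app B x, k, fun j => ?_, fun j => hk _ _ _ ?_, hk _ _ _ ?_, hk _ _ _ ?_⟩
    · rw [← nat_apply, b1 j, map_zero]
    · exact (nat_apply r' _ h).symm.trans ((congrArg _ (b2 j)).trans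
        ((map_zero _).trans (map_zero _).symm))
    · exact (nat_apply r' _ h).symm.trans ((congrArg _ b3).trans
        ((map_zero _).trans (map_zero _).symm))
    · refine (nat_apply r' _ h).symm.trans ((congrArg _ b4).trans ?_)
      rw [map_sub, map_sub, a2, a4]
      rfl
  · intro B ι _ T ψ x h b1 b2 b3
    obtain ⟨k, c1, c2, c3⟩ := hI B ι T ψ (i.app B x)
      (i'.app _ ((kerS (eLau Y')).ι.app ((polyF A).obj B) h))
      (fun j => (a7 _ h).trans ((congrArg (fun z => i'.app _ ((kerS (eLau Y')).ι.app _ z))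
        (b1 j)).trans (by rw [map_zero, map_zero])))
      ((a7 _ h).trans ((congrArg (fun z => i'.app _ ((kerS (eLau Y')).ι.app _ z)) b2).trans
        (by rw [map_zero, map_zero])))
      ((a7 _ h).trans ((congrArg (fun z => i'.app _ ((kerS (eLau Y')).ι.app _ z)) b3).trans
        (a3 B x)))
    exact ⟨r.app _ k, fun j => (nat_apply r _ k).symm.trans ((congrArg _ (c1 j)).trans (map_zero _)),
      (nat_apply r _ k).symm.trans ((congrArg _ c2).trans (map_zero _)),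
      (nat_apply r _ k).symm.trans ((congrArg _ c3).trans (a1 B x))⟩

theorem Step_ker (η : Y ⟶ Y') (hη : BijOn (fun _ => True) η) :
    ∃ κ : (kerS (eLau Y)).fn ⟶ (kerS (eLau Y')).fn,
      κ ≫ (kerS _).ι = (kerS _).ι ≫ Functor.whiskerLeft (lauF A) η ∧ BijOn (fun _ => True) κ := by
  refine ⟨(kerS _).lift ((kerS _).ι ≫ Functor.whiskerLeft (lauF A) η) fun B x => ?_, rfl,
    fun B _ => ⟨fun x y e => ?_, fun y => ?_⟩⟩
  · have b0 : Y.map (eL B) ((kerS (eLau Y)).ι.app B x) = 0 := (kerS (eLau Y)).ι_mem B x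
    exact (nat_apply η (eL B) _).symm.trans ((congrArg _ b0).trans (map_zero _))
  · exact (kerS (eLau Y)).ι_inj B ((hη ((lauF A).obj B) trivial).1
      (congrArg ((kerS (eLau Y')).ι.app B) e))
  · obtain ⟨x, hx⟩ := (hη ((lauF A).obj B) trivial).2 ((kerS (eLau Y')).ι.app B y)
    have b0 : Y'.map (eL B) ((kerS (eLau Y')).ι.app B y) = 0 := (kerS (eLau Y')).ι_mem B y
    obtain ⟨z, rfl⟩ := (kerS (eLau Y)).exists_ι (B := B) (x := x) ((hη B trivial).1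
      ((nat_apply η (eL B) x).trans ((congrArg _ hx).trans (b0.trans (map_zero _).symm))))
    exact ⟨z, (kerS (eLau Y')).ι_inj B hx⟩

theorem Step_th {π : A} (G : Germ π L) (i : Y ⟶ N) (i' : Y' ⟶ N') (σ : Y ⟶ lauF A ⋙ Y')
    (τ : N ⟶ lauF A ⋙ N') (h : σ ≫ Functor.whiskerLeft (lauF A) i' = i ≫ τ) :
    (G.Γ.map σ ≫ G.thL Y') ≫ Functor.whiskerLeft (lauF A) (G.Γ.map i') =
      G.Γ.map i ≫ G.Γ.map τ ≫ G.thL N' := by
  rw [Category.assoc, ← G.thL_nat, ← Category.assoc, ← G.Γ.map_comp, h, G.Γ.map_comp,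
    Category.assoc]

end abs

variable {A F : Type} [CommRing A] [Field F] {φ : A →+* F} {m : ℕ} {π π' : A}
  (hb : Bs π φ m) {R R' : Alg F} {P : RP F}

/-- The suspension of a correspondence. -/
def sg0 (R : Alg F) : MM φ m (Lm m) R ⟶ lauF A ⋙ MM φ m (Lm m) ((lauF F).obj R) :=
  MMhom φ m (Lm m) (lauF A)
    (fun B => (sig hb (gu_t B) 0 - sig hb (GU.one _) 0).comp (pullZ (cL B))) fun {B B'} g c => by
      change sig hb _ 0 _ - sig hb _ 0 _ = pullZ _ (sig hb _ 0 _ - sig hb _ 0 _)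
      rw [map_sub, pull_sig hb _ 0 _ (gu_t B') (lauMap_X g.1),
        pull_sig hb _ 0 _ (GU.one _) (map_one _), pullZ_pullZ, pullZ_pullZ, cL_nat]

theorem sg0_one (B : Alg A) (c : ZZ φ m B R) : (sg0 hb R).app B (one (Lm m) c) =
    one (Lm m) (sig hb (gu_t B) 0 (pullZ (cL B) c) - sig hb (GU.one _) 0 (pullZ (cL B) c)) := rfl

theorem push_sg0 (η : R' ⟶ R) : MMpush φ m (Lm m) η ≫ sg0 hb R' =
    sg0 hb R ≫ Functor.whiskerLeft (lauF A) (MMpush φ m (Lm m) ((lauF F).map η)) := by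
  refine fn_ext fun B x => ?_
  obtain ⟨c, rfl⟩ := one_surj x
  change one (Lm m) (sig hb (gu_t B) 0 (pullZ (cL B) (pushZ η c)) -
      sig hb (GU.one _) 0 (pullZ (cL B) (pushZ η c))) = one (Lm m) (pushZ ((lauF F).map η)
    (sig hb (gu_t B) 0 (pullZ (cL B) c) - sig hb (GU.one _) 0 (pullZ (cL B) c)))
  rw [map_sub (pushZ _), push_sig, push_sig, pullZ_pushZ]

theorem sg0_eT (R : Alg F) :
    sg0 hb R ≫ Functor.whiskerLeft (lauF A) (MMpush φ m (Lm m) (eT R)) = 0 := by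
  refine fn_ext fun B x => ?_
  obtain ⟨c, rfl⟩ := one_surj x
  change one (Lm m) (pushZ (eT R)
    (sig hb (gu_t B) 0 (pullZ (cL B) c) - sig hb (GU.one _) 0 (pullZ (cL B) c))) = 0
  rw [map_sub, eT_sig, eT_sig, sub_self, map_zero]

theorem sg0_eLau (R : Alg F) : sg0 hb R ≫ eLau _ = 0 := by
  refine fn_ext fun B x => ?_
  obtain ⟨c, rfl⟩ := one_surj x
  change one (Lm m) (pullZ (eL B)
    (sig hb (gu_t B) 0 (pullZ (cL B) c) - sig hb (GU.one _) 0 (pullZ (cL B) c))) = 0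
  rw [map_sub, pull_sig hb _ 0 _ (GU.one B) (lauE_X B.R), pull_sig hb _ 0 _ (GU.one B) (map_one _),
    sub_self, map_zero]

theorem Step_sig_congr {B : Alg A} {a a' : B.R} (ha : GU π a) (ha' : GU π a') (e : a = a') (k : ℕ)
    (c : ZZ φ m B R) : sig hb ha k c = sig hb ha' k c := by
  subst e
  rfl

theorem Γ_sg0 (G : Germ π' (Lm m)) (B : Alg A) (x : (NN φ m G R).obj B) :
    (G.Γ.map (sg0 hb R) ≫ G.thL _).app B x = sgG G hb B x := by
  obtain ⟨E, f, h, c, rfl⟩ := gm_surj G x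
  refine (congrArg ((G.thL _).app B) (G.app_mk (sg0 hb R) f h (one (Lm m) c))).trans
    ((G.thL_mk _ f h _).trans ?_)
  change gm G ((lauF A).map f) h.lauF
    (sig hb (gu_t E) 0 (pullZ (cL E) c) - sig hb (GU.one _) 0 (pullZ (cL E) c)) = _
  rw [sgG, map_gm G h h.lauF (cL B) (cL E) (cL_nat f), sigG_gm, sigG_gm, map_sub,
    Step_sig_congr hb _ (gu_t E) (lauMap_X f.1),
    Step_sig_congr hb ((GU.one _).map _) (GU.one _) (map_one _)]

omit hb in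
theorem Step_push_comp {R'' : Alg F} (k : R'' ⟶ R') (l : R' ⟶ R) :
    MMpush φ m (Lm m) l ≫ MMpush φ m (Lm m) k = MMpush φ m (Lm m) (k ≫ l) := by
  refine fn_ext fun B x => ?_
  obtain ⟨c, rfl⟩ := one_surj x
  exact congrArg (one (Lm m)) (pushZ_pushZ k l c)

omit hb in
theorem Step_ret (hP : P.Good) : ∃ r : MM φ m (Lm m) (rpA P) ⟶ Red φ m (Lm m) P,
    (RedS φ m (Lm m) P).ι ≫ r = 𝟙 _ ∧
    (∀ η : rpA P ⟶ rpA P, η.1 ∈ P.Fam → MMpush φ m (Lm m) η ≫ r = 0) ∧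
    ∀ (Z : Fn (Alg A) (Lm m)) (β : MM φ m (Lm m) (rpA P) ⟶ Z),
      (∀ η : rpA P ⟶ rpA P, η.1 ∈ P.Fam → MMpush φ m (Lm m) η ≫ β = 0) →
      r ≫ (RedS φ m (Lm m) P).ι ≫ β = β := by
  obtain ⟨r, h1, h2, h3⟩ := exists_proj
    {θ | ∃ η : rpA P ⟶ rpA P, η.1 ∈ P.Fam ∧ θ = MMpush φ m (Lm m) η}
    (((hP.fin.preimage (f := fun η : rpA P ⟶ rpA P => η.1) fun _ _ _ _ => Alg.hom_ext).image
      (MMpush φ m (Lm m))).subset (by
        rintro _ ⟨η, h, rfl⟩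
        exact ⟨η, h, rfl⟩))
    (by
      rintro _ ⟨η, h, rfl⟩
      rw [Step_push_comp, show η ≫ η = η from Alg.hom_ext (hP.idem _ h)])
    (by
      rintro _ ⟨η, h, rfl⟩ _ ⟨η', h', rfl⟩
      rw [Step_push_comp, Step_push_comp, show η' ≫ η = η ≫ η' from Alg.hom_ext (hP.comm _ h _ h')])
  refine ⟨r, h1, fun η h => h2 _ ⟨η, h, rfl⟩, fun Z β h => h3 Z β ?_⟩
  rintro _ ⟨η, h', rfl⟩
  exact h η h'

omit hb in
theorem Step_kill {η : rpA P ⟶ rpA P} (h : η.1 ∈ P.Fam) :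
    (RedS φ m (Lm m) P).ι ≫ MMpush φ m (Lm m) η = 0 :=
  fn_ext fun B x => (mem_kerSet _ B _).1 ((RedS φ m (Lm m) P).ι_mem B x) _ ⟨η, h, rfl⟩

/-- The suspension on the reduced parts, with the retractions (`exists_proj`; note that
`rpA P.step` is `(lauF F).obj (rpA P)` by definition). -/
theorem exists_sgP (hP : P.Good) :
    ∃ (s : Red φ m (Lm m) P ⟶ lauF A ⋙ Red φ m (Lm m) P.step)
      (r : MM φ m (Lm m) (rpA P) ⟶ Red φ m (Lm m) P)
      (r' : MM φ m (Lm m) (rpA P.step) ⟶ Red φ m (Lm m) P.step),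
      s ≫ Functor.whiskerLeft (lauF A) (RedS φ m (Lm m) P.step).ι =
        (RedS φ m (Lm m) P).ι ≫ sg0 hb (rpA P) ∧
      (RedS φ m (Lm m) P).ι ≫ r = 𝟙 _ ∧ (RedS φ m (Lm m) P.step).ι ≫ r' = 𝟙 _ ∧
      r ≫ s = sg0 hb (rpA P) ≫ Functor.whiskerLeft (lauF A) r' := by
  obtain ⟨r, h1, -, h3⟩ := Step_ret (φ := φ) (m := m) hP
  obtain ⟨r', h4, h5, -⟩ := Step_ret (φ := φ) (m := m) hP.step
  refine ⟨(RedS φ m (Lm m) P).ι ≫ sg0 hb (rpA P) ≫ Functor.whiskerLeft (lauF A) r', r, r',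
    fn_ext fun B x => ?_, h1, h4, h3 _ _ fun η h => ?_⟩
  · obtain ⟨y, hy⟩ := (RedS φ m (Lm m) P.step).exists_ι (B := (lauF A).obj B)
      (x := (sg0 hb (rpA P)).app B ((RedS φ m (Lm m) P).ι.app B x)) ((mem_kerSet _ _ _).2 (by
        rintro _ ⟨η, e | ⟨ψ, hψ, e⟩, rfl⟩
        · obtain rfl : η = eT (rpA P) := Alg.hom_ext e
          exact Lax_apply_of_eq (sg0_eT hb (rpA P)) B _
        · let η0 : rpA P ⟶ rpA P := ⟨ψ, hP.ov ψ hψ⟩
          obtain rfl : η = (lauF F).map η0 := Alg.hom_ext e.symm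
          exact (Lax_apply_of_eq (push_sg0 hb η0).symm B _).trans
            ((congrArg ((sg0 hb (rpA P)).app B) (Lax_apply_of_eq (Step_kill hψ) B x)).trans
              (map_zero _))))
    change (RedS φ m (Lm m) P.step).ι.app _ (r'.app _ ((sg0 hb (rpA P)).app B
      ((RedS φ m (Lm m) P).ι.app B x))) = (sg0 hb (rpA P)).app B ((RedS φ m (Lm m) P).ι.app B x)
    rw [← hy]
    exact congrArg _ (Lax_apply_of_eq h4 _ y)
  · rw [← Category.assoc, push_sg0, Category.assoc, ← Functor.whiskerLeft_comp]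
    exact (congrArg (fun t => sg0 hb (rpA P) ≫ Functor.whiskerLeft (lauF A) t)
      (h5 ((lauF F).map η) (Or.inr ⟨η.1, h, rfl⟩))).trans
      (fn_ext fun B x => rfl)

theorem Step_gen (hπ : π' = π ∨ π' = 0) (G : Germ π' (Lm m)) (hR : R.s.FiniteType)
    {Y Y' : Fn (Alg A) (Lm m)} (i : Y ⟶ MM φ m (Lm m) R) (r : MM φ m (Lm m) R ⟶ Y)
    (i' : Y' ⟶ MM φ m (Lm m) ((lauF F).obj R)) (r' : MM φ m (Lm m) ((lauF F).obj R) ⟶ Y')
    (s : Y ⟶ lauF A ⋙ Y') (h1 : i ≫ r = 𝟙 _) (h2 : i' ≫ r' = 𝟙 _)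
    (h3 : s ≫ Functor.whiskerLeft (lauF A) i' = i ≫ sg0 hb R)
    (h4 : r ≫ s = sg0 hb R ≫ Functor.whiskerLeft (lauF A) r')
    (h5 : i' ≫ MMpush φ m (Lm m) (eT R) = 0) :
    ∃ f : G.Γ.obj Y ⟶ (kerS (eLau (G.Γ.obj Y'))).fn,
      f ≫ (kerS _).ι = G.Γ.map s ≫ G.thL _ ∧ (cyl A).PiEq (fun _ => True) f := by
  refine Step_abs (G.Γ.map i) (G.Γ.map r) (G.Γ.map i') (G.Γ.map r') _
    (G.Γ.map (sg0 hb R) ≫ G.thL _) (G.Γ.map (MMpush φ m (Lm m) (eT R))) ?_ ?_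
    (Step_th G i i' s _ h3) (Step_th G r r' _ s h4.symm).symm ?_ ?_ (sgG G hb) (Γ_sg0 hb G)
    (fun B ι _ T ψ => cond_I0 G hb hπ hR B T ψ) fun B ι _ T ψ => cond_S0 G hb hπ hR B T ψ
  · rw [← G.Γ.map_comp, h1, G.Γ.map_id]
  · rw [← G.Γ.map_comp, h2, G.Γ.map_id]
  · rw [Category.assoc, G.thL_eLau, ← G.Γ.map_comp, sg0_eLau, G.Γ.map_zero]
  · rw [← G.Γ.map_comp, h5, G.Γ.map_zero]

variable {s : Red φ m (Lm m) P ⟶ lauF A ⋙ Red φ m (Lm m) P.step}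
  (hs : s ≫ Functor.whiskerLeft (lauF A) (RedS φ m (Lm m) P.step).ι =
    (RedS φ m (Lm m) P).ι ≫ sg0 hb (rpA P)) (hP : P.Good)

include hs hP

/-- `PiEq.of_cond`.  For `CondI` and `CondS` push the data to `NN` by `Γ ι`, apply `cond_I0`,
`cond_S0`, return by `Γ r`, `Γ r'` and replace `h` by `h - c e h` (`s` is unique, so it is the `s` of
`exists_sgP`). -/
theorem sus_germ (hπ : π' = π ∨ π' = 0) (G : Germ π' (Lm m)) :
    ∃ f : G.Γ.obj (Red φ m (Lm m) P) ⟶ (kerS (eLau (G.Γ.obj (Red φ m (Lm m) P.step)))).fn,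
      f ≫ (kerS _).ι = G.Γ.map s ≫ G.thL _ ∧ (cyl A).PiEq (fun _ => True) f := by
  obtain ⟨s', r, r', h1, h2, h3, h4⟩ := exists_sgP hb hP
  obtain rfl : s = s' := fn_ext fun B x =>
    (RedS φ m (Lm m) P.step).ι_inj _ ((Lax_apply_of_eq hs B x).trans (Lax_apply_of_eq h1 B x).symm)
  exact Step_gen hb hπ G (R := rpA P) hP.ft (RedS φ m (Lm m) P).ι r (RedS φ m (Lm m) P.step).ι r' s
    h2 h3 hs h4 (Step_kill (P := P.step) (η := eT (rpA P)) (Or.inl rfl))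

/-- `sus_germ` for `π' = 0`, `η_bij`, `PiEq.of_bijOn`, `PiEq.cancel_right`. -/
theorem sus_glob :
    ∃ f : Red φ m (Lm m) P ⟶ (kerS (eLau (Red φ m (Lm m) P.step))).fn,
      f ≫ (kerS _).ι = s ∧ (cyl A).PiEq (fun _ => True) f := by
  obtain ⟨G⟩ := exists_germ (0 : A) (Lm m)
  obtain ⟨g, h1, h2⟩ := sus_germ hb hs hP (Or.inr rfl) G
  obtain ⟨κ, h3, h4⟩ := Step_ker (G.η (Red φ m (Lm m) P.step)) (G.η_bij _)
  have h5 : ∀ B x, s.app B x ∈ (kerS (eLau (Red φ m (Lm m) P.step))).N B := fun B x =>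
    (RedS φ m (Lm m) P.step).ι_inj B ((nat_apply (RedS φ m (Lm m) P.step).ι (eL B) _).trans
      ((congrArg _ (Lax_apply_of_eq hs B x)).trans
        ((Lax_apply_of_eq (sg0_eLau hb (rpA P)) B _).trans (map_zero _).symm)))
  refine ⟨(kerS _).lift s h5, rfl, CylD.PiEq.cancel_right (CylD.PiEq.of_bijOn CylD.stab_top h4) ?_⟩
  have h6 : ((kerS _).lift s h5 ≫ κ) ≫ (kerS _).ι = (G.η _ ≫ g) ≫ (kerS _).ι := by
    rw [Category.assoc, h3, Category.assoc, h1, ← Category.assoc, SubF.lift_ι, ← Category.assoc,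
      ← G.η_nat, Category.assoc, G.η_thL]
  rw [show (kerS _).lift s h5 ≫ κ = G.η _ ≫ g from
    fn_ext fun B x => SubF.ι_inj _ B (congrArg (fun t => t.app B x) h6)]
  exact (CylD.PiEq.of_bijOn CylD.stab_top (G.η_bij _)).comp h2

end Pool.Agent.KEW.L8
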