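import Pool.Agent.P.MP_6277db_ag.KEW.L8a.Ann

/-!
KEW project, layer L8a: the finite model of the divisor `a^2 - c_s a + x y`,
`c_s = (1 - s)(x + y) + s (1 + x y)`.
-/

set_option backward.isDefEq.respectTransparency false

noncomputable section

open CategoryTheory Polynomial

namespace Pool.Agent.KEW.L8

open _root_.KEW

section quad

variable {R S : Type} [CommRing R] [CommRing S]

theorem Sw_monic (c d : R) : (X ^ 2 - C c * X + C d : R[X]).Monic := by
  nontriviality R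
  monicity!

theorem Sw_eval (c d : R) (f : R →+* S) (a : S) :
    (X ^ 2 - C c * X + C d : R[X]).eval₂ f a = a ^ 2 - f c * a + f d := by
  simp [eval₂_sub]

theorem Sw_root {c d : R} {P : R[X]} (hP : P = X ^ 2 - C c * X + C d) :
    AdjoinRoot.root P ^ 2 - AdjoinRoot.of P c * AdjoinRoot.root P + AdjoinRoot.of P d = 0 := by
  have h := AdjoinRoot.eval₂_root P
  rw [← Sw_eval, ← hP]
  exact h

theorem Sw_span {c d : R} {P : R[X]} (hP : P = X ^ 2 - C c * X + C d) (z : AdjoinRoot P) :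
    ∃ r0 r1 : R, z = AdjoinRoot.of P r0 + AdjoinRoot.of P r1 * AdjoinRoot.root P := by
  induction z using AdjoinRoot.induction_on with
  | ih p =>
  induction p using Polynomial.induction_on with
  | C a => exact ⟨a, 0, by simp⟩
  | add p q hp hq =>
    obtain ⟨a, b, hp⟩ := hp
    obtain ⟨a', b', hq⟩ := hq
    exact ⟨a + a', b + b', by rw [map_add, hp, hq, map_add, map_add]; ring⟩
  | monomial n a h =>
    obtain ⟨r0, r1, h⟩ := h
    refine ⟨-(r1 * d), r0 + r1 * c, ?_⟩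
    rw [pow_succ, ← mul_assoc, map_mul, h, AdjoinRoot.mk_X, map_neg, map_mul, map_add, map_mul]
    linear_combination AdjoinRoot.of P r1 * Sw_root hP

theorem Sw_indep {c d : R} {P : R[X]} (hP : P = X ^ 2 - C c * X + C d) {r0 r1 : R}
    (h : AdjoinRoot.of P r0 + AdjoinRoot.of P r1 * AdjoinRoot.root P = 0) : r0 = 0 ∧ r1 = 0 := by
  nontriviality R
  have h1 : P ∣ C r1 * X + C r0 := by
    rw [← AdjoinRoot.mk_eq_zero, map_add, map_mul, AdjoinRoot.mk_X, add_comm]
    exact h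
  have h2 : C r1 * X + C r0 = 0 := by
    by_contra h0
    refine (hP ▸ Sw_monic c d).not_dvd_of_degree_lt h0 ?_ h1
    have : P.degree = 2 := by
      rw [hP]
      compute_degree!
    rw [this]
    exact degree_linear_lt
  exact ⟨by simpa using congrArg (coeff · 0) h2, by simpa using congrArg (coeff · 1) h2⟩

theorem Sw_finite (φ : R →+* S) (W : Subring S) {s : Set S} (hs : s.Finite)
    (hW : W = Subring.closure (Set.range φ ∪ s)) (hi : ∀ y ∈ s, φ.IsIntegralElem y)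
    (h : ∀ q, φ q ∈ W) : (φ.codRestrict W h).Finite := by
  let _ := φ.toAlgebra
  have h1 : Module.Finite R (Algebra.adjoin R s) :=
    Algebra.finite_adjoin_of_finite_of_isIntegral hs hi
  have h2 : W = (Algebra.adjoin R s).toSubring := hW.trans (Algebra.adjoin_eq_ring_closure s).symm
  subst h2
  exact h1

/-- The valuative estimate. -/
theorem Sw_val {K : Type} [Field K] (O : ValuationSubring K) {p s x y a : K} {N : ℕ} (hs : s ∈ O)
    (hx : x ∈ O) (hx' : x⁻¹ ∈ O) (hx0 : x ≠ 0) (hy0 : y ≠ 0)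
    (hp : ∀ b : ℤ, |b| ≤ (2 * N + 1 : ℕ) + 1 → p * y ^ b ∈ O)
    (ha : a ^ 2 - ((1 - s) * (x + y) + s * (1 + x * y)) * a + x * y = 0) {b : ℤ}
    (hb : |b| ≤ N + 1) : p * a ^ b ∈ O := by
  set v := O.valuation with hv
  have mem : ∀ z : K, z ∈ O ↔ v z ≤ 1 := fun z => (O.valuation_le_one_iff z).symm
  set r := max (v y) (v y⁻¹) with hr
  have hvx : v x ≤ 1 := (mem x).1 hx
  have hyr : v y ≤ r := le_max_left _ _
  have hyr' : v y⁻¹ ≤ r := le_max_right _ _
  have h1r : 1 ≤ r := by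
    rcases O.mem_or_inv_mem y with h | h
    · refine le_trans ?_ hyr'
      rw [map_inv₀]
      exact (one_le_inv₀ (zero_lt_iff.2 ((map_ne_zero v).2 hy0))).2 ((mem y).1 h)
    · refine le_trans ?_ hyr
      have := (mem _).1 h
      rw [map_inv₀] at this
      exact (inv_le_one₀ (zero_lt_iff.2 ((map_ne_zero v).2 hy0))).1 this
  have hxy : v (x * y) ≤ r := by
    rw [map_mul]
    exact (mul_le_of_le_one_left' hvx).trans hyr
  set c := (1 - s) * (x + y) + s * (1 + x * y) with hc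
  have hcr : v c ≤ r := by
    refine v.map_add_le ?_ ?_
    · rw [map_mul]
      exact (mul_le_of_le_one_left' ((mem _).1 (sub_mem (one_mem O) hs))).trans
        (v.map_add_le (hvx.trans h1r) hyr)
    · rw [map_mul]
      exact (mul_le_of_le_one_left' ((mem _).1 hs)).trans
        (v.map_add_le (by rw [map_one]; exact h1r) hxy)
  have har : v a ≤ r := by
    by_contra hlt
    rw [not_le] at hlt
    have h0 : 0 < v a := (zero_lt_one.trans_le h1r).trans hlt
    have e : a * a = c * a - x * y := by linear_combination ha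
    have h2 : v (a * a) < v a * v a := by
      rw [e]
      refine v.map_sub_lt ?_ ?_
      · rw [map_mul]
        exact mul_lt_mul_of_pos_right (hcr.trans_lt hlt) h0
      · exact (hxy.trans_lt hlt).trans_le (le_mul_of_one_le_right' (h1r.trans hlt.le))
    rw [map_mul] at h2
    exact lt_irrefl _ h2
  have ha0 : a ≠ 0 := fun h => by
    rw [h] at ha
    exact mul_ne_zero hx0 hy0 (by simpa using ha)
  have har' : v a⁻¹ ≤ r ^ 2 := by
    have e : a⁻¹ = x⁻¹ * ((c - a) * y⁻¹) := by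
      field_simp
      linear_combination ha
    rw [e, map_mul, map_mul, sq]
    exact (mul_le_of_le_one_left' ((mem _).1 hx')).trans (mul_le_mul' (v.map_sub_le hcr har) hyr')
  have hpr : v p * r ^ (2 * N + 2) ≤ 1 := by
    rcases le_total (v y) (v y⁻¹) with h | h
    · have := (mem _).1 (hp (-(2 * N + 2 : ℕ)) (by rw [abs_neg]; push_cast; rw [abs_of_nonneg (by omega)]; omega))
      rwa [map_mul, zpow_neg, zpow_natCast, ← inv_pow, map_pow, ← max_eq_right h] at this
    · have := (mem _).1 (hp (2 * N + 2 : ℕ) (by push_cast; rw [abs_of_nonneg (by omega)]; omega))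
      rwa [map_mul, zpow_natCast, map_pow, ← max_eq_left h] at this
  rw [mem, map_mul]
  refine le_trans (mul_le_mul_right ?_ _) hpr
  obtain ⟨n, rfl | rfl⟩ := Int.eq_nat_or_neg b
  · rw [zpow_natCast, map_pow]
    rw [abs_of_nonneg (by omega)] at hb
    exact (pow_le_pow_left' har n).trans (pow_le_pow_right' h1r (by omega))
  · rw [zpow_neg, zpow_natCast, ← inv_pow, map_pow]
    rw [abs_neg, abs_of_nonneg (by omega)] at hb
    refine (pow_le_pow_left' har' n).trans ?_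
    rw [← pow_mul]
    exact pow_le_pow_right' h1r (by omega)

end quad

section ring

variable (R : Type) [CommRing R] {S : Type} [CommRing S]

/-- The element `s` of `R[s][x, 1/x][y, 1/y]`. -/
def ls : Lau (Lau R[X]) := lauC _ (lauC R[X] X)

/-- The element `x`. -/
def lx : Lau (Lau R[X]) := lauC _ (lauL R[X] X)

/-- The element `y`. -/
def ly : Lau (Lau R[X]) := lauL _ X

/-- The element `c_s`. -/
def lc : Lau (Lau R[X]) := (1 - ls R) * (lx R + ly R) + ls R * (1 + lx R * ly R)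

/-- The equation of `a`. -/
def lP : (Lau (Lau R[X]))[X] := X ^ 2 - C (lc R) * X + C (lx R * ly R)

/-- The constants. -/
def lk : R →+* Lau (Lau R[X]) := (lauC _).comp ((lauC _).comp C)

theorem isUnit_lxy : IsUnit (lx R * ly R) :=
  ((isUnit_lauL_X R[X]).map _).mul (isUnit_lauL_X _)

theorem la_eq : AdjoinRoot.root (lP R) ^ 2 - AdjoinRoot.of (lP R) (lc R) * AdjoinRoot.root (lP R) +
    AdjoinRoot.of (lP R) (lx R * ly R) = 0 := Sw_root rfl

theorem isUnit_la : IsUnit (AdjoinRoot.root (lP R)) :=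
  isUnit_of_mul_isUnit_left (y := AdjoinRoot.of (lP R) (lc R) - AdjoinRoot.root (lP R)) (by
    convert (isUnit_lxy R).map (AdjoinRoot.of (lP R)) using 1
    linear_combination -la_eq R)

variable {R}

theorem Sw_lauC (f : R →+* S) (r : R) : lauMap f (lauC R r) = lauC S (f r) :=
  RingHom.congr_fun (lauMap_lauC f) r

theorem Sw_lift_tU (f : R →+* S) {s : S} (hs : IsUnit s) (b : ℤ) :
    lauLift f s hs ((tU R ^ b : (Lau R)ˣ) : Lau R) = ((hs.unit ^ b : Sˣ) : S) := by
  have : Units.map (lauLift f s hs).toMonoidHom (tU R) = hs.unit := Units.ext (by simp)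
  rw [← this, ← map_zpow]
  rfl

theorem Sw_map_unit (f : R →+* S) {r : R} (hr : IsUnit r) {s : Sˣ} (h : f r = s) (b : ℤ) :
    f ((hr.unit ^ b : Rˣ) : R) = ((s ^ b : Sˣ) : S) := by
  have : Units.map f.toMonoidHom hr.unit = s := Units.ext h
  rw [← this, ← map_zpow]
  rfl

theorem lauMap2_ls (f : R[X] →+* S) : lauMap (lauMap f) (ls R) = lauC _ (lauC S (f X)) := by
  rw [ls, Sw_lauC, Sw_lauC]

theorem lauMap2_lx (f : R[X] →+* S) : lauMap (lauMap f) (lx R) = lauC _ (lauL S X) := by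
  rw [lx, Sw_lauC, lauMap_X]

theorem lauMap2_ly (f : R[X] →+* S) : lauMap (lauMap f) (ly R) = lauL _ X := by
  rw [ly, lauMap_X]

theorem lauMap2_lk (f : R[X] →+* S) (r : R) :
    lauMap (lauMap f) (lk R r) = lauC _ (lauC S (f (C r))) := by
  change lauMap (lauMap f) (lauC _ (lauC _ (C r))) = _
  rw [Sw_lauC, Sw_lauC]

end ring

variable {A : Type} [CommRing A] (π : A) (N : ℕ)

/-- The base `B[s][x, 1/x]`. -/
abbrev swT (B : Alg A) : Alg A := (lauF A).obj ((polyF A).obj B)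

/-- The model of the annulus with coordinate `y` over `B[s][x, 1/x]`. -/
abbrev swQ (B : Alg A) : Alg A := (RN π (2 * N + 1)).obj (swT B)

/-- The element `s`. -/
def swS (B : Alg A) : (swQ π N B).R := (rnC π _ (swT B)).1 (lauC B.R[X] X)

/-- The element `x`. -/
def swX (B : Alg A) : (swQ π N B).R := (rnC π _ (swT B)).1 (lauL B.R[X] X)

/-- The element `π c_s`, written with `u = π y`. -/
def swC (B : Alg A) : (swQ π N B).R :=
  (1 - swS π N B) * ((swQ π N B).s π * swX π N B + rnU π _ (swT B)) +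
    swS π N B * ((swQ π N B).s π + swX π N B * rnU π _ (swT B))

/-- The equation of `π a`. -/
def swP (B : Alg A) : (swQ π N B).R[X] :=
  X ^ 2 - C (swC π N B) * X + C ((swQ π N B).s π * swX π N B * rnU π _ (swT B))

/-- The model over `B[x, 1/x]`, target of the specialisations `s = 0` and `s = 1`. -/
abbrev swQ0 (B : Alg A) : Alg A := (RN π (2 * N + 1)).obj ((lauF A).obj B)

/-- The element `x` of `swQ0`. -/
def swX0 (B : Alg A) : (swQ0 π N B).R := (rnC π _ ((lauF A).obj B)).1 (lauL B.R X)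

/-- The finite models. -/
structure SwD where
  /-- the model -/
  D : Alg A → Alg A
  /-- the structure map -/
  δ : ∀ B, swQ π N B ⟶ D B
  /-- the element `π a` -/
  α : ∀ B, (D B).R
  /-- the map `t ↦ a` -/
  ψ : ∀ B, (RN π N).obj B ⟶ D B
  fin : ∀ B, (δ B).1.Finite
  trd : ∀ B, TrD π (δ B) (swP π N B) (α B)
  gu : ∀ B, GU π ((δ B).1 (swC π N B) - α B)
  nat : ∀ {B B' : Alg A} (g : B ⟶ B'), ∃ k : D B ⟶ D B',
    δ B ≫ k = (RN π _).map ((lauF A).map ((polyF A).map g)) ≫ δ B' ∧ k.1 (α B) = α B' ∧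
      ψ B ≫ k = (RN π N).map g ≫ ψ B'
  at0 : ∀ B, ∃ σ1 σ2 : D B ⟶ swQ0 π N B,
    δ B ≫ σ1 = (RN π _).map ((lauF A).map ((cyl A).i0 B)) ∧
    δ B ≫ σ2 = (RN π _).map ((lauF A).map ((cyl A).i0 B)) ∧
    σ1.1 (α B) = (swQ0 π N B).s π * swX0 π N B ∧ σ2.1 (α B) = rnU π _ ((lauF A).obj B) ∧
    ψ B ≫ σ1 = rnι π N B ≫ rnC π _ ((lauF A).obj B) ∧
    ψ B ≫ σ2 = rnT π (by omega : N ≤ 2 * N + 1) B ≫ (RN π _).map (cL B)
  at1 : ∀ B, ∃ σ1 σ2 : D B ⟶ swQ0 π N B,
    δ B ≫ σ1 = (RN π _).map ((lauF A).map ((cyl A).i1 B)) ∧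
    δ B ≫ σ2 = (RN π _).map ((lauF A).map ((cyl A).i1 B)) ∧
    σ1.1 (α B) = (swQ0 π N B).s π ∧ σ2.1 (α B) = swX0 π N B * rnU π _ ((lauF A).obj B) ∧
    ψ B ≫ σ1 = rnι π N B ≫ eL B ≫ cL B ≫ rnC π _ ((lauF A).obj B)


section model

variable (B : Alg A)

/-- The inclusion of `swQ` in the Laurent ring. -/
def swι : (swQ π N B).R →+* Lau (Lau B.R[X]) := (rnι π (2 * N + 1) (swT B)).1

theorem swι_inj : Function.Injective (swι π N B) := rnι_inj π _ _

theorem swι_S : swι π N B (swS π N B) = ls B.R := rfl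

theorem swι_X : swι π N B (swX π N B) = lx B.R := rfl

theorem swι_s (a : A) : swι π N B ((swQ π N B).s a) = lk B.R (B.s a) := rfl

theorem swι_U : swι π N B (rnU π _ (swT B)) = lk B.R (B.s π) * ly B.R := rnι_rnU π _ (swT B)

theorem swι_C : swι π N B (swC π N B) = lk B.R (B.s π) * lc B.R := by
  simp only [swC, map_add, map_mul, map_sub, map_one, swι_S, swι_X, swι_s, swι_U, lc]
  ring

theorem swX_isUnit (B : Alg A) : IsUnit (swX π N B) := (isUnit_lauL_X B.R[X]).map _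

theorem swX0_isUnit (B : Alg A) : IsUnit (swX0 π N B) := (isUnit_lauL_X B.R).map _

/-- The map from `swQ` to the ring of the divisor. -/
def swφ : (swQ π N B).R →+* AdjoinRoot (lP B.R) := (AdjoinRoot.of (lP B.R)).comp (swι π N B)

/-- The generators `π a^b`. -/
def swG (b : ℤ) : AdjoinRoot (lP B.R) :=
  AdjoinRoot.of (lP B.R) (lk B.R (B.s π)) * (((isUnit_la B.R).unit ^ b : (AdjoinRoot (lP B.R))ˣ) : _)

theorem exists_swW : ∃ W : A → ℕ → ∀ B : Alg A, Subring (AdjoinRoot (lP B.R)), ∀ π N B,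
    W π N B = Subring.closure (Set.range (swφ π N B) ∪ swG π B '' {b : ℤ | |b| ≤ N + 1}) :=
  ⟨_, fun _ _ _ => rfl⟩

/-- The finite model as a subring. -/
def swW : A → ℕ → ∀ B : Alg A, Subring (AdjoinRoot (lP B.R)) := exists_swW.choose

theorem swW_eq :
    swW π N B = Subring.closure (Set.range (swφ π N B) ∪ swG π B '' {b : ℤ | |b| ≤ N + 1}) :=
  exists_swW.choose_spec π N B

theorem swφ_mem (q : (swQ π N B).R) : swφ π N B q ∈ swW π N B := by
  rw [swW_eq]
  exact Subring.subset_closure (Or.inl ⟨q, rfl⟩)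

theorem swG_mem {b : ℤ} (hb : |b| ≤ N + 1) : swG π B b ∈ swW π N B := by
  rw [swW_eq]
  exact Subring.subset_closure (Or.inr ⟨b, hb, rfl⟩)

theorem swG_one : swG π B 1 =
    AdjoinRoot.of (lP B.R) (lk B.R (B.s π)) * AdjoinRoot.root (lP B.R) := by
  rw [swG, zpow_one, IsUnit.unit_spec]

theorem swG_integral {b : ℤ} (hb : |b| ≤ N + 1) : (swφ π N B).IsIntegralElem (swG π B b) := by
  refine isIntegralElem_of_val _ _ fun K _ O z hz => ?_
  let w := z.comp (AdjoinRoot.of (lP B.R))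
  have hu := (isUnit_lxy B.R).map w
  rw [map_mul, IsUnit.mul_iff] at hu
  have ha := congrArg z (la_eq B.R)
  rw [swG, map_mul, Sw_map_unit z (isUnit_la B.R) (s := ((isUnit_la B.R).map z).unit) rfl,
    Units.val_zpow_eq_zpow_val]
  refine Sw_val O (s := w (ls B.R)) (x := w (lx B.R)) (y := w (ly B.R)) (N := N)
    (hz (swS π N B)) (hz (swX π N B)) ?_ hu.1.ne_zero hu.2.ne_zero (fun b hb => ?_) ?_ hb
  · obtain ⟨x', hx'⟩ := (swX_isUnit π N B).exists_right_inv
    have h1 := congrArg (z.comp (swφ π N B)) hx'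
    rw [map_mul, map_one] at h1
    exact inv_eq_of_mul_eq_one_right (show w (lx B.R) * z (swφ π N B x') = 1 from h1) ▸ hz x'
  · have h1 := hz (rnG π (2 * N + 1) (swT B) b hb)
    change w (lk B.R (B.s π) * ((tU (Lau B.R[X]) ^ b : (Lau (Lau B.R[X]))ˣ) : _)) ∈ O at h1
    rwa [map_mul, tU, Sw_map_unit w _ (s := hu.2.unit) rfl, Units.val_zpow_eq_zpow_val] at h1
  · simp only [lc, map_add, map_mul, map_sub, map_one, map_pow, map_zero] at ha
    exact ha

/-- The finite model. -/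
def swD : Alg A := (swQ π N B).under ((swφ π N B).codRestrict (swW π N B) (swφ_mem π N B))

/-- The structure map. -/
def swδ : swQ π N B ⟶ swD π N B := (swQ π N B).toUnder _

/-- The inclusion of the model. -/
def swj : (swD π N B).R →+* AdjoinRoot (lP B.R) := (swW π N B).subtype

theorem swj_inj : Function.Injective (swj π N B) := Subtype.val_injective

theorem swj_δ (q : (swQ π N B).R) :
    swj π N B ((swδ π N B).1 q) = AdjoinRoot.of (lP B.R) (swι π N B q) := rfl

theorem swj_s (a : A) : swj π N B ((swD π N B).s a) = AdjoinRoot.of (lP B.R) (lk B.R (B.s a)) := rfl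

/-- The element `π a`. -/
def swα : (swD π N B).R := ⟨swG π B 1, swG_mem π N B (by simp)⟩

theorem swj_α : swj π N B (swα π N B) =
    AdjoinRoot.of (lP B.R) (lk B.R (B.s π)) * AdjoinRoot.root (lP B.R) := swG_one π B

/-- The map `t ↦ a`. -/
def swΨ : Lau B.R →+* AdjoinRoot (lP B.R) :=
  lauLift ((AdjoinRoot.of (lP B.R)).comp (lk B.R)) _ (isUnit_la B.R)

theorem swΨ_mem {z : Lau B.R} (hz : z ∈ rnS π N B) : swΨ B z ∈ swW π N B := by
  rw [rnS_eq] at hz
  refine (Subring.closure_le (t := (swW π N B).comap (swΨ B))).2 ?_ hz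
  rintro _ (⟨x, rfl⟩ | ⟨b, hb, rfl⟩)
  · change swΨ B _ ∈ swW π N B
    rw [swΨ, lauLift_lauC]
    exact swφ_mem π N B ((rnC π _ (swT B)).1 (lauC B.R[X] (C x)))
  · change swΨ B _ ∈ swW π N B
    rw [swΨ, map_mul, lauLift_lauC, Sw_lift_tU]
    exact swG_mem π N B hb

/-- The map `t ↦ a` on the models. -/
def swψ : (RN π N).obj B ⟶ swD π N B :=
  ⟨(swΨ B).restrict (rnS π N B) (swW π N B) fun _ => swΨ_mem π N B,
    RingHom.ext fun a => swj_inj π N B ((lauLift_lauC _ _ (isUnit_la B.R) (B.s a)).trans (swj_s π N B a).symm)⟩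

theorem swj_ψ (z : ((RN π N).obj B).R) :
    swj π N B ((swψ π N B).1 z) = swΨ B ((rnι π N B).1 z) := rfl

theorem sw_root : (swP π N B).eval₂ (swδ π N B).1 (swα π N B) = 0 := by
  apply swj_inj π N B
  rw [swP, Sw_eval]
  simp only [map_add, map_mul, map_sub, map_pow, map_zero, swj_δ, swj_α, swι_C, swι_s, swι_X, swι_U]
  have h := la_eq B.R
  rw [map_mul] at h
  linear_combination AdjoinRoot.of (lP B.R) (lk B.R (B.s π)) ^ 2 * h

theorem sw_trd : TrD π (swδ π N B) (swP π N B) (swα π N B) := by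
  have hl : ∀ q0 q1, swj π N B (AdjoinRoot.lift (swδ π N B).1 (swα π N B) (sw_root π N B)
      (AdjoinRoot.of _ q0 + AdjoinRoot.of _ q1 * AdjoinRoot.root _)) =
      AdjoinRoot.of (lP B.R) (swι π N B q0) + AdjoinRoot.of (lP B.R)
        (swι π N B ((swQ π N B).s π * q1)) * AdjoinRoot.root _ := fun q0 q1 => by
    simp only [map_add, map_mul, AdjoinRoot.lift_of, AdjoinRoot.lift_root, swj_δ, swj_α, swι_s]
    ring
  refine ⟨Sw_monic _ _, sw_root π N B, fun y => ?_, fun x hx => ?_⟩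
  · obtain ⟨l0, l1, h⟩ := Sw_span (P := lP B.R) rfl (swj π N B y)
    obtain ⟨n0, q0, h0⟩ := (rnι_PI π (2 * N + 1) (T := swT B)).surj l0
    obtain ⟨n1, q1, h1⟩ := (rnι_PI π (2 * N + 1) (T := swT B)).surj l1
    change lk B.R (B.s π) ^ n0 * l0 = swι π N B q0 at h0
    change lk B.R (B.s π) ^ n1 * l1 = swι π N B q1 at h1
    refine ⟨n0 + n1 + 1, AdjoinRoot.of _ ((swQ π N B).s π ^ (n1 + 1) * q0) +
      AdjoinRoot.of _ ((swQ π N B).s π ^ n0 * q1) * AdjoinRoot.root _, swj_inj π N B ?_⟩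
    rw [hl]
    simp only [map_mul, map_pow, AdjoinRoot.lift_of, swj_δ, swι_s, h, ← h0, ← h1]
    ring
  · obtain ⟨q0, q1, rfl⟩ := Sw_span (P := swP π N B) rfl x
    have h := congrArg (swj π N B) hx
    rw [hl, map_zero] at h
    obtain ⟨h0, h1⟩ := Sw_indep (P := lP B.R) rfl h
    have h0' : q0 = 0 := swι_inj π N B (h0.trans (map_zero _).symm)
    have h1' : (swQ π N B).s π * q1 = 0 := swι_inj π N B (h1.trans (map_zero _).symm)
    refine ⟨1, ?_⟩
    rw [h0', map_zero, zero_add, pow_one, ← mul_assoc, ← map_mul, h1', map_zero, zero_mul]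

theorem sw_gu : GU π ((swδ π N B).1 (swC π N B) - swα π N B) := by
  obtain ⟨x', hx'⟩ := (swX_isUnit π N B).exists_right_inv
  let y' := rnG π (2 * N + 1) (swT B) (-1) (by simp; omega)
  have h1 := congrArg (swφ π N B) hx'
  have h2 : ly B.R * swι π N B y' = lk B.R (B.s π) := by
    change ((tU (Lau B.R[X]) : (Lau (Lau B.R[X]))ˣ) : Lau (Lau B.R[X])) *
      (lk B.R (B.s π) * ((tU (Lau B.R[X]) ^ (-1 : ℤ) : (Lau (Lau B.R[X]))ˣ) : _)) = _
    rw [zpow_neg_one, mul_left_comm, Units.mul_inv, mul_one]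
  have h3 := congrArg (AdjoinRoot.of (lP B.R)) h2
  have h := la_eq B.R
  rw [map_mul] at h h3 h1
  rw [map_one] at h1
  change AdjoinRoot.of (lP B.R) (lx B.R) * AdjoinRoot.of (lP B.R) (swι π N B x') = 1 at h1
  refine ⟨swα π N B * (swδ π N B).1 (x' * y'), 3, swj_inj π N B ?_⟩
  simp only [map_mul, map_sub, map_pow, swj_δ, swj_α, swι_C, swj_s]
  linear_combination (-(AdjoinRoot.of (lP B.R) (lk B.R (B.s π)) ^ 2 *
      AdjoinRoot.of (lP B.R) (swι π N B x') * AdjoinRoot.of (lP B.R) (swι π N B y'))) * h +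
    AdjoinRoot.of (lP B.R) (lk B.R (B.s π)) ^ 2 * AdjoinRoot.of (lP B.R) (ly B.R) *
      AdjoinRoot.of (lP B.R) (swι π N B y') * h1 + AdjoinRoot.of (lP B.R) (lk B.R (B.s π)) ^ 2 * h3

variable {π N B}

/-- Maps out of the model. -/
theorem sw_lift {Y : Alg A} {Z : Type} [CommRing Z] (j : Y.R →+* Z) (hj : Function.Injective j)
    (θ : Lau (Lau B.R[X]) →+* Z) (r : Zˣ) (hr : (r : Z) ^ 2 - θ (lc B.R) * r + θ (lx B.R * ly B.R) = 0)
    (τ : swQ π N B ⟶ Y) (hτ : ∀ q, j (τ.1 q) = θ (swι π N B q))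
    (hb : ∀ b : ℤ, |b| ≤ N + 1 → ∃ y, j y = θ (lk B.R (B.s π)) * ((r ^ b : Zˣ) : Z)) :
    ∃ σ : swD π N B ⟶ Y, swδ π N B ≫ σ = τ ∧ j (σ.1 (swα π N B)) = θ (lk B.R (B.s π)) * r ∧
      ∀ κ : (RN π N).obj B ⟶ Y, ∀ μ : Lau B.R →+* Z, (∀ x, μ (lauC B.R x) = θ (lk B.R x)) →
        μ (lauL B.R X) = r → (∀ z, j (κ.1 z) = μ ((rnι π N B).1 z)) → swψ π N B ≫ σ = κ := by
  let Θ : AdjoinRoot (lP B.R) →+* Z := AdjoinRoot.lift θ r ((Sw_eval _ _ _ _).trans hr)
  have hΘ : ∀ l, Θ (AdjoinRoot.of _ l) = θ l := fun l => AdjoinRoot.lift_of _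
  have hΘ' : Θ (AdjoinRoot.root _) = r := AdjoinRoot.lift_root _
  have hm : ∀ w ∈ swW π N B, Θ w ∈ j.range := by
    rw [swW_eq]
    refine fun w hw => (Subring.closure_le (t := j.range.comap Θ)).2 ?_ hw
    rintro _ (⟨q, rfl⟩ | ⟨b, hb', rfl⟩)
    · exact ⟨τ.1 q, (hτ q).trans (hΘ _).symm⟩
    · obtain ⟨y, hy⟩ := hb b hb'
      exact ⟨y, by rw [hy, swG, map_mul, hΘ, Sw_map_unit Θ _ hΘ']⟩
  let e : Y.R ≃+* j.range := RingEquiv.ofBijective j.rangeRestrict
    ⟨fun a b h => hj (congrArg Subtype.val h), j.rangeRestrict_surjective⟩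
  let σ : (swD π N B).R →+* Y.R := e.symm.toRingHom.comp (Θ.restrict (swW π N B) j.range hm)
  have hσ : ∀ w, j (σ w) = Θ (swj π N B w) := fun w =>
    congrArg Subtype.val (e.apply_symm_apply (Θ.restrict (swW π N B) j.range hm w))
  have h1 : ∀ q, σ ((swδ π N B).1 q) = τ.1 q := fun q => hj (by rw [hσ, swj_δ, hΘ, hτ])
  refine ⟨⟨σ, RingHom.ext fun a => (h1 ((swQ π N B).s a)).trans (Alg.map_s τ a)⟩,
    Alg.hom_ext (RingHom.ext h1), ?_, fun κ μ h2 h3 h4 => Alg.hom_ext (RingHom.ext fun z => hj ?_)⟩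
  · exact (hσ _).trans (by rw [swj_α, map_mul, hΘ, hΘ'])
  · have h5 : Θ.comp (swΨ B) = μ := lau_ext (RingHom.ext fun x => by
        simp only [RingHom.comp_apply, swΨ, lauLift_lauC, hΘ, h2])
      (by simp only [RingHom.comp_apply, swΨ, lauLift_lauL, eval₂_X, hΘ', h3])
    exact (hσ _).trans (by rw [swj_ψ, h4, ← h5]; rfl)

end model


end Pool.Agent.KEW.L8
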